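import Pool.Agent.H8.KZ.Ev
import Pool.Agent.H95.KM.DetTwo
import Pool.Agent.H71.DB.Form

/-!
# KZ, module RelS: stable triviality of a block diagonal idempotent matrix; block matrices

`MatEquiv e f : ∃ x y, x * y = e ∧ y * x = f`; `K0_blockDiagonal`, `blockDiagonal_idem` :
`Pool/Agent/H95/KM/DetTwo.lean`; `exists_stab` : `Stab.lean`; `Coc.Phi`, `Coc.phi_one_left` :
`Pool/Agent/H71/DB/Coc.lean`; `evL` : `Ev.lean`.

PROOFS.
* `exists_uv`: `∑ cls (H i) = ∑ cls 1`, both are classes of block diagonal matrices (`K0_blockDiagonal`,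
  `blockDiagonal_one`), `exists_stab`, `fromBlocks_one`.
* `XY_one`, `YX_one`: block multiplication (`fromBlocks_multiply`); `Y X = v (H ⊕ 1) u = v u v u`.
* `map_evL`: `lau_ext`, `evL_single`, `lau_single`, on monomials (`MonoidAlgebra.induction_linear`).
* `Phi_diag`: block sums; off diagonal entries are zero; `phi 1 1 = 0`.
-/

set_option autoImplicit false

open Matrix
open scoped LaurentPolynomial

universe u v w

namespace Pool.Agent.H8.KZ

open Pool.Agent.H71.FJ (K0 K0.cls)
open Pool.Agent.H95.KM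
open Pool.Agent.H71.DB (Coc comm_grp)
open Pool.Agent.H71.DO (grpUnit)

section uv

variable {A : Type u} [Ring A] {ι ν : Type} [Fintype ι] [DecidableEq ι] [Fintype ν] [DecidableEq ν]

theorem exists_uv (H : ι → Matrix ν ν A) (hH : ∀ i, H i * H i = H i)
    (h : ∑ i, (K0.cls (H i) (hH i) - K0.cls (1 : Matrix Unit Unit A) one_idem) = 0) :
    ∃ (a : ℕ) (u : Matrix ((ν × ι) ⊕ Fin a) ((Unit × ι) ⊕ Fin a) A)
      (v : Matrix ((Unit × ι) ⊕ Fin a) ((ν × ι) ⊕ Fin a) A),
      u * v = fromBlocks (blockDiagonal H) 0 0 1 ∧ v * u = 1 := by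
  have h1 : K0.cls (blockDiagonal H) (blockDiagonal_idem H hH) =
      K0.cls (blockDiagonal fun _ : ι => (1 : Matrix Unit Unit A))
        (blockDiagonal_idem _ fun _ => one_idem) := by
    rw [K0_blockDiagonal, K0_blockDiagonal]
    rw [Finset.sum_sub_distrib, sub_eq_zero] at h
    exact h
  obtain ⟨a, x, y, hxy, hyx⟩ := exists_stab _ _ _ _ h1
  refine ⟨a, x, y, hxy, ?_⟩
  rw [hyx]
  have h2 : (blockDiagonal fun _ : ι => (1 : Matrix Unit Unit A)) = 1 := blockDiagonal_one
  rw [h2, fromBlocks_one]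

variable {a : ℕ} {H : Matrix (ν × ι) (ν × ι) A}
  {u : Matrix ((ν × ι) ⊕ Fin a) ((Unit × ι) ⊕ Fin a) A}
  {v : Matrix ((Unit × ι) ⊕ Fin a) ((ν × ι) ⊕ Fin a) A}
  {X : Matrix (Unit × ι) (ν × ι) A} {Y : Matrix (ν × ι) (Unit × ι) A}

theorem XY_one (huv : u * v = fromBlocks H 0 0 1) (hXY : X * Y = 1) (hYX : Y * X = H) :
    (fromBlocks X 0 0 (1 : Matrix (Fin a) (Fin a) A) * u) *
      (v * fromBlocks Y 0 0 (1 : Matrix (Fin a) (Fin a) A)) = 1 := by
  have h1 : (fromBlocks X 0 0 (1 : Matrix (Fin a) (Fin a) A) * u) *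
      (v * fromBlocks Y 0 0 (1 : Matrix (Fin a) (Fin a) A)) =
      fromBlocks X 0 0 (1 : Matrix (Fin a) (Fin a) A) * (u * v) *
        fromBlocks Y 0 0 (1 : Matrix (Fin a) (Fin a) A) := by
    simp only [Matrix.mul_assoc]
  have h2 : X * H * Y = 1 := by
    rw [← hYX, ← Matrix.mul_assoc, hXY, Matrix.one_mul, hXY]
  rw [h1, huv, fromBlocks_multiply, fromBlocks_multiply]
  simp only [Matrix.mul_zero, Matrix.zero_mul, add_zero, zero_add, Matrix.mul_one, h2]
  exact fromBlocks_one

theorem YX_one (huv : u * v = fromBlocks H 0 0 1) (hvu : v * u = 1) (hYX : Y * X = H) :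
    (v * fromBlocks Y 0 0 (1 : Matrix (Fin a) (Fin a) A)) *
      (fromBlocks X 0 0 (1 : Matrix (Fin a) (Fin a) A) * u) = 1 := by
  have h1 : (v * fromBlocks Y 0 0 (1 : Matrix (Fin a) (Fin a) A)) *
      (fromBlocks X 0 0 (1 : Matrix (Fin a) (Fin a) A) * u) =
      v * (fromBlocks Y 0 0 (1 : Matrix (Fin a) (Fin a) A) *
        fromBlocks X 0 0 (1 : Matrix (Fin a) (Fin a) A)) * u := by
    simp only [Matrix.mul_assoc]
  have h2 : fromBlocks Y 0 0 (1 : Matrix (Fin a) (Fin a) A) *
      fromBlocks X 0 0 (1 : Matrix (Fin a) (Fin a) A) = u * v := by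
    rw [huv, fromBlocks_multiply]
    simp only [Matrix.mul_zero, Matrix.zero_mul, add_zero, zero_add, Matrix.mul_one, hYX]
  rw [h1, h2, ← Matrix.mul_assoc, hvu, Matrix.one_mul, hvu]

end uv

theorem map_evL {R S : Type} [CommRing R] [CommRing S] (j : R →+* S) {C : Type v} [Group C]
    {G : Type w} [Group G] (f : C →* G) (z : G) (h : ∀ a, f a * z = z * f a)
    (x : (MonoidAlgebra R C)[T;T⁻¹]) :
    MonoidAlgebra.mapRingHom G j
      (evL (MonoidAlgebra.mapDomainRingHom R f) (grpUnit R G z) (comm_grp R f z h) x) =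
      evL (MonoidAlgebra.mapDomainRingHom S f) (grpUnit S G z) (comm_grp S f z h)
        (lau (MonoidAlgebra.mapRingHom C j) x) := by
  have key : (MonoidAlgebra.mapRingHom G j).comp
      (evL (MonoidAlgebra.mapDomainRingHom R f) (grpUnit R G z) (comm_grp R f z h)) =
      (evL (MonoidAlgebra.mapDomainRingHom S f) (grpUnit S G z) (comm_grp S f z h)).comp
        (lau (MonoidAlgebra.mapRingHom C j)) := by
    apply lau_ext
    intro k r
    rw [RingHom.comp_apply, RingHom.comp_apply, lau_single, evL_single, evL_single, map_mul]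
    congr 1
    · induction r using MonoidAlgebra.induction_linear with
      | zero => simp
      | add a b ha hb => rw [map_add, map_add, ha, hb, map_add, map_add]
      | single c r =>
        change MonoidAlgebra.mapRingHom G j (MonoidAlgebra.mapDomain f
            (MonoidAlgebra.single c r)) =
          MonoidAlgebra.mapDomain f (MonoidAlgebra.mapRingHom C j (MonoidAlgebra.single c r))
        rw [MonoidAlgebra.mapDomain_single, MonoidAlgebra.mapRingHom_single,
          MonoidAlgebra.mapRingHom_single, MonoidAlgebra.mapDomain_single]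
    · rw [← map_zpow, ← map_zpow]
      change MonoidAlgebra.mapRingHom G j (MonoidAlgebra.single (z ^ k) 1) =
        MonoidAlgebra.single (z ^ k) 1
      rw [MonoidAlgebra.mapRingHom_single, map_one]
  exact congrArg (fun g : (MonoidAlgebra R C)[T;T⁻¹] →+* MonoidAlgebra S G => g x) key

theorem Phi_diag {G : Type v} [Group G] {S : Type u} [CommRing S] (l : Coc G S) {ι : Type}
    [Fintype ι] [DecidableEq ι] {a : ℕ} (d d' : ι → MonoidAlgebra S G) :
    l.Phi (fromBlocks (diagonal fun p : Unit × ι => d p.2) 0 0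
        (1 : Matrix (Fin a) (Fin a) (MonoidAlgebra S G)))
      (fromBlocks (diagonal fun p : Unit × ι => d' p.2) 0 0 1) = ∑ i, l.phi (d i) (d' i) := by
  rw [Coc.Phi, Fintype.sum_sum_type]
  have h1 : ∀ p : Unit × ι, (∑ q : (Unit × ι) ⊕ Fin a,
      l.phi (fromBlocks (diagonal fun p : Unit × ι => d p.2) 0 0
        (1 : Matrix (Fin a) (Fin a) (MonoidAlgebra S G)) (Sum.inl p) q)
        (fromBlocks (diagonal fun p : Unit × ι => d' p.2) 0 0
          (1 : Matrix (Fin a) (Fin a) (MonoidAlgebra S G)) q (Sum.inl p))) =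
      l.phi (d p.2) (d' p.2) := by
    intro p
    rw [Finset.sum_eq_single (Sum.inl p)]
    · rw [fromBlocks_apply₁₁, fromBlocks_apply₁₁, diagonal_apply_eq, diagonal_apply_eq]
    · rintro (q | q) _ hq
      · rw [fromBlocks_apply₁₁, diagonal_apply_ne _ (fun h => hq (by rw [h]))]
        simp
      · rw [fromBlocks_apply₁₂]
        simp
    · intro h
      exact absurd (Finset.mem_univ _) h
  have h2 : ∀ p : Fin a, (∑ q : (Unit × ι) ⊕ Fin a,
      l.phi (fromBlocks (diagonal fun p : Unit × ι => d p.2) 0 0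
        (1 : Matrix (Fin a) (Fin a) (MonoidAlgebra S G)) (Sum.inr p) q)
        (fromBlocks (diagonal fun p : Unit × ι => d' p.2) 0 0
          (1 : Matrix (Fin a) (Fin a) (MonoidAlgebra S G)) q (Sum.inr p))) = 0 := by
    intro p
    apply Finset.sum_eq_zero
    rintro (q | q) _
    · rw [fromBlocks_apply₂₁]
      simp
    · rw [fromBlocks_apply₂₂]
      by_cases hpq : p = q
      · subst hpq
        rw [one_apply_eq, l.phi_one_left]
      · rw [one_apply_ne hpq]
        simp
  simp only [h1, h2, Finset.sum_const_zero, add_zero]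
  rw [Fintype.sum_prod_type]
  simp

end Pool.Agent.H8.KZ
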