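import Pool.Agent.H95.KM.Theta

/-!
# KZ, module Gal: the action of the automorphisms of `O` on the classes `Θ(n)`

`Pool/Agent/H95/KM/ThetaDefs.lean` : `Amod O N = O / N`, `Pr O N` its maximal ideals, `kappa`,
`kappa_complete`, `kappa_notMem`, `kappa_mul`, `sum_kappa`, `unComp`, `un`, `cmp`, `cmp_un`, `cmp_ext`, `uN`,
`sqC`, `Theta`; `Sq.DD_map`, `SqHom` : `SqLau.lean`, `SqDefs.lean`; `fou` : `FouDefs.lean`.

PROOFS.
* `map_kappa`: for a complete family of orthogonal idempotents `f_m` (`m : Pr O N`) of `O / N` with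
  `f_m ∉ m` one has `f = kappa O N`: for `m ≠ m'` the element `f_m * kappa m'` is idempotent and lies in
  every maximal ideal (`f_m ∈ m''` for `m'' ≠ m` as `f_m f_m'' = 0` and `f_m'' ∉ m''`; likewise
  `kappa m' ∈ m` as `m ≠ m'`), so `1 - f_m kappa m'` is a unit and `f_m kappa m' = 0`.  Hence
  `f_m = f_m ∑ kappa m' = f_m kappa m = kappa m`.  Apply this to
  `f_m = aut (kappa (σ⁻¹ m))`.
* `Theta_gal`: the morphism of squares with the components `a = mapRingHom C σ`,
  `b : F ↦ (χ ↦ σ (F (σ⁻¹ ∘ χ)))`, `c : F ↦ (χ ↦ amodE σ N (F (σ⁻¹ ∘ χ)))` (the Fourier transform is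
  `fou x χ = ∑ x_c χ(c)`; `σ(fou x (σ⁻¹ ∘ χ)) = fou (σ x) χ`).  `mapU (lau c) (uN n) = uN (galN σ n)` by
  `cmp_ext`, `cmp_un`, `map_kappa`.  Model: `Theta_map`, `sqC_hom` in `Theta.lean`.
* `Theta_gal_ext`: `Km1.map_map`; `(mapRingHom C σ).comp (mapRingHom C (Int.castRingHom O)) =
  mapRingHom C (Int.castRingHom O)`.
* `mem_permPr`, `permPr_symm`, `permPr_trans`: definitions.
-/

set_option autoImplicit false

open Matrix
open scoped LaurentPolynomial

universe u v w

namespace Pool.Agent.H8.KZ

open Pool.Agent.H95.KM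

section perm

variable {O : Type} [CommRing O]

/-- The automorphism of `O / N` induced by an automorphism of `O`. -/
noncomputable def amodE (σ : O ≃+* O) (N : ℕ) : Amod O N ≃+* Amod O N :=
  Ideal.quotientEquiv (Ideal.span {(N : O)}) (Ideal.span {(N : O)}) σ (by
    rw [Ideal.map_span, Set.image_singleton]
    congr 2
    exact (map_natCast σ N).symm)

theorem amodE_mk (σ : O ≃+* O) (N : ℕ) (x : O) :
    amodE σ N (Ideal.Quotient.mk (Ideal.span {(N : O)}) x) =
      Ideal.Quotient.mk (Ideal.span {(N : O)}) (σ x) := rfl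

/-- The permutation of the maximal ideals of `O / N` given by an automorphism of `O`. -/
noncomputable def permPr (σ : O ≃+* O) (N : ℕ) : Pr O N ≃ Pr O N where
  toFun m := ⟨m.asIdeal.comap (amodE σ N).symm, by
    have := m.isMaximal
    exact Ideal.comap_isMaximal_of_equiv _⟩
  invFun m := ⟨m.asIdeal.comap (amodE σ N), by
    have := m.isMaximal
    exact Ideal.comap_isMaximal_of_equiv _⟩
  left_inv m := by
    apply MaximalSpectrum.ext
    ext x
    change (amodE σ N).symm (amodE σ N x) ∈ m.asIdeal ↔ x ∈ m.asIdeal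
    rw [RingEquiv.symm_apply_apply]
  right_inv m := by
    apply MaximalSpectrum.ext
    ext x
    change amodE σ N ((amodE σ N).symm x) ∈ m.asIdeal ↔ x ∈ m.asIdeal
    rw [RingEquiv.apply_symm_apply]

theorem mem_permPr (σ : O ≃+* O) (N : ℕ) (m : Pr O N) (x : Amod O N) :
    amodE σ N x ∈ (permPr σ N m).asIdeal ↔ x ∈ m.asIdeal := by
  change (amodE σ N).symm (amodE σ N x) ∈ m.asIdeal ↔ x ∈ m.asIdeal
  rw [RingEquiv.symm_apply_apply]

theorem mem_permPr_mk (σ : O ≃+* O) (N : ℕ) (m : Pr O N) (x : O) :
    Ideal.Quotient.mk (Ideal.span {(N : O)}) (σ x) ∈ (permPr σ N m).asIdeal ↔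
      Ideal.Quotient.mk (Ideal.span {(N : O)}) x ∈ m.asIdeal := by
  rw [← amodE_mk, mem_permPr]

theorem permPr_trans (σ τ : O ≃+* O) (N : ℕ) (m : Pr O N) :
    permPr (σ.trans τ) N m = permPr τ N (permPr σ N m) := by
  apply MaximalSpectrum.ext
  ext x
  obtain ⟨a, rfl⟩ := Ideal.Quotient.mk_surjective x
  have h1 : a = τ (σ (σ.symm (τ.symm a))) := by
    rw [RingEquiv.apply_symm_apply, RingEquiv.apply_symm_apply]
  rw [h1, mem_permPr_mk, mem_permPr_mk]
  exact mem_permPr_mk (σ.trans τ) N m (σ.symm (τ.symm a))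

theorem permPr_symm (σ : O ≃+* O) (N : ℕ) (m : Pr O N) :
    permPr σ.symm N m = (permPr σ N).symm m := by
  apply MaximalSpectrum.ext
  ext x
  obtain ⟨a, rfl⟩ := Ideal.Quotient.mk_surjective x
  have h1 := mem_permPr_mk σ.symm N m (σ a)
  rw [RingEquiv.symm_apply_apply] at h1
  exact h1

end perm

section gal

variable {O : Type} [CommRing O] {N : ℕ} [Finite (Amod O N)]

private theorem gal_unique {f : Pr O N → Amod O N} (hf : CompleteOrthogonalIdempotents f)
    (h : ∀ m, f m ∉ m.asIdeal) (m : Pr O N) : f m = kappa O N m := by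
  classical
  have key : ∀ m m' : Pr O N, m ≠ m' → f m * kappa O N m' = 0 := by
    intro m m' hmm
    have hk := kappa_complete O N
    have hid : (f m * kappa O N m') * (f m * kappa O N m') = f m * kappa O N m' := by
      calc (f m * kappa O N m') * (f m * kappa O N m')
          = (f m * f m) * (kappa O N m' * kappa O N m') := by ring
        _ = f m * kappa O N m' := by rw [(hf.idem m).eq, (hk.idem m').eq]
    have hall : ∀ m'' : Pr O N, f m * kappa O N m' ∈ m''.asIdeal := by
      intro m''
      have hp : m''.asIdeal.IsPrime := m''.isMaximal.isPrime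
      by_cases h1 : m'' = m
      · subst h1
        have h2 : kappa O N m' * kappa O N m'' ∈ m''.asIdeal := by
          rw [hk.ortho (Ne.symm hmm)]
          exact m''.asIdeal.zero_mem
        exact m''.asIdeal.mul_mem_left _
          ((hp.mem_or_mem h2).resolve_right (kappa_notMem O N m''))
      · have h2 : f m * f m'' ∈ m''.asIdeal := by
          rw [hf.ortho (Ne.symm h1)]
          exact m''.asIdeal.zero_mem
        exact m''.asIdeal.mul_mem_right _ ((hp.mem_or_mem h2).resolve_right (h m''))
    have hunit : IsUnit (1 - f m * kappa O N m') := by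
      apply isUnit_of_forall_notMem
      intro m'' h1
      have h2 := m''.asIdeal.add_mem h1 (hall m'')
      rw [sub_add_cancel] at h2
      exact m''.isMaximal.ne_top ((Ideal.eq_top_iff_one _).2 h2)
    have h3 : (1 - f m * kappa O N m') * (f m * kappa O N m') = 0 := by
      rw [sub_mul, one_mul, hid, sub_self]
    exact (hunit.mul_right_eq_zero).1 h3
  have e1 : f m = f m * kappa O N m := by
    calc f m = f m * ∑ m', kappa O N m' := by rw [sum_kappa, mul_one]
      _ = ∑ m', f m * kappa O N m' := Finset.mul_sum _ _ _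
      _ = f m * kappa O N m := Finset.sum_eq_single m
          (fun m' _ hm' => key m m' (Ne.symm hm')) fun h1 => absurd (Finset.mem_univ _) h1
  have e2 : kappa O N m = f m * kappa O N m := by
    calc kappa O N m = (∑ m', f m') * kappa O N m := by rw [hf.complete, one_mul]
      _ = ∑ m', f m' * kappa O N m := Finset.sum_mul _ _ _
      _ = f m * kappa O N m := Finset.sum_eq_single m
          (fun m' _ hm' => key m' m hm') fun h1 => absurd (Finset.mem_univ _) h1
  rw [e1, ← e2]

theorem map_kappa (σ : O ≃+* O) (m : Pr O N) :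
    amodE σ N (kappa O N m) = kappa O N (permPr σ N m) := by
  have hk := kappa_complete O N
  have hf : CompleteOrthogonalIdempotents
      fun m : Pr O N => amodE σ N (kappa O N ((permPr σ N).symm m)) := by
    refine ⟨⟨fun m => ?_, fun m m' hmm => ?_⟩, ?_⟩
    · change amodE σ N _ * amodE σ N _ = _
      rw [← map_mul, (hk.idem _).eq]
    · change amodE σ N _ * amodE σ N _ = 0
      rw [← map_mul, hk.ortho fun h1 => hmm ((permPr σ N).symm.injective h1), map_zero]
    · rw [← map_sum, Equiv.sum_comp (permPr σ N).symm (kappa O N), sum_kappa, map_one]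
  have h1 := gal_unique hf (fun m => ?_) (permPr σ N m)
  · simp only [Equiv.symm_apply_apply] at h1
    exact h1
  · have h2 := mem_permPr σ N ((permPr σ N).symm m) (kappa O N ((permPr σ N).symm m))
    rw [Equiv.apply_symm_apply] at h2
    rw [h2]
    exact kappa_notMem O N _

/-- The action of an automorphism of `O` on the functions `n`. -/
noncomputable def galN {O : Type} [CommRing O] (N : ℕ) {C : Type v} [Group C] (σ : O ≃+* O)
    (n : (C →* Oˣ) → Pr O N → ℤ) : (C →* Oˣ) → Pr O N → ℤ :=
  fun χ m => n ((Units.map (σ.symm : O →* O)).comp χ) ((permPr σ N).symm m)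

variable [IsDomain O] [CharZero O] [NeZero N] [HasEnoughRootsOfUnity O N]

omit [IsDomain O] [CharZero O] in
private theorem gal_fou {C : Type v} [Group C] (σ : O ≃+* O) (x : MonoidAlgebra O C)
    (χ : C →* Oˣ) : σ (fou (RingHom.id O) C x ((Units.map (σ.symm : O →* O)).comp χ)) =
      fou (RingHom.id O) C (MonoidAlgebra.mapRingHom C (σ : O →+* O) x) χ := by
  induction x using MonoidAlgebra.induction_linear with
  | zero => simp
  | add a b ha hb => rw [map_add, Pi.add_apply, map_add, ha, hb, map_add, map_add, Pi.add_apply]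
  | single c r =>
    rw [MonoidAlgebra.mapRingHom_single, fou_single, fou_single, map_mul]
    congr 1
    exact σ.apply_symm_apply _

/-- The morphism of squares given by an automorphism. -/
private noncomputable def gal_hom (C : Type v) [Group C] [Finite C]
    (hC : ∀ a b : C, a * b = b * a) (hN : Nat.card C ∣ N) (σ : O ≃+* O) :
    SqHom (sqC (RingHom.id O) N C hC hN) (sqC (RingHom.id O) N C hC hN) where
  a := MonoidAlgebra.mapRingHom C (σ : O →+* O)
  b := RingHom.pi fun χ => (σ : O →+* O).comp
    (Pi.evalRingHom (fun _ => O) ((Units.map (σ.symm : O →* O)).comp χ))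
  c := RingHom.pi fun χ => (amodE σ N : Amod O N →+* Amod O N).comp
    (Pi.evalRingHom (fun _ => Amod O N) ((Units.map (σ.symm : O →* O)).comp χ))
  hφ x := by
    funext χ
    exact gal_fou σ x χ
  hπ x := rfl

theorem Theta_gal (C : Type v) [Group C] [Finite C] (hC : ∀ a b : C, a * b = b * a)
    (hN : Nat.card C ∣ N) (σ : O ≃+* O) (n : (C →* Oˣ) → Pr O N → ℤ) :
    Km1.map (MonoidAlgebra.mapRingHom C (σ : O →+* O)) (Theta N C hC hN n) =
      Theta N C hC hN (galN N σ n) := by
  classical
  have := finite_dual (O := O) N hC hN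
  have h1 := Sq.DD_map (gal_hom C hC hN σ) (uN n)
  have h2 : mapU (lau (gal_hom (O := O) (N := N) C hC hN σ).c) (uN n) = uN (galN N σ n) := by
    apply Units.ext
    ext i j : 1
    change lau (gal_hom (O := O) (N := N) C hC hN σ).c (un n) = un (galN N σ n)
    apply cmp_ext
    intro χ
    have h3 : cmp χ (lau (gal_hom (O := O) (N := N) C hC hN σ).c (un n)) =
        lau (amodE σ N : Amod O N →+* Amod O N)
          (cmp ((Units.map (σ.symm : O →* O)).comp χ) (un n)) := by
      rw [Pool.Agent.H95.KM.cmp, Pool.Agent.H95.KM.cmp, ← RingHom.comp_apply,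
        ← RingHom.comp_apply, ← lau_comp, ← lau_comp]
      rfl
    rw [h3, cmp_un, cmp_un, unComp, unComp, map_sum]
    simp only [lau_single]
    rw [← Equiv.sum_comp (permPr σ N) fun m =>
      (AddMonoidAlgebra.single (galN N σ n χ m) (kappa O N m) : (Amod O N)[T;T⁻¹])]
    refine Finset.sum_congr rfl fun m _ => ?_
    change AddMonoidAlgebra.single _ (amodE σ N (kappa O N m)) = _
    rw [map_kappa]
    change _ = AddMonoidAlgebra.single
      (n ((Units.map (σ.symm : O →* O)).comp χ) ((permPr σ N).symm (permPr σ N m))) _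
    rw [Equiv.symm_apply_apply]
  rw [h2] at h1
  exact h1.symm

theorem Theta_gal_ext (C : Type v) [Group C] [Finite C] (hC : ∀ a b : C, a * b = b * a)
    (hN : Nat.card C ∣ N) (σ : O ≃+* O) (n : (C →* Oˣ) → Pr O N → ℤ) (x : Km1 (MonoidAlgebra ℤ C))
    (hx : Km1.map (MonoidAlgebra.mapRingHom C (Int.castRingHom O)) x = Theta N C hC hN n) :
    Km1.map (MonoidAlgebra.mapRingHom C (Int.castRingHom O)) x =
      Theta N C hC hN (galN N σ n) := by
  have h1 : MonoidAlgebra.mapRingHom C (Int.castRingHom O) =
      (MonoidAlgebra.mapRingHom C (σ : O →+* O)).comp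
        (MonoidAlgebra.mapRingHom C (Int.castRingHom O)) := by
    apply RingHom.ext
    intro z
    induction z using MonoidAlgebra.induction_linear with
    | zero => simp
    | add a b ha hb => rw [map_add, ha, hb, map_add]
    | single c r =>
      rw [RingHom.comp_apply, MonoidAlgebra.mapRingHom_single, MonoidAlgebra.mapRingHom_single]
      congr 1
      exact (map_intCast (σ : O →+* O) r).symm
  rw [← Theta_gal C hC hN σ n, ← hx, Km1.map_map]
  exact congrArg (fun f => Km1.map f x) h1

end gal

end Pool.Agent.H8.KZ
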