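import Pool.Agent.H95.KM.Loc

/-!
# KZ, module Loc2: localization at a prime dividing `N`, with the universal property

This is `exists_loc` (`Pool/Agent/H95/KM/Loc.lean`; copy the proof) with three additional statements on
`f : O → Om`: elements outside of `m` become units; the universal property of the localization; ring
homomorphisms from `Om` are determined by their composites with `f` (`IsLocalization.lift`,
`IsLocalization.ringHom_ext`).
-/

set_option autoImplicit false

open Matrix

universe u v w

namespace Pool.Agent.H8.KZ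

open Pool.Agent.H95.KM

open Classical in
theorem exists_loc2 {O : Type} [CommRing O] [IsDomain O] [IsNoetherianRing O] [CharZero O] (N : ℕ)
    [NeZero N] [Finite (Amod O N)] {L : Type} [Field L] (fL : O →+* L)
    (hfL : Function.Injective fL) (m : Pr O N) :
    ∃ (Om : Type) (_ : CommRing Om) (_ : IsDomain Om) (_ : CharZero Om) (f : O →+* Om)
      (j : Om →+* L), j.comp f = fL ∧ Function.Injective j ∧
      (∀ p : ℕ, (p : Amod O N) ∈ m.asIdeal → ∀ a : Om, (∀ k : ℕ, (p : Om) ^ k ∣ a) → a = 0) ∧
      (∀ (m' : Pr O N) (r : O), Ideal.Quotient.mk (Ideal.span {(N : O)}) r = kappa O N m' →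
        Ideal.Quotient.mk (Ideal.span {(N : Om)}) (f r) = if m' = m then 1 else 0) ∧
      (∀ s : O, Ideal.Quotient.mk (Ideal.span {(N : O)}) s ∉ m.asIdeal → IsUnit (f s)) ∧
      (∀ (E : Type) [CommRing E] (g : O →+* E),
        (∀ s : O, Ideal.Quotient.mk (Ideal.span {(N : O)}) s ∉ m.asIdeal → IsUnit (g s)) →
        ∃ h : Om →+* E, h.comp f = g) ∧
      (∀ (E : Type) [CommRing E] (h h' : Om →+* E), h.comp f = h'.comp f → h = h') := by
  set q : O →+* Amod O N := Ideal.Quotient.mk (Ideal.span {(N : O)}) with hq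
  have hm : m.asIdeal.IsPrime := m.isMaximal.isPrime
  set 𝔭 : Ideal O := m.asIdeal.comap q with h𝔭
  have hp : 𝔭.IsPrime := Ideal.comap_isPrime q m.asIdeal
  set Om : Type := Localization.AtPrime 𝔭 with hOm
  set f : O →+* Om := algebraMap O Om with hf
  have hu : ∀ y : 𝔭.primeCompl, IsUnit (fL y) := by
    intro y
    apply IsUnit.mk0
    intro h0
    have : (y : O) = 0 := hfL (by rw [h0, map_zero])
    exact y.2 (by rw [this]; exact 𝔭.zero_mem)
  set j : Om →+* L := IsLocalization.lift (M := 𝔭.primeCompl) (S := Om) (g := fL) hu with hj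
  have hjf : j.comp f = fL := IsLocalization.lift_comp hu
  have hjf' : ∀ a, j (f a) = fL a := fun a => RingHom.congr_fun hjf a
  have hfu : ∀ a : O, a ∉ 𝔭 → IsUnit (f a) := fun a ha =>
    IsLocalization.map_units Om (⟨a, ha⟩ : 𝔭.primeCompl)
  have hjinj : Function.Injective j := by
    rw [injective_iff_map_eq_zero]
    intro x hx
    obtain ⟨⟨a, s⟩, h⟩ := IsLocalization.surj 𝔭.primeCompl x
    simp only at h
    have h1 := congrArg j h
    rw [map_mul, hx, zero_mul] at h1
    have h2 : fL a = 0 := by
      rw [← hjf']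
      exact h1.symm
    have h3 : a = 0 := hfL (by rw [h2, map_zero])
    rw [h3, map_zero] at h
    exact ((hfu s s.2).mul_left_eq_zero).1 h
  have hfinj : Function.Injective f := by
    intro a b hab
    apply hfL
    rw [← hjf', ← hjf', hab]
  have hdom : IsDomain Om := hjinj.isDomain j
  have hchar : CharZero Om := charZero_of_injective_ringHom hfinj
  have hnoeth : IsNoetherianRing Om := IsLocalization.isNoetherianRing 𝔭.primeCompl Om inferInstance
  refine ⟨Om, inferInstance, hdom, hchar, f, j, hjf, hjinj, ?_, ?_, ?_, ?_, ?_⟩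
  · intro p hpm a ha
    have h1 : ((p : ℕ) : O) ∈ 𝔭 := by
      change q ((p : ℕ) : O) ∈ m.asIdeal
      rw [map_natCast]
      exact hpm
    have h2 : (p : Om) ∈ IsLocalRing.maximalIdeal Om := by
      have := (IsLocalization.AtPrime.to_map_mem_maximal_iff Om 𝔭 (p : O)).2 h1
      rwa [map_natCast] at this
    have h3 : a ∈ ⨅ k : ℕ, (IsLocalRing.maximalIdeal Om) ^ k := by
      rw [Ideal.mem_iInf]
      intro k
      exact Ideal.mem_of_dvd _ (ha k) (Ideal.pow_mem_pow h2 k)
    rw [Ideal.iInf_pow_eq_bot_of_isLocalRing _ (IsLocalRing.maximalIdeal.isMaximal Om).ne_top]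
      at h3
    exact h3
  · intro m' r hr
    have key : ∀ a b c : O, b ∉ 𝔭 → b * a = N * c →
        f a ∈ Ideal.span {(N : Om)} := by
      intro a b c hb habc
      rw [Ideal.mem_span_singleton]
      have h1 : f b * f a = N * f c := by
        rw [← map_mul, habc, map_mul, map_natCast]
      obtain ⟨u, hu⟩ := hfu b hb
      refine ⟨↑u⁻¹ * f c, ?_⟩
      rw [← hu] at h1
      calc f a = ↑u⁻¹ * (↑u * f a) := by rw [← mul_assoc, Units.inv_mul, one_mul]
        _ = ↑u⁻¹ * (N * f c) := by rw [h1]
        _ = _ := by ring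
    split_ifs with hmm
    · subst hmm
      have hr1 : r ∉ 𝔭 := by
        intro h
        apply kappa_notMem O N m'
        rw [← hr]
        exact h
      have h2 : q (r * (r - 1)) = 0 := by
        rw [map_mul, map_sub, map_one, hr, mul_sub, mul_one, kappa_mul, if_pos rfl, sub_self]
      rw [hq, Ideal.Quotient.eq_zero_iff_mem, Ideal.mem_span_singleton] at h2
      obtain ⟨c, hc⟩ := h2
      have h3 := key (r - 1) r c hr1 hc
      rw [map_sub, map_one] at h3
      rw [← sub_eq_zero, ← map_one (Ideal.Quotient.mk (Ideal.span {(N : Om)})), ← map_sub]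
      exact Ideal.Quotient.eq_zero_iff_mem.2 h3
    · obtain ⟨r₀, hr₀⟩ := Ideal.Quotient.mk_surjective (kappa O N m)
      have hr1 : r₀ ∉ 𝔭 := by
        intro h
        apply kappa_notMem O N m
        rw [← hr₀]
        exact h
      have h2 : q (r₀ * r) = 0 := by
        rw [map_mul, hr, hq, hr₀, kappa_mul, if_neg (Ne.symm hmm)]
      rw [hq, Ideal.Quotient.eq_zero_iff_mem, Ideal.mem_span_singleton] at h2
      obtain ⟨c, hc⟩ := h2
      exact Ideal.Quotient.eq_zero_iff_mem.2 (key r r₀ c hr1 hc)
  · intro s hs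
    exact hfu s hs
  · intro E _ g hg
    exact ⟨IsLocalization.lift (M := 𝔭.primeCompl) (S := Om) (g := g) fun y => hg y.1 y.2,
      IsLocalization.lift_comp _⟩
  · intro E _ h h' hh
    exact IsLocalization.ringHom_ext 𝔭.primeCompl hh

end Pool.Agent.H8.KZ
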