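import Pool.Agent.H8.KZ.BdK
import Pool.Agent.H71.DB.Bass

/-!
# KZ: evaluation of Laurent polynomials, the twist `T ↦ z T`
-/

set_option autoImplicit false

open Matrix
open scoped LaurentPolynomial

universe u v w

namespace Pool.Agent.H8.KZ

open Pool.Agent.H71.FJ (K0)
open Pool.Agent.H95.KM
open Pool.Agent.H71.DB (comm_inv)

variable {A : Type u} [Ring A] {R : Type v} [Ring R]

theorem comm_zpow {φ : R →+* A} {z : Aˣ} (hz : ∀ b, φ b * z = z * φ b) (b : R) (k : ℤ) :
    Commute (φ b) ((z ^ k : Aˣ) : A) := by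
  have h : Commute (φ b) (z : A) := hz b
  exact h.units_zpow_right k

/-- The ring homomorphism `R[T, T⁻¹] → A`, `T ↦ z`, for a unit `z` commuting with the image of `φ`. -/
noncomputable def evL (φ : R →+* A) (z : Aˣ) (hz : ∀ b, φ b * z = z * φ b) : R[T;T⁻¹] →+* A :=
  AddMonoidAlgebra.liftNCRingHom φ
    ((Units.coeHom A).comp (zpowersHom Aˣ z) : Multiplicative ℤ →* A)
    (fun b k => comm_zpow hz b (Multiplicative.toAdd k))

theorem evL_single (φ : R →+* A) (z : Aˣ) (hz : ∀ b, φ b * z = z * φ b) (k : ℤ) (r : R) :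
    evL φ z hz (AddMonoidAlgebra.single k r) = φ r * ((z ^ k : Aˣ) : A) :=
  AddMonoidAlgebra.liftNC_single _ _ _ _

theorem evL_cst (φ : R →+* A) (z : Aˣ) (hz : ∀ b, φ b * z = z * φ b) :
    (evL φ z hz).comp (cst R) = φ := by
  apply RingHom.ext
  intro r
  rw [RingHom.comp_apply, cst_apply, evL_single, zpow_zero, Units.val_one, mul_one]

/-- Homomorphisms from Laurent polynomials are determined on monomials. -/
theorem lau_ext {M : Type*} [Ring M] {f g : R[T;T⁻¹] →+* M}
    (h : ∀ k r, f (AddMonoidAlgebra.single k r) = g (AddMonoidAlgebra.single k r)) : f = g := by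
  apply RingHom.ext
  intro x
  induction x using AddMonoidAlgebra.induction_linear with
  | zero => rw [map_zero, map_zero]
  | add x y hx hy => rw [map_add, map_add, hx, hy]
  | single k r => exact h k r

/-- The unit `T`. -/
noncomputable def uT (A : Type u) [Ring A] : (A[T;T⁻¹])ˣ where
  val := AddMonoidAlgebra.single 1 1
  inv := AddMonoidAlgebra.single (-1) 1
  val_inv := by
    rw [AddMonoidAlgebra.single_mul_single, add_neg_cancel, mul_one]
    rfl
  inv_val := by
    rw [AddMonoidAlgebra.single_mul_single, neg_add_cancel, mul_one]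
    rfl

theorem uT_val : (uT A : A[T;T⁻¹]) = AddMonoidAlgebra.single 1 1 := rfl

theorem uT_zpow (k : ℤ) : ((uT A ^ k : (A[T;T⁻¹])ˣ) : A[T;T⁻¹]) = AddMonoidAlgebra.single k 1 := by
  have hn : ∀ n : ℕ, ((uT A ^ n : (A[T;T⁻¹])ˣ) : A[T;T⁻¹]) = AddMonoidAlgebra.single (n : ℤ) 1 := by
    intro n
    induction n with
    | zero =>
      rw [pow_zero]
      rfl
    | succ n ih =>
      rw [pow_succ, Units.val_mul, ih, uT_val, AddMonoidAlgebra.single_mul_single, mul_one]
      push_cast
      rfl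
  rcases Int.eq_nat_or_neg k with ⟨n, rfl | rfl⟩
  · rw [zpow_natCast]
    exact hn n
  · rw [_root_.zpow_neg, zpow_natCast]
    have h1 : (uT A ^ n)⁻¹ = ⟨AddMonoidAlgebra.single (-(n : ℤ)) 1, AddMonoidAlgebra.single (n : ℤ) 1,
        by rw [AddMonoidAlgebra.single_mul_single, neg_add_cancel, mul_one]; rfl,
        by rw [AddMonoidAlgebra.single_mul_single, add_neg_cancel, mul_one]; rfl⟩ := by
      rw [inv_eq_iff_mul_eq_one]
      apply Units.ext
      rw [Units.val_mul, hn, Units.val_one, AddMonoidAlgebra.single_mul_single, mul_one,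
        add_neg_cancel]
      rfl
    rw [h1]

theorem uT_comm (b : A[T;T⁻¹]) : b * (uT A : A[T;T⁻¹]) = (uT A : A[T;T⁻¹]) * b := by
  induction b using AddMonoidAlgebra.induction_linear with
  | zero => rw [zero_mul, mul_zero]
  | add x y hx hy => rw [add_mul, mul_add, hx, hy]
  | single k r =>
    rw [uT_val, AddMonoidAlgebra.single_mul_single, AddMonoidAlgebra.single_mul_single, mul_one,
      one_mul, add_comm]

/-- The constant unit `z`. -/
noncomputable def cu (z : Aˣ) : (A[T;T⁻¹])ˣ := Units.map (cst A).toMonoidHom z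

theorem cu_val (z : Aˣ) : (cu z : A[T;T⁻¹]) = AddMonoidAlgebra.single 0 (z : A) := rfl

theorem cu_comm (φ : R →+* A) (z : Aˣ) (hz : ∀ b, φ b * z = z * φ b) (b : R[T;T⁻¹]) :
    lau φ b * (cu z : A[T;T⁻¹]) = (cu z : A[T;T⁻¹]) * lau φ b := by
  induction b using AddMonoidAlgebra.induction_linear with
  | zero => rw [map_zero, zero_mul, mul_zero]
  | add x y hx hy => rw [map_add, add_mul, mul_add, hx, hy]
  | single k r =>
    rw [lau_single, cu_val, AddMonoidAlgebra.single_mul_single, AddMonoidAlgebra.single_mul_single,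
      hz, add_comm]

theorem tw_comm (z : Aˣ) (hz : ∀ a : A, a * z = z * a) (b : A) :
    cst A b * ((cu z * uT A : (A[T;T⁻¹])ˣ) : A[T;T⁻¹]) =
      ((cu z * uT A : (A[T;T⁻¹])ˣ) : A[T;T⁻¹]) * cst A b := by
  rw [Units.val_mul, mul_assoc, ← uT_comm (cst A b), ← mul_assoc, ← mul_assoc]
  congr 1
  rw [cst_apply, cu_val, AddMonoidAlgebra.single_mul_single, AddMonoidAlgebra.single_mul_single, hz]

/-- The endomorphism `T ↦ z T` of `A[T, T⁻¹]` for a central unit `z` of `A`. -/
noncomputable def tw (z : Aˣ) (hz : ∀ a : A, a * z = z * a) : A[T;T⁻¹] →+* A[T;T⁻¹] :=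
  evL (cst A) (cu z * uT A) (tw_comm z hz)

theorem tw_single (z : Aˣ) (hz : ∀ a : A, a * z = z * a) (k : ℤ) (r : A) :
    tw z hz (AddMonoidAlgebra.single k r) =
      AddMonoidAlgebra.single k (r * ((z ^ k : Aˣ) : A)) := by
  have hc : Commute (cu z) (uT A) := by
    apply Units.ext
    rw [Units.val_mul, Units.val_mul]
    exact uT_comm _
  have h1 : ((cu z ^ k : (A[T;T⁻¹])ˣ) : A[T;T⁻¹]) =
      AddMonoidAlgebra.single 0 ((z ^ k : Aˣ) : A) := by
    rw [cu, ← map_zpow]
    rfl
  rw [tw, evL_single, hc.mul_zpow, Units.val_mul, uT_zpow, h1, cst_apply,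
    AddMonoidAlgebra.single_mul_single, AddMonoidAlgebra.single_mul_single, mul_one, zero_add,
    zero_add]

end Pool.Agent.H8.KZ
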