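import Pool.Agent.H8.KZ.SymK
import Pool.Agent.H95.KF.Main

/-!
# KZ, module ArtZ: reduction to finite cyclic subgroups; the component `k` of a relation

`sym`, `sym_add`, `sym_mul`, `sym_conj`, `sym_incl`, `sym_induction`, `symH`, `asmM_sym` : `SymK.lean`; `artin_Km1` :
`Pool/Agent/H95/KF/Art.lean`; `finMod_int`, `exists_cyc` (the model) : `Pool/Agent/H95/KF/Main.lean`; `gpr_mul`,
`gpr_congr`, `map_gpr_grp` : `GPr.lean`; `K0.map_one'`, `K0.rk` : `Pool/Agent/H71/FJ/K0.lean`, `Rank.lean`.

PROOF of `exists_cyc0`.  `sym_induction`: zero: `r = 0`; sums: `Fin r ⊕ Fin r'` (or `Fin.append`) and the product of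
the integers; negatives: negate the `x i` (`symH` is additive in `x`).  For a symbol `sym F x z`: `artin_Km1` gives
`m • x = ∑ i, ind ℤ (D i).subtype (y i)` with `D i ≤ F` cyclic (subgroups of `↥F`).  With
`C i = (D i).map F.1.subtype`, `e : D i ≃* C i` (`Subgroup.equivMapOfInjective`), `(D i).subtype = (Subgroup.inclusion _).comp e`
so `sym F (ind ℤ (D i).subtype (y i)) z = sym (C i) (ind ℤ e (y i)) z` by `sym_incl`.
PROOF of `asm_aug`.  `sym_induction`; for a symbol: `K0.map (mapDomainRingHom ℤ (1 : G →* Unit-group)) (gpr ℤ F.subtype z x)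
= gpr ℤ (1 : F →* _) 1 x = 0` (`map_gpr_grp`; `gpr_mul` with `z = z' = 1` gives `gpr 1 = gpr 1 + gpr 1`).
PROOF of `k_zero`.  Apply `K0.map (mapDomainRingHom ℤ (1 : G →* Multiplicative Unit-like trivial group))`: it kills
`asmM ℤ G w` (`asm_aug`) and maps `K0.one` to `K0.one` (`K0.map_one'`), so `(M * k) • [1] = 0` in
`K₀(ℤ[1])`; mapping on to `K₀(ℚ)` (any ring homomorphism `ℤ[1] → ℚ`, e.g. `MonoidAlgebra.lift`, or directly use the
augmentation `ℤ[G] → ℤ → ℚ`), where the rank of `[1]` is one (`K0.rk`), gives `M * k = 0`.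
-/

set_option autoImplicit false

open Matrix

universe u v w

namespace Pool.Agent.H8.KZ

open Pool.Agent.H71.FJ (K0 K0.map K0.one)
open Pool.Agent.H95.KM (Km1 ind)
open Pool.Agent.H95.WH (FamSub conjHom FinSub)

variable {G : Type v} [Group G]

/-- induction from a subgroup of a subgroup -/
private theorem artZ_ind (F : Subgroup G) (D : Subgroup F) (hle : D.map F.subtype ≤ F)
    (y : Km1 (MonoidAlgebra ℤ D)) :
    Pool.Agent.H95.KM.Km1.map (Pool.Agent.H71.FJ.incl ℤ D) y = ind ℤ (Subgroup.inclusion hle)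
      (ind ℤ (D.equivMapOfInjective F.subtype F.subtype_injective).toMonoidHom y) := by
  rw [ind, ind, Pool.Agent.H95.KM.Km1.map_map]
  congr 2
  apply MonoidAlgebra.ringHom_ext
  · intro r
    change MonoidAlgebra.mapDomain _ _ = MonoidAlgebra.mapDomain _ (MonoidAlgebra.mapDomain _ _)
    rw [MonoidAlgebra.mapDomain_single, MonoidAlgebra.mapDomain_single,
      MonoidAlgebra.mapDomain_single, map_one, map_one, map_one]
  · intro d
    change MonoidAlgebra.mapDomain _ _ = MonoidAlgebra.mapDomain _ (MonoidAlgebra.mapDomain _ _)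
    rw [MonoidAlgebra.mapDomain_single, MonoidAlgebra.mapDomain_single,
      MonoidAlgebra.mapDomain_single]
    congr 1

/-- the reduction with a general index type -/
private theorem artZ_exists (w : H1Km1 ℤ G) : ∃ (M : ℤ) (ι : Type) (_ : Fintype ι)
    (C : ι → Subgroup G) (hf : ∀ i, Finite (C i)) (x : ∀ i, Km1 (MonoidAlgebra ℤ (C i)))
    (z : ∀ i, Subgroup.centralizer (C i : Set G)), M ≠ 0 ∧ (∀ i, IsCyclic (C i)) ∧
      M • w = ∑ i, sym (⟨C i, hf i⟩ : FamSub G FinSub) (x i) (z i) := by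
  induction w using sym_induction with
  | h0 =>
    exact ⟨1, Empty, inferInstance, fun i => i.elim, fun i => i.elim, fun i => i.elim,
      fun i => i.elim, one_ne_zero, fun i => i.elim, by simp⟩
  | h1 F x z =>
    have : Finite F.1 := F.2
    obtain ⟨m, r, D, y, hm, hcyc, h⟩ := Pool.Agent.H95.KF.artin_Km1 ℤ F.1
      (Pool.Agent.H95.KF.finMod_int _) x
    have hfin : ∀ j, Finite ((D j).map F.1.subtype) := fun j =>
      Finite.of_equiv _ ((D j).equivMapOfInjective F.1.subtype F.1.subtype_injective).toEquiv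
    have hle : ∀ j, (D j).map F.1.subtype ≤ F.1 := by
      rintro j _ ⟨a, _, rfl⟩
      exact a.2
    have hz : ∀ j, (z : G) ∈ Subgroup.centralizer (((D j).map F.1.subtype : Subgroup G) : Set G) :=
      fun j => Subgroup.centralizer_le (hle j) z.2
    refine ⟨m, Fin r, inferInstance, fun j => (D j).map F.1.subtype, hfin, fun j =>
      ind ℤ ((D j).equivMapOfInjective F.1.subtype F.1.subtype_injective).toMonoidHom (y j),
      fun j => ⟨z, hz j⟩, by exact_mod_cast hm.ne', ?_, ?_⟩
    · intro j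
      have := hcyc j
      exact isCyclic_of_surjective
        ((D j).equivMapOfInjective F.1.subtype F.1.subtype_injective)
        ((D j).equivMapOfInjective F.1.subtype F.1.subtype_injective).surjective
    · rw [natCast_zsmul, ← symH_apply, ← map_nsmul, h, map_sum]
      apply Finset.sum_congr rfl
      intro j _
      rw [symH_apply, ← sym_incl F ⟨(D j).map F.1.subtype, hfin j⟩ (hle j) _ z ⟨z, hz j⟩ rfl]
      congr 1
      exact artZ_ind F.1 (D j) (hle j) (y j)
  | h2 a b ha hb =>
    obtain ⟨M, ι, hι, C, hf, x, z, hM, hC, h⟩ := ha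
    obtain ⟨M', ι', hι', C', hf', x', z', hM', hC', h'⟩ := hb
    refine ⟨M * M', ι ⊕ ι', inferInstance, Sum.elim C C', ?_, ?_, ?_, mul_ne_zero hM hM', ?_, ?_⟩
    · rintro (i | i)
      · exact hf i
      · exact hf' i
    · exact fun i => match i with
        | Sum.inl i => M' • x i
        | Sum.inr i => M • x' i
    · exact fun i => match i with
        | Sum.inl i => z i
        | Sum.inr i => z' i
    · rintro (i | i)
      · exact hC i
      · exact hC' i
    · rw [Fintype.sum_sum_type, smul_add]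
      congr 1
      · rw [mul_comm M M', mul_smul, h, Finset.smul_sum]
        apply Finset.sum_congr rfl
        intro i _
        rw [← symH_apply, ← map_zsmul]
        rfl
      · rw [mul_smul, h', Finset.smul_sum]
        apply Finset.sum_congr rfl
        intro i _
        rw [← symH_apply, ← map_zsmul]
        rfl
  | h3 a ha =>
    obtain ⟨M, ι, hι, C, hf, x, z, hM, hC, h⟩ := ha
    refine ⟨M, ι, hι, C, hf, fun i => - x i, z, hM, hC, ?_⟩
    rw [smul_neg, h, ← Finset.sum_neg_distrib]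
    apply Finset.sum_congr rfl
    intro i _
    rw [← symH_apply, ← symH_apply, map_neg]

theorem exists_cyc0 (w : H1Km1 ℤ G) : ∃ (M : ℤ) (r : ℕ) (C : Fin r → Subgroup G)
    (hf : ∀ i, Finite (C i)) (x : ∀ i, Km1 (MonoidAlgebra ℤ (C i)))
    (z : ∀ i, Subgroup.centralizer (C i : Set G)), M ≠ 0 ∧ (∀ i, IsCyclic (C i)) ∧
      M • w = ∑ i, sym (⟨C i, hf i⟩ : FamSub G FinSub) (x i) (z i) := by
  obtain ⟨M, ι, hι, C, hf, x, z, hM, hC, h⟩ := artZ_exists w
  let e := Fintype.equivFin ι
  refine ⟨M, Fintype.card ι, fun i => C (e.symm i), fun i => hf _, fun i => x _, fun i => z _, hM,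
    fun i => hC _, ?_⟩
  rw [h]
  exact (Equiv.sum_comp e.symm
    (fun i => sym (⟨C i, hf i⟩ : FamSub G FinSub) (x i) (z i))).symm

theorem asm_aug (w : H1Km1 ℤ G) :
    K0.map (MonoidAlgebra.mapDomainRingHom ℤ (1 : G →* (Multiplicative (Fin 1)))) (asmM ℤ G w) = 0 := by
  have key : ∀ (F : FamSub G FinSub) (x : Km1 (MonoidAlgebra ℤ F.1))
      (z : Subgroup.centralizer (F.1 : Set G)),
      K0.map (MonoidAlgebra.mapDomainRingHom ℤ (1 : G →* (Multiplicative (Fin 1))))
        (asmM ℤ G (sym F x z)) = 0 := by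
    intro F x z
    rw [asmM_sym, map_gpr_grp ℤ F.1.subtype (1 : G →* (Multiplicative (Fin 1))) (z : G) _
      (fun a => Subsingleton.elim _ _) x]
    have h1 := gpr_mul ℤ ((1 : G →* (Multiplicative (Fin 1))).comp F.1.subtype) 1 1
      (fun a => Subsingleton.elim _ _) (fun a => Subsingleton.elim _ _)
      (fun a => Subsingleton.elim _ _) x
    rw [gpr_congr ℤ _ (mul_one (1 : Multiplicative (Fin 1))) (fun a => Subsingleton.elim _ _)
      (fun a => Subsingleton.elim _ _)] at h1
    exact left_eq_add.1 h1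
  induction w using sym_induction with
  | h0 => rw [map_zero, map_zero]
  | h1 F x z => exact key F x z
  | h2 a b ha hb => rw [map_add, map_add, ha, hb, add_zero]
  | h3 a ha => rw [map_neg, map_neg, ha, neg_zero]

theorem k_zero (k : ℤ) (w : H1Km1 ℤ G) (M : ℤ) (hM : M ≠ 0)
    (h : M • (k • K0.one (MonoidAlgebra ℤ G) + asmM ℤ G w) = 0) : k = 0 := by
  have h1 := congrArg (K0.map (MonoidAlgebra.mapDomainRingHom ℤ
    (1 : G →* (Multiplicative (Fin 1))))) h
  rw [map_zsmul, map_add, map_zsmul, asm_aug, add_zero, Pool.Agent.H71.FJ.K0.map_one', map_zero]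
    at h1
  let φ : MonoidAlgebra ℤ (Multiplicative (Fin 1)) →+* ℚ :=
    ((MonoidAlgebra.lift ℤ ℚ (Multiplicative (Fin 1)) (1 : Multiplicative (Fin 1) →* ℚ)) :
      MonoidAlgebra ℤ (Multiplicative (Fin 1)) →ₐ[ℤ] ℚ).toRingHom
  have h2 := congrArg (fun t => Pool.Agent.H71.FJ.K0.rk (K0.map φ t)) h1
  simp only [map_zsmul, map_zero, Pool.Agent.H71.FJ.K0.map_one', Pool.Agent.H71.FJ.K0.rk_one]
    at h2
  rcases mul_eq_zero.1 (show M * k = 0 by simpa using h2) with h3 | h3
  · exact absurd h3 hM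
  · exact h3

end Pool.Agent.H8.KZ
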