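import Pool.Agent.H8.KZ.BdDefs

/-!
# KZ, module BdA: the boundary of an invertible matrix does not depend on the window

Definitions: `OpDefs.lean`, `BdDefs.lean`; calculus: `Op.lean`, `Fcl.lean` (all complete).

PROOFS.
* `fcl_slice`.  First `fcl (tr a - tr (a + 1)) = |ι| • one A` (window `D` with `-D ≤ a < D`): the
  matrix `mt D D` of this operator has the entry `1` at `((a + D, i), (a + D, i))` and `0` otherwise,
  so it is `MatEquiv` to `(1 : Matrix ι ι A)` (`X (p, i) j = if p = a + D ∧ i = j then 1 else 0` and its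
  transpose); `cls_one`.  Then induction on `b - a` with `fcl_add`
  (`tr a - tr (b + 1) = (tr a - tr b) + (tr b - tr (b + 1))`, `tr_tr`).
* `eU_tr`, `tr_eU`, `eU_sup`, `eU_img` (`D` bounds `U` and `U⁻¹`): for `a ≥ D` the vector
  `rm U (bas a i)` is supported in the degrees `≥ 0` (`rm_bas_coeff`), so `tr 0` does not change it and
  `eU U (bas a i) = bas a i`; for `a < -D` it is supported in the degrees `< 0` and
  `eU U (bas a i) = 0`.  For any `v` put `w = tr 0 (rm U v)`, `w' = rm U v - w` (degrees `< 0`):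
  `rm U⁻¹ w` is supported in the degrees `≥ -D`, and `rm U⁻¹ w' = v - eU U v` in the degrees `< D`.
  Hence the values of `eU U - tr D` are supported in `[-D, D)`.
* `eU_idem`: `rm U ∘ rm U⁻¹ = id` (`rm_mul`, `rm_one`), `tr_tr`.
* `eU_sub_idem`: from `eU_idem`, `tr_tr`, `eU_tr`, `tr_eU`.
* `bd_eq`: for `D ≤ D'` write `eU U - tr D' = (eU U - tr D) + (tr D - tr D')`, `fcl_add`, `fcl_slice`.
  Compare both `D` and `dU U` with their maximum.
-/

set_option autoImplicit false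

open Matrix
open scoped LaurentPolynomial

universe u v w

namespace Pool.Agent.H8.KZ

open Pool.Agent.H71.FJ Pool.Agent.H95.KM

variable {A : Type u} [Ring A] {ι : Type} [Fintype ι] [DecidableEq ι]

private theorem bda_sub_coeff {κ : Type*} {μ : Type*} (x y : Op A κ μ) (v : LV A κ) (j : μ) (k : ℤ) :
    ((x - y) v j).coeff k = (x v j).coeff k - (y v j).coeff k := by
  have h : x v = (x - y) v + y v := by
    rw [LinearMap.sub_apply, sub_add_cancel]
  rw [h, Pi.add_apply, AddMonoidAlgebra.coeff_add, Finsupp.add_apply, add_sub_cancel_right]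

private theorem bda_tr_self (D : ℤ) (v : LV A ι) : tr D (tr D v) = tr D v := by
  have h := LinearMap.congr_fun (tr_tr (A := A) (ι := ι) D D) v
  rwa [max_self] at h

private theorem bda_rm_inv (U : (Matrix ι ι A[T;T⁻¹])ˣ) (v : LV A ι) :
    rm ((U⁻¹ : (Matrix ι ι A[T;T⁻¹])ˣ) : Matrix ι ι A[T;T⁻¹])
      (rm (U : Matrix ι ι A[T;T⁻¹]) v) = v := by
  have h := rm_mul (U : Matrix ι ι A[T;T⁻¹])
    ((U⁻¹ : (Matrix ι ι A[T;T⁻¹])ˣ) : Matrix ι ι A[T;T⁻¹])
  rw [Units.mul_inv, rm_one] at h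
  exact (LinearMap.congr_fun h v).symm

private theorem bda_rm_inv' (U : (Matrix ι ι A[T;T⁻¹])ˣ) (v : LV A ι) :
    rm (U : Matrix ι ι A[T;T⁻¹])
      (rm ((U⁻¹ : (Matrix ι ι A[T;T⁻¹])ˣ) : Matrix ι ι A[T;T⁻¹]) v) = v := by
  have h := rm_mul ((U⁻¹ : (Matrix ι ι A[T;T⁻¹])ˣ) : Matrix ι ι A[T;T⁻¹])
    (U : Matrix ι ι A[T;T⁻¹])
  rw [Units.inv_mul, rm_one] at h
  exact (LinearMap.congr_fun h v).symm

private theorem bda_rm_zero (V : Matrix ι ι A[T;T⁻¹]) (w : LV A ι) (j : ι) (b : ℤ)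
    (hz : ∀ i a, (w i).coeff a = 0 ∨ (V i j).coeff (b - a) = 0) : (rm V w j).coeff b = 0 := by
  obtain ⟨D, hD⟩ := lv_expand' w
  rw [hD, map_sum, Finset.sum_apply, AddMonoidAlgebra.coeff_sum, Finsupp.finsetSum_apply]
  apply Finset.sum_eq_zero
  intro q _
  rw [map_smul, Pi.smul_apply, AddMonoidAlgebra.coeff_smul, Finsupp.smul_apply, rm_bas_coeff,
    smul_eq_mul]
  rcases hz q.2 (((q.1 : ℕ) : ℤ) - D) with h | h
  · rw [h, zero_mul]
  · rw [h, mul_zero]

private theorem bda_eU_pos {U : (Matrix ι ι A[T;T⁻¹])ˣ} {D : ℕ}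
    (h : Bdd D (U : Matrix ι ι A[T;T⁻¹])) {a : ℤ} {i : ι} (ha : (D : ℤ) ≤ a) :
    eU U (bas a i) = bas a i := by
  have h1 : tr 0 (rm (U : Matrix ι ι A[T;T⁻¹]) (bas a i)) =
      rm (U : Matrix ι ι A[T;T⁻¹]) (bas a i) := by
    funext j
    apply ext_coeff
    intro b
    rw [tr_coeff]
    by_cases hb : 0 ≤ b
    · rw [if_pos hb]
    · rw [if_neg hb, rm_bas_coeff, h i j (b - a) (by rw [lt_abs]; right; omega)]
  rw [eU, LinearMap.comp_apply, LinearMap.comp_apply, h1, bda_rm_inv]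

private theorem bda_eU_neg {U : (Matrix ι ι A[T;T⁻¹])ˣ} {D : ℕ}
    (h : Bdd D (U : Matrix ι ι A[T;T⁻¹])) {a : ℤ} {i : ι} (ha : a < -(D : ℤ)) :
    eU U (bas a i) = 0 := by
  have h1 : tr 0 (rm (U : Matrix ι ι A[T;T⁻¹]) (bas a i)) = 0 := by
    funext j
    apply ext_coeff
    intro b
    rw [tr_coeff, Pi.zero_apply, AddMonoidAlgebra.coeff_zero, Finsupp.coe_zero, Pi.zero_apply]
    by_cases hb : 0 ≤ b
    · rw [if_pos hb, rm_bas_coeff, h i j (b - a) (by rw [lt_abs]; left; omega)]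
    · rw [if_neg hb]
  rw [eU, LinearMap.comp_apply, LinearMap.comp_apply, h1, map_zero]

private theorem bda_eU_low {U : (Matrix ι ι A[T;T⁻¹])ˣ} {D : ℕ}
    (h' : Bdd D ((U⁻¹ : (Matrix ι ι A[T;T⁻¹])ˣ) : Matrix ι ι A[T;T⁻¹])) (v : LV A ι) (j : ι)
    {b : ℤ} (hb : b < -(D : ℤ)) : (eU U v j).coeff b = 0 := by
  rw [eU, LinearMap.comp_apply, LinearMap.comp_apply]
  apply bda_rm_zero
  intro i a
  by_cases ha : 0 ≤ a
  · right
    exact h' i j (b - a) (by rw [lt_abs]; right; omega)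
  · left
    rw [tr_coeff, if_neg ha]

private theorem bda_eU_high {U : (Matrix ι ι A[T;T⁻¹])ˣ} {D : ℕ}
    (h' : Bdd D ((U⁻¹ : (Matrix ι ι A[T;T⁻¹])ˣ) : Matrix ι ι A[T;T⁻¹])) (v : LV A ι) (j : ι)
    {b : ℤ} (hb : (D : ℤ) ≤ b) : (eU U v j).coeff b = (v j).coeff b := by
  set w : LV A ι := rm (U : Matrix ι ι A[T;T⁻¹]) v with hw
  have h1 : v = rm ((U⁻¹ : (Matrix ι ι A[T;T⁻¹])ˣ) : Matrix ι ι A[T;T⁻¹]) (w - tr 0 w) +
      eU U v := by
    rw [eU, LinearMap.comp_apply, LinearMap.comp_apply, ← hw, ← map_add, sub_add_cancel, hw,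
      bda_rm_inv]
  have h2 : (rm ((U⁻¹ : (Matrix ι ι A[T;T⁻¹])ˣ) : Matrix ι ι A[T;T⁻¹]) (w - tr 0 w) j).coeff b =
      0 := by
    apply bda_rm_zero
    intro i a
    by_cases ha : 0 ≤ a
    · left
      have h3 := bda_sub_coeff (LinearMap.id) (tr 0 : Op A ι ι) w i a
      rw [LinearMap.sub_apply, LinearMap.id_apply, tr_coeff, if_pos ha, sub_self] at h3
      exact h3
    · right
      exact h' i j (b - a) (by rw [lt_abs]; left; omega)
  conv_rhs => rw [h1, Pi.add_apply, AddMonoidAlgebra.coeff_add, Finsupp.add_apply, h2, zero_add]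

theorem slice_sup {a b : ℤ} {D : ℕ} (ha : -(D : ℤ) ≤ a) (hb : b ≤ D) (hab : a ≤ b) :
    Sup D (tr a - tr b : Op A ι ι) := by
  intro c i hc
  rw [LinearMap.sub_apply, tr_bas, tr_bas]
  rcases hc with hc | hc
  · rw [if_neg (by omega), if_neg (by omega), sub_zero]
  · rw [if_pos (by omega), if_pos (by omega), sub_self]

theorem slice_img {a b : ℤ} {D : ℕ} (ha : -(D : ℤ) ≤ a) (hb : b ≤ D) (hab : a ≤ b) :
    Img D (tr a - tr b : Op A ι ι) := by
  intro v j k hk
  rw [bda_sub_coeff, tr_coeff, tr_coeff]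
  rcases hk with hk | hk
  · rw [if_neg (by omega), if_neg (by omega), sub_zero]
  · rw [if_pos (by omega), if_pos (by omega), sub_self]

theorem slice_idem {a b : ℤ} (hab : a ≤ b) :
    (tr a - tr b : Op A ι ι).comp (tr a - tr b) = tr a - tr b := by
  rw [LinearMap.comp_sub, LinearMap.sub_comp, LinearMap.sub_comp, tr_tr, tr_tr, tr_tr, tr_tr,
    max_self, max_self, max_eq_left hab, max_eq_right hab]
  abel

theorem fcl_slice (a : ℤ) (n : ℕ) :
    fcl (tr a - tr (a + n) : Op A ι ι) = (n * Fintype.card ι) • one A := by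
  have hab : a ≤ a + n := by omega
  obtain ⟨D, hD1, hD2⟩ : ∃ D : ℕ, -(D : ℤ) ≤ a ∧ a + n ≤ D :=
    ⟨(a.natAbs + n), by omega, by omega⟩
  rw [fcl_eq (slice_idem hab) (slice_sup hD1 hD2 hab) (slice_img hD1 hD2 hab)]
  have hcard : Fintype.card (Fin n × ι) = n * Fintype.card ι := by
    rw [Fintype.card_prod, Fintype.card_fin]
  rw [← hcard, ← cls_one (A := A) (Fin n × ι)]
  apply K0.cls_congr
  refine ⟨Matrix.of fun (p : Fin (2 * D) × ι) (q : Fin n × ι) =>
      if ((p.1 : ℕ) : ℤ) - D = a + (q.1 : ℕ) ∧ p.2 = q.2 then (1 : A) else 0,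
    Matrix.of fun (q : Fin n × ι) (p : Fin (2 * D) × ι) =>
      if ((p.1 : ℕ) : ℤ) - D = a + (q.1 : ℕ) ∧ p.2 = q.2 then (1 : A) else 0, ?_, ?_⟩
  · refine Matrix.ext fun p p' => ?_
    rw [Matrix.mul_apply]
    simp only [mt, Matrix.of_apply]
    rw [bda_sub_coeff, tr_coeff, tr_coeff, bas_coeff]
    by_cases hp : a ≤ ((p.1 : ℕ) : ℤ) - D ∧ ((p.1 : ℕ) : ℤ) - D < a + n
    · obtain ⟨m, hm⟩ : ∃ m : ℕ, (m : ℤ) = ((p.1 : ℕ) : ℤ) - D - a :=
        ⟨(((p.1 : ℕ) : ℤ) - D - a).toNat, by rw [Int.toNat_of_nonneg]; omega⟩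
      have hmn : m < n := by omega
      rw [Finset.sum_eq_single (⟨m, hmn⟩, p.2)]
      · rw [if_pos ⟨by simp only; omega, rfl⟩, one_mul]
        by_cases hpp : p.2 = p'.2 ∧ ((p.1 : ℕ) : ℤ) - D = ((p'.1 : ℕ) : ℤ) - D
        · rw [if_pos ⟨by simp only; omega, hpp.1.symm⟩, if_pos hpp, if_pos (by omega),
            if_neg (by omega), sub_zero]
        · rw [if_neg, if_neg hpp]
          · simp
          · rintro ⟨h1, h2⟩
            apply hpp
            simp only at h1 h2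
            exact ⟨h2.symm, by omega⟩
      · rintro ⟨q, k⟩ _ hq
        rw [if_neg, zero_mul]
        rintro ⟨h1, h2⟩
        apply hq
        simp only at h1 h2
        rw [h2]
        congr 1
        apply Fin.ext
        simp only
        omega
      · intro h
        exact absurd (Finset.mem_univ _) h
    · rw [Finset.sum_eq_zero]
      · by_cases hpp : p.2 = p'.2 ∧ ((p.1 : ℕ) : ℤ) - D = ((p'.1 : ℕ) : ℤ) - D
        · rw [if_pos hpp]
          by_cases h1 : a ≤ ((p'.1 : ℕ) : ℤ) - D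
          · rw [if_pos h1, if_pos (by omega), sub_self]
          · rw [if_neg h1, if_neg (by omega), sub_zero]
        · rw [if_neg hpp]
          simp
      · rintro ⟨q, k⟩ _
        rw [if_neg, zero_mul]
        rintro ⟨h1, h2⟩
        have := q.2
        simp only at h1
        omega
  · refine Matrix.ext fun q q' => ?_
    rw [Matrix.mul_apply, Matrix.one_apply]
    simp only [Matrix.of_apply]
    obtain ⟨m, hm⟩ : ∃ m : ℕ, (m : ℤ) = a + (q.1 : ℕ) + D :=
      ⟨(a + (q.1 : ℕ) + D).toNat, by rw [Int.toNat_of_nonneg]; omega⟩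
    have hq := q.1.2
    have hmD : m < 2 * D := by omega
    rw [Finset.sum_eq_single (⟨m, hmD⟩, q.2)]
    · rw [if_pos ⟨by simp only; omega, rfl⟩, one_mul]
      by_cases hqq : q = q'
      · rw [if_pos hqq, if_pos ⟨by rw [← hqq]; simp only; omega, by rw [← hqq]⟩]
      · rw [if_neg hqq, if_neg]
        rintro ⟨h1, h2⟩
        apply hqq
        simp only at h1 h2
        apply Prod.ext
        · apply Fin.ext
          omega
        · exact h2
    · rintro ⟨p, k⟩ _ hp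
      rw [if_neg, zero_mul]
      rintro ⟨h1, h2⟩
      apply hp
      simp only at h1 h2
      rw [h2]
      congr 1
      apply Fin.ext
      simp only
      omega
    · intro h
      exact absurd (Finset.mem_univ _) h

theorem eU_idem (U : (Matrix ι ι A[T;T⁻¹])ˣ) : (eU U).comp (eU U) = eU U := by
  apply LinearMap.ext
  intro v
  simp only [eU, LinearMap.comp_apply]
  rw [bda_rm_inv', bda_tr_self]

section bound

variable {U : (Matrix ι ι A[T;T⁻¹])ˣ} {D : ℕ} (h : Bdd D (U : Matrix ι ι A[T;T⁻¹]))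
  (h' : Bdd D ((U⁻¹ : (Matrix ι ι A[T;T⁻¹])ˣ) : Matrix ι ι A[T;T⁻¹]))

include h h'

theorem eU_sup : Sup D (eU U - tr D) := by
  intro a i ha
  rw [LinearMap.sub_apply, tr_bas]
  rcases ha with ha | ha
  · rw [bda_eU_neg h ha, if_neg (by omega), sub_zero]
  · rw [bda_eU_pos h ha, if_pos ha, sub_self]

theorem eU_img : Img D (eU U - tr D) := by
  intro v j b hb
  rw [bda_sub_coeff, tr_coeff]
  rcases hb with hb | hb
  · rw [if_neg (by omega), sub_zero]
    exact bda_eU_low h' v j hb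
  · rw [if_pos hb, bda_eU_high h' v j hb, sub_self]

theorem eU_tr : (eU U).comp (tr D) = tr D := by
  apply op_ext
  intro a i
  rw [LinearMap.comp_apply, tr_bas]
  by_cases ha : (D : ℤ) ≤ a
  · rw [if_pos ha, bda_eU_pos h ha]
  · rw [if_neg ha, map_zero]

theorem tr_eU : (tr D).comp (eU U) = tr D := by
  apply LinearMap.ext
  intro v
  funext j
  apply ext_coeff
  intro b
  rw [LinearMap.comp_apply, tr_coeff, tr_coeff]
  by_cases hb : (D : ℤ) ≤ b
  · rw [if_pos hb, if_pos hb, bda_eU_high h' v j hb]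
  · rw [if_neg hb, if_neg hb]

theorem eU_sub_idem : (eU U - tr D).comp (eU U - tr D) = eU U - tr D := by
  rw [LinearMap.comp_sub, LinearMap.sub_comp, LinearMap.sub_comp, eU_idem, eU_tr h h', tr_eU h h',
    tr_tr, max_self]
  abel

omit h h' in
private theorem bda_window {U : (Matrix ι ι A[T;T⁻¹])ˣ} {D D' : ℕ}
    (h : Bdd D (U : Matrix ι ι A[T;T⁻¹]))
    (h' : Bdd D ((U⁻¹ : (Matrix ι ι A[T;T⁻¹])ˣ) : Matrix ι ι A[T;T⁻¹])) (hD : D ≤ D') :
    fcl (eU U - tr D) - (D * Fintype.card ι) • one A =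
      fcl (eU U - tr D') - (D' * Fintype.card ι) • one A := by
  obtain ⟨n, rfl⟩ := Nat.exists_eq_add_of_le hD
  have k := h.mono hD
  have k' := h'.mono hD
  have hc : (D : ℤ) ≤ ((D + n : ℕ) : ℤ) := by omega
  have h1 : (eU U - tr ((D + n : ℕ) : ℤ)) = (eU U - tr D) + (tr D - tr ((D + n : ℕ) : ℤ)) := by
    abel
  have h2 : fcl (eU U - tr ((D + n : ℕ) : ℤ)) =
      fcl (eU U - tr D) + fcl (tr D - tr ((D + n : ℕ) : ℤ) : Op A ι ι) := by
    rw [h1]
    refine fcl_add (D := D + n) (eU_sub_idem h h') (slice_idem hc) ?_ ?_ ((eU_sup h h').mono hD)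
      ((eU_img h h').mono hD) (slice_sup (by omega) le_rfl hc) (slice_img (by omega) le_rfl hc)
    · rw [LinearMap.comp_sub, LinearMap.sub_comp, LinearMap.sub_comp, eU_tr h h', eU_tr k k',
        tr_tr, tr_tr, max_self, max_eq_right hc]
      abel
    · rw [LinearMap.comp_sub, LinearMap.sub_comp, LinearMap.sub_comp, tr_eU h h', tr_eU k k',
        tr_tr, tr_tr, max_self, max_eq_left hc]
      abel
  have h3 : fcl (tr D - tr ((D + n : ℕ) : ℤ) : Op A ι ι) = (n * Fintype.card ι) • one A := by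
    rw [Nat.cast_add]
    exact fcl_slice (D : ℤ) n
  rw [h2, h3, add_mul, add_smul]
  abel

theorem bd_eq : bd U = fcl (eU U - tr D) - (D * Fintype.card ι) • one A := by
  obtain ⟨g, g'⟩ := dU_spec U
  rw [bd]
  rcases le_total (dU U) D with hd | hd
  · rw [bda_window g g' hd]
  · rw [bda_window h h' hd]

end bound

end Pool.Agent.H8.KZ
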