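import Pool.Agent.H8.KZ.BdA

/-!
# KZ, module BdB: `bd (U V) = bd U + bd V`

PROOF.  Let `D₁` bound `V`, `V⁻¹` and `D₂` bound `U`, `U⁻¹` (`exists_dU`), `D = D₁ + D₂`; then `D` bounds
`U V` and `(U V)⁻¹ = V⁻¹ U⁻¹`.  With `R = rm U`, `R' = rm U⁻¹` (`R' ∘ R = id`, `R ∘ R' = id`) one has
`eU (U V) = R' ∘ eU V ∘ R` (`rm_mul`: `rm (U V) = rm V ∘ rm U`), so
`eU (U V) - tr D = R' ∘ (eU V - tr D₁) ∘ R + (R' ∘ tr D₁ ∘ R - tr D)`.
Both summands are idempotent, orthogonal and supported in a finite window (`Sup`, `Img`), so `fcl_add`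
applies.  `fcl (R' ∘ f ∘ R) = fcl f` for `f = eU V - tr D₁` by `fcl_equiv` with `x = f ∘ R`, `y = R'`.
Let `S n` be the shift `v ↦ T^n v` (multiplication of all entries by the central element `T^n`; it
commutes with `R`, `R'`, `S n ∘ S (-n) = id`, `tr (n + m) = S n ∘ tr m ∘ S (-n)`).  Then
`R' ∘ tr D₁ ∘ R - tr D = S D₁ ∘ (eU U - tr D₂) ∘ S (-D₁)` and `fcl_equiv` with
`x = (eU U - tr D₂) ∘ S (-D₁)`, `y = S D₁` gives `fcl (R' ∘ tr D₁ ∘ R - tr D) = fcl (eU U - tr D₂)`.
Now use `bd_eq` three times.  (Also `R' ∘ tr D₁ ∘ R - tr D` is orthogonal to `R' ∘ (eU V - tr D₁) ∘ R`: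
`(eU V - tr D₁) ∘ tr D₁ = 0`, `tr D₁ ∘ (eU V - tr D₁) = 0` and
`tr D ∘ R' = tr D ∘ R' ∘ tr D₁` (`D₂` bounds `U⁻¹`), `R ∘ tr D = tr D₁ ∘ R ∘ tr D`.)
-/

set_option autoImplicit false

open Matrix
open scoped LaurentPolynomial

universe u v w

namespace Pool.Agent.H8.KZ

open Pool.Agent.H71.FJ Pool.Agent.H95.KM

variable {A : Type u} [Ring A] {ι : Type} [Fintype ι] [DecidableEq ι]

omit [DecidableEq ι] in
/-- Lower bounds for the degrees of a product. -/
private theorem bdB_low {U : Matrix ι ι A[T;T⁻¹]} {D : ℕ} (hU : Bdd D U) {v : LV A ι} {p : ℤ}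
    (hv : ∀ j b, b < p → (v j).coeff b = 0) (j : ι) (b : ℤ) (hb : b < p - D) :
    (rm U v j).coeff b = 0 := by
  rw [rm_apply, AddMonoidAlgebra.coeff_sum, Finsupp.finsetSum_apply]
  refine Finset.sum_eq_zero fun i _ => ?_
  rw [AddMonoidAlgebra.coeff_mul_apply_left]
  refine Finset.sum_eq_zero fun c _ => ?_
  beta_reduce
  rcases lt_or_ge c p with h | h
  · rw [hv i c h, zero_mul]
  · rw [hU i j (-c + b) (lt_abs.2 (Or.inr (by omega))), mul_zero]

omit [DecidableEq ι] in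
/-- Upper bounds for the degrees of a product. -/
private theorem bdB_high {U : Matrix ι ι A[T;T⁻¹]} {D : ℕ} (hU : Bdd D U) {v : LV A ι} {p : ℤ}
    (hv : ∀ j b, p ≤ b → (v j).coeff b = 0) (j : ι) (b : ℤ) (hb : p + D ≤ b) :
    (rm U v j).coeff b = 0 := by
  rw [rm_apply, AddMonoidAlgebra.coeff_sum, Finsupp.finsetSum_apply]
  refine Finset.sum_eq_zero fun i _ => ?_
  rw [AddMonoidAlgebra.coeff_mul_apply_left]
  refine Finset.sum_eq_zero fun c _ => ?_
  beta_reduce
  rcases lt_or_ge c p with h | h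
  · rw [hU i j (-c + b) (lt_abs.2 (Or.inl (by omega))), mul_zero]
  · rw [hv i c h, zero_mul]

/-- Bounds of a product of matrices. -/
private theorem bdB_mul {U V : Matrix ι ι A[T;T⁻¹]} {D D' : ℕ} (hU : Bdd D U) (hV : Bdd D' V) :
    Bdd (D + D') (U * V) := by
  intro i j k hk
  have h1 := rm_bas_coeff (U * V) 0 i j k
  rw [sub_zero] at h1
  rw [← h1, rm_mul, LinearMap.comp_apply]
  rw [lt_abs] at hk
  push_cast at hk
  rcases hk with hk | hk
  · refine bdB_high (p := D + 1) hV (fun l b hb => ?_) j k (by omega)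
    rw [rm_bas_coeff]
    exact hU i l _ (lt_abs.2 (Or.inl (by omega)))
  · refine bdB_low (p := -D) hV (fun l b hb => ?_) j k (by omega)
    rw [rm_bas_coeff]
    exact hU i l _ (lt_abs.2 (Or.inr (by omega)))

/-- An operator supported in a window kills the vectors supported outside of it. -/
private theorem bdB_kill {f : Op A ι ι} {D : ℕ} (hf : Sup D f) {v : LV A ι}
    (hv : ∀ j b, -(D : ℤ) ≤ b → b < D → (v j).coeff b = 0) : f v = 0 := by
  obtain ⟨D', h⟩ := lv_expand' v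
  rw [h, map_sum]
  refine Finset.sum_eq_zero fun q _ => ?_
  rw [map_smul]
  by_cases hq : (((q.1 : ℕ) : ℤ) - D') < -(D : ℤ) ∨ (D : ℤ) ≤ (((q.1 : ℕ) : ℤ) - D')
  · rw [hf _ _ hq, smul_zero]
  · push Not at hq
    rw [hv q.2 _ hq.1 hq.2, zero_smul]

omit [Fintype ι] [DecidableEq ι] in
private theorem bdB_tr_self {v : LV A ι} {D : ℤ} (hv : ∀ j b, b < D → (v j).coeff b = 0) :
    tr D v = v := by
  funext i
  apply ext_coeff
  intro k
  rw [tr_coeff]
  split_ifs with h
  · rfl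
  · exact (hv i k (lt_of_not_ge h)).symm

omit [Fintype ι] [DecidableEq ι] in
private theorem bdB_tr_zero {v : LV A ι} {D : ℤ} (hv : ∀ j b, D ≤ b → (v j).coeff b = 0) :
    tr D v = 0 := by
  funext i
  apply ext_coeff
  intro k
  rw [tr_coeff, Pi.zero_apply, AddMonoidAlgebra.coeff_zero, Finsupp.coe_zero, Pi.zero_apply]
  split_ifs with h
  · exact hv i k h
  · rfl

omit [Fintype ι] [DecidableEq ι] in
private theorem bdB_tr_low (D : ℤ) (v : LV A ι) (j : ι) (b : ℤ) (hb : b < D) :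
    (tr D v j).coeff b = 0 := by
  rw [tr_coeff, if_neg (not_le.2 hb)]

omit [Fintype ι] in
private theorem bdB_bas_high (a : ℤ) (i j : ι) (b : ℤ) (hb : a + 1 ≤ b) :
    (bas (A := A) a i j).coeff b = 0 := by
  rw [bas_coeff, if_neg]
  rintro ⟨_, h⟩
  omega

/-- The multiplication by `T^n`. -/
private noncomputable def bdB_sh (n : ℤ) : Op A ι ι where
  toFun v := fun i => AddMonoidAlgebra.single n 1 * v i
  map_add' v w := by
    funext i
    exact mul_add _ _ _
  map_smul' c v := by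
    funext i
    apply ext_coeff
    intro k
    rw [coeff_T_mul]
    simp only [Pi.smul_apply, AddMonoidAlgebra.coeff_smul, Finsupp.smul_apply, RingHom.id_apply]
    rw [coeff_T_mul]

omit [Fintype ι] [DecidableEq ι] in
private theorem bdB_sh_apply (n : ℤ) (v : LV A ι) (i : ι) :
    bdB_sh n v i = AddMonoidAlgebra.single n 1 * v i := rfl

omit [Fintype ι] [DecidableEq ι] in
private theorem bdB_sh_coeff (n : ℤ) (v : LV A ι) (i : ι) (k : ℤ) :
    (bdB_sh n v i).coeff k = (v i).coeff (k - n) := by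
  rw [bdB_sh_apply, coeff_T_mul]

omit [DecidableEq ι] in
private theorem bdB_sh_rm (n : ℤ) (U : Matrix ι ι A[T;T⁻¹]) (v : LV A ι) :
    rm U (bdB_sh n v) = bdB_sh n (rm U v) := by
  funext j
  rw [bdB_sh_apply, rm_apply, rm_apply, Finset.mul_sum]
  exact Finset.sum_congr rfl fun i _ => by rw [bdB_sh_apply, mul_assoc]

omit [Fintype ι] [DecidableEq ι] in
private theorem bdB_sh_tr (n m : ℤ) (v : LV A ι) :
    bdB_sh n (tr m v) = tr (n + m) (bdB_sh n v) := by
  funext i
  apply ext_coeff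
  intro k
  rw [bdB_sh_coeff, tr_coeff, tr_coeff, bdB_sh_coeff]
  by_cases h : m ≤ k - n
  · rw [if_pos h, if_pos (by omega)]
  · rw [if_neg h, if_neg (by omega)]

omit [Fintype ι] [DecidableEq ι] in
private theorem bdB_sh_sh (n : ℤ) (v : LV A ι) : bdB_sh n (bdB_sh (-n) v) = v := by
  funext i
  apply ext_coeff
  intro k
  rw [bdB_sh_coeff, bdB_sh_coeff]
  congr 1
  omega

theorem bd_mul (U V : (Matrix ι ι A[T;T⁻¹])ˣ) : bd (U * V) = bd U + bd V := by
  obtain ⟨D1, hV, hV'⟩ := exists_dU V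
  obtain ⟨D2, hU, hU'⟩ := exists_dU U
  have hb : Bdd (D2 + D1) ((U * V : (Matrix ι ι A[T;T⁻¹])ˣ) : Matrix ι ι A[T;T⁻¹]) := by
    rw [Units.val_mul]
    exact bdB_mul hU hV
  have hb' : Bdd (D2 + D1) (((U * V)⁻¹ : (Matrix ι ι A[T;T⁻¹])ˣ) : Matrix ι ι A[T;T⁻¹]) := by
    rw [_root_.mul_inv_rev, Units.val_mul, Nat.add_comm]
    exact bdB_mul hV' hU'
  set a : Op A ι ι := rm (U : Matrix ι ι A[T;T⁻¹]) with ha
  set a' : Op A ι ι := rm ((U⁻¹ : (Matrix ι ι A[T;T⁻¹])ˣ) : Matrix ι ι A[T;T⁻¹]) with ha'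
  have haa : ∀ v, a' (a v) = v := fun v => by
    have h : a'.comp a = LinearMap.id := by
      rw [ha, ha', ← rm_mul, Units.mul_inv, rm_one]
    exact LinearMap.congr_fun h v
  have haa' : ∀ v, a (a' v) = v := fun v => by
    have h : a.comp a' = LinearMap.id := by
      rw [ha, ha', ← rm_mul, Units.inv_mul, rm_one]
    exact LinearMap.congr_fun h v
  -- the operator of the product
  have hUV : ∀ v, eU (U * V) v = a' (eU V (a v)) := by
    intro v
    have h1 : rm ((U * V : (Matrix ι ι A[T;T⁻¹])ˣ) : Matrix ι ι A[T;T⁻¹]) =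
        (rm (V : Matrix ι ι A[T;T⁻¹])).comp a := by
      rw [Units.val_mul, rm_mul]
    have h2 : rm (((U * V)⁻¹ : (Matrix ι ι A[T;T⁻¹])ˣ) : Matrix ι ι A[T;T⁻¹]) =
        a'.comp (rm ((V⁻¹ : (Matrix ι ι A[T;T⁻¹])ˣ) : Matrix ι ι A[T;T⁻¹])) := by
      rw [_root_.mul_inv_rev, Units.val_mul, rm_mul]
    rw [eU, h1, h2, eU]
    rfl
  -- truncations
  have hi : ∀ v, tr (D1 : ℤ) (a (tr ((D2 + D1 : ℕ) : ℤ) v)) = a (tr ((D2 + D1 : ℕ) : ℤ) v) := by
    intro v
    refine bdB_tr_self fun j b hb => ?_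
    exact bdB_low hU (bdB_tr_low _ v) j b (by push_cast; omega)
  have hii : ∀ v, tr ((D2 + D1 : ℕ) : ℤ) (a' (tr (D1 : ℤ) v)) =
      tr ((D2 + D1 : ℕ) : ℤ) (a' v) := by
    intro v
    rw [← sub_eq_zero, ← map_sub, ← map_sub]
    refine bdB_tr_zero fun j b hb => ?_
    refine bdB_high (p := D1) hU' (fun l c hc => ?_) j b (by push_cast at hb; omega)
    rw [Pi.sub_apply, AddMonoidAlgebra.coeff_sub, Finsupp.sub_apply, tr_coeff, if_pos hc, sub_self]
  -- the three operators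
  set f : Op A ι ι := eU V - tr (D1 : ℤ) with hf
  set f2 : Op A ι ι := eU U - tr (D2 : ℤ) with hf2
  have hfi : f.comp f = f := eU_sub_idem hV hV'
  have hf2i : f2.comp f2 = f2 := eU_sub_idem hU hU'
  have hfs : Sup D1 f := eU_sup hV hV'
  have hfm : Img D1 f := eU_img hV hV'
  have hf2s : Sup D2 f2 := eU_sup hU hU'
  have hf2m : Img D2 f2 := eU_img hU hU'
  have tt : ∀ (n : ℤ) (v : LV A ι), tr n (tr n v) = tr n v := fun n v => by
    have h := LinearMap.congr_fun (tr_tr (A := A) (ι := ι) n n) v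
    rwa [max_self] at h
  have hft : ∀ v, f (tr (D1 : ℤ) v) = 0 := fun v => by
    have h : eU V (tr (D1 : ℤ) v) = tr (D1 : ℤ) v := LinearMap.congr_fun (eU_tr hV hV') v
    rw [hf, LinearMap.sub_apply, h, tt, sub_self]
  have htf : ∀ v, tr (D1 : ℤ) (f v) = 0 := fun v => by
    have h : tr (D1 : ℤ) (eU V v) = tr (D1 : ℤ) v := LinearMap.congr_fun (tr_eU hV hV') v
    rw [hf, LinearMap.sub_apply, map_sub, h, tt, sub_self]
  set e : Op A ι ι := a'.comp (f.comp a) with he
  set g : Op A ι ι := a'.comp ((tr (D1 : ℤ)).comp a) - tr ((D2 + D1 : ℕ) : ℤ) with hg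
  have e1 : ∀ v, e v = a' (f (a v)) := fun v => rfl
  have g1 : ∀ v, g v = a' (tr (D1 : ℤ) (a v)) - tr ((D2 + D1 : ℕ) : ℤ) v := fun v => rfl
  have ff : ∀ v, f (f v) = f v := fun v => LinearMap.congr_fun hfi v
  have hei : e.comp e = e := by
    apply LinearMap.ext
    intro v
    rw [LinearMap.comp_apply, e1, e1, haa', ff]
  have htg : ∀ v, tr ((D2 + D1 : ℕ) : ℤ) (g v) = 0 := fun v => by
    rw [g1, map_sub, hii, haa, tt, sub_self]
  have hgt : ∀ v, g (tr ((D2 + D1 : ℕ) : ℤ) v) = 0 := fun v => by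
    rw [g1, hi, haa, tt, sub_self]
  have hgi : g.comp g = g := by
    apply LinearMap.ext
    intro v
    rw [LinearMap.comp_apply]
    conv_lhs => rw [g1 (g v)]
    rw [htg, sub_zero]
    have h : tr (D1 : ℤ) (a (g v)) = tr (D1 : ℤ) (a v) - a (tr ((D2 + D1 : ℕ) : ℤ) v) := by
      rw [g1, map_sub, map_sub, haa', tt, hi]
    rw [h, map_sub, haa, g1]
  have heg : e.comp g = 0 := by
    apply LinearMap.ext
    intro v
    have h : a (g v) = tr (D1 : ℤ) (a v) - tr (D1 : ℤ) (a (tr ((D2 + D1 : ℕ) : ℤ) v)) := by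
      rw [g1, map_sub, haa', hi]
    rw [LinearMap.comp_apply, e1, h, map_sub, hft, hft, sub_zero, map_zero]
    rfl
  have hge : g.comp e = 0 := by
    apply LinearMap.ext
    intro v
    rw [LinearMap.comp_apply, g1, e1, haa', htf, map_zero, zero_sub, ← hii, htf, map_zero,
      map_zero, neg_zero]
    rfl
  -- the windows
  have hbas : ∀ (c : ℤ) (i : ι), ((D2 + D1 : ℕ) : ℤ) ≤ c →
      tr ((D2 + D1 : ℕ) : ℤ) (bas (A := A) c i) = bas c i := fun c i hc => by
    rw [tr_bas, if_pos hc]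
  have hes : Sup (D2 + D1) e := by
    intro c i hc
    rw [e1]
    rcases hc with hc | hc
    · have h : f (a (bas c i)) = 0 := by
        refine bdB_kill hfs fun j b hb _ => ?_
        exact bdB_high hU (bdB_bas_high c i) j b (by push_cast at hc; omega)
      rw [h, map_zero]
    · rw [← hbas c i hc, ← hi, hft, map_zero]
  have hem : Img (D2 + D1) e := by
    intro v j b hb
    rw [e1]
    rcases hb with hb | hb
    · exact bdB_low (p := -D1) hU' (fun l c hc => hfm _ l c (Or.inl (by omega))) j b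
        (by push_cast at hb; omega)
    · exact bdB_high (p := D1) hU' (fun l c hc => hfm _ l c (Or.inr (by omega))) j b
        (by push_cast at hb; omega)
  have hgs : Sup (D2 + D1) g := by
    intro c i hc
    rcases hc with hc | hc
    · have h1 : tr ((D2 + D1 : ℕ) : ℤ) (bas (A := A) c i) = 0 := by
        rw [tr_bas, if_neg (by push_cast at hc ⊢; omega)]
      have h2 : tr (D1 : ℤ) (a (bas c i)) = 0 := by
        refine bdB_tr_zero fun j b hb => ?_
        exact bdB_high hU (bdB_bas_high c i) j b (by push_cast at hc; omega)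
      rw [g1, h1, h2, map_zero, sub_zero]
    · rw [← hbas c i hc, hgt]
  have hgm : Img (D2 + D1) g := by
    intro v j b hb
    rcases hb with hb | hb
    · rw [g1, Pi.sub_apply, AddMonoidAlgebra.coeff_sub, Finsupp.sub_apply,
        bdB_tr_low _ v j b (by push_cast at hb ⊢; omega), sub_zero]
      exact bdB_low hU' (bdB_tr_low _ _) j b (by push_cast at hb; omega)
    · have h := tr_coeff ((D2 + D1 : ℕ) : ℤ) (g v) j b
      rw [if_pos hb, htg] at h
      rw [← h]
      rfl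
  -- the classes
  have c1 : fcl e = fcl f := by
    refine fcl_equiv (D := D2 + D1) (f.comp a) a' e f rfl ?_ hei hfi hes hem
      (hfs.mono (by omega)) (hfm.mono (by omega))
    apply LinearMap.ext
    intro v
    rw [LinearMap.comp_apply, LinearMap.comp_apply, haa']
  have c2 : fcl g = fcl f2 := by
    refine fcl_equiv (D := D2 + D1) (f2.comp (bdB_sh (-D1))) (bdB_sh D1) g f2 ?_ ?_ hgi hf2i hgs
      hgm (hf2s.mono (by omega)) (hf2m.mono (by omega))
    · apply LinearMap.ext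
      intro v
      rw [LinearMap.comp_apply, LinearMap.comp_apply, g1, hf2, LinearMap.sub_apply, map_sub,
        bdB_sh_tr, bdB_sh_sh]
      have h1 : bdB_sh (D1 : ℤ) (eU U (bdB_sh (-(D1 : ℤ)) v)) = a' (tr (D1 : ℤ) (a v)) := by
        have h2 : eU U (bdB_sh (-(D1 : ℤ)) v) = a' (tr 0 (a (bdB_sh (-(D1 : ℤ)) v))) := rfl
        rw [h2, ha', ← bdB_sh_rm, bdB_sh_tr, ha, ← bdB_sh_rm, bdB_sh_sh, add_zero]
      rw [h1]
      congr 3
      push_cast
      ring
    · apply LinearMap.ext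
      intro v
      rw [LinearMap.comp_apply, LinearMap.comp_apply]
      have h := bdB_sh_sh (-(D1 : ℤ)) v
      rw [neg_neg] at h
      rw [h]
  have c3 : eU (U * V) - tr ((D2 + D1 : ℕ) : ℤ) = e + g := by
    apply LinearMap.ext
    intro v
    have h : eU V (a v) = f (a v) + tr (D1 : ℤ) (a v) := by
      rw [hf, LinearMap.sub_apply, sub_add_cancel]
    rw [LinearMap.sub_apply, LinearMap.add_apply, hUV, h, map_add, e1, g1, add_sub_assoc]
  rw [bd_eq hb hb', bd_eq hU hU', bd_eq hV hV', c3, fcl_add hei hgi heg hge hes hem hgs hgm, c1,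
    c2, Nat.add_mul, add_smul]
  abel

end Pool.Agent.H8.KZ
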