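import Pool.Agent.H8.KZ.BdA
import Pool.Agent.H95.WH.K1B

/-!
# KZ, module BdC: the boundary of block sums

Definitions: `OpDefs.lean`, `BdDefs.lean`; calculus: `Op.lean`, `Fcl.lean` (complete), `BdA.lean`.

PROOFS.  Choose one `D` bounding all matrices involved (`exists_dU`, `Bdd.mono`) and use `bd_eq`,
`fcl_eq`.
* `bd_fromBlocks`: `W⁻¹ = fromBlocks U⁻¹ 0 0 V⁻¹`.  The vectors of `LV A (ι ⊕ κ)` are pairs, `eU W` acts
  by `eU U` and `eU V`, so `mt D D (eU W - tr D)` is, after the reindexing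
  `Fin (2 D) × (ι ⊕ κ) ≃ (Fin (2 D) × ι) ⊕ (Fin (2 D) × κ)` (`Equiv.prodSumDistrib`), the block diagonal
  matrix of `mt D D (eU U - tr D)`, `mt D D (eU V - tr D)`; `K0.cls_fromBlocks`,
  `K0.matEquiv_submatrix`, `K0.cls_congr`.  (Or: `mt` of `W` is `x y` and the block matrix is `y x` for
  the obvious `x`, `y`.)
* `bd_reindex`: the same with the reindexing by `σ`.
* `bd_one`: `eU 1 = tr 0` and `fcl_slice`, or from `bd_mul`.
* `bd_stab`: `stabMat U = reindex finSumFinEquiv finSumFinEquiv (fromBlocks U 0 0 1)`.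
-/

set_option autoImplicit false

open Matrix
open scoped LaurentPolynomial

universe u v w

namespace Pool.Agent.H8.KZ

open Pool.Agent.H71.FJ Pool.Agent.H95.KM

variable {A : Type u} [Ring A] {ι : Type} [Fintype ι] [DecidableEq ι] {κ : Type} [Fintype κ]
  [DecidableEq κ]

private theorem bdc_trL_zero (D : ℤ) : trL D (0 : A[T;T⁻¹]) = 0 := map_zero _

private theorem bdc_eU_bas (U : (Matrix ι ι A[T;T⁻¹])ˣ) (a : ℤ) (i j : ι) :
    eU U (bas a i) j = ∑ k, trL 0 (AddMonoidAlgebra.single a 1 *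
      (U : Matrix ι ι A[T;T⁻¹]) i k) *
      ((U⁻¹ : (Matrix ι ι A[T;T⁻¹])ˣ) : Matrix ι ι A[T;T⁻¹]) k j := by
  rw [eU, LinearMap.comp_apply, LinearMap.comp_apply, rm_apply]
  refine Finset.sum_congr rfl fun k _ => ?_
  congr 1
  rw [← rm_bas]
  rfl

private theorem bdc_mt (U : (Matrix ι ι A[T;T⁻¹])ˣ) (D : ℕ) (p q : Fin (2 * D) × ι) :
    mt D D (eU U - tr D) p q = (∑ k, trL 0 (AddMonoidAlgebra.single (((p.1 : ℕ) : ℤ) - D) 1 *
      (U : Matrix ι ι A[T;T⁻¹]) p.2 k) *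
      ((U⁻¹ : (Matrix ι ι A[T;T⁻¹])ˣ) : Matrix ι ι A[T;T⁻¹]) k q.2).coeff
        (((q.1 : ℕ) : ℤ) - D) := by
  have h1 : (tr (D : ℤ) (bas (A := A) (((p.1 : ℕ) : ℤ) - D) p.2) : LV A ι) = 0 := by
    rw [tr_bas, if_neg]
    have := p.1.2
    omega
  simp only [mt, Matrix.of_apply, LinearMap.sub_apply]
  rw [h1, sub_zero, bdc_eU_bas]

theorem bd_fromBlocks (U : (Matrix ι ι A[T;T⁻¹])ˣ) (V : (Matrix κ κ A[T;T⁻¹])ˣ)
    (W : (Matrix (ι ⊕ κ) (ι ⊕ κ) A[T;T⁻¹])ˣ)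
    (hW : (W : Matrix (ι ⊕ κ) (ι ⊕ κ) A[T;T⁻¹]) = fromBlocks (U : Matrix ι ι A[T;T⁻¹]) 0 0
      (V : Matrix κ κ A[T;T⁻¹])) : bd W = bd U + bd V := by
  have hW' : ((W⁻¹ : (Matrix (ι ⊕ κ) (ι ⊕ κ) A[T;T⁻¹])ˣ) : Matrix (ι ⊕ κ) (ι ⊕ κ) A[T;T⁻¹]) =
      fromBlocks ((U⁻¹ : (Matrix ι ι A[T;T⁻¹])ˣ) : Matrix ι ι A[T;T⁻¹]) 0 0
        ((V⁻¹ : (Matrix κ κ A[T;T⁻¹])ˣ) : Matrix κ κ A[T;T⁻¹]) := by
    apply Units.inv_eq_of_mul_eq_one_right
    rw [hW, fromBlocks_multiply]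
    simp only [Matrix.mul_zero, Matrix.zero_mul, add_zero, zero_add, Units.mul_inv,
      fromBlocks_one]
  obtain ⟨D₁, h1, h1'⟩ := exists_dU U
  obtain ⟨D₂, h2, h2'⟩ := exists_dU V
  obtain ⟨D₃, h3, h3'⟩ := exists_dU W
  obtain ⟨D, hD1, hD2, hD3⟩ : ∃ D, D₁ ≤ D ∧ D₂ ≤ D ∧ D₃ ≤ D :=
    ⟨max D₁ (max D₂ D₃), le_max_left _ _, (le_max_left _ _).trans (le_max_right _ _),
      (le_max_right _ _).trans (le_max_right _ _)⟩
  have g1 := h1.mono hD1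
  have g1' := h1'.mono hD1
  have g2 := h2.mono hD2
  have g2' := h2'.mono hD2
  have g3 := h3.mono hD3
  have g3' := h3'.mono hD3
  rw [bd_eq g1 g1', bd_eq g2 g2', bd_eq g3 g3',
    fcl_eq (eU_sub_idem g1 g1') (eU_sup g1 g1') (eU_img g1 g1'),
    fcl_eq (eU_sub_idem g2 g2') (eU_sup g2 g2') (eU_img g2 g2'),
    fcl_eq (eU_sub_idem g3 g3') (eU_sup g3 g3') (eU_img g3 g3')]
  have hm : mt D D (eU W - tr D) = (fromBlocks (mt D D (eU U - tr D)) 0 0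
      (mt D D (eU V - tr D))).submatrix (Equiv.prodSumDistrib (Fin (2 * D)) ι κ)
        (Equiv.prodSumDistrib (Fin (2 * D)) ι κ) := by
    refine Matrix.ext fun p q => ?_
    obtain ⟨a, s⟩ := p
    obtain ⟨b, t⟩ := q
    rw [bdc_mt, hW, hW', submatrix_apply, Fintype.sum_sum_type]
    rcases s with s | s <;> rcases t with t | t
    · rw [Equiv.prodSumDistrib_apply_left, Equiv.prodSumDistrib_apply_left, fromBlocks_apply₁₁,
        bdc_mt]
      simp only [fromBlocks_apply₁₁, fromBlocks_apply₁₂, Matrix.zero_apply,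
        mul_zero, zero_mul, bdc_trL_zero, Finset.sum_const_zero, add_zero]
    · rw [Equiv.prodSumDistrib_apply_left, Equiv.prodSumDistrib_apply_right, fromBlocks_apply₁₂]
      simp only [fromBlocks_apply₁₂, Matrix.zero_apply, bdc_trL_zero, zero_mul,
        mul_zero, Finset.sum_const_zero, add_zero, AddMonoidAlgebra.coeff_zero, Finsupp.coe_zero,
        Pi.zero_apply]
    · rw [Equiv.prodSumDistrib_apply_right, Equiv.prodSumDistrib_apply_left, fromBlocks_apply₂₁]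
      simp only [fromBlocks_apply₂₁, Matrix.zero_apply, bdc_trL_zero, zero_mul,
        mul_zero, Finset.sum_const_zero, add_zero, AddMonoidAlgebra.coeff_zero, Finsupp.coe_zero,
        Pi.zero_apply]
    · rw [Equiv.prodSumDistrib_apply_right, Equiv.prodSumDistrib_apply_right, fromBlocks_apply₂₂,
        bdc_mt]
      simp only [fromBlocks_apply₂₁, fromBlocks_apply₂₂, Matrix.zero_apply,
        mul_zero, zero_mul, bdc_trL_zero, Finset.sum_const_zero, zero_add]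
  have hc : K0.cls (mt D D (eU W - tr D)) (mt_idem (eU_sub_idem g3 g3') (eU_img g3 g3')) =
      K0.cls (mt D D (eU U - tr D)) (mt_idem (eU_sub_idem g1 g1') (eU_img g1 g1')) +
        K0.cls (mt D D (eU V - tr D)) (mt_idem (eU_sub_idem g2 g2') (eU_img g2 g2')) := by
    rw [← K0.cls_fromBlocks]
    apply K0.cls_congr
    rw [hm]
    exact K0.matEquiv_submatrix _ (K0.fromBlocks_idem
      (mt_idem (eU_sub_idem g1 g1') (eU_img g1 g1'))
      (mt_idem (eU_sub_idem g2 g2') (eU_img g2 g2'))) _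
  rw [hc, Fintype.card_sum, mul_add, add_nsmul]
  abel

theorem bd_reindex (σ : κ ≃ ι) (U : (Matrix ι ι A[T;T⁻¹])ˣ) (W : (Matrix κ κ A[T;T⁻¹])ˣ)
    (hW : (W : Matrix κ κ A[T;T⁻¹]) = (U : Matrix ι ι A[T;T⁻¹]).submatrix σ σ) : bd W = bd U := by
  have hW' : ((W⁻¹ : (Matrix κ κ A[T;T⁻¹])ˣ) : Matrix κ κ A[T;T⁻¹]) =
      ((U⁻¹ : (Matrix ι ι A[T;T⁻¹])ˣ) : Matrix ι ι A[T;T⁻¹]).submatrix σ σ := by
    apply Units.inv_eq_of_mul_eq_one_right
    rw [hW, submatrix_mul_equiv, Units.mul_inv, submatrix_one_equiv]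
  obtain ⟨D₁, h1, h1'⟩ := exists_dU U
  obtain ⟨D₂, h2, h2'⟩ := exists_dU W
  obtain ⟨D, hD1, hD2⟩ : ∃ D, D₁ ≤ D ∧ D₂ ≤ D := ⟨max D₁ D₂, le_max_left _ _, le_max_right _ _⟩
  have g1 := h1.mono hD1
  have g1' := h1'.mono hD1
  have g2 := h2.mono hD2
  have g2' := h2'.mono hD2
  rw [bd_eq g1 g1', bd_eq g2 g2',
    fcl_eq (eU_sub_idem g1 g1') (eU_sup g1 g1') (eU_img g1 g1'),
    fcl_eq (eU_sub_idem g2 g2') (eU_sup g2 g2') (eU_img g2 g2'), Fintype.card_congr σ]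
  have hm : mt D D (eU W - tr D) = (mt D D (eU U - tr D)).submatrix
      (Equiv.prodCongr (Equiv.refl (Fin (2 * D))) σ)
      (Equiv.prodCongr (Equiv.refl (Fin (2 * D))) σ) := by
    refine Matrix.ext fun p q => ?_
    rw [bdc_mt, hW, hW', submatrix_apply, bdc_mt]
    congr 1
    simp only [submatrix_apply]
    rw [← Equiv.sum_comp σ]
    rfl
  have hc : K0.cls (mt D D (eU W - tr D)) (mt_idem (eU_sub_idem g2 g2') (eU_img g2 g2')) =
      K0.cls (mt D D (eU U - tr D)) (mt_idem (eU_sub_idem g1 g1') (eU_img g1 g1')) := by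
    apply K0.cls_congr
    rw [hm]
    exact K0.matEquiv_submatrix _ (mt_idem (eU_sub_idem g1 g1') (eU_img g1 g1')) _
  rw [hc]

omit [Fintype ι] in
private theorem bdc_bdd_one : Bdd 0 (1 : Matrix ι ι A[T;T⁻¹]) := by
  intro i j k hk
  by_cases hij : i = j
  · subst hij
    rw [Matrix.one_apply_eq, AddMonoidAlgebra.one_def, AddMonoidAlgebra.coeff_single,
      Finsupp.single_apply, if_neg]
    rintro rfl
    simp at hk
  · rw [Matrix.one_apply_ne hij, AddMonoidAlgebra.coeff_zero, Finsupp.coe_zero, Pi.zero_apply]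

theorem bd_one : bd (1 : (Matrix ι ι A[T;T⁻¹])ˣ) = 0 := by
  have h1 : Bdd 0 (((1 : (Matrix ι ι A[T;T⁻¹])ˣ)) : Matrix ι ι A[T;T⁻¹]) := bdc_bdd_one
  have h2 : Bdd 0 (((1 : (Matrix ι ι A[T;T⁻¹])ˣ)⁻¹ : (Matrix ι ι A[T;T⁻¹])ˣ) :
      Matrix ι ι A[T;T⁻¹]) := by
    rw [inv_one]
    exact bdc_bdd_one
  have h3 : eU (1 : (Matrix ι ι A[T;T⁻¹])ˣ) = tr 0 := by
    rw [eU, inv_one, Units.val_one, rm_one, LinearMap.comp_id, LinearMap.id_comp]
  have h4 := fcl_slice (A := A) (ι := ι) 0 0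
  rw [zero_mul, zero_nsmul] at h4
  rw [bd_eq h1 h2, zero_mul, zero_nsmul, sub_zero, h3]
  exact h4

theorem bd_stab {n : ℕ} (U : (Matrix (Fin n) (Fin n) A[T;T⁻¹])ˣ) :
    bd (Pool.Agent.H95.WH.stab U) = bd U := by
  have h1 : (Pool.Agent.H95.WH.stab U : Matrix (Fin (n + 1)) (Fin (n + 1)) A[T;T⁻¹]) =
      Matrix.reindex finSumFinEquiv finSumFinEquiv
        (Matrix.fromBlocks (U : Matrix (Fin n) (Fin n) A[T;T⁻¹]) 0 0
          (1 : Matrix (Fin 1) (Fin 1) A[T;T⁻¹])) := rfl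
  have h2 := bd_reindex (A := A) (finSumFinEquiv : Fin n ⊕ Fin 1 ≃ Fin (n + 1))
    (Pool.Agent.H95.WH.stab U)
    (Pool.Agent.H95.WH.reU (finSumFinEquiv : Fin n ⊕ Fin 1 ≃ Fin (n + 1)).symm
      (Pool.Agent.H95.WH.stab U)) rfl
  rw [← h2, bd_fromBlocks U (1 : (Matrix (Fin 1) (Fin 1) A[T;T⁻¹])ˣ), bd_one, add_zero]
  rw [Pool.Agent.H95.WH.reU_val, h1]
  refine Matrix.ext fun i j => ?_
  simp

end Pool.Agent.H8.KZ
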