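import Pool.Agent.H8.KZ.Fcl

/-!
# KZ: the boundary map `GL(A[T, T⁻¹]) → K₀(A)`, definitions

For an invertible matrix `U` over `A[T, T⁻¹]` the operator `eU U : v ↦ t(v U) U⁻¹` (`t` the truncation
to the degrees `≥ 0`) is idempotent and agrees with `t` outside of a finite window, and
`bd U = [eU U - t_D] - [A^(D n)]` for large `D`, `t_D` the truncation to the degrees `≥ D`.
-/

set_option autoImplicit false

open Matrix
open scoped LaurentPolynomial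

universe u v w

namespace Pool.Agent.H8.KZ

open Pool.Agent.H71.FJ Pool.Agent.H95.KM

variable {A : Type u} [Ring A]

/-- The entries of `U` are supported in the degrees `[-D, D]`. -/
def Bdd {ι : Type v} {κ : Type w} (D : ℕ) (U : Matrix ι κ A[T;T⁻¹]) : Prop :=
  ∀ i j (k : ℤ), (D : ℤ) < |k| → (U i j).coeff k = 0

theorem Bdd.mono {ι : Type v} {κ : Type w} {D D' : ℕ} (h : D ≤ D') {U : Matrix ι κ A[T;T⁻¹]}
    (hU : Bdd D U) : Bdd D' U := fun i j k hk => hU i j k (by omega)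

theorem exists_bdd {ι : Type v} {κ : Type w} [Fintype ι] [Fintype κ] (U : Matrix ι κ A[T;T⁻¹]) :
    ∃ D, Bdd D U := by
  refine ⟨∑ i, ∑ j, ∑ b ∈ (U i j).coeff.support, b.natAbs, fun i j k hk => ?_⟩
  by_contra h
  have h1 : k.natAbs ≤ ∑ b ∈ (U i j).coeff.support, b.natAbs :=
    Finset.single_le_sum (f := fun b : ℤ => b.natAbs) (fun _ _ => Nat.zero_le _)
      (Finsupp.mem_support_iff.2 h)
  have h2 : ∑ b ∈ (U i j).coeff.support, b.natAbs ≤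
      ∑ j, ∑ b ∈ (U i j).coeff.support, b.natAbs :=
    Finset.single_le_sum (f := fun j => ∑ b ∈ (U i j).coeff.support, b.natAbs)
      (fun _ _ => Nat.zero_le _) (Finset.mem_univ j)
  have h3 : ∑ j, ∑ b ∈ (U i j).coeff.support, b.natAbs ≤
      ∑ i, ∑ j, ∑ b ∈ (U i j).coeff.support, b.natAbs :=
    Finset.single_le_sum (f := fun i => ∑ j, ∑ b ∈ (U i j).coeff.support, b.natAbs)
      (fun _ _ => Nat.zero_le _) (Finset.mem_univ i)
  rw [Int.abs_eq_natAbs] at hk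
  omega

section

variable {ι : Type} [Fintype ι] [DecidableEq ι]

/-- The operator `v ↦ t(v U) U⁻¹`. -/
noncomputable def eU (U : (Matrix ι ι A[T;T⁻¹])ˣ) : Op A ι ι :=
  (rm ((U⁻¹ : (Matrix ι ι A[T;T⁻¹])ˣ) : Matrix ι ι A[T;T⁻¹])).comp
    ((tr 0).comp (rm (U : Matrix ι ι A[T;T⁻¹])))

theorem exists_dU (U : (Matrix ι ι A[T;T⁻¹])ˣ) : ∃ D, Bdd D (U : Matrix ι ι A[T;T⁻¹]) ∧
    Bdd D ((U⁻¹ : (Matrix ι ι A[T;T⁻¹])ˣ) : Matrix ι ι A[T;T⁻¹]) := by
  obtain ⟨D, hD⟩ := exists_bdd (U : Matrix ι ι A[T;T⁻¹])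
  obtain ⟨D', hD'⟩ := exists_bdd ((U⁻¹ : (Matrix ι ι A[T;T⁻¹])ˣ) : Matrix ι ι A[T;T⁻¹])
  exact ⟨max D D', hD.mono (le_max_left _ _), hD'.mono (le_max_right _ _)⟩

/-- A bound for the degrees of `U` and `U⁻¹`. -/
noncomputable def dU (U : (Matrix ι ι A[T;T⁻¹])ˣ) : ℕ := (exists_dU U).choose

theorem dU_spec (U : (Matrix ι ι A[T;T⁻¹])ˣ) : Bdd (dU U) (U : Matrix ι ι A[T;T⁻¹]) ∧
    Bdd (dU U) ((U⁻¹ : (Matrix ι ι A[T;T⁻¹])ˣ) : Matrix ι ι A[T;T⁻¹]) := (exists_dU U).choose_spec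

/-- The boundary map on invertible matrices. -/
noncomputable def bd (U : (Matrix ι ι A[T;T⁻¹])ˣ) : K0 A :=
  fcl (eU U - tr (dU U)) - (dU U * Fintype.card ι) • one A

end

end Pool.Agent.H8.KZ
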