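import Pool.Agent.H8.KZ.Ev

/-!
# KZ, module BdE: the boundary map is a left inverse of `[e] ↦ [1 - e + e T]`

Definitions: `OpDefs.lean`, `BdDefs.lean`; calculus: `Op.lean`, `Fcl.lean` (complete), `BdA.lean`
(`bd_eq`), `BdK.lean` (`bdK_mk`), `DB.bass`, `DB.bass_mk`, `DB.bU`, `DB.bmat`
(`Pool/Agent/H71/DB/Bass.lean`), `uT` (`Ev.lean`).

PROOF.  By `K0.hom_ext` it suffices to treat `x = K0.mk a`, `e = a.mat`.  `bass_mk`, `bdK_mk`: the left
hand side is `bd U`, `U = 1 + e (T - 1)`, `U⁻¹ = 1 + e (T⁻¹ - 1)`.  `D = 1` bounds `U`, `U⁻¹`.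
`eU U (bas b i) = bas b i` for `b ≥ 0`, `= 0` for `b < -1` and
`eU U (bas (-1) i) = ∑ j, e i j • bas (-1) j` (`(bas (-1) i) U = T⁻¹ (row i of 1 - e) + T⁰ (row i of e)`,
the truncation is `T⁰ (row i of e)` and this times `U⁻¹` is `T⁻¹ (row i of e * e)`).
So `mt 1 1 (eU U - tr 1)` (index `Fin 2 × Fin a.n`, `0 : Fin 2` is the degree `-1`, `1 : Fin 2` is the
degree `0`) is block diagonal with the blocks `e` and `1`, and
`fcl (eU U - tr 1) = K0.mk a + a.n • one A` (`fcl_eq`, `cls_fromBlocks`, `cls_one`); `bd_eq`.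
-/

set_option autoImplicit false

open Matrix
open scoped LaurentPolynomial

universe u v w

namespace Pool.Agent.H8.KZ

open Pool.Agent.H71.FJ (K0 K0.cls K0.mk K0.mk_eq_cls K0.hom_ext MatEquiv)
open Pool.Agent.H95.KM
open Pool.Agent.H71.DB (bass bass_mk bmat bU)

variable {A : Type u} [Ring A]

section aux

variable {ι : Type} [Fintype ι] [DecidableEq ι]

omit [Fintype ι] in
private theorem bde_bmat_coeff (e : Matrix ι ι A) (s : ℤ) (i j : ι) (k : ℤ) :
    (bmat (cst A) e (AddMonoidAlgebra.single s 1) i j).coeff k =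
      (if k = 0 then (1 : Matrix ι ι A) i j - e i j else 0) + (if k = s then e i j else 0) := by
  classical
  have h0 : ((1 : Matrix ι ι A[T;T⁻¹]) i j) = AddMonoidAlgebra.single 0 ((1 : Matrix ι ι A) i j) := by
    by_cases hij : i = j
    · rw [hij, Matrix.one_apply_eq, Matrix.one_apply_eq]
      rfl
    · rw [Matrix.one_apply_ne hij, Matrix.one_apply_ne hij, AddMonoidAlgebra.single_zero]
  have h1 : cst A (e i j) * (AddMonoidAlgebra.single s 1 - 1 : A[T;T⁻¹]) =
      AddMonoidAlgebra.single s (e i j) - AddMonoidAlgebra.single 0 (e i j) := by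
    rw [mul_sub, mul_one, cst_apply, AddMonoidAlgebra.single_mul_single, zero_add, mul_one]
  rw [bmat, Matrix.add_apply, Matrix.map_apply, h0, h1, AddMonoidAlgebra.coeff_add,
    AddMonoidAlgebra.coeff_sub, Finsupp.add_apply, Finsupp.sub_apply,
    AddMonoidAlgebra.coeff_single, AddMonoidAlgebra.coeff_single, AddMonoidAlgebra.coeff_single,
    Finsupp.single_apply, Finsupp.single_apply, Finsupp.single_apply]
  generalize (1 : Matrix ι ι A) i j = r
  generalize e i j = r'
  by_cases hk : k = 0
  · by_cases hs : k = s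
    · rw [if_pos hk.symm, if_pos hk.symm, if_pos hk, if_pos hs.symm, if_pos hs]
      abel
    · rw [if_pos hk.symm, if_pos hk.symm, if_pos hk, if_neg (Ne.symm hs), if_neg hs]
      abel
  · by_cases hs : k = s
    · rw [if_neg (Ne.symm hk), if_neg (Ne.symm hk), if_neg hk, if_pos hs.symm, if_pos hs]
      abel
    · rw [if_neg (Ne.symm hk), if_neg (Ne.symm hk), if_neg hk, if_neg (Ne.symm hs), if_neg hs]
      abel

private theorem bde_U (e : Matrix ι ι A) (he : e * e = e)
    (h : ∀ b, cst A b * (uT A : A[T;T⁻¹]) = (uT A : A[T;T⁻¹]) * cst A b) (i j : ι) (k : ℤ) :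
    (((bU (cst A) e he (uT A) h : (Matrix ι ι A[T;T⁻¹])ˣ) : Matrix ι ι A[T;T⁻¹]) i j).coeff k =
      (if k = 0 then (1 : Matrix ι ι A) i j - e i j else 0) + (if k = 1 then e i j else 0) :=
  bde_bmat_coeff e 1 i j k

private theorem bde_V (e : Matrix ι ι A) (he : e * e = e)
    (h : ∀ b, cst A b * (uT A : A[T;T⁻¹]) = (uT A : A[T;T⁻¹]) * cst A b) (i j : ι) (k : ℤ) :
    ((((bU (cst A) e he (uT A) h)⁻¹ : (Matrix ι ι A[T;T⁻¹])ˣ) : Matrix ι ι A[T;T⁻¹]) i j).coeff k =
      (if k = 0 then (1 : Matrix ι ι A) i j - e i j else 0) + (if k = -1 then e i j else 0) :=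
  bde_bmat_coeff e (-1) i j k

/-- The operator on the degree `-1`. -/
private theorem bde_E (e : Matrix ι ι A) (he : e * e = e)
    (h : ∀ b, cst A b * (uT A : A[T;T⁻¹]) = (uT A : A[T;T⁻¹]) * cst A b) (a : ℤ) (i : ι) :
    (eU (bU (cst A) e he (uT A) h) - tr 0 : Op A ι ι) (bas a i) =
      if a = -1 then ∑ j, e i j • bas (-1) j else 0 := by
  set U := bU (cst A) e he (uT A) h with hU
  have hc : ∀ (a : ℤ) (i j : ι) (b : ℤ), (rm (U : Matrix ι ι A[T;T⁻¹]) (bas a i) j).coeff b =
      (if b - a = 0 then (1 : Matrix ι ι A) i j - e i j else 0) + (if b - a = 1 then e i j else 0) := by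
    intro a i j b
    rw [rm_bas_coeff]
    exact bde_U e he h i j (b - a)
  have hV : ∀ (a : ℤ) (i j : ι) (b : ℤ),
      (rm ((U⁻¹ : (Matrix ι ι A[T;T⁻¹])ˣ) : Matrix ι ι A[T;T⁻¹]) (bas a i) j).coeff b =
      (if b - a = 0 then (1 : Matrix ι ι A) i j - e i j else 0) + (if b - a = -1 then e i j else 0) := by
    intro a i j b
    rw [rm_bas_coeff]
    exact bde_V e he h i j (b - a)
  rw [LinearMap.sub_apply, tr_bas, eU, LinearMap.comp_apply, LinearMap.comp_apply]
  rcases lt_trichotomy a (-1) with ha | ha | ha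
  · have h1 : tr 0 (rm (U : Matrix ι ι A[T;T⁻¹]) (bas a i)) = 0 := by
      funext j
      apply ext_coeff
      intro b
      rw [tr_coeff, hc, Pi.zero_apply, AddMonoidAlgebra.coeff_zero, Finsupp.coe_zero,
        Pi.zero_apply]
      by_cases hb : (0 : ℤ) ≤ b
      · rw [if_pos hb, if_neg (by omega), if_neg (by omega), add_zero]
      · rw [if_neg hb]
    rw [h1, map_zero, if_neg (by omega), if_neg (by omega), sub_zero]
  · subst ha
    have h1 : tr 0 (rm (U : Matrix ι ι A[T;T⁻¹]) (bas (-1) i)) = ∑ k, e i k • bas (A := A) 0 k := by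
      funext j
      apply ext_coeff
      intro b
      rw [tr_coeff, hc, Finset.sum_apply, AddMonoidAlgebra.coeff_sum, Finsupp.finsetSum_apply]
      simp only [Pi.smul_apply, AddMonoidAlgebra.coeff_smul, Finsupp.smul_apply, bas_coeff,
        smul_eq_mul, mul_ite, mul_one, mul_zero]
      by_cases hb : b = 0
      · rw [hb, Finset.sum_eq_single j]
        · simp
        · intro k _ hk
          rw [if_neg]
          rintro ⟨h2, _⟩
          exact hk h2
        · intro h2
          exact absurd (Finset.mem_univ _) h2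
      · rw [Finset.sum_eq_zero]
        · by_cases hb0 : (0 : ℤ) ≤ b
          · rw [if_pos hb0, if_neg (by omega), if_neg (by omega), add_zero]
          · rw [if_neg hb0]
        · intro k _
          rw [if_neg]
          rintro ⟨_, h2⟩
          exact hb h2.symm
    rw [h1, if_neg (by omega), if_pos rfl, sub_zero, map_sum]
    funext j
    apply ext_coeff
    intro b
    rw [Finset.sum_apply, AddMonoidAlgebra.coeff_sum, Finsupp.finsetSum_apply, Finset.sum_apply,
      AddMonoidAlgebra.coeff_sum, Finsupp.finsetSum_apply]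
    simp only [map_smul, Pi.smul_apply, AddMonoidAlgebra.coeff_smul, Finsupp.smul_apply, bas_coeff,
      smul_eq_mul, mul_ite, mul_one, mul_zero, hV, sub_zero]
    have h3 : ∑ k, e i k * ((if b = 0 then (1 : Matrix ι ι A) k j - e k j else 0) +
        (if b = -1 then e k j else 0)) = if b = -1 then e i j else 0 := by
      have h4 : ∑ k, e i k * e k j = e i j := by
        rw [← Matrix.mul_apply, he]
      have h5 : ∑ k, e i k * (1 : Matrix ι ι A) k j = e i j := by
        rw [← Matrix.mul_apply, mul_one]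
      by_cases hb : b = 0
      · subst hb
        simp only [if_true, if_neg (show ¬ ((0 : ℤ) = -1) by omega), add_zero, mul_sub,
          Finset.sum_sub_distrib, h4, h5, sub_self]
      · simp only [if_neg hb, zero_add, mul_ite, mul_zero]
        by_cases hb1 : b = -1
        · simp only [if_pos hb1, h4]
        · simp only [if_neg hb1, Finset.sum_const_zero]
    rw [h3]
    by_cases hb1 : b = -1
    · rw [if_pos hb1, Finset.sum_eq_single j]
      · rw [if_pos ⟨rfl, hb1.symm⟩]
      · intro k _ hk
        rw [if_neg]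
        rintro ⟨h2, _⟩
        exact hk h2
      · intro h2
        exact absurd (Finset.mem_univ _) h2
    · rw [if_neg hb1, Finset.sum_eq_zero]
      intro k _
      rw [if_neg]
      rintro ⟨_, h2⟩
      exact hb1 h2.symm
  · have h1 : tr 0 (rm (U : Matrix ι ι A[T;T⁻¹]) (bas a i)) =
        rm (U : Matrix ι ι A[T;T⁻¹]) (bas a i) := by
      funext j
      apply ext_coeff
      intro b
      rw [tr_coeff, hc]
      by_cases hb : (0 : ℤ) ≤ b
      · rw [if_pos hb]
      · rw [if_neg hb, if_neg (by omega), if_neg (by omega), add_zero]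
    rw [h1, if_pos (by omega), if_neg (by omega), ← LinearMap.comp_apply, ← rm_mul, Units.mul_inv,
      rm_one, LinearMap.id_apply, sub_self]

/-- The support of the values is tested on the basis. -/
private theorem bde_img {x : Op A ι ι} {D : ℕ}
    (h : ∀ a i j (b : ℤ), (b < -(D : ℤ) ∨ (D : ℤ) ≤ b) → (x (bas a i) j).coeff b = 0) :
    Img D x := by
  intro v j b hb
  obtain ⟨N, hN⟩ := lv_expand' v
  rw [hN, map_sum, Finset.sum_apply, AddMonoidAlgebra.coeff_sum, Finsupp.finsetSum_apply]
  apply Finset.sum_eq_zero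
  intro q _
  rw [map_smul, Pi.smul_apply, AddMonoidAlgebra.coeff_smul, Finsupp.smul_apply, h _ _ _ _ hb,
    smul_zero]

end aux

theorem bdK_bass (h : ∀ b, cst A b * (uT A : A[T;T⁻¹]) = (uT A : A[T;T⁻¹]) * cst A b) (x : K0 A) :
    bdK (bass (cst A) (uT A) h x) = x := by
  suffices H : (bdK : Pool.Agent.H95.WH.K1 A[T;T⁻¹] →+ K0 A).comp (bass (cst A) (uT A) h) = AddMonoidHom.id (K0 A) from
    DFunLike.congr_fun H x
  apply K0.hom_ext
  intro a
  rw [AddMonoidHom.comp_apply, bass_mk, bdK_mk, AddMonoidHom.id_apply]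
  set U := bU (cst A) a.mat a.idem (uT A) h with hU
  set E : Op A (Fin a.n) (Fin a.n) := eU U - tr 0 with hE
  have hEb : ∀ (b : ℤ) (i : Fin a.n), E (bas b i) =
      if b = -1 then ∑ j, a.mat i j • bas (-1) j else 0 := bde_E a.mat a.idem h
  have hco : ∀ (i j : Fin a.n) (b : ℤ),
      ((∑ k, a.mat i k • bas (A := A) (-1) k) j).coeff b = if b = -1 then a.mat i j else 0 := by
    intro i j b
    rw [Finset.sum_apply, AddMonoidAlgebra.coeff_sum, Finsupp.finsetSum_apply]
    simp only [Pi.smul_apply, AddMonoidAlgebra.coeff_smul, Finsupp.smul_apply, bas_coeff,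
      smul_eq_mul, mul_ite, mul_one, mul_zero]
    by_cases hb1 : b = -1
    · rw [if_pos hb1, Finset.sum_eq_single j]
      · rw [if_pos ⟨rfl, hb1.symm⟩]
      · intro k _ hk
        rw [if_neg]
        rintro ⟨h2, _⟩
        exact hk h2
      · intro h2
        exact absurd (Finset.mem_univ _) h2
    · rw [if_neg hb1, Finset.sum_eq_zero]
      intro k _
      rw [if_neg]
      rintro ⟨_, h2⟩
      exact hb1 h2.symm
  have hB : Bdd 1 (U : Matrix (Fin a.n) (Fin a.n) A[T;T⁻¹]) := by
    intro i j k hk
    rw [lt_abs] at hk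
    refine (bde_U a.mat a.idem h i j k).trans ?_
    rw [if_neg (by push_cast at hk; omega), if_neg (by push_cast at hk; omega), add_zero]
  have hB' : Bdd 1 ((U⁻¹ : (Matrix (Fin a.n) (Fin a.n) A[T;T⁻¹])ˣ) :
      Matrix (Fin a.n) (Fin a.n) A[T;T⁻¹]) := by
    intro i j k hk
    rw [lt_abs] at hk
    refine (bde_V a.mat a.idem h i j k).trans ?_
    rw [if_neg (by push_cast at hk; omega), if_neg (by push_cast at hk; omega), add_zero]
  have hsE : Sup 1 E := by
    intro b i hb
    rw [hEb, if_neg (by push_cast at hb; omega)]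
  have hiE : Img 1 E := by
    apply bde_img
    intro b i j c hc
    rw [hEb]
    by_cases hb : b = -1
    · rw [if_pos hb, hco, if_neg (by push_cast at hc; omega)]
    · rw [if_neg hb]
      rfl
  have hEE : E.comp E = E := by
    apply op_ext
    intro b i
    rw [LinearMap.comp_apply, hEb]
    by_cases hb : b = -1
    · rw [if_pos hb, map_sum]
      simp only [map_smul, hEb, if_true]
      funext j
      apply ext_coeff
      intro c
      rw [hco, Finset.sum_apply, AddMonoidAlgebra.coeff_sum, Finsupp.finsetSum_apply]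
      simp only [Pi.smul_apply, AddMonoidAlgebra.coeff_smul, Finsupp.smul_apply, hco,
        smul_eq_mul, mul_ite, mul_zero]
      by_cases hc : c = -1
      · simp only [if_pos hc]
        rw [← Matrix.mul_apply, a.idem]
      · simp only [if_neg hc, Finset.sum_const_zero]
    · rw [if_neg hb, map_zero]
  set F : Op A (Fin a.n) (Fin a.n) := tr 0 - tr 1 with hF
  have hFb : ∀ (b : ℤ) (i : Fin a.n), F (bas b i) = if b = 0 then bas b i else 0 := by
    intro b i
    rw [hF, LinearMap.sub_apply, tr_bas, tr_bas]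
    by_cases hb : b = 0
    · rw [if_pos (by omega), if_neg (by omega), if_pos hb, sub_zero]
    · rw [if_neg hb]
      by_cases hb0 : (0 : ℤ) ≤ b
      · rw [if_pos hb0, if_pos (by omega), sub_self]
      · rw [if_neg hb0, if_neg (by omega), sub_self]
  have hFF : F.comp F = F := slice_idem (by norm_num)
  have hsF : Sup 1 F := slice_sup (by norm_num) (by norm_num) (by norm_num)
  have hiF : Img 1 F := slice_img (by norm_num) (by norm_num) (by norm_num)
  have hEF : E.comp F = 0 := by
    apply op_ext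
    intro b i
    rw [LinearMap.comp_apply, hFb]
    by_cases hb : b = 0
    · rw [if_pos hb, hEb, if_neg (by omega), LinearMap.zero_apply]
    · rw [if_neg hb, map_zero, LinearMap.zero_apply]
  have hFE : F.comp E = 0 := by
    apply op_ext
    intro b i
    rw [LinearMap.comp_apply, hEb]
    by_cases hb : b = -1
    · rw [if_pos hb, map_sum, LinearMap.zero_apply]
      apply Finset.sum_eq_zero
      intro j _
      rw [map_smul, hFb, if_neg (by omega), smul_zero]
    · rw [if_neg hb, map_zero, LinearMap.zero_apply]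
  have hdec : eU U - tr ((1 : ℕ) : ℤ) = E + F := by
    rw [hE, hF, Nat.cast_one]
    abel
  rw [bd_eq hB hB', hdec, fcl_add hEE hFF hEF hFE hsE hiE hsF hiF]
  have h1 : fcl F = (1 * Fintype.card (Fin a.n)) • one A := by
    rw [← fcl_slice (A := A) (ι := Fin a.n) 0 1]
    congr 1
  rw [h1, add_sub_cancel_right, fcl_eq hEE hsE hiE, K0.mk_eq_cls]
  apply K0.cls_congr
  have hm : ∀ p q, mt 1 1 E p q = if p.1 = 0 ∧ q.1 = 0 then a.mat p.2 q.2 else 0 := by
    rintro ⟨p, i⟩ ⟨q, j⟩
    simp only [mt, Matrix.of_apply]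
    rw [hEb]
    by_cases hp : p = 0
    · subst hp
      rw [if_pos (by simp), hco]
      by_cases hq : q = 0
      · subst hq
        rw [if_pos (by simp), if_pos ⟨rfl, rfl⟩]
      · rw [if_neg, if_neg]
        · rintro ⟨_, h2⟩
          exact hq h2
        · intro h2
          apply hq
          apply Fin.ext
          have h3 : (((0 : Fin (2 * 1)) : ℕ)) = 0 := rfl
          rw [h3]
          push_cast at h2
          omega
    · rw [if_neg, if_neg]
      · rfl
      · rintro ⟨h2, _⟩
        exact hp h2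
      · intro h2
        apply hp
        apply Fin.ext
        have h3 : (((0 : Fin (2 * 1)) : ℕ)) = 0 := rfl
        rw [h3]
        push_cast at h2
        omega
  refine ⟨Matrix.of fun p j => if p.1 = 0 then a.mat p.2 j else 0,
    Matrix.of fun i q => if q.1 = 0 then a.mat i q.2 else 0, ?_, ?_⟩
  · refine Matrix.ext fun p q => ?_
    rw [hm, Matrix.mul_apply]
    simp only [Matrix.of_apply]
    by_cases hp : p.1 = 0
    · by_cases hq : q.1 = 0
      · simp only [hp, hq, and_self, if_true]
        rw [← Matrix.mul_apply, a.idem]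
      · simp [hq]
    · simp [hp]
  · refine Matrix.ext fun i j => ?_
    rw [Matrix.mul_apply, Fintype.sum_prod_type]
    simp only [Matrix.of_apply]
    rw [Finset.sum_eq_single (0 : Fin (2 * 1))]
    · simp only [if_true]
      rw [← Matrix.mul_apply, a.idem]
    · intro p _ hp
      apply Finset.sum_eq_zero
      intro k _
      rw [if_neg hp, zero_mul]
    · intro h2
      exact absurd (Finset.mem_univ _) h2

end Pool.Agent.H8.KZ
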