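import Pool.Agent.H8.KZ.BdB
import Pool.Agent.H8.KZ.BdC

/-!
# KZ: the boundary map `K₁(A[T, T⁻¹]) → K₀(A)`
-/

set_option autoImplicit false

open Matrix
open scoped LaurentPolynomial

universe u v w

namespace Pool.Agent.H8.KZ

open Pool.Agent.H71.FJ (K0 K0.cls MatEquiv)
open Pool.Agent.H95.KM
open Pool.Agent.H95.WH (K1 K1.mk K1.lift K1.lift_mk K1.cls)

variable {A : Type u} [Ring A]

/-- The boundary map `K₁(A[T, T⁻¹]) → K₀(A)`. -/
noncomputable def bdK : K1 A[T;T⁻¹] →+ K0 A :=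
  K1.lift (fun _ U => bd U) (fun _ U V => bd_mul U V) (fun _ U => bd_stab U)

theorem bdK_mk {n : ℕ} (U : (Matrix (Fin n) (Fin n) A[T;T⁻¹])ˣ) : bdK (K1.mk U) = bd U :=
  K1.lift_mk _ _ _ U

theorem bdK_cls {ι : Type} [Fintype ι] [DecidableEq ι] (U : (Matrix ι ι A[T;T⁻¹])ˣ) :
    bdK (K1.cls U) = bd U := by
  rw [K1.cls, bdK_mk]
  exact bd_reindex (Fintype.equivFin ι).symm U _ rfl

end Pool.Agent.H8.KZ
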