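import Pool.Agent.H8.KZ.Ev

/-!
# KZ, module BdN: naturality of the boundary map; invariance under the twist `T ↦ z T`

Definitions: `OpDefs.lean`, `BdDefs.lean`; calculus: `Op.lean`, `Fcl.lean` (complete), `BdA.lean`
(`bd_eq`, `eU_sup`, `eU_img`, `eU_sub_idem`), `BdK.lean` (`bdK_mk`), `Ev.lean` (`tw`, `tw_single`).

PROOFS.
* `bd_map`.  Let `D` bound `U`, `U⁻¹` (`exists_dU`); by `lau_coeff` it bounds `W`, `W⁻¹`, where
  `W⁻¹ = U⁻¹.map (lau f)`.  For `v : LV A ι` put `f v := fun i => lau f (v i)`.  Then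
  `f (bas a i) = bas a i`, `f (rm U v) = rm W (f v)`, `f (tr D v) = tr D (f v)` (`lau_coeff`,
  `tr_coeff`).  Hence `mt D D (eU W - tr D) = (mt D D (eU U - tr D)).map f` and the claim follows from
  `bd_eq`, `fcl_eq`, `K0.map_cls` (and `K0.map f (one A) = one B`).
* `bd_tw`.  Let `Z w : Op A ι ι` be the operator `v ↦ (i ↦ tw w (v i))` (`A`-linear since
  `tw w (c • x) = c • tw w x`, check on `single k r`; `c • single k r = single k (c * r)`).
  `(Z w v i).coeff k = (v i).coeff k * w ^ k`.  `Z w ∘ Z w⁻¹ = id`.  `Z z (rm U v) = rm W (Z z v)`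
  (`tw` is a ring homomorphism) and `Z z` commutes with `tr D`.  So
  `eU W - tr D = Z z ∘ (eU U - tr D) ∘ Z z⁻¹`; use `fcl_equiv` with `x = Z z ∘ (eU U - tr D)`,
  `y = Z z⁻¹` and `bd_eq` (a bound `D` for `U`, `U⁻¹` is a bound for `W`, `W⁻¹`).
* `bdK_map`, `bdK_tw`: `K1.exists_mk` (or `K1.hom_ext`), `K1.map_mk`, `bdK_mk`.
-/

set_option autoImplicit false

open Matrix
open scoped LaurentPolynomial

universe u v w

namespace Pool.Agent.H8.KZ

open Pool.Agent.H71.FJ (K0 K0.cls K0.map K0.map_cls MatEquiv)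
open Pool.Agent.H95.KM
open Pool.Agent.H95.WH (K1 K1.mk K1.map K1.map_mk K1.map_map K1.exists_mk K1.hom_ext)

variable {A : Type u} [Ring A] {B : Type v} [Ring B]

section aux

variable {ι : Type}

/-- A ring homomorphism applied to the entries of a vector. -/
private noncomputable def bdN_fv (F : A[T;T⁻¹] →+* B[T;T⁻¹]) (v : LV A ι) : LV B ι := fun i => F (v i)

private theorem bdN_fv_sub (F : A[T;T⁻¹] →+* B[T;T⁻¹]) (v w : LV A ι) :
    bdN_fv F (v - w) = bdN_fv F v - bdN_fv F w := by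
  funext i
  exact map_sub F (v i) (w i)

private theorem bdN_fv_rm [Fintype ι] (F : A[T;T⁻¹] →+* B[T;T⁻¹]) (U : Matrix ι ι A[T;T⁻¹]) (v : LV A ι) :
    bdN_fv F (rm U v) = rm (U.map F) (bdN_fv F v) := by
  funext j
  rw [rm_apply]
  change F (rm U v j) = _
  rw [rm_apply, map_sum]
  exact Finset.sum_congr rfl fun i _ => by rw [map_mul]; rfl

/-- The inverse of the image of an invertible matrix. -/
private theorem bdN_inv [Fintype ι] [DecidableEq ι] (F : A[T;T⁻¹] →+* B[T;T⁻¹]) (U : (Matrix ι ι A[T;T⁻¹])ˣ)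
    (W : (Matrix ι ι B[T;T⁻¹])ˣ) (hW : (W : Matrix ι ι B[T;T⁻¹]) = (U : Matrix ι ι A[T;T⁻¹]).map F) :
    ((W⁻¹ : (Matrix ι ι B[T;T⁻¹])ˣ) : Matrix ι ι B[T;T⁻¹]) =
      ((U⁻¹ : (Matrix ι ι A[T;T⁻¹])ˣ) : Matrix ι ι A[T;T⁻¹]).map F := by
  have h1 : W = Units.map (F.mapMatrix : Matrix ι ι A[T;T⁻¹] →+* Matrix ι ι B[T;T⁻¹]).toMonoidHom U := by
    apply Units.ext
    rw [hW]
    rfl
  rw [h1, ← map_inv]
  rfl

private theorem bdN_eU [Fintype ι] [DecidableEq ι] (F : A[T;T⁻¹] →+* B[T;T⁻¹])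
    (hF : ∀ (D : ℤ) (v : LV A ι), bdN_fv F (tr D v) = tr D (bdN_fv F v))
    (U : (Matrix ι ι A[T;T⁻¹])ˣ)
    (W : (Matrix ι ι B[T;T⁻¹])ˣ) (hW : (W : Matrix ι ι B[T;T⁻¹]) = (U : Matrix ι ι A[T;T⁻¹]).map F)
    (D : ℤ) (v : LV A ι) :
    bdN_fv F ((eU U - tr D : Op A ι ι) v) = (eU W - tr D : Op B ι ι) (bdN_fv F v) := by
  rw [LinearMap.sub_apply, LinearMap.sub_apply, bdN_fv_sub, hF]
  congr 1
  rw [eU, eU, LinearMap.comp_apply, LinearMap.comp_apply, LinearMap.comp_apply,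
    LinearMap.comp_apply, bdN_fv_rm, hF, bdN_fv_rm, hW, bdN_inv F U W hW]

private theorem bdN_lau_tr (f : A →+* B) (D : ℤ) (v : LV A ι) :
    bdN_fv (lau f) (tr D v) = tr D (bdN_fv (lau f) v) := by
  funext i
  apply ext_coeff
  intro k
  change (lau f (tr D v i)).coeff k = _
  rw [lau_coeff, tr_coeff, tr_coeff]
  split_ifs
  · exact (lau_coeff f (v i) k).symm
  · exact map_zero f

private theorem bdN_lau_bas [DecidableEq ι] (f : A →+* B) (a : ℤ) (i : ι) :
    bdN_fv (lau f) (bas a i) = bas a i := by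
  funext j
  apply ext_coeff
  intro k
  change (lau f (bas a i j)).coeff k = _
  rw [lau_coeff, bas_coeff, bas_coeff]
  split_ifs
  · exact map_one f
  · exact map_zero f

private theorem bdN_bdd (f : A →+* B) {D : ℕ} {U : Matrix ι ι A[T;T⁻¹]} (h : Bdd D U) :
    Bdd D (U.map (lau f)) := by
  intro i j k hk
  rw [Matrix.map_apply, lau_coeff, h i j k hk, map_zero]

private theorem bdN_one (f : A →+* B) : K0.map f (one A) = one B := by
  rw [one, one, K0.map_cls]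
  congr 1
  exact Matrix.map_one f (map_zero f) (map_one f)

private theorem bdN_smul (c : A) (x : A[T;T⁻¹]) : c • x = cst A c * x := by
  induction x using AddMonoidAlgebra.induction_linear with
  | zero => rw [smul_zero, mul_zero]
  | add x y hx hy => rw [smul_add, mul_add, hx, hy]
  | single k r =>
    rw [cst_apply, AddMonoidAlgebra.single_mul_single, zero_add, AddMonoidAlgebra.smul_single, smul_eq_mul]

private theorem bdN_tw_coeff (z : Aˣ) (hz : ∀ a : A, a * z = z * a) (x : A[T;T⁻¹]) (k : ℤ) :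
    (tw z hz x).coeff k = x.coeff k * ((z ^ k : Aˣ) : A) := by
  induction x using AddMonoidAlgebra.induction_linear with
  | zero => simp
  | add x y hx hy => rw [map_add, AddMonoidAlgebra.coeff_add, Finsupp.add_apply, hx, hy,
      AddMonoidAlgebra.coeff_add, Finsupp.add_apply, add_mul]
  | single l r =>
    classical
    rw [tw_single, AddMonoidAlgebra.coeff_single, AddMonoidAlgebra.coeff_single,
      Finsupp.single_apply, Finsupp.single_apply]
    split_ifs with h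
    · rw [h]
    · rw [zero_mul]

/-- The twist as an operator. -/
private noncomputable def bdN_Z (z : Aˣ) (hz : ∀ a : A, a * z = z * a) : Op A ι ι where
  toFun := bdN_fv (tw z hz)
  map_add' v w := by
    funext i
    exact map_add (tw z hz) (v i) (w i)
  map_smul' c v := by
    funext i
    change tw z hz (c • v i) = c • tw z hz (v i)
    rw [bdN_smul, bdN_smul, map_mul, cst_apply, tw_single, zpow_zero, Units.val_one, mul_one]

private theorem bdN_Z_apply (z : Aˣ) (hz : ∀ a : A, a * z = z * a) (v : LV A ι) :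
    bdN_Z z hz v = bdN_fv (tw z hz) v := rfl

private theorem bdN_Z_coeff (z : Aˣ) (hz : ∀ a : A, a * z = z * a) (v : LV A ι) (i : ι) (k : ℤ) :
    (bdN_Z z hz v i).coeff k = (v i).coeff k * ((z ^ k : Aˣ) : A) :=
  bdN_tw_coeff z hz (v i) k

private theorem bdN_Z_Z (z w : Aˣ) (hz : ∀ a : A, a * z = z * a) (hw : ∀ a : A, a * w = w * a)
    (h : z * w = 1) : (bdN_Z w hw).comp (bdN_Z z hz) = (LinearMap.id : Op A ι ι) := by
  apply LinearMap.ext
  intro v
  funext i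
  apply ext_coeff
  intro k
  rw [LinearMap.comp_apply, bdN_Z_coeff, bdN_Z_coeff, LinearMap.id_apply]
  have h1 : w = z⁻¹ := (inv_eq_of_mul_eq_one_right h).symm
  rw [h1, _root_.inv_zpow, mul_assoc, Units.mul_inv, mul_one]

private theorem bdN_tw_tr (z : Aˣ) (hz : ∀ a : A, a * z = z * a) (D : ℤ) (v : LV A ι) :
    bdN_fv (tw z hz) (tr D v) = tr D (bdN_fv (tw z hz) v) := by
  funext i
  apply ext_coeff
  intro k
  change (tw z hz (tr D v i)).coeff k = _
  rw [bdN_tw_coeff, tr_coeff, tr_coeff]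
  split_ifs
  · exact (bdN_tw_coeff z hz (v i) k).symm
  · exact zero_mul _

private theorem bdN_tw_bdd (z : Aˣ) (hz : ∀ a : A, a * z = z * a) {D : ℕ} {U : Matrix ι ι A[T;T⁻¹]}
    (h : Bdd D U) : Bdd D (U.map (tw z hz)) := by
  intro i j k hk
  rw [Matrix.map_apply, bdN_tw_coeff, h i j k hk, zero_mul]

end aux

theorem bd_map (f : A →+* B) {ι : Type} [Fintype ι] [DecidableEq ι] (U : (Matrix ι ι A[T;T⁻¹])ˣ)
    (W : (Matrix ι ι B[T;T⁻¹])ˣ)
    (hW : (W : Matrix ι ι B[T;T⁻¹]) = (U : Matrix ι ι A[T;T⁻¹]).map (lau f)) :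
    bd W = K0.map f (bd U) := by
  obtain ⟨D, hD, hD'⟩ := exists_dU U
  have hW' := bdN_inv (lau f) U W hW
  have hE : Bdd D (W : Matrix ι ι B[T;T⁻¹]) := by
    rw [hW]
    exact bdN_bdd f hD
  have hE' : Bdd D ((W⁻¹ : (Matrix ι ι B[T;T⁻¹])ˣ) : Matrix ι ι B[T;T⁻¹]) := by
    rw [hW']
    exact bdN_bdd f hD'
  have hmt : mt D D (eU W - tr D) = (mt D D (eU U - tr D)).map f := by
    refine Matrix.ext fun p q => ?_
    rw [Matrix.map_apply]
    simp only [mt, Matrix.of_apply]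
    rw [← bdN_lau_bas f, ← bdN_eU (lau f) (bdN_lau_tr f) U W hW]
    exact lau_coeff f _ _
  rw [bd_eq hE hE', bd_eq hD hD', map_sub, map_nsmul, bdN_one,
    fcl_eq (eU_sub_idem hE hE') (eU_sup hE hE') (eU_img hE hE'),
    fcl_eq (eU_sub_idem hD hD') (eU_sup hD hD') (eU_img hD hD'), K0.map_cls]
  congr 2

theorem bd_tw (z : Aˣ) (hz : ∀ a : A, a * z = z * a) {ι : Type} [Fintype ι] [DecidableEq ι]
    (U W : (Matrix ι ι A[T;T⁻¹])ˣ)
    (hW : (W : Matrix ι ι A[T;T⁻¹]) = (U : Matrix ι ι A[T;T⁻¹]).map (tw z hz)) :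
    bd W = bd U := by
  obtain ⟨D, hD, hD'⟩ := exists_dU U
  have hW' := bdN_inv (tw z hz) U W hW
  have hE : Bdd D (W : Matrix ι ι A[T;T⁻¹]) := by
    rw [hW]
    exact bdN_tw_bdd z hz hD
  have hE' : Bdd D ((W⁻¹ : (Matrix ι ι A[T;T⁻¹])ˣ) : Matrix ι ι A[T;T⁻¹]) := by
    rw [hW']
    exact bdN_tw_bdd z hz hD'
  have hz' : ∀ a : A, a * ((z⁻¹ : Aˣ) : A) = ((z⁻¹ : Aˣ) : A) * a := fun a => by
    have h1 : Commute a (z : A) := hz a
    exact h1.units_inv_right
  have h1 : (bdN_Z z⁻¹ hz').comp (bdN_Z z hz) = (LinearMap.id : Op A ι ι) :=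
    bdN_Z_Z z z⁻¹ hz hz' (mul_inv_cancel z)
  have h2 : (bdN_Z z hz).comp (bdN_Z z⁻¹ hz') = (LinearMap.id : Op A ι ι) :=
    bdN_Z_Z z⁻¹ z hz' hz (inv_mul_cancel z)
  have h3 : (bdN_Z z hz).comp (eU U - tr D) = (eU W - tr D).comp (bdN_Z z hz) := by
    apply LinearMap.ext
    intro v
    rw [LinearMap.comp_apply, LinearMap.comp_apply, bdN_Z_apply, bdN_Z_apply]
    exact bdN_eU (tw z hz) (bdN_tw_tr z hz) U W hW D v
  rw [bd_eq hE hE', bd_eq hD hD']
  congr 1
  symm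
  refine fcl_equiv ((bdN_Z z hz).comp (eU U - tr D)) (bdN_Z z⁻¹ hz') (eU U - tr D) (eU W - tr D) ?_ ?_
    (eU_sub_idem hD hD') (eU_sub_idem hE hE') (eU_sup hD hD') (eU_img hD hD') (eU_sup hE hE')
    (eU_img hE hE')
  · rw [← LinearMap.comp_assoc, h1, LinearMap.id_comp]
  · rw [h3, LinearMap.comp_assoc, h2, LinearMap.comp_id]

theorem bdK_map (f : A →+* B) (x : K1 A[T;T⁻¹]) : K0.map f (bdK x) = bdK (K1.map (lau f) x) := by
  have h : (K0.map f).comp (bdK (A := A)) = (bdK (A := B)).comp (K1.map (lau f)) := by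
    apply K1.hom_ext
    intro n U
    rw [AddMonoidHom.comp_apply, AddMonoidHom.comp_apply, bdK_mk, K1.map_mk, bdK_mk]
    exact (bd_map f U _ rfl).symm
  exact DFunLike.congr_fun h x

theorem bdK_tw (z : Aˣ) (hz : ∀ a : A, a * z = z * a) (x : K1 A[T;T⁻¹]) :
    bdK (K1.map (tw z hz) x) = bdK x := by
  have h : (bdK (A := A)).comp (K1.map (tw z hz)) = bdK (A := A) := by
    apply K1.hom_ext
    intro n U
    rw [AddMonoidHom.comp_apply, K1.map_mk, bdK_mk, bdK_mk]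
    exact bd_tw z hz U _ rfl
  exact DFunLike.congr_fun h x

end Pool.Agent.H8.KZ
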