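import Pool.Agent.H8.KZ.BdK

/-!
# KZ, module BdP: the boundary map kills `K₁(A[T])` and `K₁(A[T⁻¹])`

Definitions: `OpDefs.lean`, `BdDefs.lean`; calculus: `Op.lean`, `Fcl.lean` (complete), `BdA.lean`.

PROOFS.
* `bd_pos`: let `U`, `U⁻¹` have entries in `A[T]` (`IsPos`, `Pool/Agent/H95/KM/Lau.lean`).  If `v` is
  supported in the degrees `≥ 0` so are `v U` and `v U⁻¹`.  Hence `eU U ∘ tr 0 = tr 0` and
  `tr 0 ∘ eU U = eU U`.  Let `D` bound `U`, `U⁻¹`, `e = eU U - tr D`, `f = tr 0 - tr D`.  By `eU_tr`,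
  `tr_eU`, `tr_tr`: `e ∘ f = f`, `f ∘ e = e`, so `fcl e = fcl f` by `fcl_equiv` (`x = e`, `y = f`), and
  `fcl f = (D * |ι|) • one A` by `fcl_slice`; `bd_eq`.
* `bd_neg`: entries in `A[T⁻¹]`: degrees `< 0` are preserved, so `eU U ∘ tr 0 = eU U` and
  `tr 0 ∘ eU U = tr 0`; now `e ∘ f = e`, `f ∘ e = f` and `fcl_equiv` with `x = f`, `y = e`.
* `bdK_pos`, `bdK_neg`: `K1.exists_mk`, `K1.map_mk`, `isPos_posHom`, `isNeg_negHom`.
* `bdK_cst`: `cst A = (posHom A).comp Polynomial.C` (`posHom_C`).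
-/

set_option autoImplicit false

open Matrix
open scoped LaurentPolynomial

universe u v w

namespace Pool.Agent.H8.KZ

open Pool.Agent.H71.FJ (K0 K0.cls MatEquiv)
open Pool.Agent.H95.KM
open Pool.Agent.H95.WH (K1 K1.mk K1.map K1.map_mk K1.map_map K1.exists_mk)

variable {A : Type u} [Ring A]

private theorem bdp_key_pos {ι : Type} [Fintype ι] [DecidableEq ι] {V : Matrix ι ι A[T;T⁻¹]}
    (h : ∀ i j, IsPos (V i j)) :
    (tr 0 : Op A ι ι).comp ((rm V).comp (tr 0)) = (rm V).comp (tr 0) := by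
  apply op_ext
  intro a i
  simp only [LinearMap.comp_apply]
  rw [tr_bas]
  by_cases ha : 0 ≤ a
  · rw [if_pos ha]
    funext j
    apply ext_coeff
    intro k
    rw [tr_coeff]
    by_cases hk : 0 ≤ k
    · rw [if_pos hk]
    · rw [if_neg hk, rm_bas_coeff, h i j _ (by omega)]
  · rw [if_neg ha, map_zero, map_zero]

private theorem bdp_key_neg {ι : Type} [Fintype ι] [DecidableEq ι] {V : Matrix ι ι A[T;T⁻¹]}
    (h : ∀ i j, IsNeg (V i j)) :
    (tr 0 : Op A ι ι).comp ((rm V).comp (tr 0)) = (tr 0).comp (rm V) := by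
  apply op_ext
  intro a i
  simp only [LinearMap.comp_apply]
  rw [tr_bas]
  by_cases ha : 0 ≤ a
  · rw [if_pos ha]
  · rw [if_neg ha, map_zero, map_zero]
    funext j
    apply ext_coeff
    intro k
    rw [tr_coeff]
    by_cases hk : 0 ≤ k
    · rw [if_pos hk, rm_bas_coeff, h i j _ (by omega)]
      simp
    · rw [if_neg hk]
      simp

private theorem bdp_inv {ι : Type} [Fintype ι] [DecidableEq ι] (U : (Matrix ι ι A[T;T⁻¹])ˣ) :
    (rm ((U⁻¹ : (Matrix ι ι A[T;T⁻¹])ˣ) : Matrix ι ι A[T;T⁻¹])).comp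
      (rm (U : Matrix ι ι A[T;T⁻¹])) = LinearMap.id := by
  rw [← rm_mul, Units.mul_inv, rm_one]

private theorem bdp_fin {ι : Type} [Fintype ι] [DecidableEq ι] (U : (Matrix ι ι A[T;T⁻¹])ˣ)
    (H : ∀ D : ℕ, Bdd D (U : Matrix ι ι A[T;T⁻¹]) →
      Bdd D ((U⁻¹ : (Matrix ι ι A[T;T⁻¹])ˣ) : Matrix ι ι A[T;T⁻¹]) →
      fcl (eU U - tr D) = fcl (tr 0 - tr D : Op A ι ι)) : bd U = 0 := by
  obtain ⟨D, h, h'⟩ := exists_dU U
  have h1 := fcl_slice (A := A) (ι := ι) 0 D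
  rw [zero_add] at h1
  rw [bd_eq h h', H D h h', h1, sub_self]

theorem bd_pos {ι : Type} [Fintype ι] [DecidableEq ι] (U : (Matrix ι ι A[T;T⁻¹])ˣ)
    (h1 : ∀ i j, IsPos ((U : Matrix ι ι A[T;T⁻¹]) i j))
    (h2 : ∀ i j, IsPos (((U⁻¹ : (Matrix ι ι A[T;T⁻¹])ˣ) : Matrix ι ι A[T;T⁻¹]) i j)) :
    bd U = 0 := by
  have e1 : (eU U).comp (tr 0) = tr 0 := by
    rw [eU, LinearMap.comp_assoc, LinearMap.comp_assoc, bdp_key_pos h1, ← LinearMap.comp_assoc,
      bdp_inv, LinearMap.id_comp]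
  have e2 : (tr 0).comp (eU U) = eU U := by
    rw [eU, ← LinearMap.comp_assoc (rm _) (tr 0), ← LinearMap.comp_assoc,
      bdp_key_pos h2, LinearMap.comp_assoc]
  apply bdp_fin
  intro D hD hD'
  have e3 := eU_tr hD hD'
  have e4 := tr_eU hD hD'
  have e5 : (tr 0 : Op A ι ι).comp (tr D) = tr D := by
    rw [tr_tr, max_eq_right (by omega)]
  have e6 : (tr D : Op A ι ι).comp (tr 0) = tr D := by
    rw [tr_tr, max_eq_left (by omega)]
  have e7 : (tr D : Op A ι ι).comp (tr D) = tr D := by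
    rw [tr_tr, max_self]
  refine fcl_equiv (eU U - tr D) (tr 0 - tr D) (eU U - tr D) (tr 0 - tr D) ?_ ?_
    (eU_sub_idem hD hD') (slice_idem (by omega)) (eU_sup hD hD') (eU_img hD hD')
    (slice_sup (by omega) le_rfl (by omega)) (slice_img (by omega) le_rfl (by omega))
  · rw [LinearMap.sub_comp, LinearMap.comp_sub, LinearMap.comp_sub, e2, e5, e4, e7]
    abel
  · rw [LinearMap.sub_comp, LinearMap.comp_sub, LinearMap.comp_sub, e1, e3, e6, e7]
    abel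

theorem bd_neg {ι : Type} [Fintype ι] [DecidableEq ι] (U : (Matrix ι ι A[T;T⁻¹])ˣ)
    (h1 : ∀ i j, IsNeg ((U : Matrix ι ι A[T;T⁻¹]) i j))
    (h2 : ∀ i j, IsNeg (((U⁻¹ : (Matrix ι ι A[T;T⁻¹])ˣ) : Matrix ι ι A[T;T⁻¹]) i j)) :
    bd U = 0 := by
  have e1 : (eU U).comp (tr 0) = eU U := by
    rw [eU, LinearMap.comp_assoc, LinearMap.comp_assoc, bdp_key_neg h1]
  have e2 : (tr 0).comp (eU U) = tr 0 := by
    rw [eU, ← LinearMap.comp_assoc (rm _) (tr 0), ← LinearMap.comp_assoc,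
      bdp_key_neg h2, LinearMap.comp_assoc, bdp_inv, LinearMap.comp_id]
  apply bdp_fin
  intro D hD hD'
  have e3 := eU_tr hD hD'
  have e4 := tr_eU hD hD'
  have e5 : (tr 0 : Op A ι ι).comp (tr D) = tr D := by
    rw [tr_tr, max_eq_right (by omega)]
  have e6 : (tr D : Op A ι ι).comp (tr 0) = tr D := by
    rw [tr_tr, max_eq_left (by omega)]
  have e7 : (tr D : Op A ι ι).comp (tr D) = tr D := by
    rw [tr_tr, max_self]
  refine fcl_equiv (tr 0 - tr D) (eU U - tr D) (eU U - tr D) (tr 0 - tr D) ?_ ?_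
    (eU_sub_idem hD hD') (slice_idem (by omega)) (eU_sup hD hD') (eU_img hD hD')
    (slice_sup (by omega) le_rfl (by omega)) (slice_img (by omega) le_rfl (by omega))
  · rw [LinearMap.sub_comp, LinearMap.comp_sub, LinearMap.comp_sub, e1, e3, e6, e7]
    abel
  · rw [LinearMap.sub_comp, LinearMap.comp_sub, LinearMap.comp_sub, e2, e5, e4, e7]
    abel

theorem bdK_pos (x : K1 (Polynomial A)) : bdK (K1.map (posHom A) x) = 0 := by
  obtain ⟨n, U, rfl⟩ := K1.exists_mk x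
  rw [K1.map_mk, bdK_mk]
  exact bd_pos _ (fun i j => isPos_posHom _) (fun i j => isPos_posHom _)

theorem bdK_neg (x : K1 (Polynomial A)) : bdK (K1.map (negHom A) x) = 0 := by
  obtain ⟨n, U, rfl⟩ := K1.exists_mk x
  rw [K1.map_mk, bdK_mk]
  exact bd_neg _ (fun i j => isNeg_negHom _) (fun i j => isNeg_negHom _)

theorem bdK_cst (x : K1 A) : bdK (K1.map (cst A) x) = 0 := by
  rw [← posHom_C, ← K1.map_map]
  exact bdK_pos _

end Pool.Agent.H8.KZ
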