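import Mathlib

/-!
# KZ, module CForm: formal consequences of the cocycle identity

A form `Φ : R × R → F` with `Φ(A B, C) + Φ(C A, B) = Φ(A, B C)`, `Φ(1, B) = 0`, `F` a field of
characteristic zero.

PROOFS.
* `skew`: the identity with `A = 1`.  `one_right`: `skew`, `one_left`.
* `den_mul`: the identity for `A = V⁻¹ U⁻¹`, `B = U`, `C = V`.
* `vas`: `Φ(1 - x s y, 1 + x y) = - Φ(x s y, x y) = - Φ(x s y x, y) - Φ(y x s y, x)`; from `h1`, `h2`:
  `s y x = 1 - s`, `y x s = 1 - s`; so `x s y x = x - x s`, `y x s y = y - s y` and the sum is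
  `- Φ(x, y) - Φ(y, x) + Φ(x s, y) + Φ(s y, x) = Φ(x s, y) + Φ(s y, x) = Φ(s, y x)`
  `= Φ(s, 1 + y x)` (the identity for `A = s`, `B = y`, `C = x`).
* `main_inv`: `e X b' e = e X e b'`, `n • (e X e) = (b - a) e`, so
  `(a' e (n X)) (b' e (n X)) = a' (b - a) b' e (n X) = (a' - b') e (n X)`, and similarly for the other
  order `b' (b - a) a' = a' - b'`.
* `main`: put `x = a' e`, `y = n • (e X)`, so `V = 1 + x y`, and
  `1 + y x = 1 + n • (e X a' e) = 1 + (b - a) a' e = (b e + 1 - e) (a' e + 1 - e)`; the three factors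
  here are units (`(b e + 1 - e)(b' e + 1 - e) = 1` etc.); `vas` (`V⁻¹ = 1 - x s y`, by uniqueness of the
  inverse), `den_mul` and `Φ(W⁻¹, W) + Φ(W, W⁻¹) = 0` (`skew`).
* `corner`: put `f(x) = Φ(x e, e)` for `x` commuting with `e`.  The identity for `(x e, y, e)` gives
  `Φ(x e, y e) = Φ(x y e, e) + Φ(x e, y)`; for `(x, e, e)`: `Φ(x, e) = 2 f(x)`.
  `Φ(z, c₁) = 0` for `z c₁ = c₁ z = z` (identity for `(z, c₁, c₁)`) and `Φ(e, c₁) = 0` (identity for
  `(e, c₁, c₁)` and the previous one for `z = e c₁`), so `f(c₁) = 0`.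
  `Φ(c₁ e, c) = Φ(c₁, e c) - Φ(c c₁, e) = 0 - 2 f(c)` (identity for `(c₁, e, c)`, and
  `Φ(c₁, e c) = - Φ(e c, c₁) = 0`).
  Now `Φ(1 + c' e - c₁ e, 1 + c e - c₁ e) = Φ(c' e, c e) - Φ(c' e, c₁ e) - Φ(c₁ e, c e) + Φ(c₁ e, c₁ e)`
  `= [f(c₁) + Φ(c' e, c)] - [f(c') + 0] - [f(c) - 2 f(c)] + [f(c₁) + 0] = Φ(c' e, c) - f(c') + f(c)` and
  `2 f(x) = Φ(x, e) = - Φ(e, x)`.
-/

set_option autoImplicit false

universe u v

namespace Pool.Agent.H8.KZ

/-- A biadditive form with the cocycle identity of the Dennis trace. -/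
structure CForm (R : Type u) [Ring R] (F : Type v) [Field F] where
  /-- the form -/
  Φ : R →+ R →+ F
  cocycle : ∀ A B C, Φ (A * B) C + Φ (C * A) B = Φ A (B * C)
  one_left : ∀ B, Φ 1 B = 0

namespace CForm

variable {R : Type u} [Ring R] {F : Type v} [Field F] (P : CForm R F)

theorem skew (A B : R) : P.Φ A B = - P.Φ B A := by
  have h := P.cocycle 1 A B
  rw [P.one_left, one_mul, mul_one] at h
  exact eq_neg_of_add_eq_zero_left h

theorem one_right (A : R) : P.Φ A 1 = 0 := by
  rw [P.skew, P.one_left, neg_zero]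

theorem den_mul (U V : Rˣ) : P.Φ ((U * V)⁻¹ : Rˣ) (U * V : Rˣ) =
    P.Φ (U⁻¹ : Rˣ) (U : R) + P.Φ (V⁻¹ : Rˣ) (V : R) := by
  have h := P.cocycle ((U * V)⁻¹ : Rˣ) (U : R) (V : R)
  have e1 : (((U * V)⁻¹ : Rˣ) : R) * (U : R) = (V⁻¹ : Rˣ) := by
    rw [← Units.val_mul]; congr 1; group
  have e2 : (V : R) * (((U * V)⁻¹ : Rˣ) : R) = (U⁻¹ : Rˣ) := by
    rw [← Units.val_mul]; congr 1; group
  rw [e1, e2, ← Units.val_mul] at h
  rw [← h, add_comm]

theorem vas (x y s : R) (h1 : s * (1 + y * x) = 1) (h2 : (1 + y * x) * s = 1) :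
    P.Φ (1 - x * s * y) (1 + x * y) = P.Φ s (1 + y * x) := by
  have k1 : s * y * x = 1 - s := by
    have : s + s * y * x = 1 := by rw [← h1]; noncomm_ring
    rw [← this]; abel
  have k2 : y * x * s = 1 - s := by
    have : s + y * x * s = 1 := by rw [← h2]; noncomm_ring
    rw [← this]; abel
  have c1 := P.cocycle (x * s * y) x y
  have c2 := P.cocycle s y x
  have e1 : x * s * y * x = x - x * s := by
    calc x * s * y * x = x * (s * y * x) := by noncomm_ring
      _ = x - x * s := by rw [k1]; noncomm_ring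
  have e2 : y * (x * s * y) = y - s * y := by
    calc y * (x * s * y) = (y * x * s) * y := by noncomm_ring
      _ = y - s * y := by rw [k2]; noncomm_ring
  rw [e1, e2] at c1
  have e3 : P.Φ (1 - x * s * y) (1 + x * y) = - P.Φ (x * s * y) (x * y) := by
    simp only [map_sub, map_add, AddMonoidHom.sub_apply, P.one_left, P.one_right]
    abel
  have e4 : P.Φ s (1 + y * x) = P.Φ s (y * x) := by
    rw [map_add, P.one_right, zero_add]
  rw [e3, e4, ← c1, ← c2]
  simp only [map_sub, AddMonoidHom.sub_apply]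
  rw [P.skew x y]
  abel

section main

variable (n : ℕ) (e a a' b b' X : R) (he : e * e = e) (hae : a * e = e * a)
  (ha'e : a' * e = e * a') (hbe : b * e = e * b) (hb'e : b' * e = e * b') (haa' : a * a' = 1)
  (ha'a : a' * a = 1) (hbb' : b * b' = 1) (hb'b : b' * b = 1)
  (hX : n • (e * X * e) = (b - a) * e)

include he hae ha'e hbe hb'e haa' ha'a hbb' hb'b hX

omit P in
theorem main_inv : (1 + n • (a' * e * X)) * (1 - n • (b' * e * X)) = 1 ∧
    (1 - n • (b' * e * X)) * (1 + n • (a' * e * X)) = 1 := by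
  have q1 : n • (a' * e * X) * (n • (b' * e * X)) = n • (a' * e * X) - n • (b' * e * X) := by
    have : a' * e * X * (b' * e * X) = a' * (e * X * e) * (b' * e * X) := by
      have : b' * e * X = e * (b' * e * X) := by
        rw [← mul_assoc, ← mul_assoc, ← hb'e, mul_assoc b' e e, he]
      conv_lhs => rw [this]
      noncomm_ring
    calc n • (a' * e * X) * (n • (b' * e * X)) = n • (n • (a' * e * X * (b' * e * X))) := by
          rw [smul_mul_assoc, mul_smul_comm]
      _ = n • (a' * (n • (e * X * e)) * (b' * e * X)) := by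
          rw [this, mul_smul_comm, smul_mul_assoc]
      _ = n • (a' * ((b - a) * e) * (b' * e * X)) := by rw [hX]
      _ = n • (a' * (b - a) * (e * b') * e * X) := by congr 1; noncomm_ring
      _ = n • (a' * (b - a) * b' * (e * e) * X) := by rw [← hb'e]; congr 1; noncomm_ring
      _ = n • (a' * (b * b') * e * X - (a' * a) * b' * e * X) := by
          rw [he]; congr 1; noncomm_ring
      _ = n • (a' * e * X) - n • (b' * e * X) := by
          rw [hbb', ha'a, mul_one, one_mul, smul_sub]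
  have q2 : n • (b' * e * X) * (n • (a' * e * X)) = n • (a' * e * X) - n • (b' * e * X) := by
    have : b' * e * X * (a' * e * X) = b' * (e * X * e) * (a' * e * X) := by
      have : a' * e * X = e * (a' * e * X) := by
        rw [← mul_assoc, ← mul_assoc, ← ha'e, mul_assoc a' e e, he]
      conv_lhs => rw [this]
      noncomm_ring
    calc n • (b' * e * X) * (n • (a' * e * X)) = n • (n • (b' * e * X * (a' * e * X))) := by
          rw [smul_mul_assoc, mul_smul_comm]
      _ = n • (b' * (n • (e * X * e)) * (a' * e * X)) := by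
          rw [this, mul_smul_comm, smul_mul_assoc]
      _ = n • (b' * ((b - a) * e) * (a' * e * X)) := by rw [hX]
      _ = n • (b' * (b - a) * (e * a') * e * X) := by congr 1; noncomm_ring
      _ = n • (b' * (b - a) * a' * (e * e) * X) := by rw [← ha'e]; congr 1; noncomm_ring
      _ = n • ((b' * b) * a' * e * X - b' * (a * a') * e * X) := by
          rw [he]; congr 1; noncomm_ring
      _ = n • (a' * e * X) - n • (b' * e * X) := by
          rw [hb'b, haa', mul_one, one_mul, smul_sub]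
  constructor
  · rw [add_mul, mul_sub, mul_sub, one_mul, one_mul, mul_one, q1]; abel
  · rw [sub_mul, mul_add, mul_add, one_mul, one_mul, mul_one, q2]; abel

theorem main : P.Φ (1 - n • (b' * e * X)) (1 + n • (a' * e * X)) =
    P.Φ (b' * e + (1 - e)) (b * e + (1 - e)) - P.Φ (a' * e + (1 - e)) (a * e + (1 - e)) := by
  have hunit : ∀ c d : R, c * e = e * c → d * e = e * d → c * d = 1 →
      (c * e + (1 - e)) * (d * e + (1 - e)) = 1 := by
    intro c d hc hd hcd
    have : (c * e + (1 - e)) * (d * e + (1 - e)) =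
        c * (e * d) * e + (c * e - c * (e * e)) + (d * e - (e * d) * e) + (1 - e - e + e * e) := by
      noncomm_ring
    rw [this, ← hd, he]
    have : c * (d * e) * e + (c * e - c * e) + (d * e - d * e * e) + (1 - e - e + e) =
        c * d * (e * e) + (d * e - d * (e * e)) + (1 - e) := by noncomm_ring
    rw [this, he, hcd]; noncomm_ring
  let U : Rˣ := ⟨b * e + (1 - e), b' * e + (1 - e), hunit b b' hbe hb'e hbb',
    hunit b' b hb'e hbe hb'b⟩
  let V : Rˣ := ⟨a' * e + (1 - e), a * e + (1 - e), hunit a' a ha'e hae ha'a,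
    hunit a a' hae ha'e haa'⟩
  have hyx : 1 + (n • (e * X)) * (a' * e) = ((U * V : Rˣ) : R) := by
    have l1 : (n • (e * X)) * (a' * e) = (b - a) * (a' * e) := by
      calc (n • (e * X)) * (a' * e) = (n • (e * X)) * (e * (a' * e)) := by
            rw [← mul_assoc e a' e, ← ha'e, mul_assoc a' e e, he]
        _ = (n • (e * X * e)) * (a' * e) := by
            rw [← mul_assoc, smul_mul_assoc n (e * X) e]
        _ = (b - a) * (e * (a' * e)) := by rw [hX, mul_assoc]
        _ = (b - a) * (a' * e) := by rw [← mul_assoc e a' e, ← ha'e, mul_assoc a' e e, he]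
    have l2 : ((U * V : Rˣ) : R) = (b * e + (1 - e)) * (a' * e + (1 - e)) := rfl
    have l3 : (b * e + (1 - e)) * (a' * e + (1 - e)) =
        b * (e * a') * e + (b * e - b * (e * e)) + (a' * e - (e * a') * e)
          + (1 - e - e + e * e) := by noncomm_ring
    have l4 : b * (a' * e) * e + (b * e - b * e) + (a' * e - a' * e * e) + (1 - e - e + e) =
        b * a' * (e * e) + (a' * e - a' * (e * e)) + (1 - e) := by noncomm_ring
    have l5 : (b - a) * (a' * e) = b * a' * e - a * a' * e := by noncomm_ring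
    rw [l1, l2, l3, ← ha'e, he, l4, he, l5, haa', one_mul]; abel
  have hs1 : (((U * V)⁻¹ : Rˣ) : R) * (1 + (n • (e * X)) * (a' * e)) = 1 := by
    rw [hyx]; exact Units.inv_mul _
  have hs2 : (1 + (n • (e * X)) * (a' * e)) * (((U * V)⁻¹ : Rˣ) : R) = 1 := by
    rw [hyx]; exact Units.mul_inv _
  have hv := P.vas (a' * e) (n • (e * X)) (((U * V)⁻¹ : Rˣ) : R) hs1 hs2
  have hxy : (a' * e) * (n • (e * X)) = n • (a' * e * X) := by
    rw [mul_smul_comm, ← mul_assoc, mul_assoc a' e e, he]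
  have hinv : 1 - (a' * e) * (((U * V)⁻¹ : Rˣ) : R) * (n • (e * X)) = 1 - n • (b' * e * X) := by
    have m := main_inv n e a a' b b' X he hae ha'e hbe hb'e haa' ha'a hbb' hb'b hX
    have key : (1 + (a' * e) * (n • (e * X))) *
        (1 - (a' * e) * (((U * V)⁻¹ : Rˣ) : R) * (n • (e * X))) = 1 := by
      have : (1 + (a' * e) * (n • (e * X))) *
        (1 - (a' * e) * (((U * V)⁻¹ : Rˣ) : R) * (n • (e * X))) =
          1 + (a' * e) * (n • (e * X)) - (a' * e) *
            ((1 + (n • (e * X)) * (a' * e)) * (((U * V)⁻¹ : Rˣ) : R)) * (n • (e * X)) := by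
        noncomm_ring
      rw [this, hs2, mul_one]; abel
    rw [hxy] at key
    calc 1 - (a' * e) * (((U * V)⁻¹ : Rˣ) : R) * (n • (e * X))
        = ((1 - n • (b' * e * X)) * (1 + n • (a' * e * X))) *
          (1 - (a' * e) * (((U * V)⁻¹ : Rˣ) : R) * (n • (e * X))) := by rw [m.2, one_mul]
      _ = 1 - n • (b' * e * X) := by rw [mul_assoc, key, mul_one]
  rw [hinv, hxy, hyx, P.den_mul U V] at hv
  rw [hv, sub_eq_add_neg, ← P.skew]
  rfl

end main

theorem corner [CharZero F] (e c c' c₁ : R) (he : e * e = e) (hce : c * e = e * c)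
    (hc'e : c' * e = e * c') (hc₁e : c₁ * e = e * c₁) (h1 : c * c' = c₁) (h2 : c' * c = c₁)
    (h3 : c₁ * c = c) (h4 : c * c₁ = c) (h5 : c₁ * c' = c') (h6 : c' * c₁ = c')
    (h7 : c₁ * c₁ = c₁) :
    2 * P.Φ (1 + c' * e - c₁ * e) (1 + c * e - c₁ * e) =
      2 * P.Φ (c' * e) c + P.Φ e c' - P.Φ e c := by
  have hf : ∀ x y : R, x * e = e * x → y * e = e * y →
      P.Φ (x * e) (y * e) = P.Φ (x * y * e) e + P.Φ (x * e) y := by
    intro x y hx hy
    have h := P.cocycle (x * e) y e
    have e1 : x * e * y = x * y * e := by rw [mul_assoc, ← hy, mul_assoc]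
    have e2 : e * (x * e) = x * e := by rw [← mul_assoc, ← hx, mul_assoc, he]
    rw [e1, e2] at h
    exact h.symm
  have h2f : ∀ x : R, x * e = e * x → 2 * P.Φ (x * e) e = P.Φ x e := by
    intro x hx
    have h := P.cocycle x e e
    rw [← hx, he] at h
    rw [two_mul]; exact h
  have hz : ∀ z : R, z * c₁ = z → c₁ * z = z → P.Φ z c₁ = 0 := by
    intro z hz1 hz2
    have h := P.cocycle z c₁ c₁
    rw [hz1, hz2, h7] at h
    simpa using h
  have hec : P.Φ e c₁ = 0 := by
    have h := P.cocycle e c₁ c₁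
    have z1 : P.Φ (e * c₁) c₁ = 0 :=
      hz _ (by rw [mul_assoc, h7]) (by rw [← mul_assoc, hc₁e, mul_assoc, h7])
    rw [hc₁e, z1, h7, zero_add] at h
    exact h.symm
  have f1 : P.Φ (c₁ * e) e = 0 := by
    have h := h2f c₁ hc₁e
    rw [P.skew c₁ e, hec, neg_zero] at h
    rcases mul_eq_zero.1 h with h | h
    · exact absurd h two_ne_zero
    · exact h
  have g1 : P.Φ (c₁ * e) c = - P.Φ c e := by
    have h := P.cocycle c₁ e c
    rw [h4, P.skew c₁ (e * c), hz (e * c) (by rw [mul_assoc, h4])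
      (by rw [← mul_assoc, hc₁e, mul_assoc, h3]), neg_zero] at h
    exact eq_neg_of_add_eq_zero_left h
  have g2 : P.Φ (c' * e) c₁ = 0 :=
    hz _ (by rw [mul_assoc, ← hc₁e, ← mul_assoc, h6]) (by rw [← mul_assoc, h5])
  have g3 : P.Φ (c₁ * e) c₁ = 0 :=
    hz _ (by rw [mul_assoc, ← hc₁e, ← mul_assoc, h7]) (by rw [← mul_assoc, h7])
  have E : P.Φ (1 + c' * e - c₁ * e) (1 + c * e - c₁ * e) =
      P.Φ (c' * e) (c * e) - P.Φ (c' * e) (c₁ * e) - P.Φ (c₁ * e) (c * e)
        + P.Φ (c₁ * e) (c₁ * e) := by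
    simp only [map_sub, map_add, AddMonoidHom.sub_apply, AddMonoidHom.add_apply, P.one_left,
      P.one_right]
    ring
  rw [E, hf c' c hc'e hce, hf c' c₁ hc'e hc₁e, hf c₁ c hc₁e hce, hf c₁ c₁ hc₁e hc₁e, h2, h3, h6,
    h7, f1, g1, g2, g3]
  have k1 := h2f c hce
  have k2 := h2f c' hc'e
  rw [P.skew e c', P.skew e c, ← k1, ← k2]
  ring

end CForm

end Pool.Agent.H8.KZ
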