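import Pool.Agent.H8.KZ.GPr
import Pool.Agent.H71.DB.Defs

/-!
# The full rational source of the assembly map in degree zero over the integers

For a commutative ring `R` and a group `G`:

* `H1Km1 R G` is the abelian group generated by the symbols `[F, x, z]` with `F` a finite subgroup of
  `G`, `x ∈ K₋₁(R[F])` and `z` in the centralizer `Z_G(F)`, modulo additivity in `x` and in `z` and
  `[F', c_g(x), z'] = [F, x, g⁻¹ z' g]` for `g F g⁻¹ ⊆ F'`, `z' ∈ Z_G(F')`; it is the tensor product
  of the functors `F ↦ K₋₁(R[F])` and `F ↦ H₁(Z_G(F))` over the category of finite subgroups;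
* `assemblyM R G : H1Km1 R G → K₀(R[G])` sends `[F, x, z]` to the product of `x` and `z`: the
  homomorphism `K₋₁(R[F]) → K₀(R[G])` for `z` sends the class of `[e] ∈ K₀(R[F][t, t⁻¹])` to the
  boundary (in `K₀(R[G])`) of the class of `1 + e (z - 1)` in `K₁(R[G][t, t⁻¹])`;
* `fullAssembly0 R G : ℤ × H1Km1 R G → K₀(R[G])` sends `(k, w)` to `k [R[G]] + assemblyM w`.
-/

set_option autoImplicit false

open Matrix

universe u v w

namespace Pool.Agent.H8.KZ

open Pool.Agent.H71.FJ (K0 K0.map K0.one)
open Pool.Agent.H95.KM (Km1)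
open Pool.Agent.H95.WH (FamSub conjHom FinSub)
open Pool.Agent.H71.DB (conjCent cent_comm KG0 instKG0)

section Fin

/-- `K₋₁(R[H])` -/
def KGm1 (R : Type u) [CommRing R] (H : Type v) [Group H] : Type (max u v) :=
  Km1 (MonoidAlgebra R H)

noncomputable instance instKGm1 (R : Type u) [CommRing R] (H : Type v) [Group H] :
    AddCommGroup (KGm1 R H) := Pool.Agent.H95.KM.instKm1 (MonoidAlgebra R H)

/-- The homomorphism `K₋₁(R[H]) → K₋₁(R[H'])` induced by `φ : H → H'`. -/
noncomputable def KGm1.map (R : Type u) [CommRing R] {H H' : Type v} [Group H] [Group H']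
    (φ : H →* H') : KGm1 R H →+ KGm1 R H' := Pool.Agent.H95.KM.ind R φ

variable (R : Type u) [CommRing R] (G : Type v) [Group G]

/-- `K₋₁(R[F])` for a finite subgroup `F` of `G`. -/
def FKm1 (F : FamSub G FinSub) : Type (max u v) := KGm1 R F.1

noncomputable instance instFKm1 (F : FamSub G FinSub) : AddCommGroup (FKm1 R G F) :=
  instKGm1 R F.1

/-- The homomorphism `K₋₁(R[F]) → K₋₁(R[F'])` given by `x ↦ g x g⁻¹` if `g F g⁻¹ ⊆ F'`. -/
noncomputable def FKm1.conj (F F' : FamSub G FinSub) (g : G) (h : ∀ x ∈ F.1, g * x * g⁻¹ ∈ F'.1) :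
    FKm1 R G F →+ FKm1 R G F' := KGm1.map R (conjHom g F.1 F'.1 h)

end Fin

section H1Km1

variable (R : Type u) [CommRing R] (G : Type v) [Group G]

/-- The symbols `[F, x, z]`. -/
structure SymM where
  /-- a finite subgroup -/
  F : FamSub G FinSub
  /-- a class in `K₋₁` of its group ring -/
  x : FKm1 R G F
  /-- an element of its centralizer -/
  z : Subgroup.centralizer (F.1 : Set G)

/-- The symbol `[F, x, z]`. -/
noncomputable def symOf (F : FamSub G FinSub) (x : FKm1 R G F)
    (z : Subgroup.centralizer (F.1 : Set G)) : FreeAbelianGroup (SymM R G) :=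
  FreeAbelianGroup.of ⟨F, x, z⟩

/-- The relation of additivity in `x`. -/
noncomputable def symX (F : FamSub G FinSub) (x y : FKm1 R G F)
    (z : Subgroup.centralizer (F.1 : Set G)) : FreeAbelianGroup (SymM R G) :=
  symOf R G F (x + y) z - (symOf R G F x z + symOf R G F y z)

/-- The relation of additivity in `z`. -/
noncomputable def symZ (F : FamSub G FinSub) (x : FKm1 R G F)
    (z z' : Subgroup.centralizer (F.1 : Set G)) : FreeAbelianGroup (SymM R G) :=
  symOf R G F x (z * z') - (symOf R G F x z + symOf R G F x z')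

/-- The relation `[F', c_g(x), z'] = [F, x, g⁻¹ z' g]`. -/
noncomputable def symC (F F' : FamSub G FinSub) (g : G) (h : ∀ x ∈ F.1, g * x * g⁻¹ ∈ F'.1)
    (x : FKm1 R G F) (z : Subgroup.centralizer (F'.1 : Set G)) :
    FreeAbelianGroup (SymM R G) :=
  symOf R G F' (FKm1.conj R G F F' g h x) z - symOf R G F x (conjCent g F.1 F'.1 h z)

/-- The relations: additivity in `x` and in `z` and `[F', c_g(x), z'] = [F, x, g⁻¹ z' g]`. -/
noncomputable def SymRel : AddSubgroup (FreeAbelianGroup (SymM R G)) :=
  AddSubgroup.closure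
    ({w | ∃ F x y z, w = symX R G F x y z} ∪ {w | ∃ F x z z', w = symZ R G F x z z'} ∪
      {w | ∃ F F' g h x z, w = symC R G F F' g h x z})

/-- The group generated by the symbols `[F, x, z]`. -/
def H1Km1 : Type (max u v) := FreeAbelianGroup (SymM R G) ⧸ SymRel R G

noncomputable instance instH1Km1 : AddCommGroup (H1Km1 R G) :=
  QuotientAddGroup.Quotient.addCommGroup (SymRel R G)

variable {G}

/-- The homomorphism `K₋₁(R[F]) → K₀(R[G])` for `z ∈ Z_G(F)`. -/
noncomputable def cpr (F : FamSub G FinSub) (z : Subgroup.centralizer (F.1 : Set G)) :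
    FKm1 R G F →+ KG0 R G :=
  gpr R F.1.subtype (z : G) (cent_comm z)

/-- The value of the assembly map on a symbol. -/
noncomputable def symVal (s : SymM R G) : KG0 R G := cpr R s.F s.z s.x

variable (G)

omit R G in
private theorem gpr_aux (R : Type u) [CommRing R] (G : Type v) [Group G] (F F' : Subgroup G) (g : G)
    (h : ∀ x ∈ F, g * x * g⁻¹ ∈ F') (x : Km1 (MonoidAlgebra R F))
    (z : Subgroup.centralizer (F' : Set G)) :
    gpr R F'.subtype (z : G) (cent_comm z) (Pool.Agent.H95.KM.ind R (conjHom g F F' h) x) =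
      gpr R F.subtype (g⁻¹ * z * g) (cent_comm (conjCent g F F' h z)) x := by
  rw [gpr_comp]
  apply gpr_conj R _ _ _ _ g
  · intro a
    rfl
  · group

theorem symRel_le : SymRel R G ≤ (FreeAbelianGroup.lift (symVal R (G := G))).ker := by
  rw [SymRel, AddSubgroup.closure_le]
  rintro w ((⟨F, x, y, z, rfl⟩ | ⟨F, x, z, z', rfl⟩) | ⟨F, F', g, h, x, z, rfl⟩)
  · change FreeAbelianGroup.lift (symVal R) _ = 0
    rw [symX, symOf, symOf, symOf, map_sub, map_add, FreeAbelianGroup.lift_apply_of,
      FreeAbelianGroup.lift_apply_of, FreeAbelianGroup.lift_apply_of, symVal, symVal, symVal,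
      map_add, sub_self]
  · change FreeAbelianGroup.lift (symVal R) _ = 0
    rw [symZ, symOf, symOf, symOf, map_sub, map_add, FreeAbelianGroup.lift_apply_of,
      FreeAbelianGroup.lift_apply_of, FreeAbelianGroup.lift_apply_of, sub_eq_zero]
    exact gpr_mul R F.1.subtype (z : G) (z' : G) (cent_comm z) (cent_comm z')
      (cent_comm (z * z')) x
  · change FreeAbelianGroup.lift (symVal R) _ = 0
    rw [symC, symOf, symOf, map_sub, FreeAbelianGroup.lift_apply_of,
      FreeAbelianGroup.lift_apply_of, sub_eq_zero]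
    exact gpr_aux R G F.1 F'.1 g h x z

/-- The assembly map on the symbols. -/
noncomputable def assemblyM : H1Km1 R G →+ KG0 R G :=
  QuotientAddGroup.lift (SymRel R G) (FreeAbelianGroup.lift (symVal R)) (symRel_le R G)

/-- The class of the free module of rank one. -/
noncomputable def oneG : KG0 R G := K0.one (MonoidAlgebra R G)

/-- The rational source of the assembly map in degree zero over `ℤ`. -/
abbrev Source0 : Type (max u v) := ℤ × H1Km1 R G

/-- The assembly map in degree zero on the full rational source. -/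
noncomputable def fullAssembly0 : Source0 R G →+ KG0 R G :=
  (zmultiplesHom (KG0 R G) (oneG R G)).coprod (assemblyM R G)

end H1Km1

section Sep

/-- Every element of `Z` which is killed by all homomorphisms from `Z` to the group of the rational
numbers with denominator prime to `p` has finite order in the abelianization of `Z`. -/
def PSep (p : ℕ) (Z : Type v) [Group Z] : Prop :=
  ∀ z : Z, (∀ f : Z →* Multiplicative ℚ, (∀ y, ¬ p ∣ (Multiplicative.toAdd (f y)).den) →
    f z = 1) → ∃ m : ℕ, m ≠ 0 ∧ z ^ m ∈ commutator Z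

end Sep

end Pool.Agent.H8.KZ
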