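import Pool.Agent.H8.KZ.Op
import Pool.Agent.H95.KM.SqProp

/-!
# KZ: the class in `K₀(A)` of an idempotent operator supported in a finite window
-/

set_option autoImplicit false

open Matrix
open scoped LaurentPolynomial

universe u v w

namespace Pool.Agent.H8.KZ

open Pool.Agent.H71.FJ Pool.Agent.H95.KM

variable {A : Type u} [Ring A]

theorem mt_idem {ι : Type} [Fintype ι] [DecidableEq ι] {e : Op A ι ι} (he : e.comp e = e) {D : ℕ}
    (h : Img D e) : mt D D e * mt D D e = mt D D e := by
  rw [← mt_comp h, he]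

/-- The class of an idempotent operator supported in a finite window. -/
noncomputable def fcl {ι : Type} [Fintype ι] [DecidableEq ι] (e : Op A ι ι) : K0 A :=
  open Classical in
  if h : e.comp e = e ∧ ∃ D : ℕ, Sup D e ∧ Img D e then
    K0.cls (mt h.2.choose h.2.choose e) (mt_idem h.1 h.2.choose_spec.2)
  else 0

section

variable {ι : Type} [Fintype ι] [DecidableEq ι] {κ : Type} [Fintype κ] [DecidableEq κ]

theorem cls_window {e : Op A ι ι} (he : e.comp e = e) {D D' : ℕ} (h : Img D e) (h' : Img D' e) :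
    K0.cls (mt D D e) (mt_idem he h) = K0.cls (mt D' D' e) (mt_idem he h') := by
  apply K0.cls_congr
  refine ⟨mt D D' e, mt D' D e, ?_, ?_⟩
  · rw [← mt_comp h', he]
  · rw [← mt_comp h, he]

theorem fcl_eq {e : Op A ι ι} (he : e.comp e = e) {D : ℕ} (hs : Sup D e) (hi : Img D e) :
    fcl e = K0.cls (mt D D e) (mt_idem he hi) := by
  have h : e.comp e = e ∧ ∃ D : ℕ, Sup D e ∧ Img D e := ⟨he, D, hs, hi⟩
  rw [fcl, dif_pos h]
  exact cls_window he h.2.choose_spec.2 hi

/-- Equivalent idempotent operators have the same class. -/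
theorem fcl_equiv (x : Op A ι κ) (y : Op A κ ι) {D : ℕ} (e : Op A ι ι) (f : Op A κ κ)
    (hyx : y.comp x = e) (hxy : x.comp y = f) (he : e.comp e = e) (hf : f.comp f = f)
    (hse : Sup D e) (hie : Img D e) (hsf : Sup D f) (hif : Img D f) : fcl e = fcl f := by
  rw [fcl_eq he hse hie, fcl_eq hf hsf hif]
  apply K0.cls_congr
  have h1 : Img D (f.comp (x.comp e)) := hif.comp _
  have h2 : Img D (e.comp (y.comp f)) := hie.comp _
  refine ⟨mt D D (f.comp (x.comp e)), mt D D (e.comp (y.comp f)), ?_, ?_⟩
  · rw [← mt_comp h1]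
    congr 1
    apply LinearMap.ext
    intro v
    have e1 : ∀ w, e (e w) = e w := fun w => LinearMap.congr_fun he w
    have f1 : ∀ w, f (f w) = f w := fun w => LinearMap.congr_fun hf w
    have e2 : ∀ w, y (x w) = e w := fun w => LinearMap.congr_fun hyx w
    have f2 : ∀ w, f w = x (y w) := fun w => (LinearMap.congr_fun hxy w).symm
    simp only [LinearMap.comp_apply]
    rw [f1, f2, e2, e1, e2, e1, e1]
  · rw [← mt_comp h2]
    congr 1
    apply LinearMap.ext
    intro v
    have e1 : ∀ w, e (e w) = e w := fun w => LinearMap.congr_fun he w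
    have f1 : ∀ w, f (f w) = f w := fun w => LinearMap.congr_fun hf w
    have e2 : ∀ w, e w = y (x w) := fun w => (LinearMap.congr_fun hyx w).symm
    have f2 : ∀ w, x (y w) = f w := fun w => LinearMap.congr_fun hxy w
    simp only [LinearMap.comp_apply]
    rw [e1, e2, f2, f1, f2, f1, f1]

theorem cls_add_orth {n : Type} [Fintype n] [DecidableEq n] {E F : Matrix n n A} (hE : E * E = E)
    (hF : F * F = F) (hEF : E * F = 0) (hFE : F * E = 0)
    (h : (E + F) * (E + F) = E + F) : K0.cls (E + F) h = K0.cls E hE + K0.cls F hF := by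
  rw [← K0.cls_fromBlocks]
  apply K0.cls_congr
  refine ⟨fromCols E F, fromRows E F, ?_, ?_⟩
  · rw [fromCols_mul_fromRows, hE, hF]
  · rw [fromRows_mul_fromCols, hE, hF, hEF, hFE]

/-- Additivity for orthogonal idempotent operators. -/
theorem fcl_add {e f : Op A ι ι} (he : e.comp e = e) (hf : f.comp f = f) (hef : e.comp f = 0)
    (hfe : f.comp e = 0) {D : ℕ} (hse : Sup D e) (hie : Img D e) (hsf : Sup D f) (hif : Img D f) :
    fcl (e + f) = fcl e + fcl f := by
  have h : (e + f).comp (e + f) = e + f := by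
    rw [LinearMap.comp_add, LinearMap.add_comp, LinearMap.add_comp, he, hf, hef, hfe, add_zero,
      zero_add]
  have hz : mt D D (0 : Op A ι ι) = 0 := by
    refine Matrix.ext fun p q => ?_
    simp [mt]
  rw [fcl_eq he hse hie, fcl_eq hf hsf hif, fcl_eq h (hse.add hsf) (hie.add hif)]
  have h2 := mt_add D D e f
  have h3 : mt D D e * mt D D f = 0 := by rw [← mt_comp hie, hfe, hz]
  have h4 : mt D D f * mt D D e = 0 := by rw [← mt_comp hif, hef, hz]
  rw [← cls_add_orth (mt_idem he hie) (mt_idem hf hif) h3 h4 (by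
    rw [← h2]
    exact mt_idem h (hie.add hif))]
  congr 1

/-- The class of the free module of rank one. -/
noncomputable def one (A : Type u) [Ring A] : K0 A := K0.cls (1 : Matrix Unit Unit A) one_idem

theorem cls_one_fin (n : ℕ) :
    K0.cls (1 : Matrix (Fin n) (Fin n) A) one_idem = n • one A := by
  induction n with
  | zero =>
    rw [zero_smul]
    have h := K0.cls_fromBlocks (one_idem (R := A) (n := Fin 0)) (one_idem (R := A) (n := Fin 0))
    have h2 : K0.cls (fromBlocks (1 : Matrix (Fin 0) (Fin 0) A) 0 0 (1 : Matrix (Fin 0) (Fin 0) A))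
        (K0.fromBlocks_idem one_idem one_idem) =
        K0.cls (1 : Matrix (Fin 0) (Fin 0) A) one_idem := by
      apply K0.cls_congr
      exact ⟨0, 0, Matrix.ext fun i => i.elim (fun a => a.elim0) (fun a => a.elim0),
        Matrix.ext fun i => i.elim0⟩
    rw [h2] at h
    simpa using h
  | succ n ih =>
    rw [succ_nsmul, ← ih, one, ← Sq.cls_one_sum]
    apply K0.cls_congr
    have h := K0.matEquiv_submatrix (1 : Matrix (Fin n ⊕ Unit) (Fin n ⊕ Unit) A) one_idem
      (finSumFinEquiv.symm.trans (Equiv.sumCongr (Equiv.refl (Fin n))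
        (Equiv.ofUnique (Fin 1) Unit)))
    rwa [submatrix_one_equiv] at h

theorem one_eq : one A = K0.one A := K0.cls_congr _ _ (K0.matEquiv_one_one (Equiv.ofUnique Unit (Fin 1)))

theorem cls_one (n : Type) [Fintype n] [DecidableEq n] :
    K0.cls (1 : Matrix n n A) one_idem = Fintype.card n • one A := by
  rw [← cls_one_fin]
  apply K0.cls_congr
  have h := K0.matEquiv_submatrix (1 : Matrix (Fin (Fintype.card n)) (Fin (Fintype.card n)) A)
    one_idem (Fintype.equivFin n)
  rwa [submatrix_one_equiv] at h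

end

end Pool.Agent.H8.KZ
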