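import Pool.Agent.H8.KZ.Pr
import Pool.Agent.H71.DB.GBass

/-!
# KZ: the homomorphism `K₋₁(S[H]) → K₀(S[G])` given by an element of `G` commuting with the image of `H`
-/

set_option autoImplicit false

open Matrix
open scoped LaurentPolynomial

universe u v w

namespace Pool.Agent.H8.KZ

open Pool.Agent.H71.FJ (K0 K0.map)
open Pool.Agent.H95.KM
open Pool.Agent.H71.DB (comm_grp)
open Pool.Agent.H71.DO (grpUnit)

variable (S : Type u) [CommRing S] {H : Type v} [Group H] {G : Type w} [Group G]

/-- The homomorphism `K₋₁(S[H]) → K₀(S[G])` defined by `f : H → G` and an element `z` of `G` which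
commutes with the image of `f`. -/
noncomputable def gpr (f : H →* G) (z : G) (h : ∀ a, f a * z = z * f a) :
    Km1 (MonoidAlgebra S H) →+ K0 (MonoidAlgebra S G) :=
  pr (MonoidAlgebra.mapDomainRingHom S f) (grpUnit S G z) (comm_grp S f z h)

theorem gpr_congr (f : H →* G) {z z' : G} (hz : z = z') (h : ∀ a, f a * z = z * f a)
    (h' : ∀ a, f a * z' = z' * f a) : gpr S f z h = gpr S f z' h' := by
  subst hz
  rfl

theorem gpr_mul (f : H →* G) (z z' : G) (h : ∀ a, f a * z = z * f a)
    (h' : ∀ a, f a * z' = z' * f a) (h'' : ∀ a, f a * (z * z') = z * z' * f a)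
    (x : Km1 (MonoidAlgebra S H)) :
    gpr S f (z * z') h'' x = gpr S f z h x + gpr S f z' h' x := by
  have e : grpUnit S G (z * z') = grpUnit S G z * grpUnit S G z' := map_mul _ _ _
  rw [gpr, gpr, gpr, ← pr_mul _ _ _ _ _ (fun b => by rw [← e]; exact comm_grp S f _ h'' b)]
  exact pr_congr rfl e _ _ x

theorem gpr_comp {H' : Type*} [Group H'] (f : H →* G) (g : H' →* H) (z : G)
    (h : ∀ a, f a * z = z * f a) (x : Km1 (MonoidAlgebra S H')) :
    gpr S f z h (ind S g x) = gpr S (f.comp g) z (fun a => h (g a)) x := by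
  rw [gpr, ind, pr_comp, gpr]
  exact pr_congr (MonoidAlgebra.mapDomainRingHom_comp _ _).symm rfl _ _ x

/-- Naturality in the target group. -/
theorem map_gpr_grp {G' : Type*} [Group G'] (f : H →* G) (g : G →* G') (z : G)
    (h : ∀ a, f a * z = z * f a) (h' : ∀ a, (g.comp f) a * g z = g z * (g.comp f) a)
    (x : Km1 (MonoidAlgebra S H)) :
    K0.map (MonoidAlgebra.mapDomainRingHom S g) (gpr S f z h x) = gpr S (g.comp f) (g z) h' x := by
  have e : (Units.map ((MonoidAlgebra.mapDomainRingHom S g :
      MonoidAlgebra S G →+* MonoidAlgebra S G') : MonoidAlgebra S G →* MonoidAlgebra S G'))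
      (grpUnit S G z) = grpUnit S G' (g z) := by
    apply Units.ext
    change MonoidAlgebra.mapDomain g (MonoidAlgebra.single z 1) = MonoidAlgebra.single (g z) 1
    rw [MonoidAlgebra.mapDomain_single]
  rw [gpr, map_pr _ _ _ _ (fun b => by
    rw [e, ← MonoidAlgebra.mapDomainRingHom_comp]; exact comm_grp S _ _ h' _), gpr]
  exact pr_congr (MonoidAlgebra.mapDomainRingHom_comp _ _).symm e _ _ x

theorem map_gpr {T : Type*} [CommRing T] (θ : S →+* T) (f : H →* G) (z : G)
    (h : ∀ a, f a * z = z * f a) (x : Km1 (MonoidAlgebra S H)) :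
    K0.map (MonoidAlgebra.mapRingHom G θ) (gpr S f z h x) =
      gpr T f z h (Km1.map (MonoidAlgebra.mapRingHom H θ) x) := by
  have e : (Units.map ((MonoidAlgebra.mapRingHom G θ : MonoidAlgebra S G →+* MonoidAlgebra T G) :
      MonoidAlgebra S G →* MonoidAlgebra T G)) (grpUnit S G z) = grpUnit T G z := by
    apply Units.ext
    change MonoidAlgebra.mapRingHom G θ (MonoidAlgebra.single z 1) = MonoidAlgebra.single z 1
    rw [MonoidAlgebra.mapRingHom_single, map_one]
  have e2 : (MonoidAlgebra.mapRingHom G θ).comp (MonoidAlgebra.mapDomainRingHom S f) =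
      (MonoidAlgebra.mapDomainRingHom T f).comp (MonoidAlgebra.mapRingHom H θ) :=
    MonoidAlgebra.mapRingHom_comp_mapDomainRingHom _ _
  rw [gpr, map_pr _ _ _ _ (fun b => by
    rw [e, e2]; exact comm_grp T f z h _), gpr, pr_comp]
  exact pr_congr e2 e _ _ x

theorem gpr_conj (f f' : H →* G) (z z' g : G) (h : ∀ a, f a * z = z * f a)
    (h' : ∀ a, f' a * z' = z' * f' a) (hf : ∀ a, f' a = g * f a * g⁻¹) (hz : z' = g * z * g⁻¹)
    (x : Km1 (MonoidAlgebra S H)) : gpr S f' z' h' x = gpr S f z h x := by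
  have ginv : (((grpUnit S G g)⁻¹ : (MonoidAlgebra S G)ˣ) : MonoidAlgebra S G) =
      MonoidAlgebra.single g⁻¹ 1 := by
    rw [← map_inv]
    rfl
  apply pr_conj _ _ _ _ (grpUnit S G g)
  · intro b
    rw [ginv]
    induction b using MonoidAlgebra.induction_linear with
    | zero => simp
    | add a b ha hb => rw [map_add, ha, hb, map_add, mul_add, add_mul]
    | single a r =>
      change MonoidAlgebra.mapDomain f' (MonoidAlgebra.single a r) = MonoidAlgebra.single g 1 *
        MonoidAlgebra.mapDomain f (MonoidAlgebra.single a r) * MonoidAlgebra.single g⁻¹ 1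
      rw [MonoidAlgebra.mapDomain_single, MonoidAlgebra.mapDomain_single,
        MonoidAlgebra.single_mul_single, MonoidAlgebra.single_mul_single, hf, mul_one, one_mul]
  · rw [ginv]
    change MonoidAlgebra.single z' 1 = MonoidAlgebra.single g 1 * MonoidAlgebra.single z 1 *
      MonoidAlgebra.single g⁻¹ 1
    rw [MonoidAlgebra.single_mul_single, MonoidAlgebra.single_mul_single, hz, mul_one, mul_one]

end Pool.Agent.H8.KZ
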