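import Pool.Agent.H8.KZ.PsiD

/-!
# KZ, module PsiC: the twisted form on corners

`r : ZMod N →+* ZMod M` surjective, `N = p * M`; `cor (per r) (perR r G S) x` (`x : EE S M ι G`) is the
matrix with the entries `perR r G S (x I J)` at `(per r I, per r J)` and `0` elsewhere (`cor_apply`,
`cor_apply_left`, `cor_apply_right` in `Pool/Agent/H95/WH/Cor.lean`; `per_injective`, `sh_per`,
`perR_single` in `Pool/Agent/H95/WH/Shift.lean`).

PROOFS.
* `cyc_per`: `pth (per r γ) (n * M) = (pth γ M) ^ n` by induction on `n` (`pth_add`; `pth` of the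
  `M`-periodic function `per r γ` at natural numbers: `per r γ (s : ZMod N) = γ (s : ZMod M)`,
  `(M : ZMod M) = 0`).
* `Psi_cor`: only the terms with `I = per r I'`, `J = per r J'` contribute (if `I` is not of this form
  the entry `y J I` vanishes; if `J` is not the entries vanish), `sh (-1) (per r I') = per r (sh (-1) I')`.
  It remains that
  `pairF (fun α β => l.L (β 0) (cyc (sh 1 (α * β)))) (perR r G S a) (perR r G S b) =
    pairF (fun α β => (powC p hp l).L (β 0) (cyc (sh 1 (α * β)))) a b`; biadditive, check on `single`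
  (`perR_single`): `(per r β) 0 = β 0`, `sh 1 (per r α * per r β) = per r (sh 1 (α * β))`, `cyc_per`.
* `Psi_one_cor`: for `J = per r J'`, `I = per r I'` the entry `1 (sh (-1) I) J` is `1` if
  `sh (-1) I' = J'` and `0` otherwise, i.e. `perR r G S (1 (sh (-1) I') J')`; for the other `I`, `J` the
  entry `y J I` of `y = cor ..` vanishes; continue as before.
-/

set_option autoImplicit false

open Matrix

universe u v w

namespace Pool.Agent.H8.KZ

open Pool.Agent.H95.WH (sh sh_apply cyc EE per perG perR per_injective sh_per perR_single cor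
  cor_apply cor_apply_left cor_apply_right)
open Pool.Agent.H71.DB (Coc pairF pairF_single pairF_add_right pairF_add_left)

variable {N M : ℕ} [NeZero N] [NeZero M] {ι : Type w} [Fintype ι] [DecidableEq ι] {G : Type v}
  [Group G] {S : Type u} [CommRing S]

omit [NeZero N] [NeZero M] in
private theorem psiC_pth (r : ZMod N →+* ZMod M) (γ : ZMod M → G) (n : ℕ) :
    pth (per r γ) n = pth γ n := by
  unfold pth
  congr 1
  refine List.map_congr_left fun s _ => ?_
  change γ (r (s : ZMod N)) = γ (s : ZMod M)
  rw [map_natCast]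

omit [NeZero N] [NeZero M] in
private theorem psiC_pow (r : ZMod N →+* ZMod M) (γ : ZMod M → G) (n : ℕ) :
    pth (per r γ) (n * M) = pth γ M ^ n := by
  induction n with
  | zero => rw [zero_mul, pth_zero, pow_zero]
  | succ n ih =>
    have h1 : r ((n * M : ℕ) : ZMod N) = 0 := by
      rw [map_natCast, Nat.cast_mul, ZMod.natCast_self, mul_zero]
    rw [Nat.succ_mul, pth_add, ih, sh_per, h1, Pool.Agent.H95.WH.sh_zero, psiC_pth, pow_succ]

theorem cyc_per {p : ℕ} (hNM : N = p * M) (r : ZMod N →+* ZMod M) (γ : ZMod M → G) :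
    cyc (per r γ) = cyc γ ^ p := by
  have h := psiC_pow r γ p
  rw [← hNM] at h
  exact h

private theorem psiC_pair {p : ℕ} (hNM : N = p * M) (r : ZMod N →+* ZMod M)
    (hp : ∀ x : S, (p : S) * x = 0 → x = 0) (l : Coc G S)
    (a b : MonoidAlgebra S (ZMod M → G)) :
    pairF (fun α β : ZMod M → G => (powC p hp l).L (β 0) (cyc (sh 1 (α * β)))) a b =
      pairF (fun α β : ZMod N → G => l.L (β 0) (cyc (sh 1 (α * β)))) (perR r G S a)
        (perR r G S b) := by
  induction a using MonoidAlgebra.induction_linear with
  | zero =>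
    rw [map_zero, Pool.Agent.H71.DB.pairF_zero_left, Pool.Agent.H71.DB.pairF_zero_left]
  | add a a' ha ha' => rw [map_add, pairF_add_left, pairF_add_left, ha, ha']
  | single α c =>
    induction b using MonoidAlgebra.induction_linear with
    | zero =>
      rw [map_zero, Pool.Agent.H71.DB.pairF_zero_right, Pool.Agent.H71.DB.pairF_zero_right]
    | add b b' hb hb' => rw [map_add, pairF_add_right, pairF_add_right, hb, hb']
    | single β d =>
      rw [perR_single, perR_single, pairF_single, pairF_single]
      have h1 : (per r β : ZMod N → G) 0 = β 0 := by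
        change β (r 0) = β 0
        rw [map_zero]
      have h2 : sh 1 (per r α * per r β) = (per r (sh 1 (α * β)) : ZMod N → G) := by
        have h3 : (per r α * per r β : ZMod N → G) = per r (α * β) := rfl
        rw [h3, sh_per, map_one]
      rw [powC_L, h1, h2, cyc_per hNM]

theorem Psi_cor {p : ℕ} (hNM : N = p * M) (r : ZMod N →+* ZMod M) (hr : Function.Surjective r)
    (hp : ∀ x : S, (p : S) * x = 0 → x = 0) (l : Coc G S) (x y : EE S M ι G) :
    Psi l (cor (per r) (perR r G S) x) (cor (per r) (perR r G S) y) = Psi (powC p hp l) x y := by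
  symm
  unfold Psi
  refine Fintype.sum_of_injective (per r) (per_injective r hr) _ _ ?_ ?_
  · intro I hI
    have hI' : ∀ a, per r a ≠ I := fun a ha => hI ⟨a, ha⟩
    refine Finset.sum_eq_zero fun J _ => ?_
    rw [cor_apply_right _ y J hI', Pool.Agent.H71.DB.pairF_zero_right]
  · intro I'
    refine Fintype.sum_of_injective (per r) (per_injective r hr) _ _ ?_ ?_
    · intro J hJ
      have hJ' : ∀ a, per r a ≠ J := fun a ha => hJ ⟨a, ha⟩
      rw [cor_apply_left _ y hJ', Pool.Agent.H71.DB.pairF_zero_right]
    · intro J'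
      rw [sh_per, map_neg, map_one, cor_apply (per_injective r hr),
        cor_apply (per_injective r hr), psiC_pair hNM r hp l]

theorem Psi_one_cor {p : ℕ} (hNM : N = p * M) (r : ZMod N →+* ZMod M) (hr : Function.Surjective r)
    (hp : ∀ x : S, (p : S) * x = 0 → x = 0) (l : Coc G S) (y : EE S M ι G) :
    Psi l (1 : EE S N ι G) (cor (per r) (perR r G S) y) = Psi (powC p hp l) 1 y := by
  symm
  unfold Psi
  refine Fintype.sum_of_injective (per r) (per_injective r hr) _ _ ?_ ?_
  · intro I hI
    have hI' : ∀ a, per r a ≠ I := fun a ha => hI ⟨a, ha⟩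
    refine Finset.sum_eq_zero fun J _ => ?_
    rw [cor_apply_right _ y J hI', Pool.Agent.H71.DB.pairF_zero_right]
  · intro I'
    refine Fintype.sum_of_injective (per r) (per_injective r hr) _ _ ?_ ?_
    · intro J hJ
      have hJ' : ∀ a, per r a ≠ J := fun a ha => hJ ⟨a, ha⟩
      rw [cor_apply_left _ y hJ', Pool.Agent.H71.DB.pairF_zero_right]
    · intro J'
      have h1 : (1 : EE S N ι G) (per r (sh (-1) I')) (per r J') =
          perR r G S ((1 : EE S M ι G) (sh (-1) I') J') := by
        rw [Matrix.one_apply, Matrix.one_apply]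
        by_cases h2 : sh (-1) I' = J'
        · rw [if_pos h2, if_pos (by rw [h2]), map_one]
        · rw [if_neg h2, if_neg (fun h3 => h2 (per_injective r hr h3)), map_zero]
      rw [sh_per, map_neg, map_one, h1, cor_apply (per_injective r hr), psiC_pair hNM r hp l]

end Pool.Agent.H8.KZ
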