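import Pool.Agent.H8.KZ.PsiD

/-!
# KZ, module PsiT: the twisted form on tensor powers

`bb N A` (`Pool/Agent/H95/WH/Ten.lean`) has the entries `bb N A I J = ten (s ↦ A (I s) (J s))`; `ten`,
`ten_sum`, `ten_single` are there.  `pairF f (single g r) (single h s) = s * (r * f g h)`
(`pairF_single`, `Pool/Agent/H71/DB/Coc.lean`), `l.Phi`, `l.phi` are there too.

PROOF.  (1) For `f, f' : ZMod N → S[G]`:
`pairF (fun α β => l.L (β 0) (cyc (sh 1 (α * β)))) (ten f) (ten f') = l.phi (P * f 0) (f' 0)`, where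
`P = ∏_{s = 1}^{N - 1} f s * f' s` (ordered product `((List.range (N - 1)).map fun s => f (s + 1) *
f' (s + 1)).prod`).  Expand `f s = ∑ g ∈ T, (f s)(g) • g`, `f' s` in the same way for one finite set `T`
(`ten_sum`, `ten_single`, and both sides are additive in each `f s`, `f' s`); for `f s = single (α s) (a s)`,
`f' s = single (β s) (b s)` the left hand side is `∏ a s ∏ b s * l.L (β 0) (cyc (sh 1 (α β)))` and the
right hand side is the same, as
`cyc (sh 1 (α β)) = (α β)(1) (α β)(2) ⋯ (α β)(N - 1) (α β)(N) = (∏_{s=1}^{N-1} α s β s) * α 0 * β 0`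
and `l.phi g h = l.L h (g h)`.
(2) Hence `Psi l (bb N A) (bb N B) = ∑_I ∑_J l.phi (∏_{s=1}^{N-1} (A (I (s - 1)) (J s) * B (J s) (I s))
* A (I (N - 1)) (J 0)) (B (J 0) (I 0))`.  Sum over `J s` for `s ≠ 0`: `∑_j A i j * B j k = (A * B) i k`;
then over `I s` for `s = 1, …, N - 1`: `∑_{I 1, …, I (N-1)} ∏_{s=1}^{N-1} (A B) (I (s - 1)) (I s) *
A (I (N - 1)) j = ((A B)^(N-1) A) (I 0) j`.  What remains is
`∑_{i, j} l.phi (((A B)^(N-1) A) i j) (B j i)`, the definition of `l.Phi`.
(Any other proof is fine.  For instance: with general families `A s`, `B s` both sides are additive in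
each `A s`, `B s`, and one may assume that all of them are elementary matrices with one nonzero entry
which is a monomial.  Or an induction on the number of factors for functions on `Fin (n + 1)`.)
-/

set_option autoImplicit false

open Matrix

universe u v w

namespace Pool.Agent.H8.KZ

open Pool.Agent.H95.WH (sh sh_apply cyc EE bb bb_apply bb_one ten ten_sum ten_single ten_coeff)
open Pool.Agent.H71.DB (Coc pairF pairF_single pairF_add_right pairF_add_left)

variable {N : ℕ} [NeZero N] {ι : Type w} [Fintype ι] [DecidableEq ι] {G : Type v} [Group G]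
  {S : Type u} [CommRing S]

private theorem psit_prod_single {n : ℕ} (g : Fin n → G) (r : Fin n → S) :
    (List.ofFn fun s => (MonoidAlgebra.single (g s) (r s) : MonoidAlgebra S G)).prod =
      MonoidAlgebra.single (List.ofFn g).prod (∏ s, r s) := by
  induction n with
  | zero => simp [MonoidAlgebra.one_def]
  | succ n ih =>
    rw [List.ofFn_succ, List.prod_cons, ih, List.ofFn_succ, List.prod_cons, Fin.prod_univ_succ,
      MonoidAlgebra.single_mul_single]

private theorem psit_bil {κ A B C : Type*} [AddCommMonoid A] [AddCommMonoid B] [AddCommMonoid C]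
    (Φ : A →+ B →+ C) (s : Finset κ) (a : κ → A) (b : B) :
    Φ (∑ i ∈ s, a i) b = ∑ i ∈ s, Φ (a i) b := by
  rw [map_sum, AddMonoidHom.finsetSum_apply]

private theorem psit_sh_succ {n : ℕ} {α : Type*} (I : ZMod (n + 1) → α) (s : Fin n) :
    sh (-1) I (s.succ : Fin (n + 1)) = I (s.castSucc : Fin (n + 1)) := by
  have h : (s.castSucc : Fin (n + 1)) + 1 = s.succ := Fin.coeSucc_eq_succ
  have h' : ∀ a b : ZMod (n + 1), a + 1 = b → b + (-1) = a := by
    intro a b h
    rw [← h, add_neg_cancel_right]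
  exact congrArg I (h' _ _ h)

private theorem psit_sh_zero {n : ℕ} {α : Type*} (I : ZMod (n + 1) → α) :
    sh (-1) I 0 = I (Fin.last n : Fin (n + 1)) := by
  have h : (Fin.last n : Fin (n + 1)) + 1 = 0 := Fin.last_add_one n
  have h' : ∀ a b : ZMod (n + 1), a + 1 = b → b + (-1) = a := by
    intro a b h
    rw [← h, add_neg_cancel_right]
  exact congrArg I (h' _ _ h)

private theorem psit_ofFn_sum {n : ℕ} {κ : Type*} [Fintype κ] {R : Type*} [Ring R]
    (f : Fin n → κ → R) :
    (List.ofFn fun s => ∑ j, f s j).prod = ∑ K : Fin n → κ, (List.ofFn fun s => f s (K s)).prod := by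
  classical
  have h := (MultilinearMap.mkPiAlgebraFin ℤ n R).map_sum f
  simpa only [MultilinearMap.mkPiAlgebraFin_apply] using h

private theorem psit_cyc {n : ℕ} (γ : ZMod (n + 1) → G) :
    cyc (sh 1 γ) = (List.ofFn fun s : Fin n => γ (s.succ : Fin (n + 1))).prod * γ 0 := by
  rw [cyc, List.range_succ, List.map_append, List.prod_append, List.map_singleton,
    List.prod_singleton, sh_apply]
  have h0 : ((n : ℕ) : ZMod (n + 1)) + 1 = 0 := by
    have := ZMod.natCast_self (n + 1)
    push_cast at this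
    exact this
  rw [h0]
  congr 1
  rw [← List.map_coe_finRange_eq_range, List.map_map, List.ofFn_eq_map]
  congr 1
  apply List.map_congr_left
  intro s _
  change γ (((s : ℕ) : ZMod (n + 1)) + 1) = γ (s.succ : Fin (n + 1))
  congr 1
  have e : ((s : ℕ) : ZMod (n + 1)) + 1 = (((s : ℕ) + 1 : ℕ) : ZMod (n + 1)) := by push_cast; rfl
  rw [e]
  exact Fin.ext (Nat.mod_eq_of_lt (by omega))

omit [Group G] in
private theorem psit_expand (f f' : ZMod N → MonoidAlgebra S G) :
    ∃ T : Finset G, (∀ s, f s = ∑ j : T, MonoidAlgebra.single (j : G) ((f s).coeff j)) ∧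
      ∀ s, f' s = ∑ j : T, MonoidAlgebra.single (j : G) ((f' s).coeff j) := by
  classical
  have key : ∀ (T : Finset G) (x : MonoidAlgebra S G), x.coeff.support ⊆ T →
      x = ∑ j : T, MonoidAlgebra.single (j : G) (x.coeff j) := by
    intro T x hx
    rw [Finset.sum_coe_sort T (fun j : G => MonoidAlgebra.single j (x.coeff j))]
    have h := MonoidAlgebra.sum_coeff_single x
    rw [Finsupp.sum_of_support_subset _ hx _ (fun g _ => MonoidAlgebra.single_zero g)] at h
    exact h.symm
  refine ⟨(Finset.univ.biUnion fun s => (f s).coeff.support) ∪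
    (Finset.univ.biUnion fun s => (f' s).coeff.support), fun s => key _ _ fun g hg => ?_,
    fun s => key _ _ fun g hg => ?_⟩
  · exact Finset.mem_union_left _ (Finset.mem_biUnion.2 ⟨s, Finset.mem_univ s, hg⟩)
  · exact Finset.mem_union_right _ (Finset.mem_biUnion.2 ⟨s, Finset.mem_univ s, hg⟩)

private def psit_eqv (n : ℕ) (T : Type*) :
    ((ZMod (n + 1) → T) × (ZMod (n + 1) → T)) ≃ ((Fin n → T × T) × T) × T where
  toFun p := ((fun s => (p.1 (s.succ : Fin (n + 1)), p.2 (s.succ : Fin (n + 1))), p.1 0), p.2 0)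
  invFun q := ((Fin.cons q.1.2 (fun s => (q.1.1 s).1) : Fin (n + 1) → T),
    (Fin.cons q.2 (fun s => (q.1.1 s).2) : Fin (n + 1) → T))
  left_inv p := by
    refine Prod.ext ?_ ?_
    · funext s
      refine Fin.cases ?_ (fun t => ?_) s
      · rfl
      · rfl
    · funext s
      refine Fin.cases ?_ (fun t => ?_) s
      · rfl
      · rfl
  right_inv q := by rfl

private theorem psit_prod_univ {n : ℕ} (c : ZMod (n + 1) → S) :
    ∏ s, c s = c 0 * ∏ s : Fin n, c (s.succ : Fin (n + 1)) :=
  Fin.prod_univ_succ (n := n) (fun s : Fin (n + 1) => c s)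

private theorem psit_ten {n : ℕ} (l : Coc G S) (f f' : ZMod (n + 1) → MonoidAlgebra S G) :
    pairF (fun α β : ZMod (n + 1) → G => l.L (β 0) (cyc (sh 1 (α * β)))) (ten f) (ten f') =
      l.phi ((List.ofFn fun s : Fin n =>
        f (s.succ : Fin (n + 1)) * f' (s.succ : Fin (n + 1))).prod * f 0) (f' 0) := by
  classical
  obtain ⟨T, hT, hT'⟩ := psit_expand f f'
  have h1 : ten f = ∑ J : ZMod (n + 1) → T, MonoidAlgebra.single (fun s => (J s : G))
      (∏ s, (f s).coeff (J s)) := by
    conv_lhs => rw [show f = fun s => ∑ j : T, MonoidAlgebra.single (j : G) ((f s).coeff j) from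
      funext hT]
    rw [ten_sum]
    exact Finset.sum_congr rfl fun J _ => ten_single (fun s => (J s : G)) _
  have h2 : ten f' = ∑ J : ZMod (n + 1) → T, MonoidAlgebra.single (fun s => (J s : G))
      (∏ s, (f' s).coeff (J s)) := by
    conv_lhs => rw [show f' = fun s => ∑ j : T, MonoidAlgebra.single (j : G) ((f' s).coeff j) from
      funext hT']
    rw [ten_sum]
    exact Finset.sum_congr rfl fun J _ => ten_single (fun s => (J s : G)) _
  have h3 : pairF (fun α β : ZMod (n + 1) → G => l.L (β 0) (cyc (sh 1 (α * β)))) (ten f) (ten f') =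
      ∑ J : ZMod (n + 1) → T, ∑ J' : ZMod (n + 1) → T,
        (∏ s, (f' s).coeff (J' s)) * ((∏ s, (f s).coeff (J s)) *
          l.L (J' 0) ((List.ofFn fun s : Fin n => (J (s.succ : Fin (n + 1)) : G) *
            (J' (s.succ : Fin (n + 1)) : G)).prod * (J 0 * J' 0))) := by
    rw [h1, h2]
    change Pool.Agent.H71.DB.pairH _ _ _ = _
    rw [psit_bil]
    refine Finset.sum_congr rfl fun J _ => ?_
    rw [map_sum]
    refine Finset.sum_congr rfl fun J' _ => ?_
    change pairF _ _ _ = _
    rw [pairF_single, psit_cyc]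
    rfl
  have h4 : (List.ofFn fun s : Fin n =>
      f (s.succ : Fin (n + 1)) * f' (s.succ : Fin (n + 1))).prod =
      ∑ K : Fin n → T × T, MonoidAlgebra.single
        ((List.ofFn fun s : Fin n => ((K s).1 : G) * ((K s).2 : G)).prod)
        (∏ s : Fin n, (f (s.succ : Fin (n + 1))).coeff (K s).1 *
          (f' (s.succ : Fin (n + 1))).coeff (K s).2) := by
    have e : (fun s : Fin n => f (s.succ : Fin (n + 1)) * f' (s.succ : Fin (n + 1))) =
        fun s : Fin n => ∑ jj : T × T, MonoidAlgebra.single ((jj.1 : G) * (jj.2 : G))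
          ((f (s.succ : Fin (n + 1))).coeff jj.1 * (f' (s.succ : Fin (n + 1))).coeff jj.2) := by
      funext s
      conv_lhs => rw [hT (s.succ : Fin (n + 1)), hT' (s.succ : Fin (n + 1))]
      rw [Finset.sum_mul_sum, Fintype.sum_prod_type]
      refine Finset.sum_congr rfl fun i _ => Finset.sum_congr rfl fun j _ => ?_
      rw [MonoidAlgebra.single_mul_single]
    rw [e, psit_ofFn_sum]
    exact Finset.sum_congr rfl fun K _ => psit_prod_single _ _
  have h5 : l.phi ((List.ofFn fun s : Fin n =>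
        f (s.succ : Fin (n + 1)) * f' (s.succ : Fin (n + 1))).prod * f 0) (f' 0) =
      ∑ K : Fin n → T × T, ∑ j : T, ∑ j' : T, (f' 0).coeff j' *
        (((∏ s : Fin n, (f (s.succ : Fin (n + 1))).coeff (K s).1 *
          (f' (s.succ : Fin (n + 1))).coeff (K s).2) * (f 0).coeff j) *
        l.L j' ((List.ofFn fun s : Fin n => ((K s).1 : G) * ((K s).2 : G)).prod * j * j')) := by
    rw [h4]
    conv_lhs => rw [hT 0, hT' 0]
    rw [Finset.sum_mul_sum, psit_bil]
    refine Finset.sum_congr rfl fun K _ => ?_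
    rw [psit_bil]
    refine Finset.sum_congr rfl fun j _ => ?_
    rw [map_sum]
    refine Finset.sum_congr rfl fun j' _ => ?_
    rw [MonoidAlgebra.single_mul_single, Coc.phi_single]
  rw [h3, h5, ← Fintype.sum_prod_type' (f := fun (J J' : ZMod (n + 1) → T) =>
        (∏ s, (f' s).coeff (J' s)) * ((∏ s, (f s).coeff (J s)) *
          l.L (J' 0) ((List.ofFn fun s : Fin n => (J (s.succ : Fin (n + 1)) : G) *
            (J' (s.succ : Fin (n + 1)) : G)).prod * (J 0 * J' 0))))]
  rw [← Fintype.sum_prod_type' (f := fun (K : Fin n → T × T) (j : T) => ∑ j' : T, (f' 0).coeff j' *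
        (((∏ s : Fin n, (f (s.succ : Fin (n + 1))).coeff (K s).1 *
          (f' (s.succ : Fin (n + 1))).coeff (K s).2) * (f 0).coeff j) *
        l.L j' ((List.ofFn fun s : Fin n => ((K s).1 : G) * ((K s).2 : G)).prod * j * j')))]
  rw [← Fintype.sum_prod_type' (f := fun (q : (Fin n → T × T) × T) (j' : T) => (f' 0).coeff j' *
        (((∏ s : Fin n, (f (s.succ : Fin (n + 1))).coeff (q.1 s).1 *
          (f' (s.succ : Fin (n + 1))).coeff (q.1 s).2) * (f 0).coeff q.2) *
        l.L j' ((List.ofFn fun s : Fin n => ((q.1 s).1 : G) * ((q.1 s).2 : G)).prod * q.2 * j')))]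
  refine Fintype.sum_equiv (psit_eqv n T) _ _ fun p => ?_
  rw [psit_prod_univ, psit_prod_univ, Finset.prod_mul_distrib, ← mul_assoc (List.prod _)]
  change _ = (f' 0).coeff (p.2 0) * _
  change _ = (f' 0).coeff (p.2 0) * ((((∏ s : Fin n, (f (s.succ : Fin (n + 1))).coeff
    (p.1 (s.succ : Fin (n + 1)))) * ∏ s : Fin n, (f' (s.succ : Fin (n + 1))).coeff
    (p.2 (s.succ : Fin (n + 1)))) * (f 0).coeff (p.1 0)) * l.L (p.2 0) ((List.ofFn fun s : Fin n =>
      (p.1 (s.succ : Fin (n + 1)) : G) * (p.2 (s.succ : Fin (n + 1)) : G)).prod * p.1 0 * p.2 0))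
  ring

private def psit_cons (n : ℕ) (T : Type*) : (ZMod (n + 1) → T) ≃ T × (Fin n → T) where
  toFun p := (p 0, fun s => p (s.succ : Fin (n + 1)))
  invFun q := (Fin.cons q.1 q.2 : Fin (n + 1) → T)
  left_inv p := by
    funext s
    refine Fin.cases ?_ (fun t => ?_) s
    · rfl
    · rfl
  right_inv q := by rfl

omit [DecidableEq ι] in
private theorem psit_sum_cons {n : ℕ} {M : Type*} [AddCommMonoid M]
    [Fintype (ZMod (n + 1) → ι)] [Fintype (Fin n → ι)] (F : (ZMod (n + 1) → ι) → M) :
    ∑ I : ZMod (n + 1) → ι, F I = ∑ i : ι, ∑ I' : Fin n → ι, F (Fin.cons i I' : Fin (n + 1) → ι) := by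
  rw [← Fintype.sum_prod_type' (f := fun (i : ι) (I' : Fin n → ι) =>
    F (Fin.cons i I' : Fin (n + 1) → ι))]
  refine Fintype.sum_equiv (psit_cons n ι) _ _ fun p => ?_
  congr 1
  exact ((psit_cons n ι).left_inv p).symm

private theorem psit_path {R : Type*} [Ring R] (M : Matrix ι ι R) (n : ℕ) (v : ι → R) (i : ι) :
    ∑ I' : Fin n → ι, (List.ofFn fun s : Fin n =>
      M ((Fin.cons i I' : Fin (n + 1) → ι) s.castSucc) (I' s)).prod *
        v ((Fin.cons i I' : Fin (n + 1) → ι) (Fin.last n)) = ∑ k, (M ^ n) i k * v k := by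
  induction n generalizing i with
  | zero =>
    rw [Fintype.sum_unique, List.ofFn_zero, List.prod_nil, one_mul, pow_zero]
    simp [Matrix.one_apply]
  | succ n ih =>
    have h := psit_sum_cons (ι := ι) (n := n) (fun I' : Fin (n + 1) → ι =>
      (List.ofFn fun s : Fin (n + 1) =>
        M ((Fin.cons i I' : Fin (n + 2) → ι) s.castSucc) (I' s)).prod *
        v ((Fin.cons i I' : Fin (n + 2) → ι) (Fin.last (n + 1))))
    refine h.trans ?_
    have h2 : ∀ i₁ : ι, ∑ I'' : Fin n → ι, (List.ofFn fun s : Fin (n + 1) =>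
        M ((Fin.cons i (Fin.cons i₁ I'' : Fin (n + 1) → ι) : Fin (n + 2) → ι) s.castSucc)
          ((Fin.cons i₁ I'' : Fin (n + 1) → ι) s)).prod *
        v ((Fin.cons i (Fin.cons i₁ I'' : Fin (n + 1) → ι) : Fin (n + 2) → ι)
          (Fin.last (n + 1))) = M i i₁ * ∑ k, (M ^ n) i₁ k * v k := by
      intro i₁
      rw [← ih i₁, Finset.mul_sum]
      refine Finset.sum_congr rfl fun I'' _ => ?_
      rw [List.ofFn_succ, List.prod_cons, mul_assoc]
      rfl
    refine (Finset.sum_congr rfl fun i₁ _ => h2 i₁).trans ?_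
    rw [pow_succ']
    simp only [Matrix.mul_apply, Finset.mul_sum, Finset.sum_mul]
    rw [Finset.sum_comm]
    refine Finset.sum_congr rfl fun k _ => Finset.sum_congr rfl fun j _ => ?_
    rw [mul_assoc]

private theorem psit_main {n : ℕ} (l : Coc G S) (A B : Matrix ι ι (MonoidAlgebra S G)) :
    Psi l (bb (n + 1) A) (bb (n + 1) B) = l.Phi ((A * B) ^ n * A) B := by
  have e1 : Psi l (bb (n + 1) A) (bb (n + 1) B) =
      ∑ I : ZMod (n + 1) → ι, ∑ J : ZMod (n + 1) → ι,
        l.phi ((List.ofFn fun s : Fin n => A (I (s.castSucc : Fin (n + 1)))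
          (J (s.succ : Fin (n + 1))) * B (J (s.succ : Fin (n + 1)))
            (I (s.succ : Fin (n + 1)))).prod * A (I (Fin.last n : Fin (n + 1))) (J 0))
          (B (J 0) (I 0)) := by
    rw [Psi]
    refine Finset.sum_congr rfl fun I _ => Finset.sum_congr rfl fun J _ => ?_
    rw [bb_apply, bb_apply, psit_ten]
    simp only [psit_sh_succ, psit_sh_zero]
  rw [e1, psit_sum_cons, Coc.Phi]
  refine Finset.sum_congr rfl fun i _ => ?_
  have e2 : ∀ I' : Fin n → ι, ∑ J : ZMod (n + 1) → ι,
        l.phi ((List.ofFn fun s : Fin n => A ((Fin.cons i I' : Fin (n + 1) → ι)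
          (s.castSucc : Fin (n + 1)))
          (J (s.succ : Fin (n + 1))) * B (J (s.succ : Fin (n + 1)))
            ((Fin.cons i I' : Fin (n + 1) → ι) (s.succ : Fin (n + 1)))).prod *
              A ((Fin.cons i I' : Fin (n + 1) → ι) (Fin.last n : Fin (n + 1))) (J 0))
          (B (J 0) ((Fin.cons i I' : Fin (n + 1) → ι) 0)) =
      ∑ j : ι, l.phi ((List.ofFn fun s : Fin n => (A * B) ((Fin.cons i I' : Fin (n + 1) → ι)
          (s.castSucc : Fin (n + 1))) (I' s)).prod *
            A ((Fin.cons i I' : Fin (n + 1) → ι) (Fin.last n)) j) (B j i) := by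
    intro I'
    rw [psit_sum_cons]
    refine Finset.sum_congr rfl fun j _ => ?_
    have e3 : (fun s : Fin n => (A * B) ((Fin.cons i I' : Fin (n + 1) → ι)
          (s.castSucc : Fin (n + 1))) (I' s)) = fun s : Fin n => ∑ k, A
          ((Fin.cons i I' : Fin (n + 1) → ι) (s.castSucc : Fin (n + 1))) k * B k (I' s) := by
      funext s
      rw [Matrix.mul_apply]
    rw [e3, psit_ofFn_sum, Finset.sum_mul, psit_bil]
    rfl
  refine (Finset.sum_congr rfl fun I' _ => e2 I').trans ?_
  rw [Finset.sum_comm]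
  refine Finset.sum_congr rfl fun j _ => ?_
  rw [Matrix.mul_apply, ← psit_path (A * B) n (fun k => A k j) i, psit_bil]

theorem Psi_bb (l : Coc G S) (A B : Matrix ι ι (MonoidAlgebra S G)) :
    Psi l (bb N A) (bb N B) = l.Phi ((A * B) ^ (N - 1) * A) B := by
  obtain ⟨n, rfl⟩ : ∃ n, N = n + 1 := ⟨N - 1, (Nat.succ_pred (NeZero.ne N)).symm⟩
  exact psit_main l A B

theorem Psi_one_bb (l : Coc G S) (B : Matrix ι ι (MonoidAlgebra S G)) :
    Psi l (1 : EE S N ι G) (bb N B) = l.Phi (B ^ (N - 1)) B := by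
  have h := Psi_bb (N := N) l 1 B
  rwa [bb_one, one_mul, mul_one] at h

end Pool.Agent.H8.KZ
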