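import Pool.Agent.H8.KZ.PsiD

/-!
# KZ, module TwiM: the matrices of the shifts over the group ring of `G^N ⋊ ℤ/N`

`hat x` is the image of `x : EE S N ι G` in the matrices over `S[G^N ⋊ ℤ/N]`, and `TM i` is the matrix
with the entry `t^i` at `(I, sh (-i) I)` and `0` elsewhere.

PROOFS.
* `TM_zero`, `TM_mul`: entries; `sh (-j) (sh (-i) I) = sh (-(i + j)) I`; `t^i t^j = t^(i+j)`.
* `TM_hat`: `(TM i * hat x) I K = t^i * (hat x) (sh (-i) I) K`;
  `(hat (sg i x) * TM i) I K = ∑_J shR i (x (sh (-i) I) (sh (-i) J))^ [K = sh (-i) J] t^i`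
  `= shR i (x (sh (-i) I) K)^ t^i` (the only `J` is `sh i K`), and `t^i a = (shR i a) t^i` in
  `S[G^N ⋊ ℤ/N]` for `a ∈ S[G^N]` (check on `single γ c`: `inr i * inl γ = inl (sh i γ) * inr i`).
* `Phi_TM_hat`: `(TM i * hat x) I J = t^i * (x (sh (-i) I) J)^`.  On monomials `α` of `x (sh (-i) I) J`
  and `β` of `y J I`: `phi (t^i α, β) = twL l β (t^i α β)`; `t^i α β = inl (sh i (α β)) * inr i` has
  the right component `i`, so it is `0` if `i ≠ 1`, and for `i = 1` it is
  `l.L (β 0 * (pth _ (0 : ZMod N).val)⁻¹) (cyc (sh 1 (α β))) = l.L (β 0) (cyc (sh 1 (α β)))`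
  (`ZMod.val_zero`, `pth_zero`).
* `NT`: `NT * NT = ∑_{i,j} TM (i + j) = N • NT`; if `sg i c = c` for all `i` then
  `TM i * hat c = hat c * TM i`; `TM i * hat X * TM j = hat (sg i X) * TM (i + j)`.
-/

set_option autoImplicit false

open Matrix

universe u v w

namespace Pool.Agent.H8.KZ

open Pool.Agent.H95.WH (sh sh_apply cyc EE sg sg_apply shR shR_single)
open Pool.Agent.H71.DB (Coc pairF pairF_single pairF_add_right pairF_add_left)

/-- The homomorphism `S[G^N] → S[G^N ⋊ ℤ/N]`. -/
noncomputable def hatR (S : Type u) [CommRing S] (N : ℕ) (G : Type v) [Group G] :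
    MonoidAlgebra S (ZMod N → G) →+* MonoidAlgebra S (GG N G) :=
  MonoidAlgebra.mapDomainRingHom S (SemidirectProduct.inl : (ZMod N → G) →* GG N G)

variable {N : ℕ} [NeZero N] {ι : Type w} [Fintype ι] [DecidableEq ι] {G : Type v} [Group G]
  {S : Type u} [CommRing S]

/-- The homomorphism on matrices. -/
noncomputable def hat : EE S N ι G →+* Matrix (ZMod N → ι) (ZMod N → ι) (MonoidAlgebra S (GG N G)) :=
  (hatR S N G).mapMatrix

theorem hat_apply (x : EE S N ι G) (I J : ZMod N → ι) : hat x I J = hatR S N G (x I J) := rfl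

/-- The matrix of a shift. -/
noncomputable def TM (S : Type u) [CommRing S] (ι : Type w) [Fintype ι] [DecidableEq ι]
    (G : Type v) [Group G] (i : ZMod N) :
    Matrix (ZMod N → ι) (ZMod N → ι) (MonoidAlgebra S (GG N G)) :=
  Matrix.of fun I J => if J = sh (-i) I then
    MonoidAlgebra.single (SemidirectProduct.inr (Multiplicative.ofAdd i) : GG N G) 1 else 0

private theorem twiM_TM_apply (i : ZMod N) (I J : ZMod N → ι) :
    TM S ι G i I J = if J = sh (-i) I then
      MonoidAlgebra.single (SemidirectProduct.inr (Multiplicative.ofAdd i) : GG N G) 1 else 0 := rfl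

private theorem twiM_TM_mul_apply (i : ZMod N)
    (X : Matrix (ZMod N → ι) (ZMod N → ι) (MonoidAlgebra S (GG N G))) (I K : ZMod N → ι) :
    (TM S ι G i * X) I K =
      MonoidAlgebra.single (SemidirectProduct.inr (Multiplicative.ofAdd i) : GG N G) 1 *
        X (sh (-i) I) K := by
  rw [Matrix.mul_apply, Finset.sum_eq_single (sh (-i) I)]
  · rw [twiM_TM_apply, if_pos rfl]
  · intro J _ hJ
    rw [twiM_TM_apply, if_neg hJ, zero_mul]
  · intro h
    exact absurd (Finset.mem_univ _) h

private theorem twiM_mul_TM_apply (i : ZMod N)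
    (X : Matrix (ZMod N → ι) (ZMod N → ι) (MonoidAlgebra S (GG N G))) (I K : ZMod N → ι) :
    (X * TM S ι G i) I K = X I (sh i K) *
      MonoidAlgebra.single (SemidirectProduct.inr (Multiplicative.ofAdd i) : GG N G) 1 := by
  rw [Matrix.mul_apply, Finset.sum_eq_single (sh i K)]
  · rw [twiM_TM_apply, if_pos (Pool.Agent.H95.WH.sh_neg_sh i K).symm]
  · intro J _ hJ
    rw [twiM_TM_apply, if_neg, mul_zero]
    intro h
    apply hJ
    rw [h, Pool.Agent.H95.WH.sh_sh_neg]
  · intro h
    exact absurd (Finset.mem_univ _) h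

theorem TM_zero : TM S ι G (0 : ZMod N) = 1 := by
  refine Matrix.ext fun I J => ?_
  rw [twiM_TM_apply, neg_zero, Pool.Agent.H95.WH.sh_zero]
  by_cases h : J = I
  · rw [if_pos h, h, Matrix.one_apply_eq, ofAdd_zero, map_one, MonoidAlgebra.one_def]
  · rw [if_neg h, Matrix.one_apply_ne (Ne.symm h)]

theorem TM_mul (i j : ZMod N) : TM S ι G i * TM S ι G j = TM S ι G (i + j) := by
  refine Matrix.ext fun I J => ?_
  rw [twiM_TM_mul_apply, twiM_TM_apply, twiM_TM_apply, Pool.Agent.H95.WH.sh_sh, neg_add_rev]
  by_cases h : J = sh (-j + -i) I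
  · rw [if_pos h, if_pos h, MonoidAlgebra.single_mul_single, ofAdd_add, map_mul, one_mul]
  · rw [if_neg h, if_neg h, mul_zero]

private theorem twiM_hatR_single (γ : ZMod N → G) (c : S) :
    hatR S N G (MonoidAlgebra.single γ c) =
      MonoidAlgebra.single (SemidirectProduct.inl γ : GG N G) c := by
  change MonoidAlgebra.mapDomain _ _ = _
  rw [MonoidAlgebra.mapDomain_single]

private theorem twiM_swap (i : ZMod N) (a : MonoidAlgebra S (ZMod N → G)) :
    MonoidAlgebra.single (SemidirectProduct.inr (Multiplicative.ofAdd i) : GG N G) 1 *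
        hatR S N G a =
      hatR S N G (shR S i a) *
        MonoidAlgebra.single (SemidirectProduct.inr (Multiplicative.ofAdd i) : GG N G) 1 := by
  induction a using MonoidAlgebra.induction_linear with
  | zero => simp only [map_zero, mul_zero, zero_mul]
  | add a b ha hb => rw [map_add, mul_add, ha, hb, map_add, map_add, add_mul]
  | single γ c =>
    rw [shR_single, twiM_hatR_single, twiM_hatR_single, MonoidAlgebra.single_mul_single,
      MonoidAlgebra.single_mul_single, one_mul, mul_one]
    congr 1
    apply SemidirectProduct.ext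
    · rw [SemidirectProduct.mul_left, SemidirectProduct.mul_left, SemidirectProduct.left_inr,
        SemidirectProduct.right_inr, SemidirectProduct.left_inl, SemidirectProduct.left_inl,
        SemidirectProduct.right_inl, one_mul, map_one (shA N G 1 : MulAut (ZMod N → G)), mul_one]
      rfl
    · rw [SemidirectProduct.mul_right, SemidirectProduct.mul_right, SemidirectProduct.right_inl,
        SemidirectProduct.right_inl, SemidirectProduct.right_inr, mul_one, one_mul]

theorem TM_hat (i : ZMod N) (x : EE S N ι G) :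
    TM S ι G i * hat x = hat (sg i x) * TM S ι G i := by
  refine Matrix.ext fun I K => ?_
  rw [twiM_TM_mul_apply, twiM_mul_TM_apply, hat_apply, hat_apply, sg_apply,
    Pool.Agent.H95.WH.sh_neg_sh, twiM_swap]

private theorem twiM_phi (l : Coc G S) (i : ZMod N) (a b : MonoidAlgebra S (ZMod N → G)) :
    (twC N l).phi
        (MonoidAlgebra.single (SemidirectProduct.inr (Multiplicative.ofAdd i) : GG N G) 1 *
          hatR S N G a) (hatR S N G b) =
      if i = 1 then pairF (fun α β : ZMod N → G => l.L (β 0) (cyc (sh 1 (α * β)))) a b else 0 := by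
  induction a using MonoidAlgebra.induction_linear with
  | zero =>
    rw [map_zero, mul_zero, map_zero, AddMonoidHom.zero_apply,
      Pool.Agent.H71.DB.pairF_zero_left, ite_self]
  | add a a' ha ha' =>
    rw [map_add, mul_add, map_add, AddMonoidHom.add_apply, ha, ha', pairF_add_left]
    by_cases h : i = 1
    · rw [if_pos h, if_pos h, if_pos h]
    · rw [if_neg h, if_neg h, if_neg h, add_zero]
  | single α r =>
    induction b using MonoidAlgebra.induction_linear with
    | zero =>
      rw [map_zero, map_zero, Pool.Agent.H71.DB.pairF_zero_right, ite_self]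
    | add b b' hb hb' =>
      rw [map_add, map_add, hb, hb', pairF_add_right]
      by_cases h : i = 1
      · rw [if_pos h, if_pos h, if_pos h]
      · rw [if_neg h, if_neg h, if_neg h, add_zero]
    | single β s =>
      rw [twiM_hatR_single, twiM_hatR_single, MonoidAlgebra.single_mul_single,
        Pool.Agent.H71.DB.Coc.phi_single, pairF_single, one_mul, twC_L]
      have hr : ((SemidirectProduct.inr (Multiplicative.ofAdd i) : GG N G) *
          SemidirectProduct.inl α * SemidirectProduct.inl β).right = Multiplicative.ofAdd i := by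
        rw [SemidirectProduct.mul_right, SemidirectProduct.mul_right, SemidirectProduct.right_inl,
          SemidirectProduct.right_inl, SemidirectProduct.right_inr, mul_one, mul_one]
      have hl : ((SemidirectProduct.inr (Multiplicative.ofAdd i) : GG N G) *
          SemidirectProduct.inl α * SemidirectProduct.inl β).left = sh i (α * β) := by
        rw [SemidirectProduct.mul_left, SemidirectProduct.mul_left, SemidirectProduct.mul_right,
          SemidirectProduct.left_inr, SemidirectProduct.right_inr, SemidirectProduct.left_inl,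
          SemidirectProduct.left_inl, SemidirectProduct.right_inl, one_mul, mul_one]
        rfl
      by_cases h : i = 1
      · subst h
        rw [if_pos rfl, twL, if_pos hr, hl, SemidirectProduct.left_inl,
          SemidirectProduct.right_inl]
        have e : (Multiplicative.toAdd (1 : Multiplicative (ZMod N))).val = 0 := by
          rw [toAdd_one, ZMod.val_zero]
        rw [e, pth_zero, inv_one, mul_one]
      · rw [if_neg h, twL, if_neg, mul_zero, mul_zero]
        rw [hr]
        intro h1
        exact h (Multiplicative.ofAdd.injective h1)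

theorem Phi_TM_hat (l : Coc G S) (i : ZMod N) (x y : EE S N ι G) :
    (twC N l).Phi (TM S ι G i * hat x) (hat y) = if i = 1 then Psi l x y else 0 := by
  rw [Pool.Agent.H71.DB.Coc.Phi]
  by_cases h : i = 1
  · subst h
    rw [if_pos rfl, Psi]
    refine Finset.sum_congr rfl fun I _ => Finset.sum_congr rfl fun J _ => ?_
    rw [twiM_TM_mul_apply, hat_apply, hat_apply, twiM_phi, if_pos rfl]
  · rw [if_neg h]
    refine Finset.sum_eq_zero fun I _ => Finset.sum_eq_zero fun J _ => ?_
    rw [twiM_TM_mul_apply, hat_apply, hat_apply, twiM_phi, if_neg h]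

/-- The sum of the matrices of the shifts. -/
noncomputable def NT (S : Type u) [CommRing S] (N : ℕ) [NeZero N] (ι : Type w) [Fintype ι]
    [DecidableEq ι] (G : Type v) [Group G] :
    Matrix (ZMod N → ι) (ZMod N → ι) (MonoidAlgebra S (GG N G)) := ∑ i : ZMod N, TM S ι G i

private theorem twiM_TM_mul_NT (i : ZMod N) : TM S ι G i * NT S N ι G = NT S N ι G := by
  rw [NT, Finset.mul_sum]
  simp only [TM_mul]
  exact Equiv.sum_comp (Equiv.addLeft i) (fun j => TM S ι G j)

theorem NT_mul_NT : NT S N ι G * NT S N ι G = N • NT S N ι G := by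
  have h : NT S N ι G * NT S N ι G = ∑ i : ZMod N, TM S ι G i * NT S N ι G := by
    rw [← Finset.sum_mul]
    rfl
  rw [h]
  simp only [twiM_TM_mul_NT]
  rw [Finset.sum_const, Finset.card_univ, ZMod.card]

theorem NT_comm (c : EE S N ι G) (hc : ∀ i, sg i c = c) :
    hat c * NT S N ι G = NT S N ι G * hat c := by
  rw [NT, Finset.mul_sum, Finset.sum_mul]
  refine Finset.sum_congr rfl fun i _ => ?_
  rw [TM_hat, hc]

theorem NT_hat_NT (X : EE S N ι G) :
    NT S N ι G * hat X * NT S N ι G = hat (∑ i, sg i X) * NT S N ι G := by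
  have h : NT S N ι G * hat X * NT S N ι G =
      ∑ i : ZMod N, TM S ι G i * hat X * NT S N ι G := by
    rw [← Finset.sum_mul, ← Finset.sum_mul]
    rfl
  rw [h, map_sum, Finset.sum_mul]
  refine Finset.sum_congr rfl fun i _ => ?_
  rw [TM_hat, Matrix.mul_assoc, twiM_TM_mul_NT]

theorem Phi_NT_hat (l : Coc G S) (x y : EE S N ι G) :
    (twC N l).Phi (NT S N ι G * hat x) (hat y) = Psi l x y := by
  have h : ∀ s : Finset (ZMod N), (twC N l).Phi ((∑ i ∈ s, TM S ι G i) * hat x) (hat y) =
      ∑ i ∈ s, if i = 1 then Psi l x y else 0 := by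
    intro s
    induction s using Finset.cons_induction with
    | empty =>
      rw [Finset.sum_empty, Finset.sum_empty, zero_mul, Pool.Agent.H71.DB.Coc.Phi_zero_left]
    | cons a s ha ih =>
      rw [Finset.sum_cons, Finset.sum_cons, add_mul, Pool.Agent.H71.DB.Coc.Phi_add_left, ih,
        Phi_TM_hat]
  rw [NT, h, Finset.sum_ite_eq' Finset.univ (1 : ZMod N) fun _ => Psi l x y,
    if_pos (Finset.mem_univ _)]

end Pool.Agent.H8.KZ
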