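import Pool.Agent.H8.KZ.CForm
import Pool.Agent.H8.KZ.PsiT
import Pool.Agent.H8.KZ.PsiC
import Pool.Agent.H8.KZ.TwiM
import Pool.Agent.H95.WH.Gam
import Pool.Agent.H71.DB.Lift

/-!
# KZ, module Key1: the congruence `l.den U ≡ l₁.den U` modulo `N = p^(k+1)`

Definitions: `bb N U`, `aa r U = ext (per r) (perR r G 𝕜) (bb M U)`, `sg`, `sg_bb`, `sg_aa`, `bb_mul`,
`aa_mul` (`Pool/Agent/H95/WH/Shift.lean`, `Ten.lean`), `cor`, `ext`, `cor_mul` (`Cor.lean`), `Sol`,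
`exists_sol` (`Gam.lean`), `Coc`, `Coc.Phi`, `Coc.den`, `Coc.Phi_mapS`, `Coc.Phi_cocycle`
(`Pool/Agent/H71/DB/Coc.lean`), `Coc.phi_pow` (`DB/Lift.lean`), `CForm.main`, `CForm.corner`
(`CForm.lean`), `hat`, `TM`, `NT` and their properties (`TwiM.lean`), `Psi_bb`, `Psi_one_bb`
(`PsiT.lean`), `Psi_cor`, `Psi_one_cor` (`PsiC.lean`).

`cform l ι` is the form `l.Phi` on matrices with index type `ι` as a `CForm`.

PROOF of `dvd_den`.  Let `θ : 𝕜 → F` be injective, `F` a field of characteristic zero;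
`r : ZMod N →+* ZMod M` the canonical surjection (`ZMod.castHom`), `X` with `Sol r U X`.  Let
`L' = twC N l`, `P = cform (L'.mapS θ) (ZMod N → ι)` and
`μ : EE 𝕜 N ι G →+* Matrix _ _ (MonoidAlgebra F (GG N G))` the composite of `hat` and
`(MonoidAlgebra.mapRingHom (GG N G) θ).mapMatrix =: ν`.  `T = ν (NT ..)`, `e = (N : F)⁻¹ • T`;
`N • e = T`, `e * e = e` (`NT_mul_NT`).  Let
`b = μ (bb N U)`, `b' = μ (bb N U⁻¹)`, `a = μ (aa r U)`, `a' = μ (aa r U⁻¹)`,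
`c = μ (cor (bb M U))`, `c' = μ (cor (bb M U⁻¹))`, `c₁ = μ (cor 1)` (`cor = cor (per r) (perR r G 𝕜)`), so
`a = c + (1 - c₁)`, `a' = c' + (1 - c₁)`.  All of them commute with `e` (`NT_comm`, `sg_bb`, `sg_cor`,
`sg_aa`) and `N • (e * μ X * e) = (b - a) * e` (`NT_hat_NT`).
`CForm.main`: `P.Φ (1 - N • (b' e μX)) (1 + N • (a' e μX)) = P.Φ (b' e + (1 - e)) (b e + (1 - e)) -
P.Φ (a' e + (1 - e)) (a e + (1 - e))`.
The left hand side is `θ d`, `d = L'.Phi (1 - hat (bb N U⁻¹) * NT * hat X) (1 + hat (aa r U⁻¹) * NT *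
hat X) ∈ 𝕜` (`Coc.Phi_mapS`).  By `CForm.corner` (for `(b, b', 1)`, and for `(c, c', c₁)` as
`a e + (1 - e) = 1 + c e - c₁ e`)
`2 N θ d = [2 N P.Φ (b' e) b + N P.Φ e b' - N P.Φ e b] - [2 N P.Φ (c' e) c + N P.Φ e c' - N P.Φ e c]`.
By `Phi_NT_hat`, `Phi_mapS`: `N P.Φ (b' e) b = θ (Psi l (bb N U⁻¹) (bb N U)) = θ (l.den U)` (`Psi_bb`,
`U⁻¹ U = 1`), `N P.Φ e b = θ (Psi l 1 (bb N U)) = θ (l.Phi (U^(N-1)) U) = 0` (`Psi_one_bb`, `phi_pow`),
`N P.Φ e b' = 0` likewise; `N P.Φ (c' e) c = θ (Psi (powC p ..) (bb M U⁻¹) (bb M U)) = θ ((powC p ..).den U)`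
(`Psi_cor`), `N P.Φ e c = θ (Psi (powC p ..) 1 (bb M U)) = 0` (`Psi_one_cor`), `N P.Φ e c' = 0`.
So `2 N d = 2 (l.den U - (powC p ..).den U)` (`θ` injective), and `2` cancels (characteristic zero).
-/

set_option autoImplicit false

open Matrix

universe u v w t

namespace Pool.Agent.H8.KZ

open Pool.Agent.H95.WH (sh cyc EE sg bb aa per perR cor ext Sol exists_sol)
open Pool.Agent.H71.DB (Coc)

/-- The form of a cocycle on square matrices. -/
noncomputable def cform {F : Type u} [Field F] {H : Type v} [Group H] (l : Coc H F) (κ : Type w)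
    [Fintype κ] [DecidableEq κ] : CForm (Matrix κ κ (MonoidAlgebra F H)) F where
  Φ :=
    { toFun := fun A =>
        { toFun := fun B => l.Phi A B
          map_zero' := l.Phi_zero_right A
          map_add' := l.Phi_add_right A }
      map_zero' := by
        apply AddMonoidHom.ext
        intro B
        exact l.Phi_zero_left B
      map_add' := fun A A' => by
        apply AddMonoidHom.ext
        intro B
        exact l.Phi_add_left A A' B }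
  cocycle A B C := l.Phi_cocycle A B C
  one_left B := l.Phi_one_left B

theorem cform_apply {F : Type u} [Field F] {H : Type v} [Group H] (l : Coc H F) (κ : Type w)
    [Fintype κ] [DecidableEq κ] (A B : Matrix κ κ (MonoidAlgebra F H)) :
    (cform l κ).Φ A B = l.Phi A B := rfl

theorem dvd_den {𝕜 : Type u} [CommRing 𝕜] {F : Type t} [Field F] [CharZero F] (θ : 𝕜 →+* F)
    (hθ : Function.Injective θ) {p k N M : ℕ} [NeZero N] [NeZero M] (hp : p.Prime)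
    (hN : N = p ^ (k + 1)) (hM : M = p ^ k) (hfrob : ∀ a : 𝕜, (p : 𝕜) ∣ a ^ p - a)
    (hp0 : ∀ x : 𝕜, (p : 𝕜) * x = 0 → x = 0) {G : Type v} [Group G] (l : Coc G 𝕜) {ι : Type w}
    [Fintype ι] [DecidableEq ι] (U : (Matrix ι ι (MonoidAlgebra 𝕜 G))ˣ) :
    (N : 𝕜) ∣ l.den U - (powC p hp0 l).den U := by
  have hNM : N = p * M := by rw [hN, hM, pow_succ']
  have hdvd : M ∣ N := ⟨p, by rw [hNM, mul_comm]⟩
  obtain ⟨r, hr⟩ : ∃ r : ZMod N →+* ZMod M, Function.Surjective r :=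
    ⟨ZMod.castHom hdvd (ZMod M), ZMod.castHom_surjective hdvd⟩
  have tf : ∀ (m : ℤ) (x : 𝕜), m ≠ 0 → (m : 𝕜) * x = 0 → x = 0 := by
    intro m x hm h
    have h1 : (m : F) * θ x = 0 := by
      rw [← map_intCast θ m, ← map_mul, h, map_zero]
    rcases mul_eq_zero.1 h1 with h2 | h2
    · exact absurd (by exact_mod_cast h2) hm
    · exact hθ (by rw [h2, map_zero])
  obtain ⟨X, hX⟩ := exists_sol hp hN hM hfrob r hr U
  have hN0 : (N : F) ≠ 0 := Nat.cast_ne_zero.2 (NeZero.ne N)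
  -- the form and the homomorphisms
  let P : CForm (Matrix (ZMod N → ι) (ZMod N → ι) (MonoidAlgebra F (GG N G))) F :=
    cform ((twC N l).mapS θ) (ZMod N → ι)
  let ν : Matrix (ZMod N → ι) (ZMod N → ι) (MonoidAlgebra 𝕜 (GG N G)) →+*
      Matrix (ZMod N → ι) (ZMod N → ι) (MonoidAlgebra F (GG N G)) :=
    (MonoidAlgebra.mapRingHom (GG N G) θ).mapMatrix
  have hPν : ∀ A B, P.Φ (ν A) (ν B) = θ ((twC N l).Phi A B) := fun A B =>
    (twC N l).Phi_mapS θ A B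
  let μ : EE 𝕜 N ι G →+* Matrix (ZMod N → ι) (ZMod N → ι) (MonoidAlgebra F (GG N G)) :=
    ν.comp hat
  have hμ : ∀ x, μ x = ν (hat x) := fun _ => rfl
  let T := ν (NT 𝕜 N ι G)
  have hT : T = ν (NT 𝕜 N ι G) := rfl
  have hTT : T * T = (N : F) • T := by
    rw [hT, ← map_mul, NT_mul_NT, map_nsmul, Nat.cast_smul_eq_nsmul]
  have hTX : ∀ x, T * μ x * T = μ (∑ i, sg i x) * T := by
    intro x
    rw [hT, hμ, hμ, ← map_mul, ← map_mul, NT_hat_NT, map_mul]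
  have hTc : ∀ x : EE 𝕜 N ι G, (∀ i, sg i x = x) → μ x * T = T * μ x := by
    intro x hx
    rw [hT, hμ, ← map_mul, ← map_mul, NT_comm x hx]
  clear_value T
  obtain ⟨e, he⟩ : ∃ e, e = (N : F)⁻¹ • T := ⟨_, rfl⟩
  have hNe : (N : F) • e = T := by rw [he, smul_inv_smul₀ hN0]
  have hee : e * e = e := by
    rw [he, smul_mul_assoc, mul_smul_comm, hTT, inv_smul_smul₀ hN0]
  have hec : ∀ x : EE 𝕜 N ι G, (∀ i, sg i x = x) → μ x * e = e * μ x := by
    intro x hx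
    rw [he, mul_smul_comm, smul_mul_assoc, hTc x hx]
  have hNP : ∀ A B, (N : F) * P.Φ (e * A) B = P.Φ (T * A) B := by
    intro A B
    rw [← hNe, smul_mul_assoc, Nat.cast_smul_eq_nsmul, map_nsmul, AddMonoidHom.coe_smul,
      Pi.smul_apply, nsmul_eq_mul]
  have hPe : ∀ x y : EE 𝕜 N ι G, (N : F) * P.Φ (e * μ x) (μ y) = θ (Psi l x y) := by
    intro x y
    rw [hNP, hT, hμ, hμ, ← map_mul, hPν, Phi_NT_hat]
  have hPe1 : ∀ y : EE 𝕜 N ι G, (N : F) * P.Φ e (μ y) = θ (Psi l 1 y) := by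
    intro y
    have h := hPe 1 y
    rwa [map_one, mul_one] at h
  -- the matrices
  have hU1 : U.inv * U.val = 1 := U.inv_val
  have hU2 : U.val * U.inv = 1 := U.val_inv
  have hsb : ∀ (A : Matrix ι ι (MonoidAlgebra 𝕜 G)) (i : ZMod N), sg i (bb N A) = bb N A :=
    fun A i => Pool.Agent.H95.WH.sg_bb i A
  have hsa : ∀ (A : Matrix ι ι (MonoidAlgebra 𝕜 G)) (i : ZMod N), sg i (aa r A) = aa r A :=
    fun A i => Pool.Agent.H95.WH.sg_aa r hr i A
  have hsc : ∀ (A : Matrix ι ι (MonoidAlgebra 𝕜 G)) (i : ZMod N),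
      sg i (cor (per r) (perR r G 𝕜) (bb M A)) = cor (per r) (perR r G 𝕜) (bb M A) :=
    fun A i => by rw [Pool.Agent.H95.WH.sg_cor r hr, Pool.Agent.H95.WH.sg_bb]
  have hsc1 : ∀ i : ZMod N, sg i (cor (per r) (perR r G 𝕜) (1 : EE 𝕜 M ι G)) =
      cor (per r) (perR r G 𝕜) (1 : EE 𝕜 M ι G) :=
    fun i => by rw [Pool.Agent.H95.WH.sg_cor r hr, map_one]
  have hCm : ∀ x y : EE 𝕜 M ι G, μ (cor (per r) (perR r G 𝕜) (x * y)) =
      μ (cor (per r) (perR r G 𝕜) x) * μ (cor (per r) (perR r G 𝕜) y) := fun x y => by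
    rw [← map_mul, Pool.Agent.H95.WH.cor_mul (Pool.Agent.H95.WH.per_injective r hr)]
  have haC : ∀ A : Matrix ι ι (MonoidAlgebra 𝕜 G), μ (aa r A) =
      μ (cor (per r) (perR r G 𝕜) (bb M A)) + (1 - μ (cor (per r) (perR r G 𝕜) 1)) := fun A => by
    rw [aa, Pool.Agent.H95.WH.ext, map_add, map_sub, map_one]
  have hX1 : ∑ i : ZMod N, sg i X = bb N U.val - aa r U.val := hX
  have hX' : N • (e * μ X * e) = (μ (bb N U.val) - μ (aa r U.val)) * e := by
    rw [← map_sub, ← hX1, he, smul_mul_assoc, smul_mul_assoc, mul_smul_comm, hTX, mul_smul_comm,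
      ← Nat.cast_smul_eq_nsmul F, smul_inv_smul₀ hN0]
  have hbm : ∀ A B : Matrix ι ι (MonoidAlgebra 𝕜 G), A * B = 1 →
      μ (bb N A) * μ (bb N B) = 1 := fun A B h => by
    rw [← map_mul, ← Pool.Agent.H95.WH.bb_mul, h, Pool.Agent.H95.WH.bb_one, map_one]
  have ham : ∀ A B : Matrix ι ι (MonoidAlgebra 𝕜 G), A * B = 1 →
      μ (aa r A) * μ (aa r B) = 1 := fun A B h => by
    rw [← map_mul, ← Pool.Agent.H95.WH.aa_mul r hr, h, Pool.Agent.H95.WH.aa_one, map_one]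
  have hcm : ∀ A B : Matrix ι ι (MonoidAlgebra 𝕜 G), A * B = 1 →
      μ (cor (per r) (perR r G 𝕜) (bb M A)) * μ (cor (per r) (perR r G 𝕜) (bb M B)) =
        μ (cor (per r) (perR r G 𝕜) 1) := fun A B h => by
    rw [← hCm, ← Pool.Agent.H95.WH.bb_mul, h, Pool.Agent.H95.WH.bb_one]
  have hmain := P.main N e (μ (aa r U.val)) (μ (aa r U.inv)) (μ (bb N U.val)) (μ (bb N U.inv))
    (μ X) hee (hec _ (hsa _)) (hec _ (hsa _)) (hec _ (hsb _)) (hec _ (hsb _)) (ham _ _ hU2)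
    (ham _ _ hU1) (hbm _ _ hU2) (hbm _ _ hU1) hX'
  have hl : ∀ Y : EE 𝕜 N ι G, N • (μ Y * e * μ X) = ν (hat Y * NT 𝕜 N ι G * hat X) := by
    intro Y
    rw [he, mul_smul_comm, smul_mul_assoc, ← Nat.cast_smul_eq_nsmul F, smul_inv_smul₀ hN0,
      map_mul, map_mul, ← hT]
    rfl
  obtain ⟨d, hd⟩ : ∃ d, d = (twC N l).Phi (1 - hat (bb N U.inv) * NT 𝕜 N ι G * hat X)
    (1 + hat (aa r U.inv) * NT 𝕜 N ι G * hat X) := ⟨_, rfl⟩
  have hleft : P.Φ (1 - N • (μ (bb N U.inv) * e * μ X)) (1 + N • (μ (aa r U.inv) * e * μ X)) =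
      θ d := by
    rw [hl, hl, ← map_one ν, ← map_sub, ← map_add, hPν, hd]
  rw [hleft] at hmain
  -- the corners
  have hcb := P.corner e (μ (bb N U.val)) (μ (bb N U.inv)) 1 hee (hec _ (hsb _)) (hec _ (hsb _))
    (by rw [one_mul, mul_one]) (hbm _ _ hU2) (hbm _ _ hU1) (one_mul _) (mul_one _) (one_mul _)
    (mul_one _) (one_mul _)
  have hcc := P.corner e (μ (cor (per r) (perR r G 𝕜) (bb M U.val)))
    (μ (cor (per r) (perR r G 𝕜) (bb M U.inv))) (μ (cor (per r) (perR r G 𝕜) 1)) hee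
    (hec _ (hsc _)) (hec _ (hsc _)) (hec _ hsc1) (hcm _ _ hU2) (hcm _ _ hU1)
    (by rw [← hCm, one_mul]) (by rw [← hCm, mul_one]) (by rw [← hCm, one_mul])
    (by rw [← hCm, mul_one]) (by rw [← hCm, one_mul])
  have e1 : (1 : Matrix (ZMod N → ι) (ZMod N → ι) (MonoidAlgebra F (GG N G))) +
      μ (bb N U.inv) * e - 1 * e = μ (bb N U.inv) * e + (1 - e) := by
    rw [one_mul]
    abel
  have e2 : (1 : Matrix (ZMod N → ι) (ZMod N → ι) (MonoidAlgebra F (GG N G))) +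
      μ (bb N U.val) * e - 1 * e = μ (bb N U.val) * e + (1 - e) := by
    rw [one_mul]
    abel
  have e3 : ∀ A : Matrix ι ι (MonoidAlgebra 𝕜 G),
      1 + μ (cor (per r) (perR r G 𝕜) (bb M A)) * e - μ (cor (per r) (perR r G 𝕜) 1) * e =
        μ (aa r A) * e + (1 - e) := by
    intro A
    rw [haC, add_mul, sub_mul, one_mul]
    abel
  rw [e1, e2] at hcb
  rw [e3, e3] at hcc
  have hA1 : (N : F) * P.Φ (μ (bb N U.inv) * e) (μ (bb N U.val)) = θ (l.den U) := by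
    rw [hec _ (hsb _), hPe, Psi_bb, hU1, one_pow, one_mul]
    rfl
  have hA2 : P.Φ e (μ (bb N U.inv)) = 0 := by
    have h := hPe1 (bb N U.inv)
    rw [Psi_one_bb, l.phi_pow tf, map_zero] at h
    exact (mul_eq_zero.1 h).resolve_left hN0
  have hA3 : P.Φ e (μ (bb N U.val)) = 0 := by
    have h := hPe1 (bb N U.val)
    rw [Psi_one_bb, l.phi_pow tf, map_zero] at h
    exact (mul_eq_zero.1 h).resolve_left hN0
  have hC1 : (N : F) * P.Φ (μ (cor (per r) (perR r G 𝕜) (bb M U.inv)) * e)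
      (μ (cor (per r) (perR r G 𝕜) (bb M U.val))) = θ ((powC p hp0 l).den U) := by
    rw [hec _ (hsc _), hPe, Psi_cor hNM r hr hp0, Psi_bb, hU1, one_pow, one_mul]
    rfl
  have hC2 : P.Φ e (μ (cor (per r) (perR r G 𝕜) (bb M U.inv))) = 0 := by
    have h := hPe1 (cor (per r) (perR r G 𝕜) (bb M U.inv))
    rw [Psi_one_cor hNM r hr hp0, Psi_one_bb, (powC p hp0 l).phi_pow tf, map_zero] at h
    exact (mul_eq_zero.1 h).resolve_left hN0
  have hC3 : P.Φ e (μ (cor (per r) (perR r G 𝕜) (bb M U.val))) = 0 := by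
    have h := hPe1 (cor (per r) (perR r G 𝕜) (bb M U.val))
    rw [Psi_one_cor hNM r hr hp0, Psi_one_bb, (powC p hp0 l).phi_pow tf, map_zero] at h
    exact (mul_eq_zero.1 h).resolve_left hN0
  rw [hA2, hA3, add_zero, sub_zero] at hcb
  rw [hC2, hC3, add_zero, sub_zero] at hcc
  have hcb' := mul_left_cancel₀ (two_ne_zero : (2 : F) ≠ 0) hcb
  have hcc' := mul_left_cancel₀ (two_ne_zero : (2 : F) ≠ 0) hcc
  rw [hcb', hcc'] at hmain
  refine ⟨d, hθ ?_⟩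
  rw [map_sub, map_mul, map_natCast, ← hA1, ← hC1, hmain, mul_sub]

end Pool.Agent.H8.KZ
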