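import Pool.Agent.H8.KZ.Key1
import Pool.Agent.H71.DB.CocC

/-!
# KZ, module Key2: vanishing of the Dennis trace at elements of order divisible by `p`

PROOFS.
* `den_eq`: `l.den U - (powC p ..).den U` is divisible by all powers of `p` by `dvd_den`
  (`N = p^(k+1)`, `M = p^k`), hence zero by `hcap`.
* `den_pow`: induction on `j`: `powC (p^j)` followed by `powC p` is `powC (p^(j+1))` (the values
  `l.L h (y ^ ..)` agree; `Coc.den` depends only on the function `L`).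
* `den_zero`: `(powC (p^j) ..).den U` is a finite sum of terms `s * (r * l.L h ((g h)^(p^j)))` over the
  monomials of the entries of `U⁻¹` and `U` (`Coc.Phi`, `Coc.phi`, `pairF`, `clsFun`; an element of a
  group ring is the sum of its monomials, `MonoidAlgebra.sum_coeff_single` or so); take `j` larger than
  `j₀` for the finitely many products `g h`.
* `key_padic`: the hypotheses of `den_zero` for `𝕜 = ℤ_[p]`, `F = ℚ_[p]`: `hfrob` by
  `PadicInt.toZMod` (kernel generated by `p`, `ZMod.pow_card`); `hcap`: `‖a‖ ≤ p^(-k)` for all `k`.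
  `hsupp`: if `y ^ (p ^ j)` is conjugate to `c` then its order is `orderOf c`, finite and divisible by
  `p`, so `y` has finite order and `orderOf y / gcd (orderOf y) (p^j) = orderOf c` is divisible by `p`,
  hence `p ^ (j + 1) ∣ orderOf y`, impossible for `j ≥ orderOf y`; for other `j` use `cocC_not_conj`
  (`Pool/Agent/H71/DB/CocC.lean`).
-/

set_option autoImplicit false

open Matrix

universe u v w t

namespace Pool.Agent.H8.KZ

open Pool.Agent.H71.DB (Coc cocC cocC_not_conj)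

private theorem key2_ext {𝕜 : Type u} [CommRing 𝕜] {G : Type v} [Group G] {l l' : Coc G 𝕜}
    (h : l.L = l'.L) : l = l' := by
  cases l
  cases l'
  cases h
  rfl

private theorem key2_tf {𝕜 : Type u} [CommRing 𝕜] {F : Type t} [Field F] [CharZero F]
    (θ : 𝕜 →+* F) (hθ : Function.Injective θ) {p : ℕ} (hp : p ≠ 0) (x : 𝕜)
    (hx : (p : 𝕜) * x = 0) : x = 0 := by
  have h1 : (p : F) * θ x = 0 := by
    rw [← map_natCast θ p, ← map_mul, hx, map_zero]
  have h2 : θ x = 0 := (mul_eq_zero.1 h1).resolve_left (Nat.cast_ne_zero.2 hp)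
  exact hθ (by rw [h2, map_zero])

private theorem key2_pow0 {𝕜 : Type u} [CommRing 𝕜] {p : ℕ}
    (hp0 : ∀ x : 𝕜, (p : 𝕜) * x = 0 → x = 0) (j : ℕ) :
    ∀ x : 𝕜, ((p ^ j : ℕ) : 𝕜) * x = 0 → x = 0 := by
  induction j with
  | zero =>
    intro x hx
    rwa [pow_zero, Nat.cast_one, one_mul] at hx
  | succ j ih =>
    intro x hx
    rw [pow_succ, Nat.cast_mul, mul_assoc] at hx
    exact hp0 x (ih _ hx)

private theorem key2_phi {𝕜 : Type u} [CommRing 𝕜] {p : ℕ} {G : Type v} [Group G] (l : Coc G 𝕜)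
    (hsupp : ∀ y : G, ∃ j₀ : ℕ, ∀ j, j₀ ≤ j → ∀ g, l.L g (y ^ (p ^ j)) = 0)
    (a b : MonoidAlgebra 𝕜 G) : ∃ j₀ : ℕ, ∀ j, j₀ ≤ j →
      ∀ hj : (∀ x : 𝕜, ((p ^ j : ℕ) : 𝕜) * x = 0 → x = 0), (powC (p ^ j) hj l).phi a b = 0 := by
  induction a using MonoidAlgebra.induction_linear with
  | zero => exact ⟨0, fun j _ hj => by rw [map_zero, AddMonoidHom.zero_apply]⟩
  | add a a' ha ha' =>
    obtain ⟨j₁, h₁⟩ := ha
    obtain ⟨j₂, h₂⟩ := ha'
    refine ⟨max j₁ j₂, fun j hj hj' => ?_⟩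
    rw [map_add, AddMonoidHom.add_apply, h₁ j (le_trans (le_max_left _ _) hj) hj',
      h₂ j (le_trans (le_max_right _ _) hj) hj', add_zero]
  | single g r =>
    induction b using MonoidAlgebra.induction_linear with
    | zero => exact ⟨0, fun j _ hj => by rw [map_zero]⟩
    | add b b' hb hb' =>
      obtain ⟨j₁, h₁⟩ := hb
      obtain ⟨j₂, h₂⟩ := hb'
      refine ⟨max j₁ j₂, fun j hj hj' => ?_⟩
      rw [map_add, h₁ j (le_trans (le_max_left _ _) hj) hj',
        h₂ j (le_trans (le_max_right _ _) hj) hj', add_zero]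
    | single h s =>
      obtain ⟨j₀, h₀⟩ := hsupp (g * h)
      refine ⟨j₀, fun j hj hj' => ?_⟩
      rw [Coc.phi_single, powC_L, h₀ j hj, mul_zero, mul_zero]

private theorem key2_order {p : ℕ} (hp : p.Prime) {G : Type v} [Group G] (c : G)
    (hc : IsOfFinOrder c) (hpc : p ∣ orderOf c) (y : G) (j : ℕ) (hj : orderOf y ≤ j) :
    ¬ IsConj c (y ^ (p ^ j)) := by
  intro hconj
  obtain ⟨g, hg⟩ := isConj_iff.1 hconj
  have h1 : orderOf (y ^ (p ^ j)) = orderOf c := by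
    rw [← hg]
    exact orderOf_injective (MulAut.conj g).toMonoidHom (MulAut.conj g).injective c
  have h2 : orderOf (y ^ (p ^ j)) ≠ 0 := by
    rw [h1]
    exact hc.orderOf_pos.ne'
  have hpj : p ^ j ≠ 0 := pow_ne_zero _ hp.ne_zero
  have h3 : orderOf y ≠ 0 := by
    intro h0
    apply h2
    rw [orderOf_pow' y hpj, h0, Nat.zero_div]
  rw [orderOf_pow' y hpj] at h1
  rw [← h1] at hpc
  obtain ⟨a, ha, hga⟩ := (Nat.dvd_prime_pow hp).1 (Nat.gcd_dvd_right (orderOf y) (p ^ j))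
  have h4 : p ^ (a + 1) ∣ orderOf y := by
    obtain ⟨m, hm⟩ := hpc
    have h5 := Nat.div_mul_cancel (Nat.gcd_dvd_left (orderOf y) (p ^ j))
    rw [hm, hga] at h5
    rw [← h5]
    exact ⟨m, by ring⟩
  rcases Nat.lt_or_ge a j with h6 | h6
  · have h7 : p ^ (a + 1) ∣ Nat.gcd (orderOf y) (p ^ j) :=
      Nat.dvd_gcd h4 (pow_dvd_pow _ h6)
    rw [hga] at h7
    have h8 := (Nat.pow_dvd_pow_iff_le_right hp.one_lt).1 h7
    omega
  · have h8 : p ^ j ∣ orderOf y := dvd_trans (pow_dvd_pow _ (by omega)) h4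
    have h9 := Nat.le_of_dvd (Nat.pos_of_ne_zero h3) h8
    have h10 : j < p ^ j := Nat.lt_pow_self hp.one_lt
    omega

section den

variable {𝕜 : Type u} [CommRing 𝕜] {F : Type t} [Field F] [CharZero F] (θ : 𝕜 →+* F)
  (hθ : Function.Injective θ) {p : ℕ} (hp : p.Prime) (hfrob : ∀ a : 𝕜, (p : 𝕜) ∣ a ^ p - a)
  (hp0 : ∀ x : 𝕜, (p : 𝕜) * x = 0 → x = 0) (hcap : ∀ a : 𝕜, (∀ k : ℕ, (p : 𝕜) ^ k ∣ a) → a = 0)
  {G : Type v} [Group G] (l : Coc G 𝕜) {ι : Type w} [Fintype ι] [DecidableEq ι]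
  (U : (Matrix ι ι (MonoidAlgebra 𝕜 G))ˣ)

include θ hθ hp hfrob hcap

theorem den_eq : l.den U = (powC p hp0 l).den U := by
  apply sub_eq_zero.1
  apply hcap
  intro k
  have : NeZero (p ^ (k + 1)) := ⟨pow_ne_zero _ hp.ne_zero⟩
  have : NeZero (p ^ k) := ⟨pow_ne_zero _ hp.ne_zero⟩
  have h := dvd_den (k := k) (N := p ^ (k + 1)) (M := p ^ k) θ hθ hp rfl rfl hfrob hp0 l U
  refine dvd_trans ?_ h
  rw [Nat.cast_pow]
  exact pow_dvd_pow _ (Nat.le_succ k)

theorem den_pow (j : ℕ) (hj : ∀ x : 𝕜, ((p ^ j : ℕ) : 𝕜) * x = 0 → x = 0) :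
    l.den U = (powC (p ^ j) hj l).den U := by
  induction j with
  | zero =>
    refine congrArg (fun l' : Coc G 𝕜 => l'.den U) (key2_ext ?_)
    funext h y
    rw [powC_L, pow_zero, pow_one]
  | succ j ih =>
    have hp0' : ∀ x : 𝕜, (p : 𝕜) * x = 0 → x = 0 := key2_tf θ hθ hp.ne_zero
    have hj' : ∀ x : 𝕜, ((p ^ j : ℕ) : 𝕜) * x = 0 → x = 0 := key2_pow0 hp0' j
    rw [ih hj', den_eq θ hθ hp hfrob hp0' hcap (powC (p ^ j) hj' l) U]
    refine congrArg (fun l' : Coc G 𝕜 => l'.den U) (key2_ext ?_)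
    funext h y
    rw [powC_L, powC_L, powC_L, ← pow_mul]
    congr 2
    rw [pow_succ, mul_comm]

theorem den_zero (hsupp : ∀ y : G, ∃ j₀ : ℕ, ∀ j, j₀ ≤ j → ∀ g, l.L g (y ^ (p ^ j)) = 0) :
    l.den U = 0 := by
  have hp0' : ∀ x : 𝕜, (p : 𝕜) * x = 0 → x = 0 := key2_tf θ hθ hp.ne_zero
  have h1 : ∀ i k : ι, ∃ j₀ : ℕ, ∀ j, j₀ ≤ j →
      ∀ hj : (∀ x : 𝕜, ((p ^ j : ℕ) : 𝕜) * x = 0 → x = 0),
        (powC (p ^ j) hj l).phi (U.inv i k) (U.val k i) = 0 := fun i k =>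
    key2_phi l hsupp _ _
  choose J hJ using h1
  have hJ0 : ∀ i k, J i k ≤ Finset.univ.sup (fun i => Finset.univ.sup (J i)) := fun i k =>
    le_trans (Finset.le_sup (f := J i) (Finset.mem_univ k))
      (Finset.le_sup (f := fun i => Finset.univ.sup (J i)) (Finset.mem_univ i))
  rw [den_pow θ hθ hp hfrob hcap l U _ (key2_pow0 hp0'
    (Finset.univ.sup (fun i => Finset.univ.sup (J i))))]
  rw [Coc.den, Coc.Phi]
  exact Finset.sum_eq_zero fun i _ => Finset.sum_eq_zero fun k _ => hJ i k _ (hJ0 i k) _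

end den

/-- The Dennis trace at an element of order divisible by `p` vanishes on `GL(ℤ_p[G])`. -/
theorem key_padic {p : ℕ} [Fact p.Prime] {G : Type v} [Group G] (c : G) (hc : IsOfFinOrder c)
    (hpc : p ∣ orderOf c) (lam : Subgroup.centralizer ({c} : Set G) →* Multiplicative ℤ_[p])
    (tf : ∀ (m : ℤ) (x : ℤ_[p]), m ≠ 0 → (m : ℤ_[p]) * x = 0 → x = 0) {ι : Type w} [Fintype ι]
    [DecidableEq ι] (U : (Matrix ι ι (MonoidAlgebra ℤ_[p] G))ˣ) :
    (cocC c lam tf hc).den U = 0 := by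
  have hp : p.Prime := Fact.out
  refine den_zero (p := p) (PadicInt.Coe.ringHom : ℤ_[p] →+* ℚ_[p]) ?_ hp ?_ ?_
    (cocC c lam tf hc) U ?_
  · exact Subtype.coe_injective
  · intro a
    have h1 : a ^ p - a ∈ RingHom.ker (PadicInt.toZMod : ℤ_[p] →+* ZMod p) := by
      rw [RingHom.mem_ker, map_sub, map_pow, ZMod.pow_card, sub_self]
    rw [PadicInt.ker_toZMod, PadicInt.maximalIdeal_eq_span_p, Ideal.mem_span_singleton] at h1
    exact h1
  · intro a ha
    by_contra h0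
    have h1 : ¬ IsUnit (p : ℤ_[p]) := PadicInt.prime_p.not_isUnit
    obtain ⟨n, hn⟩ := FiniteMultiplicity.of_not_isUnit h1 h0
    exact hn (ha (n + 1))
  · intro y
    exact ⟨orderOf y, fun j hj g => cocC_not_conj c lam tf hc (key2_order hp c hc hpc y j hj)⟩

end Pool.Agent.H8.KZ
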