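import Pool.Agent.H8.KZ.Key2
import Pool.Agent.H95.KM.Trans

/-!
# KZ, module KeyT: vanishing of the trace of the Dennis trace over a local ring

`cocL c hc lam L` is the cocycle `cocC c lam _ hc` with rational values, mapped to a field `L`.
`Coc.Phi`, `Coc.den`, `Coc.mapS`, `Coc.Phi_mapS` : `Pool/Agent/H71/DB/Coc.lean`; `cocC`, `lf` :
`Pool/Agent/H71/DB/CocC.lean`; `Trans.am`, `Trans.am_single` : `Pool/Agent/H95/KM/Trans.lean`; `K0.flat`,
`K0.flat_mul` : `Pool/Agent/H71/FJ/K0.lean`; `key_padic` : `Key2.lean`.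

PROOF of `exists_lift_lam`.  A rational number `q` with `p ∤ q.den` is a `p`-adic integer: there is
`x : ℤ_[p]` with `(q.den : ℤ_[p]) * x = q.num` (`q.den` is a unit: `PadicInt.isUnit_iff`,
`PadicInt.norm_..._eq_one`, or `padicNorm`, or `PadicInt.norm_le_one`: the element `(q : ℚ_[p])` has norm `≤ 1`).
`lamp z = ofAdd (the element (q : ℚ_[p]) of ℤ_[p])`; additive since `ℤ_[p] → ℚ_[p]` is injective.
PROOF of `Phi_flat`: `Phi` is a finite sum of `phi`; for single elements
(`MonoidAlgebra.induction_linear` twice), `am reg G (single g x) a b = single g (reg x a b)`, so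
`∑_{a, b} l.phi (single g (reg x a b)) (single h (reg y b a)) = ∑_{a, b} reg y b a * (reg x a b * l.L h (g h))
= trace (reg (x * y)) * l.L h (g h)`.  The right hand side is `κ'`-free: it is the `ℤ_[p]`-bilinear extension;
state the induction for single pairs first.
PROOF of `key_trace`.  Let `l' = cocC c lamp _ hc` over `ℤ_[p]`.  By `Phi_flat` and `key_padic`
(the flattened matrices, reindexed along `e`, are inverse to each other; `Phi` is invariant under
reindexing) `∑` over all pairs of monomials `single g x` of `A i k`, `single h y` of `B k i` of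
`trace (reg (x * y)) * l'.L h (g h)` is zero.  Apply `κ`: `κ (trace (reg (x y))) = ∑ t, ι (σ t (j (x y)))` and
`κ (l'.L h (g h)) = ι ((q : ℚ) : L)`, `q = (cocQ c hc lam).L h (g h)` (both are `lf` values; `κ (lamp z)` and
`ι (lam z)` are equal to `num / den`).  So `ι (∑ t, σ t (Phi ..)) = 0`, `ι` is injective, `σ t` fixes
rational numbers.  A convenient way: prove by linear induction that for all `a b : MonoidAlgebra Om G`
`κ (l'.Phi (am reg G a) (am reg G b)) = ι (∑ t, σ t ((cocL ..).phi (mapRingHom G j a) (mapRingHom G j b)))`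
and sum over the entries.
-/

set_option autoImplicit false

open Matrix

universe u v w

namespace Pool.Agent.H8.KZ

open Pool.Agent.H71.FJ (K0.flat)
open Pool.Agent.H71.DB (Coc cocC lf)
open Pool.Agent.H95.KM.Trans (am am_single)

theorem tf_rat (m : ℤ) (x : ℚ) (hm : m ≠ 0) (h : (m : ℚ) * x = 0) : x = 0 := by
  rcases mul_eq_zero.1 h with h1 | h1
  · exact absurd (by exact_mod_cast h1) hm
  · exact h1

section defs

variable {G : Type v} [Group G] (c : G) (hc : IsOfFinOrder c)
  (lam : Subgroup.centralizer ({c} : Set G) →* Multiplicative ℚ)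

/-- The cocycle of `c` and `lam` with rational values. -/
noncomputable def cocQ : Coc G ℚ := cocC c lam tf_rat hc

/-- The cocycle of `c` and `lam` with values in a field. -/
noncomputable def cocL (L : Type u) [Field L] [CharZero L] : Coc G L :=
  (cocQ c hc lam).mapS (Rat.castHom L)

end defs

theorem exists_lift_lam {p : ℕ} [Fact p.Prime] {Z : Type v} [Group Z] (lam : Z →* Multiplicative ℚ)
    (hlam : ∀ z, ¬ p ∣ (Multiplicative.toAdd (lam z)).den) :
    ∃ lamp : Z →* Multiplicative ℤ_[p], ∀ z,
      (((Multiplicative.toAdd (lam z)).den : ℕ) : ℤ_[p]) * Multiplicative.toAdd (lamp z) =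
        (((Multiplicative.toAdd (lam z)).num : ℤ) : ℤ_[p]) := by
  classical
  have hn : ∀ z, ‖((Multiplicative.toAdd (lam z) : ℚ) : ℚ_[p])‖ ≤ 1 := fun z =>
    Padic.norm_rat_le_one (hlam z)
  refine ⟨{ toFun := fun z => Multiplicative.ofAdd ⟨((Multiplicative.toAdd (lam z) : ℚ) : ℚ_[p]), hn z⟩
            map_one' := ?_
            map_mul' := ?_ }, ?_⟩
  · apply Multiplicative.toAdd.injective
    apply Subtype.ext
    change ((Multiplicative.toAdd (lam 1) : ℚ) : ℚ_[p]) = 0
    rw [map_one, toAdd_one, Rat.cast_zero]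
  · intro z z'
    apply Multiplicative.toAdd.injective
    apply Subtype.ext
    change ((Multiplicative.toAdd (lam (z * z')) : ℚ) : ℚ_[p]) =
      ((Multiplicative.toAdd (lam z) : ℚ) : ℚ_[p]) + ((Multiplicative.toAdd (lam z') : ℚ) : ℚ_[p])
    rw [map_mul, toAdd_mul, Rat.cast_add]
  · intro z
    apply Subtype.ext
    have h1 := Rat.mul_den_eq_num (Multiplicative.toAdd (lam z))
    have h2 : ((Multiplicative.toAdd (lam z) : ℚ) : ℚ_[p]) *
        (((Multiplicative.toAdd (lam z)).den : ℕ) : ℚ_[p]) =
        (((Multiplicative.toAdd (lam z)).num : ℤ) : ℚ_[p]) := by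
      exact_mod_cast congrArg (fun q : ℚ => (q : ℚ_[p])) h1
    rw [mul_comm] at h2
    change (((((Multiplicative.toAdd (lam z)).den : ℕ) : ℤ_[p]) : ℤ_[p]) : ℚ_[p]) *
      ((Multiplicative.toAdd (lam z) : ℚ) : ℚ_[p]) =
        ((((Multiplicative.toAdd (lam z)).num : ℤ) : ℤ_[p]) : ℚ_[p])
    rw [PadicInt.coe_natCast, PadicInt.coe_intCast]
    exact h2

theorem Phi_flat {G : Type v} [Group G] {S : Type u} [CommRing S] (l : Coc G S) {Om : Type}
    [CommRing Om] {r : ℕ} (reg : Om →+* Matrix (Fin r) (Fin r) S) (g h : G) (x y : Om) :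
    l.Phi (am reg G (MonoidAlgebra.single g x)) (am reg G (MonoidAlgebra.single h y)) =
      Matrix.trace (reg (x * y)) * l.L h (g * h) := by
  rw [Coc.Phi, am_single, am_single, Matrix.trace, Finset.sum_mul]
  refine Finset.sum_congr rfl fun i _ => ?_
  rw [Matrix.diag_apply, map_mul, Matrix.mul_apply, Finset.sum_mul]
  refine Finset.sum_congr rfl fun k _ => ?_
  rw [Matrix.of_apply, Matrix.of_apply, Coc.phi_single]
  ring

private theorem keyt_flat_one {R S : Type*} [Ring R] [Ring S] {J m : Type*} [Fintype J]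
    [DecidableEq J] [DecidableEq m] (φ : R →+* Matrix J J S) :
    K0.flat φ (1 : Matrix m m R) = 1 := by
  ext1 ⟨i, a⟩ ⟨k, b⟩
  change φ ((1 : Matrix m m R) i k) a b = _
  by_cases h : i = k
  · subst h
    rw [Matrix.one_apply_eq, map_one]
    by_cases h' : a = b
    · subst h'
      rw [Matrix.one_apply_eq, Matrix.one_apply_eq]
    · rw [Matrix.one_apply_ne h', Matrix.one_apply_ne (fun h'' => h' (Prod.mk.inj h'').2)]
  · rw [Matrix.one_apply_ne h, map_zero, Matrix.zero_apply,
      Matrix.one_apply_ne (fun h'' => h (Prod.mk.inj h'').1)]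

private theorem keyt_reindex {p : ℕ} [Fact p.Prime] {G : Type v} [Group G] (c : G)
    (hc : IsOfFinOrder c) (hpc : p ∣ orderOf c)
    (lam : Subgroup.centralizer ({c} : Set G) →* Multiplicative ℤ_[p])
    (tf : ∀ (m : ℤ) (x : ℤ_[p]), m ≠ 0 → (m : ℤ_[p]) * x = 0 → x = 0)
    {m n : Type} [Fintype m] [DecidableEq m] [Fintype n] [DecidableEq n] (e : m ≃ n)
    (A : Matrix m n (MonoidAlgebra ℤ_[p] G)) (B : Matrix n m (MonoidAlgebra ℤ_[p] G))
    (hAB : A * B = 1) (hBA : B * A = 1) : (cocC c lam tf hc).Phi A B = 0 := by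
  have h1 : A.submatrix id e * B.submatrix e id = 1 := by
    rw [Matrix.submatrix_mul_equiv, hAB]
    exact Matrix.submatrix_one _ Function.injective_id
  have h2 : B.submatrix e id * A.submatrix id e = 1 := by
    have h3 := Matrix.submatrix_mul_equiv B A e (Equiv.refl m) e
    change B.submatrix e id * A.submatrix id e = _ at h3
    rw [h3, hBA]
    exact Matrix.submatrix_one _ e.injective
  have h := key_padic c hc hpc lam tf (⟨B.submatrix e id, A.submatrix id e, h2, h1⟩ :
    (Matrix m m (MonoidAlgebra ℤ_[p] G))ˣ)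
  have h4 : (cocC c lam tf hc).Phi (A.submatrix id e) (B.submatrix e id) = 0 := h
  rw [← h4, Coc.Phi, Coc.Phi]
  refine Finset.sum_congr rfl fun i _ => ?_
  exact (Equiv.sum_comp e (fun k => (cocC c lam tf hc).phi (A i k) (B k i))).symm

private theorem keyt_fix {G : Type v} [Group G] (c : G) (hc : IsOfFinOrder c)
    (lam : Subgroup.centralizer ({c} : Set G) →* Multiplicative ℚ) {L : Type} [Field L]
    [CharZero L] (s : L →+* L) (f y : G) :
    s ((cocL c hc lam L).L f y) = (cocL c hc lam L).L f y := by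
  change s (Rat.castHom L _) = Rat.castHom L _
  rw [eq_ratCast, map_ratCast]

private theorem keyt_lf {p : ℕ} [Fact p.Prime] {G : Type v} [Group G] (c : G)
    (lam : Subgroup.centralizer ({c} : Set G) →* Multiplicative ℚ)
    (lamp : Subgroup.centralizer ({c} : Set G) →* Multiplicative ℤ_[p])
    (hlamp : ∀ z, (((Multiplicative.toAdd (lam z)).den : ℕ) : ℤ_[p]) *
      Multiplicative.toAdd (lamp z) = (((Multiplicative.toAdd (lam z)).num : ℤ) : ℤ_[p]))
    {L : Type} [Field L] [CharZero L] {K : Type} [Field K] [CharZero K] (κ : ℤ_[p] →+* K)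
    (ι : L →+* K) (w : G) : κ (lf c lamp w) = ι (Rat.castHom L (lf c lam w)) := by
  rw [lf, lf]
  by_cases hw : w ∈ Subgroup.centralizer ({c} : Set G)
  · rw [dif_pos hw, dif_pos hw, eq_ratCast, map_ratCast]
    have h1 := congrArg κ (hlamp ⟨w, hw⟩)
    rw [map_mul, map_natCast, map_intCast] at h1
    have h2 : (((Multiplicative.toAdd (lam ⟨w, hw⟩)).den : ℕ) : K) ≠ 0 := by
      exact_mod_cast (Multiplicative.toAdd (lam ⟨w, hw⟩)).den_nz
    rw [Rat.cast_def, eq_div_iff h2, mul_comm]
    exact h1
  · rw [dif_neg hw, dif_neg hw, map_zero, map_zero, map_zero]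

theorem key_trace {p : ℕ} [Fact p.Prime] {G : Type v} [Group G] (c : G) (hc : IsOfFinOrder c)
    (hpc : p ∣ orderOf c) (lam : Subgroup.centralizer ({c} : Set G) →* Multiplicative ℚ)
    (hlam : ∀ z, ¬ p ∣ (Multiplicative.toAdd (lam z)).den)
    {L : Type} [Field L] [CharZero L] {Om : Type} [CommRing Om] (j : Om →+* L)
    {K : Type} [Field K] [CharZero K] (κ : ℤ_[p] →+* K) (hκ : Function.Injective κ)
    (ι : L →+* K) {r : ℕ} (reg : Om →+* Matrix (Fin r) (Fin r) ℤ_[p])
    {T : Type} [Fintype T] (σ : T → L →+* L)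
    (hreg : ∀ y : Om, κ (Matrix.trace (reg y)) = ∑ t, ι (σ t (j y)))
    {m n : Type} [Fintype m] [DecidableEq m] [Fintype n] [DecidableEq n] (e : m ≃ n)
    (A : Matrix m n (MonoidAlgebra Om G)) (B : Matrix n m (MonoidAlgebra Om G))
    (hAB : A * B = 1) (hBA : B * A = 1) :
    ∑ t, σ t ((cocL c hc lam L).Phi (A.map (MonoidAlgebra.mapRingHom G j))
      (B.map (MonoidAlgebra.mapRingHom G j))) = 0 := by
  classical
  obtain ⟨lamp, hlamp⟩ := exists_lift_lam (p := p) lam hlam
  have tf : ∀ (m : ℤ) (x : ℤ_[p]), m ≠ 0 → (m : ℤ_[p]) * x = 0 → x = 0 := by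
    intro m x hm h
    rcases mul_eq_zero.1 h with h1 | h1
    · exact absurd (by exact_mod_cast h1) hm
    · exact h1
  have hL : ∀ f y, κ ((cocC c lamp tf hc).L f y) = ι ((cocL c hc lam L).L f y) := by
    intro f y
    change κ (if IsConj c y then lf c lamp _ else 0) =
      ι (Rat.castHom L (if IsConj c y then lf c lam _ else 0))
    by_cases hy : IsConj c y
    · rw [if_pos hy, if_pos hy]
      exact keyt_lf c lam lamp hlamp κ ι _
    · rw [if_neg hy, if_neg hy, map_zero, map_zero, map_zero]
  have key : ∀ a b : MonoidAlgebra Om G,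
      κ ((cocC c lamp tf hc).Phi (am reg G a) (am reg G b)) =
        ι (∑ t, σ t ((cocL c hc lam L).phi (MonoidAlgebra.mapRingHom G j a)
          (MonoidAlgebra.mapRingHom G j b))) := by
    intro a b
    induction a using MonoidAlgebra.induction_linear with
    | zero =>
      rw [map_zero, map_zero, Coc.Phi_zero_left, map_zero]
      simp
    | add a a' ha ha' =>
      rw [map_add, map_add, Coc.Phi_add_left, map_add, ha, ha', ← map_add,
        ← Finset.sum_add_distrib]
      congr 1
      refine Finset.sum_congr rfl fun t _ => ?_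
      rw [map_add, AddMonoidHom.add_apply, map_add]
    | single g x =>
      induction b using MonoidAlgebra.induction_linear with
      | zero =>
        rw [map_zero, map_zero, Coc.Phi_zero_right, map_zero]
        simp
      | add b b' hb hb' =>
        rw [map_add, map_add, Coc.Phi_add_right, map_add, hb, hb', ← map_add,
          ← Finset.sum_add_distrib]
        congr 1
        refine Finset.sum_congr rfl fun t _ => ?_
        rw [map_add, map_add]
      | single h y =>
        rw [Phi_flat, map_mul, hreg, hL, map_sum, Finset.sum_mul]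
        refine Finset.sum_congr rfl fun t _ => ?_
        rw [MonoidAlgebra.mapRingHom_single, MonoidAlgebra.mapRingHom_single, Coc.phi_single]
        simp only [map_mul]
        rw [keyt_fix c hc lam (σ t)]
        ring
  have h0 : (cocC c lamp tf hc).Phi (K0.flat (am reg G) A) (K0.flat (am reg G) B) = 0 := by
    have hAB' : K0.flat (am reg G) A * K0.flat (am reg G) B = 1 := by
      rw [← Pool.Agent.H71.FJ.K0.flat_mul, hAB, keyt_flat_one]
    have hBA' : K0.flat (am reg G) B * K0.flat (am reg G) A = 1 := by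
      rw [← Pool.Agent.H71.FJ.K0.flat_mul, hBA, keyt_flat_one]
    exact keyt_reindex c hc hpc lamp tf (e.prodCongr (Equiv.refl (Fin r))) _ _ hAB' hBA'
  have hsum : κ ((cocC c lamp tf hc).Phi (K0.flat (am reg G) A) (K0.flat (am reg G) B)) =
      ι (∑ t, σ t ((cocL c hc lam L).Phi (A.map (MonoidAlgebra.mapRingHom G j))
        (B.map (MonoidAlgebra.mapRingHom G j)))) := by
    have e1 : (cocC c lamp tf hc).Phi (K0.flat (am reg G) A) (K0.flat (am reg G) B) =
        ∑ i, ∑ k, (cocC c lamp tf hc).Phi (am reg G (A i k)) (am reg G (B k i)) := by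
      rw [Coc.Phi, Fintype.sum_prod_type]
      refine Finset.sum_congr rfl fun i _ => ?_
      simp only [Fintype.sum_prod_type]
      rw [Finset.sum_comm]
      rfl
    rw [e1, map_sum]
    simp only [map_sum, key]
    have e2 : ∀ t, ι (σ t ((cocL c hc lam L).Phi (A.map (MonoidAlgebra.mapRingHom G j))
        (B.map (MonoidAlgebra.mapRingHom G j)))) = ∑ i, ∑ k, ι (σ t ((cocL c hc lam L).phi
          (MonoidAlgebra.mapRingHom G j (A i k)) (MonoidAlgebra.mapRingHom G j (B k i)))) := by
      intro t
      rw [Coc.Phi]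
      simp only [map_sum, Matrix.map_apply]
    rw [Finset.sum_congr rfl fun t _ => e2 t]
    refine Eq.trans ?_ Finset.sum_comm
    refine Finset.sum_congr rfl fun i _ => ?_
    exact Finset.sum_comm
  rw [h0, map_zero] at hsum
  exact (map_eq_zero_iff ι ι.injective).1 hsum.symm

end Pool.Agent.H8.KZ
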