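import Pool.Agent.H8.KZ.LinD

/-!
# KZ, module LinA: Fourier expansion of the functionals

Model: `Pool/Agent/H95/KM/LinAlg.lean` (`el`, `hl`, `hl_nat`, `hl_conj`, `hl_van`, `hl_sum`, `hl_inv`, `l_expand`; copy
and adapt; there is now the additional argument `z`).  `Fun` : `LinD.lean`; `lf`, `xc`, `xc_spec` :
`Pool/Agent/H71/DB/CocC.lean`; `galN`, `permPr`, `gO` : `Gal.lean`, `LocP.lean`.

PROOF.  `ℓ D m χ z = Λ.F D (Pi.single χ (Pi.single m 1)) z ∈ ℚ`, `h D m d z = ∑ χ, fL (χ d) * ℓ D m χ z ∈ L` for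
`d ∈ D`, `z ∈ Z_G(D)`, `fL = algebraMap (𝓞 L) L`.
* Naturality (`Λ.nat`): for `g E g⁻¹ ⊆ D` (`h'`), `z ∈ Z_G(D)`: `h E m e (conjCent g E D h' z) = h D m (g e g⁻¹) z`.
* For `c : G` with `⟨c⟩` good (`orderOf c ≠ 0`, `orderOf c ∣ N`) `E = zpowers c`, `centralizer E = centralizer {c}`:
  `hh c m z = h E m ⟨c, _⟩ z` (multiplicative in `z` by `Λ.mul`); for other `c` let `hh c m = 1`.
* Hence for `D` good, `d ∈ D`, `z ∈ Z_G(D)`, `IsConj c d`, `x = xc c d` (`x c x⁻¹ = d`):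
  `h D m d z = hh c m (x⁻¹ z x)` (`g = x`, `E = zpowers c`).
* Equivariance: `galN N (gO σ) (δ_{χ, m}) = δ_{σ ∘ χ, σ m}`, so `Λ.gal` gives
  `ℓ E (σ m) (σ ∘ χ) z = ℓ E m χ z`, and `hh c (σ m) z = ∑ χ, fL ((σ ∘ χ) c) * ℓ E (σ m) (σ ∘ χ) z =
  ∑ χ, σ (fL (χ c)) * ℓ E m χ z = σ (hh c m z)` (the values of `ℓ` are rational; reindexing `χ ↦ σ ∘ χ`).
* Vanishing (`Λ.van`), sum (`Λ.const`), inversion (`ℓ D m χ z = |D|⁻¹ ∑ d, fL ((χ d)⁻¹) * h D m d z`,
  `sum_chi` of `Pool/Agent/H95/KM/Fou.lean`), expansion (`Λ.add`).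
-/

set_option autoImplicit false

open NumberField

universe u v w

namespace Pool.Agent.H8.KZ

open Pool.Agent.H95.KM
open Pool.Agent.H95.WH (conjHom)
open Pool.Agent.H71.DB (conjCent lf xc)

section aux

set_option linter.unusedSectionVars false

variable {L : Type} [Field L] [NumberField L] {N : ℕ} [NeZero N]
    [HasEnoughRootsOfUnity (𝓞 L) N] {G : Type v} [Group G] {pr : Pr (𝓞 L) N → ℕ}
    [Fintype (Pr (𝓞 L) N)] (Λ : Fun L N G pr)

private theorem linA_comm (D : Good G N) (a b : D.1) : a * b = b * a := by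
  have := D.2.1.2
  exact IsCyclic.commGroup.mul_comm a b

private theorem linA_dual (L : Type) [Field L] [NumberField L] [HasEnoughRootsOfUnity (𝓞 L) N]
    (D : Good G N) : Finite (D.1 →* (𝓞 L)ˣ) := by
  have := D.2.1.1
  exact finite_dual N (linA_comm D) D.2.2

/-- the functional for fixed `z` -/
private noncomputable def linA_F (D : Good G N) (z : Subgroup.centralizer (D.1 : Set G)) :
    ((D.1 →* (𝓞 L)ˣ) → Pr (𝓞 L) N → ℤ) →+ ℚ :=
  AddMonoidHom.mk' (fun n => Λ.F D n z) (fun a b => Λ.add D a b z)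

private theorem linA_F_apply (D : Good G N) (z : Subgroup.centralizer (D.1 : Set G))
    (n : (D.1 →* (𝓞 L)ˣ) → Pr (𝓞 L) N → ℤ) : linA_F Λ D z n = Λ.F D n z := rfl

open Classical in
/-- the functional at a character -/
private noncomputable def linA_el (D : Good G N) (m : Pr (𝓞 L) N) (χ : D.1 →* (𝓞 L)ˣ)
    (z : Subgroup.centralizer (D.1 : Set G)) : ℚ :=
  linA_F Λ D z (Pi.single χ (Pi.single m 1))

/-- the Fourier transform of the functional -/
private noncomputable def linA_h (D : Good G N) (m : Pr (𝓞 L) N) (d : D.1)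
    (z : Subgroup.centralizer (D.1 : Set G)) : L :=
  ∑ᶠ χ : D.1 →* (𝓞 L)ˣ, algebraMap (𝓞 L) L ((χ d : (𝓞 L)ˣ) : 𝓞 L) * (linA_el Λ D m χ z : L)

private theorem linA_el_nat (E D : Good G N) (g : G) (h : ∀ x ∈ E.1, g * x * g⁻¹ ∈ D.1)
    (m : Pr (𝓞 L) N) (ψ : E.1 →* (𝓞 L)ˣ) (z : Subgroup.centralizer (D.1 : Set G))
    [Fintype (D.1 →* (𝓞 L)ˣ)] :
    open Classical in
    linA_el Λ E m ψ (conjCent g E.1 D.1 h z) =
      ∑ χ : D.1 →* (𝓞 L)ˣ, if χ.comp (conjHom g E.1 D.1 h) = ψ then linA_el Λ D m χ z else 0 := by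
  classical
  have h1 : (fun (χ : D.1 →* (𝓞 L)ˣ) (m' : Pr (𝓞 L) N) =>
      (Pi.single ψ (Pi.single m 1) : (E.1 →* (𝓞 L)ˣ) → Pr (𝓞 L) N → ℤ)
        (χ.comp (conjHom g E.1 D.1 h)) m')
      = ∑ χ : D.1 →* (𝓞 L)ˣ, if χ.comp (conjHom g E.1 D.1 h) = ψ then
        (Pi.single χ (Pi.single m 1) : (D.1 →* (𝓞 L)ˣ) → Pr (𝓞 L) N → ℤ) else 0 := by
    funext χ m'
    rw [Finset.sum_apply, Finset.sum_apply, Finset.sum_eq_single χ]
    · by_cases hc : χ.comp (conjHom g E.1 D.1 h) = ψ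
      · rw [if_pos hc, hc, Pi.single_eq_same, Pi.single_eq_same]
      · rw [if_neg hc, Pi.single_eq_of_ne hc]
        rfl
    · intro χ' _ hne
      by_cases hc : χ'.comp (conjHom g E.1 D.1 h) = ψ
      · rw [if_pos hc, Pi.single_eq_of_ne (Ne.symm hne)]
        rfl
      · rw [if_neg hc]
        rfl
    · intro hno
      exact absurd (Finset.mem_univ χ) hno
  unfold linA_el
  rw [linA_F_apply, ← Λ.nat E D g h, ← linA_F_apply, h1, map_sum]
  refine Finset.sum_congr rfl fun χ _ => ?_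
  split_ifs
  · rfl
  · rw [map_zero]

private theorem linA_h_nat (E D : Good G N) (g : G) (h : ∀ x ∈ E.1, g * x * g⁻¹ ∈ D.1)
    (m : Pr (𝓞 L) N) (e : E.1) (z : Subgroup.centralizer (D.1 : Set G)) :
    linA_h Λ E m e (conjCent g E.1 D.1 h z) = linA_h Λ D m (conjHom g E.1 D.1 h e) z := by
  classical
  have := linA_dual L E
  have := linA_dual L D
  let _ : Fintype (E.1 →* (𝓞 L)ˣ) := Fintype.ofFinite _
  let _ : Fintype (D.1 →* (𝓞 L)ˣ) := Fintype.ofFinite _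
  unfold linA_h
  rw [finsum_eq_sum_of_fintype, finsum_eq_sum_of_fintype]
  have h1 : ∀ ψ : E.1 →* (𝓞 L)ˣ, algebraMap (𝓞 L) L ((ψ e : (𝓞 L)ˣ) : 𝓞 L) *
      (linA_el Λ E m ψ (conjCent g E.1 D.1 h z) : L) =
      ∑ χ : D.1 →* (𝓞 L)ˣ, if χ.comp (conjHom g E.1 D.1 h) = ψ then
        algebraMap (𝓞 L) L ((ψ e : (𝓞 L)ˣ) : 𝓞 L) * (linA_el Λ D m χ z : L) else 0 := by
    intro ψ
    rw [linA_el_nat Λ E D g h m ψ z, Rat.cast_sum, Finset.mul_sum]
    refine Finset.sum_congr rfl fun χ _ => ?_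
    split_ifs
    · rfl
    · rw [Rat.cast_zero, mul_zero]
  rw [Finset.sum_congr rfl fun ψ _ => h1 ψ, Finset.sum_comm]
  refine Finset.sum_congr rfl fun χ _ => ?_
  rw [Finset.sum_ite_eq Finset.univ (χ.comp (conjHom g E.1 D.1 h))
    (fun ψ => algebraMap (𝓞 L) L ((ψ e : (𝓞 L)ˣ) : 𝓞 L) * (linA_el Λ D m χ z : L)),
    if_pos (Finset.mem_univ _)]
  rfl

private theorem linA_el_mul (D : Good G N) (m : Pr (𝓞 L) N) (χ : D.1 →* (𝓞 L)ˣ)
    (z z' : Subgroup.centralizer (D.1 : Set G)) :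
    linA_el Λ D m χ (z * z') = linA_el Λ D m χ z + linA_el Λ D m χ z' := by
  unfold linA_el
  exact Λ.mul D _ z z'

private theorem linA_h_mul (D : Good G N) (m : Pr (𝓞 L) N) (d : D.1)
    (z z' : Subgroup.centralizer (D.1 : Set G)) :
    linA_h Λ D m d (z * z') = linA_h Λ D m d z + linA_h Λ D m d z' := by
  classical
  have := linA_dual L D
  let _ : Fintype (D.1 →* (𝓞 L)ˣ) := Fintype.ofFinite _
  unfold linA_h
  rw [finsum_eq_sum_of_fintype, finsum_eq_sum_of_fintype, finsum_eq_sum_of_fintype,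
    ← Finset.sum_add_distrib]
  refine Finset.sum_congr rfl fun χ _ => ?_
  rw [linA_el_mul, Rat.cast_add, mul_add]

private theorem linA_h_van (D : Good G N) (m : Pr (𝓞 L) N) (d : D.1)
    (z : Subgroup.centralizer (D.1 : Set G)) (hm : ¬ pr m ∣ Nat.card D.1) :
    linA_h Λ D m d z = 0 := by
  classical
  unfold linA_h
  have h1 : ∀ χ : D.1 →* (𝓞 L)ˣ, linA_el Λ D m χ z = 0 := by
    intro χ
    unfold linA_el
    rw [linA_F_apply, Λ.van]
    intro χ' m' hne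
    have hm' : m' = m := by
      by_contra hmm
      apply hne
      by_cases hχ : χ' = χ
      · rw [hχ, Pi.single_eq_same, Pi.single_eq_of_ne hmm]
      · rw [Pi.single_eq_of_ne hχ]; rfl
    rw [hm']
    exact hm
  simp only [h1, Rat.cast_zero, mul_zero, finsum_zero]

private theorem linA_h_sum (D : Good G N) (d : D.1) (z : Subgroup.centralizer (D.1 : Set G)) :
    ∑ m : Pr (𝓞 L) N, linA_h Λ D m d z = 0 := by
  classical
  have := linA_dual L D
  let _ : Fintype (D.1 →* (𝓞 L)ˣ) := Fintype.ofFinite _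
  unfold linA_h
  simp only [finsum_eq_sum_of_fintype]
  rw [Finset.sum_comm]
  refine Finset.sum_eq_zero fun χ _ => ?_
  rw [← Finset.mul_sum, ← Rat.cast_sum]
  have h1 : ∑ m : Pr (𝓞 L) N, linA_el Λ D m χ z = 0 := by
    unfold linA_el
    rw [← map_sum]
    have h2 : ∑ m : Pr (𝓞 L) N, (Pi.single χ (Pi.single m 1) :
        (D.1 →* (𝓞 L)ˣ) → Pr (𝓞 L) N → ℤ) = fun χ' _ => if χ' = χ then 1 else 0 := by
      funext χ' m'
      rw [Finset.sum_apply, Finset.sum_apply]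
      by_cases hχ : χ' = χ
      · subst hχ
        simp [Pi.single_apply]
      · simp [hχ]
    rw [h2, linA_F_apply, Λ.const]
  rw [h1, Rat.cast_zero, mul_zero]

private theorem linA_h_inv (D : Good G N) [Fintype D.1] (m : Pr (𝓞 L) N) (χ : D.1 →* (𝓞 L)ˣ)
    (z : Subgroup.centralizer (D.1 : Set G)) :
    (linA_el Λ D m χ z : L) = (Fintype.card D.1 : L)⁻¹ *
      ∑ d : D.1, algebraMap (𝓞 L) L (((χ d)⁻¹ : (𝓞 L)ˣ) : 𝓞 L) * linA_h Λ D m d z := by
  classical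
  have := linA_dual L D
  let _ : Fintype (D.1 →* (𝓞 L)ˣ) := Fintype.ofFinite _
  unfold linA_h
  simp only [finsum_eq_sum_of_fintype, Finset.mul_sum]
  rw [Finset.sum_comm]
  have h1 : ∀ χ' : D.1 →* (𝓞 L)ˣ, ∑ d : D.1, (Fintype.card D.1 : L)⁻¹ *
      (algebraMap (𝓞 L) L (((χ d)⁻¹ : (𝓞 L)ˣ) : 𝓞 L) *
        (algebraMap (𝓞 L) L ((χ' d : (𝓞 L)ˣ) : 𝓞 L) * (linA_el Λ D m χ' z : L))) =
      if χ = χ' then (linA_el Λ D m χ' z : L) else 0 := by
    intro χ'
    have h2 : ∀ d : D.1, (Fintype.card D.1 : L)⁻¹ *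
      (algebraMap (𝓞 L) L (((χ d)⁻¹ : (𝓞 L)ˣ) : 𝓞 L) *
        (algebraMap (𝓞 L) L ((χ' d : (𝓞 L)ˣ) : 𝓞 L) * (linA_el Λ D m χ' z : L))) =
      (Fintype.card D.1 : L)⁻¹ * (linA_el Λ D m χ' z : L) *
        algebraMap (𝓞 L) L ((((χ⁻¹ * χ') d : (𝓞 L)ˣ)) : 𝓞 L) := by
      intro d
      rw [MonoidHom.mul_apply, MonoidHom.inv_apply, Units.val_mul, map_mul]
      ring
    rw [Finset.sum_congr rfl fun d _ => h2 d, ← Finset.mul_sum, ← map_sum]
    by_cases hχ : χ = χ'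
    · subst hχ
      have hone : χ⁻¹ * χ = 1 := inv_mul_cancel χ
      rw [if_pos rfl, hone]
      simp only [MonoidHom.one_apply, Units.val_one, Finset.sum_const, Finset.card_univ,
        nsmul_eq_mul, mul_one, map_natCast]
      have hcard : (Fintype.card D.1 : L) ≠ 0 := by
        exact_mod_cast Fintype.card_ne_zero
      field_simp
    · rw [if_neg hχ, sum_chi, map_zero, mul_zero]
      intro h0
      apply hχ
      exact inv_mul_eq_one.1 h0
  rw [Finset.sum_congr rfl fun χ' _ => h1 χ', Finset.sum_ite_eq, if_pos (Finset.mem_univ _)]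

private theorem linA_expand (D : Good G N) [Fintype (D.1 →* (𝓞 L)ˣ)]
    (n : (D.1 →* (𝓞 L)ˣ) → Pr (𝓞 L) N → ℤ) (z : Subgroup.centralizer (D.1 : Set G)) :
    (Λ.F D n z : L) =
      ∑ χ : D.1 →* (𝓞 L)ˣ, ∑ m : Pr (𝓞 L) N, (n χ m : L) * (linA_el Λ D m χ z : L) := by
  classical
  have h1 : n = ∑ χ : D.1 →* (𝓞 L)ˣ, ∑ m : Pr (𝓞 L) N,
      n χ m • (Pi.single χ (Pi.single m 1) : (D.1 →* (𝓞 L)ˣ) → Pr (𝓞 L) N → ℤ) := by
    funext χ m
    rw [Finset.sum_apply, Finset.sum_apply, Finset.sum_eq_single χ]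
    · rw [Finset.sum_apply, Finset.sum_apply, Finset.sum_eq_single m]
      · simp
      · intro m' _ hm'
        rw [Pi.smul_apply, Pi.smul_apply, Pi.single_eq_same, Pi.single_eq_of_ne (Ne.symm hm'),
          smul_zero]
      · intro h; exact absurd (Finset.mem_univ m) h
    · intro χ' _ hχ'
      rw [Finset.sum_apply, Finset.sum_apply]
      refine Finset.sum_eq_zero fun m' _ => ?_
      rw [Pi.smul_apply, Pi.smul_apply, Pi.single_eq_of_ne (Ne.symm hχ'), Pi.zero_apply, smul_zero]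
    · intro h; exact absurd (Finset.mem_univ χ) h
  conv_lhs => rw [h1, ← linA_F_apply]
  simp only [map_sum, map_zsmul, Rat.cast_sum]
  refine Finset.sum_congr rfl fun χ _ => Finset.sum_congr rfl fun m _ => ?_
  rw [zsmul_eq_mul, Rat.cast_mul, Rat.cast_intCast]
  rfl

private theorem linA_el_gal (D : Good G N) (σ : L ≃ₐ[ℚ] L) (m : Pr (𝓞 L) N)
    (χ : D.1 →* (𝓞 L)ˣ) (z : Subgroup.centralizer (D.1 : Set G)) :
    linA_el Λ D (permPr (gO σ) N m) ((Units.map (gO σ : 𝓞 L →* 𝓞 L)).comp χ) z =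
      linA_el Λ D m χ z := by
  classical
  unfold linA_el
  rw [linA_F_apply, linA_F_apply, ← Λ.gal D σ (Pi.single χ (Pi.single m 1)) z]
  congr 1
  funext χ' m'
  unfold galN
  have hchar : (Units.map ((gO σ).symm : 𝓞 L →* 𝓞 L)).comp χ' = χ ↔
      χ' = (Units.map (gO σ : 𝓞 L →* 𝓞 L)).comp χ := by
    constructor
    · rintro rfl
      ext d : 2
      change _ = gO σ ((gO σ).symm (χ' d : 𝓞 L))
      rw [RingEquiv.apply_symm_apply]
    · rintro rfl
      ext d : 2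
      change (gO σ).symm (gO σ (χ d : 𝓞 L)) = _
      rw [RingEquiv.symm_apply_apply]
  have hper : (permPr (gO σ) N).symm m' = m ↔ m' = permPr (gO σ) N m := by
    rw [Equiv.symm_apply_eq]
  by_cases h1 : χ' = (Units.map (gO σ : 𝓞 L →* 𝓞 L)).comp χ
  · rw [hchar.2 h1, Pi.single_eq_same, h1, Pi.single_eq_same]
    by_cases h2 : m' = permPr (gO σ) N m
    · rw [hper.2 h2, Pi.single_eq_same, h2, Pi.single_eq_same]
    · rw [Pi.single_eq_of_ne h2, Pi.single_eq_of_ne (fun h => h2 (hper.1 h))]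
  · rw [Pi.single_eq_of_ne h1, Pi.single_eq_of_ne (fun h => h1 (hchar.1 h))]
    rfl

private theorem linA_h_gal (D : Good G N) (σ : L ≃ₐ[ℚ] L) (m : Pr (𝓞 L) N) (d : D.1)
    (z : Subgroup.centralizer (D.1 : Set G)) :
    linA_h Λ D (permPr (gO σ) N m) d z = σ (linA_h Λ D m d z) := by
  classical
  have := linA_dual L D
  let _ : Fintype (D.1 →* (𝓞 L)ˣ) := Fintype.ofFinite _
  unfold linA_h
  rw [finsum_eq_sum_of_fintype, finsum_eq_sum_of_fintype, map_sum]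
  symm
  refine Fintype.sum_bijective (fun χ : D.1 →* (𝓞 L)ˣ =>
    (Units.map (gO σ : 𝓞 L →* 𝓞 L)).comp χ) ?_ _ _ ?_
  · constructor
    · intro χ χ' h
      ext d : 2
      have h1 := DFunLike.congr_fun h d
      have h2 := congrArg (fun u : (𝓞 L)ˣ => (u : 𝓞 L)) h1
      exact (gO σ).injective h2
    · intro χ
      refine ⟨(Units.map ((gO σ).symm : 𝓞 L →* 𝓞 L)).comp χ, ?_⟩
      ext d : 2
      change gO σ ((gO σ).symm (χ d : 𝓞 L)) = _
      rw [RingEquiv.apply_symm_apply]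
  · intro χ
    rw [linA_el_gal, map_mul, map_ratCast]
    rfl

private theorem linA_cent (c : G) (y : Subgroup.centralizer ({c} : Set G)) :
    (y : G) ∈ Subgroup.centralizer ((Subgroup.zpowers c : Subgroup G) : Set G) := by
  rw [Subgroup.mem_centralizer_iff]
  intro x hx
  obtain ⟨k, rfl⟩ := Subgroup.mem_zpowers_iff.1 hx
  have h1 : c * (y : G) = y * c := by
    have := Subgroup.mem_centralizer_iff.1 y.2 c (Set.mem_singleton c)
    exact this
  have h2 : Commute c (y : G) := h1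
  exact h2.zpow_left k

/-- The class function. -/
private noncomputable def linA_hh0 (c : G)
    (hc : (Finite (Subgroup.zpowers c) ∧ IsCyclic (Subgroup.zpowers c)) ∧
      Nat.card (Subgroup.zpowers c) ∣ N) (m : Pr (𝓞 L) N) :
    Subgroup.centralizer ({c} : Set G) →* Multiplicative L :=
  MonoidHom.mk' (fun y => Multiplicative.ofAdd (linA_h Λ ⟨Subgroup.zpowers c, hc⟩ m
    ⟨c, Subgroup.mem_zpowers c⟩ ⟨y, linA_cent c y⟩)) (fun y y' => by
      rw [← ofAdd_add, ← linA_h_mul]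
      rfl)

open Classical in
/-- The class function, extended. -/
private noncomputable def linA_hh (c : G) (m : Pr (𝓞 L) N) :
    Subgroup.centralizer ({c} : Set G) →* Multiplicative L :=
  if hc : (Finite (Subgroup.zpowers c) ∧ IsCyclic (Subgroup.zpowers c)) ∧
      Nat.card (Subgroup.zpowers c) ∣ N then linA_hh0 Λ c hc m else 1

private theorem linA_hh_pos (c : G)
    (hc : (Finite (Subgroup.zpowers c) ∧ IsCyclic (Subgroup.zpowers c)) ∧
      Nat.card (Subgroup.zpowers c) ∣ N) (m : Pr (𝓞 L) N)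
    (y : Subgroup.centralizer ({c} : Set G)) :
    Multiplicative.toAdd (linA_hh Λ c m y) = linA_h Λ ⟨Subgroup.zpowers c, hc⟩ m
      ⟨c, Subgroup.mem_zpowers c⟩ ⟨y, linA_cent c y⟩ := by
  unfold linA_hh
  rw [dif_pos hc]
  rfl

private theorem linA_hh_neg (c : G)
    (hc : ¬ ((Finite (Subgroup.zpowers c) ∧ IsCyclic (Subgroup.zpowers c)) ∧
      Nat.card (Subgroup.zpowers c) ∣ N)) (m : Pr (𝓞 L) N)
    (y : Subgroup.centralizer ({c} : Set G)) :
    linA_hh Λ c m y = 1 := by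
  unfold linA_hh
  rw [dif_neg hc]
  rfl

private theorem linA_good (D : Good G N) (d : D.1) (c : G) (hcd : IsConj c (d : G)) :
    (Finite (Subgroup.zpowers c) ∧ IsCyclic (Subgroup.zpowers c)) ∧
      Nat.card (Subgroup.zpowers c) ∣ N := by
  have := D.2.1.1
  have hord : orderOf c = orderOf (d : G) := by
    obtain ⟨g, hg⟩ := isConj_iff.1 hcd
    have h4 : SemiconjBy g c (d : G) := by
      unfold SemiconjBy
      rw [← hg]; group
    exact h4.orderOf_eq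
  have hpos : 0 < orderOf c := by
    rw [hord, Subgroup.orderOf_coe]
    exact orderOf_pos d
  refine ⟨⟨?_, inferInstance⟩, ?_⟩
  · exact Nat.finite_of_card_ne_zero (by rw [Nat.card_zpowers]; exact hpos.ne')
  · rw [Nat.card_zpowers, hord, Subgroup.orderOf_coe]
    exact (orderOf_dvd_natCard d).trans D.2.2

private theorem linA_lf (D : Good G N) (d : D.1) (c : G) (hcd : IsConj c (d : G))
    (m : Pr (𝓞 L) N) (z : Subgroup.centralizer (D.1 : Set G)) :
    lf c (linA_hh Λ c m) ((xc c (d : G))⁻¹ * (z : G) * xc c (d : G)) = linA_h Λ D m d z := by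
  have hc := linA_good D d c hcd
  have hx := Pool.Agent.H71.DB.xc_spec c hcd
  have hsub : ∀ y ∈ (⟨Subgroup.zpowers c, hc⟩ : Good G N).1,
      xc c (d : G) * y * (xc c (d : G))⁻¹ ∈ D.1 := by
    intro y hy
    obtain ⟨k, rfl⟩ := Subgroup.mem_zpowers_iff.1 hy
    rw [← conj_zpow, hx]
    exact D.1.zpow_mem d.2 k
  have hmem : (xc c (d : G))⁻¹ * (z : G) * xc c (d : G) ∈ Subgroup.centralizer ({c} : Set G) := by
    rw [Pool.Agent.H71.DB.mem_cent_iff]
    have hz : (z : G) * d * (z : G)⁻¹ = d := by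
      have := Subgroup.mem_centralizer_iff.1 z.2 (d : G) d.2
      rw [← this, mul_inv_cancel_right]
    calc (xc c (d : G))⁻¹ * (z : G) * xc c (d : G) * c *
          ((xc c (d : G))⁻¹ * (z : G) * xc c (d : G))⁻¹
        = (xc c (d : G))⁻¹ * ((z : G) * (xc c (d : G) * c * (xc c (d : G))⁻¹) * (z : G)⁻¹) *
            xc c (d : G) := by group
      _ = (xc c (d : G))⁻¹ * (xc c (d : G) * c * (xc c (d : G))⁻¹) * xc c (d : G) := by
          rw [hx, hz]
      _ = c := by group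
  rw [lf, dif_pos hmem, linA_hh_pos Λ c hc]
  have h1 := linA_h_nat Λ ⟨Subgroup.zpowers c, hc⟩ D (xc c (d : G)) hsub m
    ⟨c, Subgroup.mem_zpowers c⟩ z
  have h2 : conjHom (xc c (d : G)) (⟨Subgroup.zpowers c, hc⟩ : Good G N).1 D.1 hsub
      ⟨c, Subgroup.mem_zpowers c⟩ = d := Subtype.ext hx
  rw [h2] at h1
  rw [← h1]
  rfl

end aux

open Classical in
theorem exists_hh {L : Type} [Field L] [NumberField L] (N : ℕ) [NeZero N]
    [HasEnoughRootsOfUnity (𝓞 L) N] {G : Type v} [Group G] (pr : Pr (𝓞 L) N → ℕ)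
    [Fintype (Pr (𝓞 L) N)] (Λ : Fun L N G pr) :
    ∃ hh : ∀ c : G, Pr (𝓞 L) N → (Subgroup.centralizer ({c} : Set G) →* Multiplicative L),
      (∀ c m (σ : L ≃ₐ[ℚ] L) y, Multiplicative.toAdd (hh c (permPr (gO σ) N m) y) =
        σ (Multiplicative.toAdd (hh c m y))) ∧
      (∀ c m, ¬ pr m ∣ orderOf c → ∀ y, hh c m y = 1) ∧
      (∀ c y, ∑ m, Multiplicative.toAdd (hh c m y) = 0) ∧
      ∀ (rp : G → G), (∀ d, IsConj (rp d) d) → ∀ (D : Good G N) [Fintype D.1]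
        [Fintype (D.1 →* (𝓞 L)ˣ)] (n : (D.1 →* (𝓞 L)ˣ) → Pr (𝓞 L) N → ℤ)
        (z : Subgroup.centralizer (D.1 : Set G)),
        (Λ.F D n z : L) = ∑ m, ∑ χ : D.1 →* (𝓞 L)ˣ, (n χ m : L) * ((Fintype.card D.1 : L)⁻¹ *
          ∑ d : D.1, algebraMap (𝓞 L) L (((χ d)⁻¹ : (𝓞 L)ˣ) : 𝓞 L) *
            lf (rp (d : G)) (hh (rp (d : G)) m) ((xc (rp (d : G)) (d : G))⁻¹ * (z : G) *
              xc (rp (d : G)) (d : G))) := by
  classical
  refine ⟨fun c m => linA_hh Λ c m, ?_, ?_, ?_, ?_⟩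
  · intro c m σ y
    by_cases hc : (Finite (Subgroup.zpowers c) ∧ IsCyclic (Subgroup.zpowers c)) ∧
        Nat.card (Subgroup.zpowers c) ∣ N
    · rw [linA_hh_pos Λ c hc, linA_hh_pos Λ c hc, linA_h_gal]
    · rw [linA_hh_neg Λ c hc, linA_hh_neg Λ c hc, toAdd_one, map_zero]
  · intro c m hm y
    by_cases hc : (Finite (Subgroup.zpowers c) ∧ IsCyclic (Subgroup.zpowers c)) ∧
        Nat.card (Subgroup.zpowers c) ∣ N
    · apply Multiplicative.toAdd.injective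
      rw [linA_hh_pos Λ c hc, linA_h_van, toAdd_one]
      rw [Nat.card_zpowers]
      exact hm
    · exact linA_hh_neg Λ c hc m y
  · intro c y
    by_cases hc : (Finite (Subgroup.zpowers c) ∧ IsCyclic (Subgroup.zpowers c)) ∧
        Nat.card (Subgroup.zpowers c) ∣ N
    · rw [Finset.sum_congr rfl fun m _ => linA_hh_pos Λ c hc m y]
      exact linA_h_sum Λ ⟨Subgroup.zpowers c, hc⟩ _ _
    · refine Finset.sum_eq_zero fun m _ => ?_
      rw [linA_hh_neg Λ c hc, toAdd_one]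
  · intro rp hrp D _ _ n z
    rw [linA_expand Λ D n z, Finset.sum_comm]
    refine Finset.sum_congr rfl fun m _ => Finset.sum_congr rfl fun χ _ => ?_
    rw [linA_h_inv Λ D m χ z]
    congr 2
    refine Finset.sum_congr rfl fun d _ => ?_
    rw [linA_lf Λ D d (rp (d : G)) (hrp (d : G)) m z]

end Pool.Agent.H8.KZ
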