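import Pool.Agent.H8.KZ.KeyT

/-!
# KZ, module RelX: the Dennis trace as a function of `lam`

`lf`, `xc`, `xc_mem`, `cocC` : `Pool/Agent/H71/DB/CocC.lean`; `cocL`, `cocQ` : `KeyT.lean`.

PROOF.  `cocL_L`: unfolding (`Coc.mapS`, `cocC`, `lf`, `apply_ite`).
`exists_wa`: `(cocL c hc lam L).Phi A B = ∑ i, ∑ k, phi (A i k) (B k i)`; each `phi a b` is the sum over the
supports of `b.coeff h * (a.coeff g * (cocL ..).L h (g h))` (`pairF`, `clsFun`; or by
`MonoidAlgebra.induction_linear` in `a` and `b` for the property (there are finitely many `w`, `a` with ...),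
which is stable under sums: `Fin k ⊕ Fin k'` or `J ⊕ J'`).  For `IsConj c (g h)` the value `L h (g h)` is
`lam` of the element of `xc_mem` (cast to `L`), otherwise it is zero (`w = 0`, `a = 1`).
For the sums over `i`, `k` use `Σ`-types (`Fintype.sum_sigma`) or induction.
-/

set_option autoImplicit false

open Matrix
open scoped Classical

universe u v w

namespace Pool.Agent.H8.KZ

open Pool.Agent.H71.DB (Coc cocC lf xc xc_mem)

variable {G : Type v} [Group G] (c : G) (hc : IsOfFinOrder c)

theorem cocL_L (lam : Subgroup.centralizer ({c} : Set G) →* Multiplicative ℚ) (L : Type u) [Field L]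
    [CharZero L] (f y : G) : (cocL c hc lam L).L f y =
      if IsConj c y then ((lf c lam ((xc c (f * y * f⁻¹))⁻¹ * f * xc c y) : ℚ) : L) else 0 := by
  change (Rat.castHom L) ((cocC c lam tf_rat hc).L f y) = _
  change (Rat.castHom L) (if IsConj c y then
    lf c lam ((xc c (f * y * f⁻¹))⁻¹ * f * xc c y) else 0) = _
  split_ifs with h
  · rfl
  · exact map_zero _

theorem cocL_comm (lam : Subgroup.centralizer ({c} : Set G) →* Multiplicative ℚ) (L : Type u)
    [Field L] [CharZero L] {f y : G} (h : f * y = y * f) : (cocL c hc lam L).L f y =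
      if IsConj c y then ((lf c lam ((xc c y)⁻¹ * f * xc c y) : ℚ) : L) else 0 := by
  rw [cocL_L, h, mul_inv_cancel_right]

theorem cocL_supp (lam : Subgroup.centralizer ({c} : Set G) →* Multiplicative ℚ) (L : Type u)
    [Field L] [CharZero L] (f y : G) (h : orderOf y = 0) : (cocL c hc lam L).L f y = 0 := by
  change (Rat.castHom L) ((cocC c lam tf_rat hc).L f y) = 0
  rw [Pool.Agent.H71.DB.cocC_supp c lam tf_rat hc f y h, map_zero]

private def relX_LC (L : Type) [Field L] [CharZero L]
    (F : (Subgroup.centralizer ({c} : Set G) →* Multiplicative ℚ) → L) : Prop :=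
  ∃ (k : ℕ) (w : Fin k → L) (a : Fin k → Subgroup.centralizer ({c} : Set G)),
    ∀ lam : Subgroup.centralizer ({c} : Set G) →* Multiplicative ℚ,
      F lam = ∑ j, w j * ((Multiplicative.toAdd (lam (a j)) : ℚ) : L)

private theorem relX_zero {L : Type} [Field L] [CharZero L] :
    relX_LC c L (fun _ => (0 : L)) :=
  ⟨0, fun j => j.elim0, fun j => j.elim0, fun _ => by simp⟩

private theorem relX_add {L : Type} [Field L] [CharZero L]
    {F F' : (Subgroup.centralizer ({c} : Set G) →* Multiplicative ℚ) → L}
    (h : relX_LC c L F) (h' : relX_LC c L F') : relX_LC c L (fun lam => F lam + F' lam) := by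
  obtain ⟨k, w, a, hk⟩ := h
  obtain ⟨k', w', a', hk'⟩ := h'
  refine ⟨k + k', Fin.append w w', Fin.append a a', fun lam => ?_⟩
  rw [Fin.sum_univ_add]
  simp only [Fin.append_left, Fin.append_right]
  rw [← hk lam, ← hk' lam]

private theorem relX_sum {L : Type} [Field L] [CharZero L] {ι : Type} (s : Finset ι)
    {F : ι → (Subgroup.centralizer ({c} : Set G) →* Multiplicative ℚ) → L}
    (h : ∀ i, relX_LC c L (F i)) : relX_LC c L (fun lam => ∑ i ∈ s, F i lam) := by
  induction s using Finset.induction_on with
  | empty =>
    simp only [Finset.sum_empty]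
    exact relX_zero c
  | insert i s hi ih =>
    simp only [Finset.sum_insert hi]
    exact relX_add c (h i) ih

private theorem relX_single {L : Type} [Field L] [CharZero L] (g h : G) (r s : L) :
    relX_LC c L (fun lam => (cocL c hc lam L).phi (MonoidAlgebra.single g r)
      (MonoidAlgebra.single h s)) := by
  by_cases hy : IsConj c (g * h)
  · refine ⟨1, fun _ => s * r,
      fun _ => ⟨(xc c (h * (g * h) * h⁻¹))⁻¹ * h * xc c (g * h), xc_mem c hy⟩, fun lam => ?_⟩
    change (cocL c hc lam L).phi (MonoidAlgebra.single g r) (MonoidAlgebra.single h s) = _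
    rw [(cocL c hc lam L).phi_single, cocL_L, if_pos hy, Fin.sum_univ_one, lf,
      dif_pos (xc_mem c hy)]
    exact (mul_assoc _ _ _).symm
  · have e : (fun lam : Subgroup.centralizer ({c} : Set G) →* Multiplicative ℚ =>
        (cocL c hc lam L).phi (MonoidAlgebra.single g r) (MonoidAlgebra.single h s)) =
        fun _ => (0 : L) := by
      funext lam
      rw [(cocL c hc lam L).phi_single, cocL_L, if_neg hy, mul_zero, mul_zero]
    rw [e]
    exact relX_zero c

private theorem relX_phi {L : Type} [Field L] [CharZero L] (x y : MonoidAlgebra L G) :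
    relX_LC c L (fun lam => (cocL c hc lam L).phi x y) := by
  induction x using MonoidAlgebra.induction_linear with
  | zero =>
    simp only [map_zero, AddMonoidHom.zero_apply]
    exact relX_zero c
  | add x x' hx hx' =>
    simp only [map_add, AddMonoidHom.add_apply]
    exact relX_add c hx hx'
  | single g r =>
    induction y using MonoidAlgebra.induction_linear with
    | zero =>
      simp only [map_zero]
      exact relX_zero c
    | add y y' hy hy' =>
      simp only [map_add]
      exact relX_add c hy hy'
    | single h s => exact relX_single c hc g h r s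

theorem exists_wa {L : Type} [Field L] [CharZero L] {m n : Type} [Fintype m] [Fintype n]
    (A : Matrix m n (MonoidAlgebra L G)) (B : Matrix n m (MonoidAlgebra L G)) :
    ∃ (k : ℕ) (w : Fin k → L) (a : Fin k → Subgroup.centralizer ({c} : Set G)),
      ∀ lam : Subgroup.centralizer ({c} : Set G) →* Multiplicative ℚ,
        (cocL c hc lam L).Phi A B = ∑ j, w j * ((Multiplicative.toAdd (lam (a j)) : ℚ) : L) := by
  have h : relX_LC c L (fun lam => ∑ i : m, ∑ k : n,
      (cocL c hc lam L).phi (A i k) (B k i)) :=
    relX_sum c Finset.univ fun i => relX_sum c Finset.univ fun k => relX_phi c hc (A i k) (B k i)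
  exact h

end Pool.Agent.H8.KZ
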