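import Pool.Agent.H8.KZ.LinA
import Pool.Agent.H8.KZ.RelX

/-!
# KZ, module LinB: the functionals vanish on the relations

`exists_hh` : `LinA.lean`; `class_zero` : `LinS.lean`; `cocL_comm` : `RelX.lean`.  Model for the grouping by
conjugacy classes: `linalg` in `Pool/Agent/H95/KM/LinAlg.lean`.

PROOF.  Let `hh` be as in `exists_hh`, `rp d` the representative of the conjugacy class of `d`.  Let
`S = ∑ i, Λ.F (C i) (n i) (z i)`; expand `(S : L)` and group the `d ∈ C i` by the conjugacy classes (finitely many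
classes `γ` occur, all of elements of finite order): `S = ∑_γ S_γ`,
`S_γ = ∑ m, ∑ i, ∑ χ, ∑ d ∈ C i, d ∈ γ, n i χ m * |C i|⁻¹ * fL ((χ d)⁻¹) * hh c m ((xc c d)⁻¹ z_i xc c d)`, `c = rp γ`
(`lf c (hh c m) g` is the value of `hh c m` at `g ∈ centralizer {c}`; `(xc c d)⁻¹ z_i xc c d` is in the centralizer
of `c` as `z_i` commutes with `d = xc c d * c * (xc c d)⁻¹`).
For each `γ` apply `class_zero` to `Γ = (L ≃ₐ[ℚ] L)` (finite group, `g * g' = g ∘ g'`), `Z = centralizer {c}`,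
`K = Σ i, ((C i →* Oˣ) × C i)`, `u (i, χ, d) m = if IsConj c d then n i χ m * (|C i|⁻¹ * fL ((χ d)⁻¹)) else 0`,
`b (i, χ, d) = (xc c d)⁻¹ z_i xc c d` (or `1` if `d` is not conjugate to `c`), `w`, `a` from `hrel c _`.
Hypothesis `hrel` of `class_zero` for `m`: if `pr m ∤ orderOf c` then `hh c m = 1`.  Otherwise `hrel`; the left
hand side is the same by `cocL_comm`; `σ t` fixes the values of `hh c m` as
`hh c (permPr (gO (σ t)) N m) = σ t ∘ hh c m` and `permPr (gO (σ t)) N m = m`.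
So `∑ g, g S_γ = 0`; `S` is rational, so `|Γ| * S = ∑ g, g S = ∑_γ ∑ g, g S_γ = 0` and `S = 0`.
-/

set_option autoImplicit false

open NumberField

universe u v w

namespace Pool.Agent.H8.KZ

open Pool.Agent.H95.KM
open Pool.Agent.H71.DB (lf xc)

section linBaux

open Classical in
private noncomputable def linBb {G : Type v} [Group G] (c g : G) :
    Subgroup.centralizer ({c} : Set G) :=
  if h : g ∈ Subgroup.centralizer ({c} : Set G) then ⟨g, h⟩ else 1

private theorem linB_lf {G : Type v} [Group G] (c : G) {Λ : Type u} [CommRing Λ]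
    (lam : Subgroup.centralizer ({c} : Set G) →* Multiplicative Λ) (g : G) :
    Multiplicative.toAdd (lam (linBb c g)) = lf c lam g := by
  classical
  unfold linBb lf
  by_cases h : g ∈ Subgroup.centralizer ({c} : Set G)
  · rw [dif_pos h, dif_pos h]
  · rw [dif_neg h, dif_neg h, map_one]
    rfl

/-- the coefficient of the element `d` of `C i` -/
private noncomputable def linBu {L : Type} [Field L] [NumberField L] {N : ℕ} [NeZero N]
    {G : Type v} [Group G] {ι : Type} (C : ι → Good G N) [∀ i, Fintype (C i).1]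
    (n : ∀ i, ((C i).1 →* (𝓞 L)ˣ) → Pr (𝓞 L) N → ℤ) (c : G)
    (k : Σ i, ((C i).1 →* (𝓞 L)ˣ) × (C i).1) (m : Pr (𝓞 L) N) : L :=
  open Classical in
  if IsConj c (k.2.2 : G) then (n k.1 k.2.1 m : L) * ((Fintype.card (C k.1).1 : L)⁻¹ *
    algebraMap (𝓞 L) L (((k.2.1 k.2.2)⁻¹ : (𝓞 L)ˣ) : 𝓞 L)) else 0

/-- the element `x⁻¹ z x` for the element `d` of `C i` -/
private noncomputable def linBx {L : Type} [Field L] [NumberField L] {N : ℕ} [NeZero N]
    {G : Type v} [Group G] {ι : Type} (C : ι → Good G N)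
    (z : ∀ i, Subgroup.centralizer ((C i).1 : Set G)) (c : G)
    (k : Σ i, ((C i).1 →* (𝓞 L)ˣ) × (C i).1) : G :=
  (xc c (k.2.2 : G))⁻¹ * (z k.1 : G) * xc c (k.2.2 : G)

private theorem linB_class {L : Type} [Field L] [NumberField L] (N : ℕ) [NeZero N]
    {G : Type v} [Group G] (pr : Pr (𝓞 L) N → ℕ)
    [Fintype (Pr (𝓞 L) N)] {ι : Type} [Fintype ι] (C : ι → Good G N)
    [∀ i, Fintype (C i).1] [∀ i, Fintype ((C i).1 →* (𝓞 L)ˣ)] [Fintype (L ≃ₐ[ℚ] L)]
    (n : ∀ i, ((C i).1 →* (𝓞 L)ˣ) → Pr (𝓞 L) N → ℤ)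
    (z : ∀ i, Subgroup.centralizer ((C i).1 : Set G)) (c : G) (hc : IsOfFinOrder c)
    (hh : Pr (𝓞 L) N → (Subgroup.centralizer ({c} : Set G) →* Multiplicative L))
    (hgal : ∀ m (σ : L ≃ₐ[ℚ] L) y, permPr (gO σ) N m = m →
      σ (Multiplicative.toAdd (hh m y)) = Multiplicative.toAdd (hh m y))
    (hvan : ∀ m, ¬ pr m ∣ orderOf c → ∀ y, hh m y = 1)
    (hsum : ∀ y, ∑ m, Multiplicative.toAdd (hh m y) = 0)
    (hrel : ∃ (k : ℕ) (w : Fin k → L)
      (a : Fin k → Subgroup.centralizer ({c} : Set G)), ∀ m : Pr (𝓞 L) N, pr m ∣ orderOf c →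
        ∃ (p : ℕ) (T : Type) (_ : Fintype T) (_ : Nonempty T) (σ : T → (L ≃ₐ[ℚ] L)),
          PSep p (Subgroup.centralizer ({c} : Set G)) ∧ (∀ t, permPr (gO (σ t)) N m = m) ∧
          ∀ lam : Subgroup.centralizer ({c} : Set G) →* Multiplicative ℚ,
            (∀ y, ¬ p ∣ (Multiplicative.toAdd (lam y)).den) →
            ∑ t, σ t (∑ i, ∑ χ : (C i).1 →* (𝓞 L)ˣ, (n i χ m : L) *
              ((Fintype.card (C i).1 : L)⁻¹ * ∑ d : (C i).1,
                algebraMap (𝓞 L) L (((χ d)⁻¹ : (𝓞 L)ˣ) : 𝓞 L) *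
                  (cocL c hc lam L).L (z i : G) (d : G))) =
            ∑ t, σ t (∑ s, w s * ((Multiplicative.toAdd (lam (a s)) : ℚ) : L))) :
    ∑ g : L ≃ₐ[ℚ] L, g (∑ m, ∑ k : (Σ i, ((C i).1 →* (𝓞 L)ˣ) × (C i).1),
      linBu C n c k m * lf c (hh m) (linBx C z c k)) = 0 := by
  classical
  obtain ⟨k, w, a, hrel⟩ := hrel
  have h1 := class_zero (Z := Subgroup.centralizer ({c} : Set G)) (L := L) (Γ := L ≃ₐ[ℚ] L)
    (fun g => (g : L ≃ₐ[ℚ] L).toRingEquiv.toRingHom) (fun g g' x => rfl) hh hsum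
    (K := Σ i, ((C i).1 →* (𝓞 L)ˣ) × (C i).1) (linBu C n c)
    (fun k => linBb c (linBx C z c k)) w a ?_
  · simp only [linB_lf] at h1
    exact h1
  · intro m
    by_cases hm : pr m ∣ orderOf c
    · right
      obtain ⟨p, T, iT, nT, σ, hp, hσ, hl⟩ := hrel m hm
      refine ⟨p, T, iT, nT, σ, hp, fun t y => hgal m (σ t) y (hσ t), ?_⟩
      intro lam hlam
      have h2 := hl lam hlam
      have h3 : (∑ k : (Σ i, ((C i).1 →* (𝓞 L)ˣ) × (C i).1),
          linBu C n c k m * ((Multiplicative.toAdd (lam (linBb c (linBx C z c k))) : ℚ) : L)) =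
          ∑ i, ∑ χ : (C i).1 →* (𝓞 L)ˣ, (n i χ m : L) *
              ((Fintype.card (C i).1 : L)⁻¹ * ∑ d : (C i).1,
                algebraMap (𝓞 L) L (((χ d)⁻¹ : (𝓞 L)ˣ) : 𝓞 L) *
                  (cocL c hc lam L).L (z i : G) (d : G)) := by
        rw [Fintype.sum_sigma]
        refine Finset.sum_congr rfl fun i _ => ?_
        rw [Fintype.sum_prod_type]
        refine Finset.sum_congr rfl fun χ _ => ?_
        rw [Finset.mul_sum, Finset.mul_sum]
        refine Finset.sum_congr rfl fun d _ => ?_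
        have hcomm : (z i : G) * (d : G) = (d : G) * (z i : G) :=
          ((Subgroup.mem_centralizer_iff.1 (z i).2) (d : G) d.2).symm
        rw [cocL_comm c hc lam L hcomm, linB_lf]
        unfold linBu linBx
        by_cases hcd : IsConj c (d : G)
        · rw [if_pos hcd, if_pos hcd]
          ring
        · rw [if_neg hcd, if_neg hcd]
          ring
      rw [← h3] at h2
      exact h2
    · left
      exact hvan m hm

end linBaux

open Classical in
theorem linalgZ {L : Type} [Field L] [NumberField L] (N : ℕ) [NeZero N]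
    [HasEnoughRootsOfUnity (𝓞 L) N] {G : Type v} [Group G] (pr : Pr (𝓞 L) N → ℕ)
    [Fintype (Pr (𝓞 L) N)] (Λ : Fun L N G pr) {ι : Type} [Fintype ι] (C : ι → Good G N)
    [∀ i, Fintype (C i).1] [∀ i, Fintype ((C i).1 →* (𝓞 L)ˣ)]
    (n : ∀ i, ((C i).1 →* (𝓞 L)ˣ) → Pr (𝓞 L) N → ℤ)
    (z : ∀ i, Subgroup.centralizer ((C i).1 : Set G))
    (hrel : ∀ (c : G) (hc : IsOfFinOrder c), ∃ (k : ℕ) (w : Fin k → L)
      (a : Fin k → Subgroup.centralizer ({c} : Set G)), ∀ m : Pr (𝓞 L) N, pr m ∣ orderOf c →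
        ∃ (p : ℕ) (T : Type) (_ : Fintype T) (_ : Nonempty T) (σ : T → (L ≃ₐ[ℚ] L)),
          PSep p (Subgroup.centralizer ({c} : Set G)) ∧ (∀ t, permPr (gO (σ t)) N m = m) ∧
          ∀ lam : Subgroup.centralizer ({c} : Set G) →* Multiplicative ℚ,
            (∀ y, ¬ p ∣ (Multiplicative.toAdd (lam y)).den) →
            ∑ t, σ t (∑ i, ∑ χ : (C i).1 →* (𝓞 L)ˣ, (n i χ m : L) *
              ((Fintype.card (C i).1 : L)⁻¹ * ∑ d : (C i).1,
                algebraMap (𝓞 L) L (((χ d)⁻¹ : (𝓞 L)ˣ) : 𝓞 L) *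
                  (cocL c hc lam L).L (z i : G) (d : G))) =
            ∑ t, σ t (∑ s, w s * ((Multiplicative.toAdd (lam (a s)) : ℚ) : L))) :
    ∑ i, Λ.F (C i) (n i) (z i) = 0 := by
  classical
  let _ : Fintype (L ≃ₐ[ℚ] L) := Fintype.ofFinite _
  obtain ⟨hh, hgal, hvan, hsum, hexp⟩ := exists_hh N pr Λ
  -- the finite set of classes
  obtain ⟨Q, hQ⟩ : ∃ Q : Finset (ConjClasses G), Q = Finset.univ.biUnion fun i =>
      Finset.univ.image fun d : (C i).1 => ConjClasses.mk (d : G) := ⟨_, rfl⟩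
  have hmemQ : ∀ (i : ι) (d : (C i).1), ConjClasses.mk (d : G) ∈ Q := by
    intro i d
    rw [hQ, Finset.mem_biUnion]
    exact ⟨i, Finset.mem_univ i, Finset.mem_image_of_mem _ (Finset.mem_univ d)⟩
  have hrep : ∀ γ : ConjClasses G, ∃ c : G, ConjClasses.mk c = γ := fun γ => γ.exists_rep
  choose rp hrp using hrep
  have hconj : ∀ (γ : ConjClasses G) (x : G), IsConj (rp γ) x ↔ γ = ConjClasses.mk x := by
    intro γ x
    rw [← ConjClasses.mk_eq_mk_iff_isConj, hrp]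
  have hmain : ((∑ i, Λ.F (C i) (n i) (z i) : ℚ) : L) = ∑ γ ∈ Q,
      ∑ m, ∑ k : (Σ i, ((C i).1 →* (𝓞 L)ˣ) × (C i).1),
        linBu C n (rp γ) k m * lf (rp γ) (hh (rp γ) m) (linBx C z (rp γ) k) := by
    rw [Rat.cast_sum, Finset.sum_comm]
    have h1 : ∀ i, (Λ.F (C i) (n i) (z i) : L) = ∑ m, ∑ χ : (C i).1 →* (𝓞 L)ˣ, ∑ d : (C i).1,
        ∑ γ ∈ Q, linBu C n (rp γ) ⟨i, χ, d⟩ m *
          lf (rp γ) (hh (rp γ) m) (linBx C z (rp γ) ⟨i, χ, d⟩) := by
      intro i
      rw [hexp (fun d => rp (ConjClasses.mk d)) (fun d => (hconj _ _).2 rfl) (C i) (n i) (z i)]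
      refine Finset.sum_congr rfl fun m _ => Finset.sum_congr rfl fun χ _ => ?_
      rw [Finset.mul_sum, Finset.mul_sum]
      refine Finset.sum_congr rfl fun d _ => ?_
      rw [Finset.sum_eq_single (ConjClasses.mk (d : G))]
      · unfold linBu linBx
        have h3 : IsConj (rp (ConjClasses.mk (d : G))) (d : G) := (hconj _ _).2 rfl
        rw [if_pos h3]
        ring
      · intro γ _ hγ
        unfold linBu
        rw [if_neg (fun h3 => hγ ((hconj _ _).1 h3)), zero_mul]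
      · intro h3
        exact absurd (hmemQ i d) h3
    rw [Finset.sum_congr rfl fun i _ => h1 i, Finset.sum_comm]
    refine Finset.sum_congr rfl fun m _ => ?_
    rw [Finset.sum_comm (s := Q), Fintype.sum_sigma]
    refine Finset.sum_congr rfl fun i _ => ?_
    rw [Fintype.sum_prod_type]
  -- the sum over the Galois group
  have hz : ∑ g : L ≃ₐ[ℚ] L, g ((∑ i, Λ.F (C i) (n i) (z i) : ℚ) : L) = 0 := by
    rw [hmain]
    simp only [map_sum (_ : L ≃ₐ[ℚ] L) _ Q]
    rw [Finset.sum_comm]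
    refine Finset.sum_eq_zero fun γ hγ => ?_
    rw [hQ, Finset.mem_biUnion] at hγ
    obtain ⟨i₀, -, hγ⟩ := hγ
    obtain ⟨d₀, -, hd₀⟩ := Finset.mem_image.1 hγ
    have hcd : IsConj (rp γ) (d₀ : G) := (hconj _ _).2 hd₀.symm
    have hord : orderOf (rp γ) = orderOf (d₀ : G) := by
      obtain ⟨g, hg⟩ := isConj_iff.1 hcd
      have h4 : SemiconjBy g (rp γ) (d₀ : G) := by
        unfold SemiconjBy
        rw [← hg]; group
      exact h4.orderOf_eq
    have hpos : 0 < orderOf (rp γ) := by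
      rw [hord, Subgroup.orderOf_coe]
      exact orderOf_pos d₀
    have hfin : IsOfFinOrder (rp γ) := orderOf_pos_iff.1 hpos
    have h5 := linB_class N pr C n z (rp γ) hfin (hh (rp γ)) ?_ (hvan (rp γ)) (hsum (rp γ))
      (hrel (rp γ) hfin)
    · exact h5
    · intro m σ y hm
      rw [← hgal (rp γ) m σ y, hm]
  have h6 : (Fintype.card (L ≃ₐ[ℚ] L) : L) * ((∑ i, Λ.F (C i) (n i) (z i) : ℚ) : L) = 0 := by
    rw [← hz, ← nsmul_eq_mul, ← Finset.card_univ, ← Finset.sum_const]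
    refine Finset.sum_congr rfl fun g _ => ?_
    rw [map_ratCast]
  have h7 : (Fintype.card (L ≃ₐ[ℚ] L) : L) ≠ 0 := by
    have : Fintype.card (L ≃ₐ[ℚ] L) ≠ 0 := Fintype.card_ne_zero
    exact_mod_cast this
  have h8 := (mul_eq_zero.1 h6).resolve_left h7
  exact_mod_cast h8

end Pool.Agent.H8.KZ
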