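import Pool.Agent.H8.KZ.KeyT
import Pool.Agent.H8.KZ.Defs

/-!
# KZ, module LinS: `p`-integral homomorphisms determine all homomorphisms

`PSep` : `Defs.lean`.

PROOF of `sep_hom`.  Let `b` be a `ℚ`-basis of `L` (`Module.Free.chooseBasis`, `Module.Basis.ofVectorSpace`),
`w k = ∑ β, q k β • b β` (a finite sum).  The hypothesis and the linear independence of `b` give
`∑ k, q k β * lam (a k) = 0` for all `β` and all `p`-integral `lam`.  Fix `β` and a common denominator:
`M * q k β = m k ∈ ℤ`, `M ≠ 0`.  Let `x = ∏ k, (a k) ^ (m k)` (a product over a list enumerating `K`, in any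
order).  Then `lam x = ∑ k, m k * lam (a k) = 0` for every `p`-integral `lam`, so by `PSep` some `x ^ r`,
`r ≠ 0`, is in the commutator subgroup, hence killed by `h` (values in a commutative group), so
`r * ∑ k, m k * h (a k) = 0` in `L`, a field of characteristic zero.  So `∑ k, q k β * h (a k) = 0` for all `β`,
and `∑ k, w k * h (a k) = ∑ β, b β * ∑ k, q k β * h (a k) = 0`.
PROOF of `class_zero`.  For each `m`, `B m := ∑ g, aL g (∑ k, u k m * hh m (b k))` is equal to
`∑ g, aL g (∑ j, w j * hh m (a j))`: in the first case both are zero.  In the second case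
`∑ g, aL g y = ∑ g, aL g (aL (σ t) y)` (`g ↦ g * σ t` is a bijection), so
`|T| • B m = ∑ g, aL g (∑ t, aL (σ t) (∑ k, u k m * hh m (b k)))
 = ∑ g, aL g (∑ k, (∑ t, aL (σ t) (u k m)) * hh m (b k))` and likewise for the other side; `sep_hom` for the
family indexed by `K ⊕ J` with coefficients `∑ t, aL (σ t) (u k m)` and `- ∑ t, aL (σ t) (w j)` (the hypothesis for
rational `lam`: ring homomorphisms fix rational numbers).  `T` is nonempty, `L` has characteristic zero.
Finally `∑ m` and `∑ m, hh m (a j) = 0`.
-/

set_option autoImplicit false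

universe u v w

namespace Pool.Agent.H8.KZ

private theorem linS_list {Z : Type v} [Group Z] {A : Type*} [AddCommGroup A]
    (f : Z →* Multiplicative A) {K : Type*} (l : List K) (g : K → Z) :
    Multiplicative.toAdd (f ((l.map g).prod)) =
      (l.map (fun k => Multiplicative.toAdd (f (g k)))).sum := by
  induction l with
  | nil => simp
  | cons k l ih => simp [map_mul, ih]

private theorem linS_prod {Z : Type v} [Group Z] {A : Type*} [AddCommGroup A]
    (f : Z →* Multiplicative A) {K : Type*} [Fintype K] (a : K → Z) (m : K → ℤ) :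
    Multiplicative.toAdd (f (((Finset.univ : Finset K).toList.map (fun k => a k ^ m k)).prod)) =
      ∑ k, m k • Multiplicative.toAdd (f (a k)) := by
  rw [linS_list, Finset.sum_map_toList]
  refine Finset.sum_congr rfl fun k _ => ?_
  rw [map_zpow, toAdd_zpow]

private theorem linS_rat {p : ℕ} {Z : Type v} [Group Z] (hZ : PSep p Z) {L : Type} [Field L]
    [CharZero L] {K : Type*} [Fintype K] (q : K → ℚ) (a : K → Z)
    (h0 : ∀ lam : Z →* Multiplicative ℚ, (∀ y, ¬ p ∣ (Multiplicative.toAdd (lam y)).den) →
      ∑ k, q k * Multiplicative.toAdd (lam (a k)) = 0) (h : Z →* Multiplicative L) :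
    ∑ k, (q k : L) * Multiplicative.toAdd (h (a k)) = 0 := by
  classical
  set M : ℕ := ∏ k, (q k).den with hM
  have hM0 : M ≠ 0 := Finset.prod_ne_zero_iff.2 fun k _ => (q k).den_nz
  have hdiv : ∀ k, (q k).den ∣ M := fun k => Finset.dvd_prod_of_mem _ (Finset.mem_univ k)
  have hm : ∀ k, ∃ m : ℤ, (m : ℚ) = M * q k := by
    intro k
    obtain ⟨c, hc⟩ := hdiv k
    refine ⟨c * (q k).num, ?_⟩
    have h1 : ((q k).den : ℚ) * q k = (q k).num := by
      rw [mul_comm]
      exact Rat.mul_den_eq_num (q k)
    rw [hc]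
    push_cast
    rw [← h1]
    ring
  choose m hm using hm
  set x : Z := ((Finset.univ : Finset K).toList.map (fun k => a k ^ m k)).prod with hx
  have hker : ∀ f : Z →* Multiplicative ℚ, (∀ y, ¬ p ∣ (Multiplicative.toAdd (f y)).den) →
      f x = 1 := by
    intro f hf
    have h1 : Multiplicative.toAdd (f x) = 0 := by
      rw [hx, linS_prod]
      have h2 : ∀ k, m k • Multiplicative.toAdd (f (a k)) =
          (M : ℚ) * (q k * Multiplicative.toAdd (f (a k))) := by
        intro k
        rw [zsmul_eq_mul, hm k]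
        ring
      rw [Finset.sum_congr rfl fun k _ => h2 k, ← Finset.mul_sum, h0 f hf, mul_zero]
    exact h1
  obtain ⟨r, hr, hxr⟩ := hZ x hker
  have h3 : h (x ^ r) = 1 := Abelianization.commutator_subset_ker h hxr
  have h4 : r • Multiplicative.toAdd (h x) = 0 := by
    rw [← toAdd_pow, ← map_pow, h3]
    rfl
  have h5 : Multiplicative.toAdd (h x) = 0 := by
    rw [nsmul_eq_mul] at h4
    rcases mul_eq_zero.1 h4 with h | h
    · exact absurd (Nat.cast_eq_zero.1 h) hr
    · exact h
  rw [hx, linS_prod] at h5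
  have h6 : ∀ k, m k • Multiplicative.toAdd (h (a k)) =
      (M : L) * ((q k : L) * Multiplicative.toAdd (h (a k))) := by
    intro k
    have h7 : ((m k : ℚ) : L) = ((M * q k : ℚ) : L) := by rw [hm k]
    push_cast at h7
    rw [zsmul_eq_mul, h7]
    ring
  rw [Finset.sum_congr rfl fun k _ => h6 k, ← Finset.mul_sum] at h5
  rcases mul_eq_zero.1 h5 with h | h
  · exact absurd (Nat.cast_eq_zero.1 h) hM0
  · exact h

theorem sep_hom {p : ℕ} {Z : Type v} [Group Z] (hZ : PSep p Z) {L : Type} [Field L] [CharZero L]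
    {K : Type*} [Fintype K] (w : K → L) (a : K → Z)
    (h0 : ∀ lam : Z →* Multiplicative ℚ, (∀ y, ¬ p ∣ (Multiplicative.toAdd (lam y)).den) →
      ∑ k, w k * ((Multiplicative.toAdd (lam (a k)) : ℚ) : L) = 0) (h : Z →* Multiplicative L) :
    ∑ k, w k * Multiplicative.toAdd (h (a k)) = 0 := by
  classical
  let b := Module.Basis.ofVectorSpace ℚ L
  have hq : ∀ β, ∑ k, ((b.repr (w k) β : ℚ) : L) * Multiplicative.toAdd (h (a k)) = 0 := by
    intro β
    refine linS_rat hZ (fun k => b.repr (w k) β) a (fun lam hlam => ?_) h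
    have h1 := congrArg (fun z => b.repr z β) (h0 lam hlam)
    simp only [map_zero, Finsupp.coe_zero, Pi.zero_apply] at h1
    rw [← h1, map_sum, Finsupp.finsetSum_apply]
    refine Finset.sum_congr rfl fun k _ => ?_
    have h2 : w k * ((Multiplicative.toAdd (lam (a k)) : ℚ) : L) =
        (Multiplicative.toAdd (lam (a k)) : ℚ) • w k := by
      rw [Algebra.smul_def, mul_comm]
      rfl
    rw [h2, map_smul, Finsupp.smul_apply, smul_eq_mul, mul_comm]
  set s : Finset (Module.Basis.ofVectorSpaceIndex ℚ L) :=
    Finset.univ.biUnion (fun k : K => (b.repr (w k)).support) with hs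
  have hw : ∀ k, w k = ∑ β ∈ s, ((b.repr (w k) β : ℚ) : L) * b β := by
    intro k
    conv_lhs => rw [← b.linearCombination_repr (w k), Finsupp.linearCombination_apply]
    rw [Finsupp.sum_of_support_subset (s := s)]
    · refine Finset.sum_congr rfl fun β _ => ?_
      rw [Algebra.smul_def]
      rfl
    · exact Finset.subset_biUnion_of_mem (fun k : K => (b.repr (w k)).support)
        (Finset.mem_univ k)
    · intro β _
      exact zero_smul _ _
  calc ∑ k, w k * Multiplicative.toAdd (h (a k))
      = ∑ k, ∑ β ∈ s, b β * (((b.repr (w k) β : ℚ) : L) * Multiplicative.toAdd (h (a k))) := by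
        refine Finset.sum_congr rfl fun k _ => ?_
        conv_lhs => rw [hw k]
        rw [Finset.sum_mul]
        refine Finset.sum_congr rfl fun β _ => ?_
        ring
    _ = ∑ β ∈ s, b β * ∑ k, (((b.repr (w k) β : ℚ) : L) * Multiplicative.toAdd (h (a k))) := by
        rw [Finset.sum_comm]
        refine Finset.sum_congr rfl fun β _ => ?_
        rw [Finset.mul_sum]
    _ = 0 := by
        refine Finset.sum_eq_zero fun β _ => ?_
        rw [hq β, mul_zero]

theorem class_zero {Z : Type v} [Group Z] {L : Type} [Field L] [CharZero L] {Γ : Type} [Group Γ]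
    [Fintype Γ] (aL : Γ → L →+* L) (hmul : ∀ g g' x, aL (g * g') x = aL g (aL g' x))
    {P : Type} [Fintype P] (hh : P → (Z →* Multiplicative L))
    (hsum : ∀ y, ∑ m, Multiplicative.toAdd (hh m y) = 0) {K J : Type*} [Fintype K] [Fintype J]
    (u : K → P → L) (b : K → Z) (w : J → L) (a : J → Z)
    (hrel : ∀ m : P, (∀ y, hh m y = 1) ∨ ∃ (p : ℕ) (T : Type) (_ : Fintype T) (_ : Nonempty T)
      (σ : T → Γ), PSep p Z ∧ (∀ t y, aL (σ t) (Multiplicative.toAdd (hh m y)) =
        Multiplicative.toAdd (hh m y)) ∧
        ∀ lam : Z →* Multiplicative ℚ, (∀ y, ¬ p ∣ (Multiplicative.toAdd (lam y)).den) →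
          ∑ t, aL (σ t) (∑ k, u k m * ((Multiplicative.toAdd (lam (b k)) : ℚ) : L)) =
          ∑ t, aL (σ t) (∑ j, w j * ((Multiplicative.toAdd (lam (a j)) : ℚ) : L))) :
    ∑ g, aL g (∑ m, ∑ k, u k m * Multiplicative.toAdd (hh m (b k))) = 0 := by
  classical
  have hkey : ∀ m : P, ∑ g, aL g (∑ k, u k m * Multiplicative.toAdd (hh m (b k))) =
      ∑ g, aL g (∑ j, w j * Multiplicative.toAdd (hh m (a j))) := by
    intro m
    rcases hrel m with h1 | ⟨p, T, hT, hTn, σ, hp, hfix, hlam⟩
    · refine Finset.sum_congr rfl fun g _ => ?_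
      have h2 : ∀ y, Multiplicative.toAdd (hh m y) = 0 := fun y => by rw [h1 y]; rfl
      simp [h2]
    · have hshift : ∀ X : L, (Fintype.card T : L) * ∑ g, aL g X =
          ∑ g, aL g (∑ t, aL (σ t) X) := by
        intro X
        have h3 : ∀ t : T, ∑ g, aL g X = ∑ g, aL g (aL (σ t) X) := by
          intro t
          rw [← Equiv.sum_comp (Equiv.mulRight (σ t)) (fun g => aL g X)]
          refine Finset.sum_congr rfl fun g _ => ?_
          exact hmul g (σ t) X
        calc (Fintype.card T : L) * ∑ g, aL g X = ∑ t : T, ∑ g, aL g X := by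
              rw [Finset.sum_const, Finset.card_univ, nsmul_eq_mul]
          _ = ∑ t : T, ∑ g, aL g (aL (σ t) X) := Finset.sum_congr rfl fun t _ => h3 t
          _ = ∑ g, aL g (∑ t, aL (σ t) X) := by
              rw [Finset.sum_comm]
              refine Finset.sum_congr rfl fun g _ => ?_
              rw [map_sum]
      have hsep := sep_hom hp (Sum.elim (fun k => ∑ t, aL (σ t) (u k m))
        (fun j => - ∑ t, aL (σ t) (w j))) (Sum.elim b a) (fun lam hl => by
          have h4 := hlam lam hl
          rw [Fintype.sum_sum_type]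
          simp only [Sum.elim_inl, Sum.elim_inr]
          have h5 : ∀ (Q : Type _) [Fintype Q] (c : Q → L) (z : Q → Z),
              ∑ t, aL (σ t) (∑ k, c k * ((Multiplicative.toAdd (lam (z k)) : ℚ) : L)) =
              ∑ k, (∑ t, aL (σ t) (c k)) * ((Multiplicative.toAdd (lam (z k)) : ℚ) : L) := by
            intro Q _ c z
            simp only [map_sum, map_mul, map_ratCast]
            rw [Finset.sum_comm]
            refine Finset.sum_congr rfl fun k _ => ?_
            rw [Finset.sum_mul]
          have h6 : ∀ (Q : Type _) [Fintype Q] (c : Q → L) (z : Q → Z),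
              ∑ t, aL (σ t) (∑ k, c k * ((Multiplicative.toAdd (lam (z k)) : ℚ) : L)) =
              ∑ k, (∑ t, aL (σ t) (c k)) * ((Multiplicative.toAdd (lam (z k)) : ℚ) : L) := by
            intro Q _ c z
            simp only [map_sum, map_mul, map_ratCast]
            rw [Finset.sum_comm]
            refine Finset.sum_congr rfl fun k _ => ?_
            rw [Finset.sum_mul]
          rw [h5 K (fun k => u k m) b, h6 J w a] at h4
          rw [h4]
          simp only [neg_mul, Finset.sum_neg_distrib]
          exact add_neg_cancel _) (hh m)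
      have hXY : ∑ t, aL (σ t) (∑ k, u k m * Multiplicative.toAdd (hh m (b k))) =
          ∑ t, aL (σ t) (∑ j, w j * Multiplicative.toAdd (hh m (a j))) := by
        rw [Fintype.sum_sum_type] at hsep
        simp only [Sum.elim_inl, Sum.elim_inr, neg_mul, Finset.sum_neg_distrib] at hsep
        have h7 := add_neg_eq_zero.1 hsep
        simp only [map_sum, map_mul, hfix]
        refine (Finset.sum_comm).trans (Eq.trans ?_ Finset.sum_comm)
        simp only [← Finset.sum_mul]
        exact h7
      have hc : (Fintype.card T : L) ≠ 0 := Nat.cast_ne_zero.2 Fintype.card_ne_zero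
      apply mul_left_cancel₀ hc
      rw [hshift, hshift, hXY]
  have h8 : ∑ g, aL g (∑ m, ∑ k, u k m * Multiplicative.toAdd (hh m (b k))) =
      ∑ m, ∑ g, aL g (∑ k, u k m * Multiplicative.toAdd (hh m (b k))) := by
    simp only [map_sum]
    exact Finset.sum_comm
  have h9 : ∑ m, ∑ g, aL g (∑ j, w j * Multiplicative.toAdd (hh m (a j))) =
      ∑ g, aL g (∑ j, w j * ∑ m, Multiplicative.toAdd (hh m (a j))) := by
    simp only [Finset.mul_sum, map_sum]
    refine (Finset.sum_comm).trans (Finset.sum_congr rfl fun g _ => ?_)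
    exact Finset.sum_comm
  rw [h8, Finset.sum_congr rfl fun m _ => hkey m, h9]
  simp only [hsum, mul_zero, Finset.sum_const_zero, map_zero]

end Pool.Agent.H8.KZ
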