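import Pool.Agent.H8.KZ.LocP
import Pool.Agent.H8.KZ.LinS
import Pool.Agent.H95.KM.LinAlg
import Pool.Agent.H71.DB.CocC

/-!
# KZ, module LinD: functionals on the symbols, definitions
-/

set_option autoImplicit false

open NumberField

universe u v w

namespace Pool.Agent.H8.KZ

open Pool.Agent.H95.KM
open Pool.Agent.H95.WH (conjHom)
open Pool.Agent.H71.DB (conjCent)

/-- Rational functionals on the symbols `[D, Θ(n), z]` (averaged over the Galois group). -/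
structure Fun (L : Type) [Field L] [NumberField L] (N : ℕ) [NeZero N] (G : Type v) [Group G]
    (pr : Pr (𝓞 L) N → ℕ) where
  /-- the functional -/
  F : ∀ D : Good G N, ((D.1 →* (𝓞 L)ˣ) → Pr (𝓞 L) N → ℤ) →
    Subgroup.centralizer (D.1 : Set G) → ℚ
  add : ∀ D n n' z, F D (n + n') z = F D n z + F D n' z
  mul : ∀ D n z z', F D n (z * z') = F D n z + F D n z'
  nat : ∀ (D D' : Good G N) (g : G) (h : ∀ x ∈ D.1, g * x * g⁻¹ ∈ D'.1)
    (n : (D.1 →* (𝓞 L)ˣ) → Pr (𝓞 L) N → ℤ) (z : Subgroup.centralizer (D'.1 : Set G)),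
    F D' (fun χ m => n (χ.comp (conjHom g D.1 D'.1 h)) m) z = F D n (conjCent g D.1 D'.1 h z)
  const : ∀ (D : Good G N) (k : (D.1 →* (𝓞 L)ˣ) → ℤ) z, F D (fun χ _ => k χ) z = 0
  van : ∀ (D : Good G N) (n : (D.1 →* (𝓞 L)ˣ) → Pr (𝓞 L) N → ℤ) z,
    (∀ χ m, n χ m ≠ 0 → ¬ pr m ∣ Nat.card D.1) → F D n z = 0
  gal : ∀ (D : Good G N) (σ : L ≃ₐ[ℚ] L) (n : (D.1 →* (𝓞 L)ˣ) → Pr (𝓞 L) N → ℤ) z,
    F D (galN N (gO σ) n) z = F D n z

end Pool.Agent.H8.KZ
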