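import Pool.Agent.H8.KZ.Gal

/-!
# KZ, block LocP: the local ring at a prime of a cyclotomic field acts on a free `ℤ_p`-module

`L = CyclotomicField N ℚ`, `O = 𝓞 L`, `m : Pr O N` a maximal ideal of `O / N`, `p ∈ m` a prime number.
`Om` is the localization of `O` at (the preimage of) `m`, given by `f`, `j` and its universal property
(`exists_loc2` in `Loc2.lean`).

PROOF.  `K = CyclotomicField N ℚ_[p]`, a finite Galois extension of `ℚ_[p]`
(`IsCyclotomicExtension.isGalois`); `κ₀ : ℤ_[p] → ℚ_[p] → K`; `W = integralClosure ℤ_[p] K`.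
(1) `W` is a free `ℤ_[p]`-module of finite rank (`IsIntegralClosure.module_free` or
    `integralClosure...`), so with a basis `b` there is `Algebra.leftMulMatrix b : W → Mat_r(ℤ_[p])` and
    for `x : W`: `κ₀ (trace (leftMulMatrix b x)) = Algebra.trace ℚ_[p] K x = ∑_{τ : K ≃ₐ[ℚ_[p]] K} τ x`
    (`Algebra.trace_eq_matrix_trace`, `Algebra.trace_localization` or `Algebra.trace` of
    `IsIntegralClosure.isLocalization`, `trace_eq_sum_automorphisms`).
(2) The norm of `K` (`spectralNorm ℚ_[p] K`, multiplicative, `spectralMulAlgNorm`, nonarchimedean,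
    invariant under `K ≃ₐ[ℚ_[p]] K`, `spectralNorm_eq_of_equiv`): `W = {‖x‖ ≤ 1}` (`spectralValue_le_one_iff`,
    `minpoly` of an integral element has coefficients in `ℤ_[p]`,
    `minpoly.isIntegrallyClosed_eq_field_fractions'`).  So `x ∈ W` is a unit of `W` iff `‖x‖ = 1`.
(3) There is an embedding `ι₀ : L → K` (`K` contains a primitive `N`-th root of unity,
    `IsCyclotomicExtension`, `IsAlgClosed`-free: `(cyclotomic N ℚ)` splits in `K`;
    e.g. `IsSplittingField.lift` or `PowerBasis.lift`).  `ι₀ (O) ⊆ W` (integral over `ℤ`).  Let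
    `𝔮 = {x : O | ‖ι₀ x‖ < 1}`, a prime ideal of `O` containing `p`, hence maximal, and
    `𝔭 = {x : O | mk x ∈ m}`, a maximal ideal containing `p`.  `Gal(L/ℚ)` acts transitively on the primes
    of `O` over `p` (`Ideal.exists_map_eq_of_isGalois`, `IsInvariant`-lemmas or
    `Ideal.exists_smul_eq_of_under_eq`...), so after replacing `ι₀` by `ι = ι₀ ∘ g` for some
    `g : L ≃ₐ[ℚ] L` we have `{x | ‖ι x‖ < 1} = 𝔭`.
(4) So `ι x` is a unit of `W` for `x ∈ O`, `mk x ∉ m`; the universal property gives `h : Om → W` with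
    `h ∘ f = ι|_O`, and `(W → K) ∘ h = ι ∘ j` (both agree on `f (O)`; `hext`).  `reg = leftMulMatrix b ∘ h`.
(5) For `τ : K ≃ₐ[ℚ_[p]] K` there is `σ_τ : L ≃ₐ[ℚ] L` with `τ ∘ ι = ι ∘ σ_τ` (`L / ℚ` is normal:
    `AlgHom.restrictNormal`, or directly: `τ (ι ζ)` is again a primitive `N`-th root of unity).  As
    `‖τ x‖ = ‖x‖`, `x ∈ 𝔭 ↔ σ_τ x ∈ 𝔭`, so `permPr (gO σ_τ) N m = m` (`mem_permPr_mk`).
    `T = K ≃ₐ[ℚ_[p]] K`, `σ = (τ ↦ σ_τ)`: for `y : Om`
    `κ₀ (trace (reg y)) = ∑_τ τ (h y) = ∑_τ τ (ι (j y)) = ∑_τ ι (σ_τ (j y))`.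
-/

set_option autoImplicit false

open Matrix NumberField

namespace Pool.Agent.H8.KZ

open Pool.Agent.H95.KM

/-- The automorphism of the ring of integers. -/
noncomputable def gO {L : Type} [Field L] [NumberField L] (σ : L ≃ₐ[ℚ] L) : 𝓞 L ≃+* 𝓞 L :=
  RingOfIntegers.mapRingEquiv σ.toRingEquiv

theorem gO_apply {L : Type} [Field L] [NumberField L] (σ : L ≃ₐ[ℚ] L) (x : 𝓞 L) :
    (gO σ x : L) = σ (x : L) := rfl

section norm

variable (p : ℕ) [Fact p.Prime] (K : Type) [Field K] [Algebra ℚ_[p] K] [Algebra ℤ_[p] K]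
  [IsScalarTower ℤ_[p] ℚ_[p] K] [FiniteDimensional ℚ_[p] K]

private theorem locP_int_iff (x : K) : IsIntegral ℤ_[p] x ↔ spectralNorm ℚ_[p] K x ≤ 1 := by
  have hx : IsIntegral ℚ_[p] x := Algebra.IsIntegral.isIntegral x
  constructor
  · intro h
    unfold spectralNorm
    rw [spectralValue_le_one_iff (minpoly.monic hx)]
    intro n
    rw [minpoly.isIntegrallyClosed_eq_field_fractions' ℚ_[p] h, Polynomial.coeff_map]
    exact PadicInt.norm_le_one _
  · intro h
    unfold spectralNorm at h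
    rw [spectralValue_le_one_iff (minpoly.monic hx)] at h
    have h1 : minpoly ℚ_[p] x ∈ Polynomial.lifts (algebraMap ℤ_[p] ℚ_[p]) := by
      rw [Polynomial.lifts_iff_coeff_lifts]
      intro n
      exact ⟨⟨_, h n⟩, rfl⟩
    obtain ⟨q, hq1, -, hq2⟩ := Polynomial.lifts_and_natDegree_eq_and_monic h1 (minpoly.monic hx)
    refine ⟨q, hq2, ?_⟩
    have h2 := minpoly.aeval ℚ_[p] x
    rw [← hq1, Polynomial.aeval_def, Polynomial.eval₂_map, ← IsScalarTower.algebraMap_eq] at h2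
    exact h2

omit [Algebra ℤ_[p] K] [IsScalarTower ℤ_[p] ℚ_[p] K] in
private theorem locP_inv {x : K} (hx : spectralNorm ℚ_[p] K x = 1) : spectralNorm ℚ_[p] K x⁻¹ = 1 := by
  have hx0 : x ≠ 0 := by
    rintro rfl
    rw [spectralNorm_zero] at hx
    exact zero_ne_one hx
  have h1 := spectralAlgNorm_mul (K := ℚ_[p]) x x⁻¹
  rw [mul_inv_cancel₀ hx0, spectralAlgNorm_one, spectralAlgNorm_def, spectralAlgNorm_def, hx,
    one_mul] at h1
  exact h1.symm

private theorem locP_unit_iff (x : integralClosure ℤ_[p] K) :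
    IsUnit x ↔ spectralNorm ℚ_[p] K (x : K) = 1 := by
  constructor
  · intro h
    obtain ⟨y, hy⟩ := h.exists_right_inv
    have h1 : (x : K) * (y : K) = 1 := by
      rw [← Subalgebra.coe_mul, hy, Subalgebra.coe_one]
    have h2 := spectralAlgNorm_mul (K := ℚ_[p]) (x : K) (y : K)
    rw [h1, spectralAlgNorm_one, spectralAlgNorm_def, spectralAlgNorm_def] at h2
    have h3 := (locP_int_iff p K (x : K)).1 x.2
    have h4 := (locP_int_iff p K (y : K)).1 y.2
    have h5 := spectralNorm_nonneg (K := ℚ_[p]) (x : K)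
    have h6 := spectralNorm_nonneg (K := ℚ_[p]) (y : K)
    nlinarith
  · intro h
    have h1 := locP_inv p K h
    have hx0 : (x : K) ≠ 0 := by
      intro hx
      rw [hx, spectralNorm_zero] at h
      exact zero_ne_one h
    refine IsUnit.of_mul_eq_one ⟨(x : K)⁻¹, (locP_int_iff p K _).2 h1.le⟩ ?_
    apply Subtype.ext
    exact mul_inv_cancel₀ hx0

private theorem locP_nonunit_iff (x : integralClosure ℤ_[p] K) :
    x ∈ nonunits (integralClosure ℤ_[p] K) ↔ spectralNorm ℚ_[p] K (x : K) < 1 := by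
  rw [mem_nonunits_iff, locP_unit_iff]
  have h3 := (locP_int_iff p K (x : K)).1 x.2
  exact ⟨fun h => lt_of_le_of_ne h3 h, fun h => h.ne⟩

private theorem locP_local : IsLocalRing (integralClosure ℤ_[p] K) := by
  refine IsLocalRing.of_nonunits_add fun a b ha hb => ?_
  rw [locP_nonunit_iff] at ha hb ⊢
  have h1 := isNonarchimedean_spectralNorm (K := ℚ_[p]) (a : K) (b : K)
  exact lt_of_le_of_lt h1 (max_lt ha hb)

private theorem locP_p (x : integralClosure ℤ_[p] K) (hx : (x : K) = p) : ¬ IsUnit x := by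
  rw [locP_unit_iff, hx]
  have h1 : (p : K) = algebraMap ℚ_[p] K p := (map_natCast (algebraMap ℚ_[p] K) p).symm
  rw [h1, spectralNorm_extends]
  exact (Padic.norm_p_lt_one).ne

private theorem locP_trace [IsGalois ℚ_[p] K] : ∃ (r : ℕ)
    (lm : integralClosure ℤ_[p] K →+* Matrix (Fin r) (Fin r) ℤ_[p]),
    ∀ x, algebraMap ℤ_[p] K (Matrix.trace (lm x)) = ∑ τ : K ≃ₐ[ℚ_[p]] K, τ (x : K) := by
  have hF : Module.Finite ℤ_[p] (integralClosure ℤ_[p] K) :=
    IsIntegralClosure.finite ℤ_[p] ℚ_[p] K (integralClosure ℤ_[p] K)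
  have hinj : Function.Injective (algebraMap ℤ_[p] K) := by
    rw [IsScalarTower.algebraMap_eq ℤ_[p] ℚ_[p] K]
    exact (algebraMap ℚ_[p] K).injective.comp (IsFractionRing.injective ℤ_[p] ℚ_[p])
  have htf : Module.IsTorsionFree ℤ_[p] K := Module.isTorsionFree_iff_algebraMap_injective.mpr hinj
  have hf : Module.Free ℤ_[p] (integralClosure ℤ_[p] K) :=
    IsIntegralClosure.module_free ℤ_[p] ℚ_[p] K (integralClosure ℤ_[p] K)
  refine ⟨_, (Algebra.leftMulMatrix (Module.finBasis ℤ_[p] (integralClosure ℤ_[p] K))).toRingHom,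
    fun x => ?_⟩
  have hloc : IsLocalization (Algebra.algebraMapSubmonoid (integralClosure ℤ_[p] K)
      (nonZeroDivisors ℤ_[p])) K := IsIntegralClosure.isLocalization ℤ_[p] ℚ_[p] K _
  have h1 := Algebra.trace_localization ℤ_[p] (nonZeroDivisors ℤ_[p]) (Rₘ := ℚ_[p]) (Sₘ := K) x
  have h2 : Matrix.trace ((Algebra.leftMulMatrix
      (Module.finBasis ℤ_[p] (integralClosure ℤ_[p] K))).toRingHom x) =
      Algebra.trace ℤ_[p] (integralClosure ℤ_[p] K) x := by
    rw [Algebra.trace_eq_matrix_trace (Module.finBasis ℤ_[p] (integralClosure ℤ_[p] K))]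
    rfl
  rw [h2, IsScalarTower.algebraMap_apply ℤ_[p] ℚ_[p] K, ← h1, trace_eq_sum_automorphisms]
  rfl

end norm

section global

variable {p : ℕ} [Fact p.Prime] {K : Type} [Field K] [Algebra ℚ_[p] K] [Algebra ℤ_[p] K]
  [IsScalarTower ℤ_[p] ℚ_[p] K] [FiniteDimensional ℚ_[p] K] {L : Type} [Field L] [NumberField L]

omit [Algebra ℚ_[p] K] [IsScalarTower ℤ_[p] ℚ_[p] K] [FiniteDimensional ℚ_[p] K]
  [NumberField L] in
/-- an embedding sends algebraic integers to integral elements -/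
private theorem locP_mem (ι : L →+* K) (x : 𝓞 L) :
    ι.comp (algebraMap (𝓞 L) L) x ∈ integralClosure ℤ_[p] K := by
  have h1 : IsIntegral ℤ (algebraMap (𝓞 L) L x) := RingOfIntegers.isIntegral_coe x
  have h2 : IsIntegral ℤ (ι (algebraMap (𝓞 L) L x)) := h1.map ι.toIntAlgHom
  exact IsIntegral.tower_top h2

/-- the restriction of an embedding to the integers -/
private noncomputable def locP_res (p : ℕ) [Fact p.Prime] {K : Type} [Field K] [Algebra ℚ_[p] K]
    [Algebra ℤ_[p] K] [IsScalarTower ℤ_[p] ℚ_[p] K] [FiniteDimensional ℚ_[p] K] {L : Type}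
    [Field L] [NumberField L] (ι : L →+* K) : 𝓞 L →+* integralClosure ℤ_[p] K :=
  (ι.comp (algebraMap (𝓞 L) L)).codRestrict (integralClosure ℤ_[p] K) (locP_mem ι)

private theorem locP_res_coe (ι : L →+* K) (x : 𝓞 L) :
    ((locP_res p ι x : integralClosure ℤ_[p] K) : K) = ι (x : L) := rfl

private theorem locP_sigma [CharZero K] [IsGalois ℚ L] (ι : L →+* K) (τ : K ≃+* K) :
    ∃ σ : L ≃ₐ[ℚ] L, ∀ z, τ (ι z) = ι (σ z) := by
  let _ : Algebra L K := ι.toAlgebra
  have : IsScalarTower ℚ L K := IsScalarTower.of_algebraMap_eq' (Subsingleton.elim _ _)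
  obtain ⟨τ', hτ⟩ : ∃ τ' : K ≃ₐ[ℚ] K, ∀ z, τ' z = τ z :=
    ⟨AlgEquiv.ofRingEquiv (f := τ) (fun q => by simp), fun z => rfl⟩
  refine ⟨τ'.restrictNormal L, fun z => ?_⟩
  have h := AlgEquiv.restrictNormal_commutes τ' L z
  rw [hτ] at h
  exact h.symm

omit [NumberField L] in
private theorem locP_under (P : Ideal (𝓞 L)) [P.IsPrime] (hp : (p : 𝓞 L) ∈ P) :
    P.under ℤ = Ideal.span {(p : ℤ)} := by
  have hpp : Prime (p : ℤ) := Nat.prime_iff_prime_int.mp (Fact.out : p.Prime)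
  have hmax : (Ideal.span {(p : ℤ)}).IsMaximal :=
    (Ideal.isPrime_of_prime (Ideal.prime_span_singleton_iff.mpr hpp)).isMaximal
      (by simp [(Fact.out : p.Prime).ne_zero])
  have hP : (P.under ℤ).IsPrime := Ideal.IsPrime.under ℤ P
  symm
  refine hmax.eq_of_le hP.ne_top ?_
  rw [Ideal.span_singleton_le_iff_mem, Ideal.mem_comap]
  rw [show algebraMap ℤ (𝓞 L) (p : ℤ) = (p : 𝓞 L) by simp]
  exact hp

private theorem locP_trans [IsGalois ℚ L] (ι₀ : L →+* K) (P : Ideal (𝓞 L)) [P.IsPrime]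
    (hp : (p : 𝓞 L) ∈ P) :
    ∃ ι : L →+* K, ∀ x : 𝓞 L, x ∈ P ↔ spectralNorm ℚ_[p] K (ι (x : L)) < 1 := by
  have : IsLocalRing (integralClosure ℤ_[p] K) := locP_local p K
  obtain ⟨Q, hQ⟩ : ∃ Q : Ideal (𝓞 L), Q = Ideal.comap (locP_res p ι₀)
    (IsLocalRing.maximalIdeal (integralClosure ℤ_[p] K)) := ⟨_, rfl⟩
  have hQp : Q.IsPrime := by
    rw [hQ]
    exact Ideal.comap_isPrime _ _
  have hQm : ∀ x : 𝓞 L, x ∈ Q ↔ spectralNorm ℚ_[p] K (ι₀ (x : L)) < 1 := by
    intro x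
    rw [hQ, Ideal.mem_comap, IsLocalRing.mem_maximalIdeal, locP_nonunit_iff]
    rfl
  have hpQ : (p : 𝓞 L) ∈ Q := by
    rw [hQ, Ideal.mem_comap, IsLocalRing.mem_maximalIdeal, mem_nonunits_iff]
    refine locP_p p K _ ?_
    rw [locP_res_coe]
    simp
  obtain ⟨g, hg⟩ := Algebra.IsInvariant.exists_smul_of_under_eq ℤ (𝓞 L) (L ≃ₐ[ℚ] L) P Q
    (by rw [locP_under P hp, locP_under Q hpQ])
  refine ⟨ι₀.comp (g : L →+* L), fun x => ?_⟩
  have h1 : x ∈ P ↔ g • x ∈ Q := by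
    rw [hg, Ideal.smul_mem_pointwise_smul_iff]
  rw [h1, hQm]
  rfl

private theorem locP_main [IsGalois ℚ L] [IsGalois ℚ_[p] K] (ι₀ : L →+* K) (P : Ideal (𝓞 L))
    [P.IsPrime] (hp : (p : 𝓞 L) ∈ P) (Om : Type) [CommRing Om] (f : 𝓞 L →+* Om) (j : Om →+* L)
    (hjf : j.comp f = algebraMap (𝓞 L) L)
    (huniv : ∀ (E : Type) [CommRing E] (g : 𝓞 L →+* E), (∀ s, s ∉ P → IsUnit (g s)) →
      ∃ h : Om →+* E, h.comp f = g)
    (hext : ∀ (E : Type) [CommRing E] (h h' : Om →+* E), h.comp f = h'.comp f → h = h') :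
    ∃ (ι : L →+* K) (r : ℕ) (reg : Om →+* Matrix (Fin r) (Fin r) ℤ_[p])
      (σ : (K ≃ₐ[ℚ_[p]] K) → (L ≃ₐ[ℚ] L)),
      (∀ t (x : 𝓞 L), gO (σ t) x ∈ P ↔ x ∈ P) ∧
      ∀ y : Om, algebraMap ℤ_[p] K (Matrix.trace (reg y)) = ∑ t, ι (σ t (j y)) := by
  have hch : CharZero K := charZero_of_injective_algebraMap (algebraMap ℚ_[p] K).injective
  obtain ⟨ι, hι⟩ := locP_trans ι₀ P hp
  obtain ⟨r, lm, hlm⟩ := locP_trace p K
  have hσ : ∀ τ : K ≃ₐ[ℚ_[p]] K, ∃ σ : L ≃ₐ[ℚ] L, ∀ z, τ (ι z) = ι (σ z) := fun τ =>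
    locP_sigma ι τ.toRingEquiv
  choose σ hσ using hσ
  obtain ⟨h, hh⟩ := huniv (integralClosure ℤ_[p] K) (locP_res p ι) (by
    intro s hs
    by_contra hu
    rw [← mem_nonunits_iff, locP_nonunit_iff] at hu
    exact hs ((hι s).2 hu))
  have hy : ∀ y : Om, ((h y : integralClosure ℤ_[p] K) : K) = ι (j y) := by
    have h1 := hext K ((integralClosure ℤ_[p] K).val.toRingHom.comp h) (ι.comp j) (by
      rw [RingHom.comp_assoc, hh, RingHom.comp_assoc, hjf]
      rfl)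
    intro y
    exact RingHom.congr_fun h1 y
  refine ⟨ι, r, lm.comp h, σ, ?_, ?_⟩
  · intro t x
    rw [hι, hι, gO_apply, ← hσ, ← spectralNorm_eq_of_equiv]
  · intro y
    rw [RingHom.comp_apply, hlm]
    refine Finset.sum_congr rfl fun t _ => ?_
    rw [hy, hσ]

end global

/-- the decomposition group -/
private theorem locP_perm {O : Type} [CommRing O] (N : ℕ) (m : Pr O N) (s : O ≃+* O)
    (h : ∀ x : O, Ideal.Quotient.mk (Ideal.span {(N : O)}) (s x) ∈ m.asIdeal ↔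
      Ideal.Quotient.mk (Ideal.span {(N : O)}) x ∈ m.asIdeal) : permPr s N m = m := by
  apply MaximalSpectrum.ext
  ext y
  obtain ⟨x', rfl⟩ := Ideal.Quotient.mk_surjective y
  obtain ⟨x, rfl⟩ := s.surjective x'
  rw [mem_permPr_mk, h]

private theorem locP_emb (N : ℕ) [NeZero N] (K : Type) [Field K] [CharZero K]
    (h : (Polynomial.cyclotomic N K).Splits) : Nonempty (CyclotomicField N ℚ →+* K) := by
  have hc : IsCyclotomicExtension {N} ℚ (CyclotomicField N ℚ) :=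
    CyclotomicField.isCyclotomicExtension N ℚ
  have h0 : Polynomial.IsSplittingField ℚ (CyclotomicField N ℚ) (Polynomial.cyclotomic N ℚ) :=
    IsCyclotomicExtension.splitting_field_cyclotomic N ℚ (CyclotomicField N ℚ)
  exact ⟨(Polynomial.IsSplittingField.lift (CyclotomicField N ℚ) (Polynomial.cyclotomic N ℚ)
    (by rwa [Polynomial.map_cyclotomic])).toRingHom⟩

theorem exists_reg (N : ℕ) [NeZero N] (p : ℕ) [Fact p.Prime]
    (m : Pr (𝓞 (CyclotomicField N ℚ)) N)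
    (hp : (p : Amod (𝓞 (CyclotomicField N ℚ)) N) ∈ m.asIdeal)
    (Om : Type) [CommRing Om] (f : 𝓞 (CyclotomicField N ℚ) →+* Om)
    (j : Om →+* CyclotomicField N ℚ)
    (hjf : j.comp f = algebraMap (𝓞 (CyclotomicField N ℚ)) (CyclotomicField N ℚ))
    (huniv : ∀ (E : Type) [CommRing E] (g : 𝓞 (CyclotomicField N ℚ) →+* E),
      (∀ s, Ideal.Quotient.mk (Ideal.span {(N : 𝓞 (CyclotomicField N ℚ))}) s ∉ m.asIdeal →
        IsUnit (g s)) → ∃ h : Om →+* E, h.comp f = g)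
    (hext : ∀ (E : Type) [CommRing E] (h h' : Om →+* E), h.comp f = h'.comp f → h = h') :
    ∃ (K : Type) (_ : Field K) (_ : CharZero K) (κ : ℤ_[p] →+* K) (ι : CyclotomicField N ℚ →+* K)
      (r : ℕ) (reg : Om →+* Matrix (Fin r) (Fin r) ℤ_[p]) (T : Type) (_ : Fintype T)
      (_ : Nonempty T) (σ : T → (CyclotomicField N ℚ ≃ₐ[ℚ] CyclotomicField N ℚ)),
      Function.Injective κ ∧ (∀ t, permPr (gO (σ t)) N m = m) ∧
      ∀ y : Om, κ (Matrix.trace (reg y)) = ∑ t, ι (σ t (j y)) := by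
  have h1 : FiniteDimensional ℚ_[p] (CyclotomicField N ℚ_[p]) :=
    IsCyclotomicExtension.finiteDimensional {N} ℚ_[p] (CyclotomicField N ℚ_[p])
  have h2 : IsGalois ℚ_[p] (CyclotomicField N ℚ_[p]) :=
    IsCyclotomicExtension.isGalois {N} ℚ_[p] (CyclotomicField N ℚ_[p])
  have hc : IsCyclotomicExtension {N} ℚ (CyclotomicField N ℚ) :=
    CyclotomicField.isCyclotomicExtension N ℚ
  have h3 : IsGalois ℚ (CyclotomicField N ℚ) :=
    IsCyclotomicExtension.isGalois {N} ℚ (CyclotomicField N ℚ)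
  have hch : CharZero (CyclotomicField N ℚ_[p]) :=
    charZero_of_injective_algebraMap (algebraMap ℚ_[p] (CyclotomicField N ℚ_[p])).injective
  obtain ⟨ι₀⟩ := locP_emb N (CyclotomicField N ℚ_[p]) (by
    have h4 := IsCyclotomicExtension.splits_cyclotomic (S := {N}) ℚ_[p]
      (CyclotomicField N ℚ_[p]) (Set.mem_singleton N)
    rwa [Polynomial.map_cyclotomic] at h4)
  have hm : m.asIdeal.IsPrime := m.isMaximal.isPrime
  obtain ⟨ι, r, reg, σ, h5, h6⟩ := locP_main (p := p) ι₀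
    (Ideal.comap (Ideal.Quotient.mk (Ideal.span {(N : 𝓞 (CyclotomicField N ℚ))})) m.asIdeal)
    (by
      rw [Ideal.mem_comap, map_natCast]
      exact hp) Om f j hjf (fun E _ g hg => huniv E g fun s hs => hg s fun h => hs h) hext
  refine ⟨CyclotomicField N ℚ_[p], inferInstance, hch,
    algebraMap ℤ_[p] (CyclotomicField N ℚ_[p]), ι, r, reg,
    (CyclotomicField N ℚ_[p] ≃ₐ[ℚ_[p]] CyclotomicField N ℚ_[p]), inferInstance,
    ⟨AlgEquiv.refl⟩, σ, ?_, ?_, h6⟩
  · rw [IsScalarTower.algebraMap_eq ℤ_[p] ℚ_[p] (CyclotomicField N ℚ_[p])]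
    exact (algebraMap ℚ_[p] (CyclotomicField N ℚ_[p])).injective.comp
      (IsFractionRing.injective ℤ_[p] ℚ_[p])
  · intro t
    exact locP_perm N m (gO (σ t)) fun x => h5 t x

end Pool.Agent.H8.KZ
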