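import Pool.Agent.H8.KZ.GPr
import Pool.Agent.H8.KZ.BdE
import Pool.Agent.H95.KM.Theta

/-!
# KZ, module Swap: the product of `Q.DD.D g` with a unit

`Sq`, `SqHom`, `Sq.dl`, `Sq.lauSq`, `Sq.dl_map`, `Sq.dl_mul`, `mapU` : `Pool/Agent/H95/KM/SqDefs.lean`,
`SqProp.lean`; `Sq.DD`, `lauSqHom` : `SqLau.lean`; `bass`, `bass_mul`, `bass_comp`, `map_bass` :
`Pool/Agent/H71/DB/Bass.lean`; `bdK_bass`, `bdK_cst`, `bdK_tw` : `BdE.lean`, `BdP.lean`, `BdN.lean`;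
`pr`, `pr_mk`, `map_pr`, `pr_congr` : `Pr.lean`; `evL`, `tw`, `uT`, `cu` : `Ev.lean`.

NOTATION.  `Γ' = Γ[T;T⁻¹]` (variable `z`), `Γ'' = Γ'[T;T⁻¹]` (outer variable `s`), `Q' = Q.lauSq`,
`Q'' = Q.lauSq.lauSq`.  For a unit matrix `h` over `B[T;T⁻¹][T;T⁻¹]` and a central unit `u` of `Γ''` put
`⟨h, u⟩ = bdK (bass (RingHom.id _) u _ (Q''.dl h)) ∈ K₀(Γ')`.  It is additive in `h` (`dl_mul`) and in
`u` (`bass_mul`).  Units of `Γ''`: `z = cu (uT Γ)`, `s = uT Γ'`, both central (`cu_comm`, `uT_comm`).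
Let `gz = mapU (cst _) g`, `gs = mapU (lau (cst B)) g`.

PROOF of `swap`.
(0) The left hand side is `⟨gs, z⟩`: `DD_eq`, `pr_mk`, `bass_comp` with `lau (cst Γ)` and
    `K0.map (lau (cst Γ)) (Q'.dl g) = Q''.dl gs` (`dl_map` for the morphism of squares `Q' → Q''` with
    components `lau (cst _)`, i.e. `lauSqHom` of the morphism `Q → Q'` with components `cst _`
    (`lau_cst` or `lau_single`, `cst_apply`)).
(1) `⟨gz, s⟩ = Q'.dl g`: `dl_map` for the morphism `Q' → Q''` with components `cst _`, `bass_comp`,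
    `bdK_bass`.
(2) `⟨gz, z⟩ = 0`: `dl_map` as in (1), `bass_comp`, `map_bass` (`cst Γ'` maps `uT Γ` to `z`),
    `bdK_cst`.
(3) Let `τ = tw (uT _)` on `Γ''` (`s ↦ z s`), and the same on `𝓜[T;T⁻¹][T;T⁻¹]`, `B[T;T⁻¹][T;T⁻¹]`; this
    is a morphism of squares `Q'' → Q''` (`tw_single`, `lau_single`, `uT_zpow`).  So
    `⟨mapU τ h, τ u⟩ = ⟨h, u⟩` by `dl_map`, `bass_comp`, `map_bass`, `bdK_tw`.  `τ s = z s`, `τ z = z`.
(4) By (3) and `hg`: `⟨gs gz, z s⟩ = ⟨gs, s⟩`; expand and cancel: `⟨gs, z⟩ = - ⟨gz, s⟩ - ⟨gz, z⟩`.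

PROOF of `pr_DD`: `map_pr` for `f = evL φ z hz`, `evL_cst`, `Units.map (evL φ z hz) (uT Γ) = z`
(`evL_single`, `zpow_one`), `pr_congr`, `swap`.

PROOF of `uN_tw`: entrywise and componentwise (`lau_single`, `tw_single`, `uT_zpow`, `cmp_un`).  Both
sides are `1 × 1` matrices.  Let `cc = lau (cmp χ)` on `(X → Amod O N)[T;T⁻¹][T;T⁻¹]` (jointly injective
by `lau_coeff`, `cmp_ext`).  `unComp` is a finite sum of monomials `single (n m) (kappa m)`;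
`lau (cst _)` of it is `∑ single (n m) (single 0 (kappa m))`, `tw` of this is
`∑ single (n m) (single (n m) (kappa m))`; the product with `cst _ (∑ single (n m) (kappa m))` is the
same by orthogonality (`kappa_mul`).  It may be easier to prove `un n = ∑ χ m` formulas coefficientwise
after `cmp χ`.
-/

set_option autoImplicit false

open Matrix
open scoped LaurentPolynomial

universe u v w t

namespace Pool.Agent.H8.KZ

open Pool.Agent.H71.FJ (K0 K0.map)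
open Pool.Agent.H95.KM
open Pool.Agent.H95.WH (K1 K1.map)
open Pool.Agent.H71.DB (bass bass_mul bass_comp bass_conj map_bass comm_grp)
open Pool.Agent.H71.DO (grpUnit)

section swap

variable {Γ : Type u} {𝓜 : Type v} {B : Type w} [Ring Γ] [Ring 𝓜] [Ring B] (Q : Sq Γ 𝓜 B)

/-- The inclusion of the constants as a morphism of squares. -/
private noncomputable def swap_cst : SqHom Q Q.lauSq where
  a := cst Γ
  b := cst 𝓜
  c := cst B
  hφ x := (RingHom.congr_fun (lau_cst Q.φ) x).symm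
  hπ x := (RingHom.congr_fun (lau_cst Q.π) x).symm

private theorem swap_tw_aux {R : Type u} [Ring R] {S : Type v} [Ring S] (f : R →+* S)
    (x : R[T;T⁻¹][T;T⁻¹]) :
    tw (uT S) uT_comm (lau (lau f) x) = lau (lau f) (tw (uT R) uT_comm x) := by
  have h : (tw (uT S) uT_comm).comp (lau (lau f)) = (lau (lau f)).comp (tw (uT R) uT_comm) := by
    apply lau_ext
    intro k r
    rw [RingHom.comp_apply, RingHom.comp_apply, lau_single, tw_single, tw_single, lau_single, map_mul,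
      uT_zpow, uT_zpow, lau_single, map_one]
  exact RingHom.congr_fun h x

/-- The twist `s ↦ z s` as a morphism of squares. -/
private noncomputable def swap_tw : SqHom Q.lauSq.lauSq Q.lauSq.lauSq where
  a := tw (uT Γ) uT_comm
  b := tw (uT 𝓜) uT_comm
  c := tw (uT B) uT_comm
  hφ x := swap_tw_aux Q.φ x
  hπ x := swap_tw_aux Q.π x

private theorem swap_bass_congr {R : Type u} [Ring R] {S : Type v} [Ring S] {φ φ' : R →+* S}
    {z z' : Sˣ} (h1 : φ = φ') (h : z = z') (hz : ∀ b, φ b * z = z * φ b)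
    (hz' : ∀ b, φ' b * z' = z' * φ' b) (x : K0 R) : bass φ z hz x = bass φ' z' hz' x := by
  subst h1 h
  rfl

/-- The pairing `⟨h, u⟩`. -/
private noncomputable def swap_pair {m : Type} [Fintype m] [DecidableEq m]
    (h : (Matrix m m B[T;T⁻¹][T;T⁻¹])ˣ) (u : (Γ[T;T⁻¹][T;T⁻¹])ˣ)
    (hu : ∀ b, (RingHom.id Γ[T;T⁻¹][T;T⁻¹]) b * u = u * (RingHom.id Γ[T;T⁻¹][T;T⁻¹]) b) : K0 Γ[T;T⁻¹] :=
  bdK (bass (RingHom.id Γ[T;T⁻¹][T;T⁻¹]) u hu (Q.lauSq.lauSq.dl h))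

private theorem swap_pair_mul {m : Type} [Fintype m] [DecidableEq m]
    (h h' : (Matrix m m B[T;T⁻¹][T;T⁻¹])ˣ) (u : (Γ[T;T⁻¹][T;T⁻¹])ˣ)
    (hu : ∀ b, (RingHom.id Γ[T;T⁻¹][T;T⁻¹]) b * u = u * (RingHom.id Γ[T;T⁻¹][T;T⁻¹]) b) :
    swap_pair Q (h * h') u hu = swap_pair Q h u hu + swap_pair Q h' u hu := by
  rw [swap_pair, swap_pair, swap_pair, Sq.dl_mul, map_add, map_add]

private theorem swap_pair_mul' {m : Type} [Fintype m] [DecidableEq m]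
    (h : (Matrix m m B[T;T⁻¹][T;T⁻¹])ˣ) (u u' : (Γ[T;T⁻¹][T;T⁻¹])ˣ)
    (hu : ∀ b, (RingHom.id Γ[T;T⁻¹][T;T⁻¹]) b * u = u * (RingHom.id Γ[T;T⁻¹][T;T⁻¹]) b)
    (hu' : ∀ b, (RingHom.id Γ[T;T⁻¹][T;T⁻¹]) b * u' = u' * (RingHom.id Γ[T;T⁻¹][T;T⁻¹]) b)
    (huu : ∀ b, (RingHom.id Γ[T;T⁻¹][T;T⁻¹]) b * ((u * u' : (Γ[T;T⁻¹][T;T⁻¹])ˣ) : Γ[T;T⁻¹][T;T⁻¹]) =
      ((u * u' : (Γ[T;T⁻¹][T;T⁻¹])ˣ) : Γ[T;T⁻¹][T;T⁻¹]) * (RingHom.id Γ[T;T⁻¹][T;T⁻¹]) b) :
    swap_pair Q h (u * u') huu = swap_pair Q h u hu + swap_pair Q h u' hu' := by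
  rw [swap_pair, swap_pair, swap_pair, bass_mul _ u u' hu hu' huu, map_add]

/-- `z = cu (uT Γ)` is central. -/
private theorem swap_hz (b : Γ[T;T⁻¹][T;T⁻¹]) :
    (RingHom.id Γ[T;T⁻¹][T;T⁻¹]) b * (cu (uT Γ) : (Γ[T;T⁻¹][T;T⁻¹])ˣ) =
      (cu (uT Γ) : (Γ[T;T⁻¹][T;T⁻¹])ˣ) * (RingHom.id Γ[T;T⁻¹][T;T⁻¹]) b := by
  have h1 := cu_comm (RingHom.id Γ[T;T⁻¹]) (uT Γ) uT_comm b
  rw [lau_id] at h1
  exact h1

/-- `s = uT Γ[T;T⁻¹]` is central. -/
private theorem swap_hs (b : Γ[T;T⁻¹][T;T⁻¹]) :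
    (RingHom.id Γ[T;T⁻¹][T;T⁻¹]) b * (uT Γ[T;T⁻¹] : (Γ[T;T⁻¹][T;T⁻¹])ˣ) =
      (uT Γ[T;T⁻¹] : (Γ[T;T⁻¹][T;T⁻¹])ˣ) * (RingHom.id Γ[T;T⁻¹][T;T⁻¹]) b := uT_comm b

private theorem swap_hzs (b : Γ[T;T⁻¹][T;T⁻¹]) :
    (RingHom.id Γ[T;T⁻¹][T;T⁻¹]) b *
        ((cu (uT Γ) * uT Γ[T;T⁻¹] : (Γ[T;T⁻¹][T;T⁻¹])ˣ) : Γ[T;T⁻¹][T;T⁻¹]) =
      ((cu (uT Γ) * uT Γ[T;T⁻¹] : (Γ[T;T⁻¹][T;T⁻¹])ˣ) : Γ[T;T⁻¹][T;T⁻¹]) *
        (RingHom.id Γ[T;T⁻¹][T;T⁻¹]) b := by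
  have h1 := swap_hz b
  have h2 := swap_hs b
  rw [Units.val_mul, ← mul_assoc, h1, mul_assoc, h2, mul_assoc]

/-- (1) -/
private theorem swap_one {m : Type} [Fintype m] [DecidableEq m] (g : (Matrix m m B[T;T⁻¹])ˣ) :
    swap_pair Q (mapU (cst B[T;T⁻¹]) g) (uT Γ[T;T⁻¹]) swap_hs = Q.lauSq.dl g := by
  have h1 : Q.lauSq.lauSq.dl (mapU (cst B[T;T⁻¹]) g) = K0.map (cst Γ[T;T⁻¹]) (Q.lauSq.dl g) :=
    Sq.dl_map (swap_cst Q.lauSq) g
  rw [swap_pair, h1, bass_comp]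
  exact bdK_bass _ _

/-- (2) -/
private theorem swap_two {m : Type} [Fintype m] [DecidableEq m] (g : (Matrix m m B[T;T⁻¹])ˣ) :
    swap_pair Q (mapU (cst B[T;T⁻¹]) g) (cu (uT Γ)) swap_hz = 0 := by
  have h1 : Q.lauSq.lauSq.dl (mapU (cst B[T;T⁻¹]) g) = K0.map (cst Γ[T;T⁻¹]) (Q.lauSq.dl g) :=
    Sq.dl_map (swap_cst Q.lauSq) g
  have h2 := map_bass (RingHom.id Γ[T;T⁻¹]) (uT Γ) uT_comm (cst Γ[T;T⁻¹])
    (fun b => swap_hz (cst Γ[T;T⁻¹] b)) (Q.lauSq.dl g)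
  rw [swap_pair, h1, bass_comp]
  have h3 := bdK_cst (bass (RingHom.id Γ[T;T⁻¹]) (uT Γ) uT_comm (Q.lauSq.dl g))
  rw [h2] at h3
  exact h3

/-- (3) -/
private theorem swap_three {m : Type} [Fintype m] [DecidableEq m]
    (h : (Matrix m m B[T;T⁻¹][T;T⁻¹])ˣ) :
    swap_pair Q (mapU (tw (uT B) uT_comm) h) (cu (uT Γ) * uT Γ[T;T⁻¹]) swap_hzs =
      swap_pair Q h (uT Γ[T;T⁻¹]) swap_hs := by
  have h1 : Q.lauSq.lauSq.dl (mapU (tw (uT B) uT_comm) h) =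
      K0.map (tw (uT Γ) uT_comm) (Q.lauSq.lauSq.dl h) := Sq.dl_map (swap_tw Q) h
  have hu : Units.map ((tw (uT Γ) uT_comm : Γ[T;T⁻¹][T;T⁻¹] →+* Γ[T;T⁻¹][T;T⁻¹]) :
      Γ[T;T⁻¹][T;T⁻¹] →* Γ[T;T⁻¹][T;T⁻¹]) (uT Γ[T;T⁻¹]) = cu (uT Γ) * uT Γ[T;T⁻¹] := by
    apply Units.ext
    change tw (uT Γ) uT_comm (uT Γ[T;T⁻¹] : Γ[T;T⁻¹][T;T⁻¹]) = _
    rw [Units.val_mul, uT_val, tw_single, cu_val, AddMonoidAlgebra.single_mul_single, zero_add,
      zpow_one, one_mul, mul_one]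
  have h2 := map_bass (RingHom.id Γ[T;T⁻¹][T;T⁻¹]) (uT Γ[T;T⁻¹]) swap_hs (tw (uT Γ) uT_comm)
    (fun b => by rw [hu]; exact swap_hzs (tw (uT Γ) uT_comm b)) (Q.lauSq.lauSq.dl h)
  have h3 := bdK_tw (uT Γ) uT_comm (bass (RingHom.id Γ[T;T⁻¹][T;T⁻¹]) (uT Γ[T;T⁻¹]) swap_hs
    (Q.lauSq.lauSq.dl h))
  rw [h2] at h3
  rw [swap_pair, h1, bass_comp, swap_pair, ← h3]
  exact congrArg bdK (swap_bass_congr (RingHom.ext fun _ => rfl) hu.symm _ _ _)

theorem swap {m : Type} [Fintype m] [DecidableEq m] (g : (Matrix m m B[T;T⁻¹])ˣ)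
    (hg : mapU (tw (uT B) uT_comm) (mapU (lau (cst B)) g) =
      mapU (lau (cst B)) g * mapU (cst B[T;T⁻¹]) g)
    (h : ∀ b, cst Γ b * (uT Γ : Γ[T;T⁻¹]) = (uT Γ : Γ[T;T⁻¹]) * cst Γ b) :
    pr (cst Γ) (uT Γ) h (Q.DD.D g) = - Q.lauSq.dl g := by
  have h0 : pr (cst Γ) (uT Γ) h (Q.DD.D g) =
      swap_pair Q (mapU (lau (cst B)) g) (cu (uT Γ)) swap_hz := by
    have h1 : Q.lauSq.lauSq.dl (mapU (lau (cst B)) g) = K0.map (lau (cst Γ)) (Q.lauSq.dl g) :=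
      Sq.dl_map (Sq.lauSqHom (swap_cst Q)) g
    rw [Sq.DD_eq, pr_mk, swap_pair, h1, bass_comp]
    rfl
  have h3 := swap_three Q (mapU (lau (cst B)) g)
  rw [hg, swap_pair_mul, swap_pair_mul' Q _ _ _ swap_hz swap_hs, swap_pair_mul' Q _ _ _ swap_hz swap_hs,
    swap_one, swap_two, zero_add] at h3
  rw [h0]
  have h4 : swap_pair Q (mapU (lau (cst B)) g) (cu (uT Γ)) swap_hz + Q.lauSq.dl g = 0 := by
    have h5 : swap_pair Q (mapU (lau (cst B)) g) (cu (uT Γ)) swap_hz + Q.lauSq.dl g =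
        (swap_pair Q (mapU (lau (cst B)) g) (cu (uT Γ)) swap_hz +
          swap_pair Q (mapU (lau (cst B)) g) (uT Γ[T;T⁻¹]) swap_hs + Q.lauSq.dl g) -
        swap_pair Q (mapU (lau (cst B)) g) (uT Γ[T;T⁻¹]) swap_hs := by abel
    rw [h5, h3, sub_self]
  exact eq_neg_of_add_eq_zero_left h4

theorem pr_DD {A : Type t} [Ring A] {m : Type} [Fintype m] [DecidableEq m]
    (g : (Matrix m m B[T;T⁻¹])ˣ)
    (hg : mapU (tw (uT B) uT_comm) (mapU (lau (cst B)) g) =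
      mapU (lau (cst B)) g * mapU (cst B[T;T⁻¹]) g)
    (φ : Γ →+* A) (z : Aˣ) (hz : ∀ b, φ b * z = z * φ b) :
    pr φ z hz (Q.DD.D g) = - K0.map (evL φ z hz) (Q.lauSq.dl g) := by
  have hc : ∀ b, cst Γ b * (uT Γ : Γ[T;T⁻¹]) = (uT Γ : Γ[T;T⁻¹]) * cst Γ b := fun b => uT_comm _
  have e1 : (evL φ z hz).comp (cst Γ) = φ := evL_cst φ z hz
  have e2 : Units.map ((evL φ z hz : Γ[T;T⁻¹] →+* A) : Γ[T;T⁻¹] →* A) (uT Γ) = z := by
    apply Units.ext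
    change evL φ z hz (uT Γ : Γ[T;T⁻¹]) = z
    rw [uT_val, evL_single, map_one, one_mul, zpow_one]
  have h1 := map_pr (cst Γ) (uT Γ) hc (evL φ z hz) (fun b => by rw [e1, e2]; exact hz b) (Q.DD.D g)
  rw [swap Q g hg hc, map_neg] at h1
  rw [h1]
  exact pr_congr e1.symm e2.symm _ _ _

end swap

section Theta

variable {O : Type} [CommRing O] {N : ℕ} [Finite (Amod O N)]

/-- The identity `w(z s) = w(s) w(z)` for a Laurent polynomial whose coefficients are orthogonal idempotents. -/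
private theorem swap_orth {R : Type u} [Ring R] (w : R[T;T⁻¹])
    (hw : ∀ k l : ℤ, w.coeff k * w.coeff l = if k = l then w.coeff k else 0) :
    tw (uT R) uT_comm (lau (cst R) w) = lau (cst R) w * cst R[T;T⁻¹] w := by
  classical
  set s := w.coeff.support with hs
  have hsum : w = ∑ k ∈ s, AddMonoidAlgebra.single k (w.coeff k) := eq_sum_single w
  have h1 : lau (cst R) w = ∑ k ∈ s, AddMonoidAlgebra.single k (AddMonoidAlgebra.single 0 (w.coeff k)) := by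
    conv_lhs => rw [hsum]
    rw [map_sum]
    exact Finset.sum_congr rfl fun k _ => by rw [lau_single, cst_apply]
  have h2 : cst R[T;T⁻¹] w = ∑ l ∈ s, AddMonoidAlgebra.single 0 (AddMonoidAlgebra.single l (w.coeff l)) := by
    conv_lhs => rw [hsum]
    rw [map_sum]
    rfl
  have h3 : tw (uT R) uT_comm (lau (cst R) w) =
      ∑ k ∈ s, AddMonoidAlgebra.single k (AddMonoidAlgebra.single k (w.coeff k)) := by
    rw [h1, map_sum]
    refine Finset.sum_congr rfl fun k _ => ?_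
    rw [tw_single, uT_zpow, AddMonoidAlgebra.single_mul_single, zero_add, mul_one]
  rw [h3, h1, h2, Finset.sum_mul_sum]
  refine Finset.sum_congr rfl fun k hk => ?_
  rw [Finset.sum_eq_single k]
  · rw [AddMonoidAlgebra.single_mul_single, AddMonoidAlgebra.single_mul_single, hw, if_pos rfl,
      add_zero, zero_add]
  · intro l _ hl
    rw [AddMonoidAlgebra.single_mul_single, AddMonoidAlgebra.single_mul_single, hw, if_neg (Ne.symm hl),
      AddMonoidAlgebra.single_zero, AddMonoidAlgebra.single_zero]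
  · intro h
    exact absurd hk h

private theorem swap_un_coeff {X : Type v} [Finite X] (n : X → Pr O N → ℤ) (k l : ℤ) :
    (un n).coeff k * (un n).coeff l = if k = l then (un n).coeff k else 0 := by
  classical
  have hc : ∀ (χ : X) (j : ℤ), (un n).coeff j χ = ∑ m, if n χ m = j then kappa O N m else 0 := by
    intro χ j
    rw [← cmp_coeff, cmp_un, unComp, AddMonoidAlgebra.coeff_sum, Finsupp.finsetSum_apply]
    refine Finset.sum_congr rfl fun m _ => ?_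
    rw [AddMonoidAlgebra.coeff_single, Finsupp.single_apply]
  funext χ
  rw [Pi.mul_apply, hc, hc, Finset.sum_mul_sum]
  have h1 : ∀ m : Pr O N, (∑ m' : Pr O N, (if n χ m = k then kappa O N m else 0) *
      (if n χ m' = l then kappa O N m' else 0)) = if n χ m = k ∧ n χ m = l then kappa O N m else 0 := by
    intro m
    rw [Finset.sum_eq_single m]
    · by_cases h2 : n χ m = k
      · by_cases h3 : n χ m = l
        · rw [if_pos h2, if_pos h3, if_pos ⟨h2, h3⟩, kappa_mul, if_pos rfl]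
        · rw [if_neg h3, mul_zero, if_neg (fun h => h3 h.2)]
      · rw [if_neg h2, zero_mul, if_neg (fun h => h2 h.1)]
    · intro b _ hb
      by_cases h2 : n χ m = k
      · by_cases h3 : n χ b = l
        · rw [if_pos h2, if_pos h3, kappa_mul, if_neg (Ne.symm hb)]
        · rw [if_neg h3, mul_zero]
      · rw [if_neg h2, zero_mul]
    · intro h
      exact absurd (Finset.mem_univ _) h
  rw [Finset.sum_congr rfl fun m _ => h1 m]
  by_cases hkl : k = l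
  · subst hkl
    rw [if_pos rfl, hc]
    exact Finset.sum_congr rfl fun m _ => by simp only [and_self]
  · rw [if_neg hkl, Pi.zero_apply]
    refine Finset.sum_eq_zero fun m _ => ?_
    rw [if_neg]
    rintro ⟨h2, h3⟩
    exact hkl (h2.symm.trans h3)

theorem uN_tw {X : Type v} [Finite X] (n : X → Pr O N → ℤ) :
    mapU (tw (uT (X → Amod O N)) uT_comm) (mapU (lau (cst (X → Amod O N))) (uN n)) =
      mapU (lau (cst (X → Amod O N))) (uN n) * mapU (cst (X → Amod O N)[T;T⁻¹]) (uN n) := by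
  apply Units.ext
  rw [Units.val_mul]
  refine Matrix.ext fun i j => ?_
  rw [Matrix.mul_apply, Fintype.sum_unique]
  exact swap_orth (un n) (fun k l => swap_un_coeff n k l)

variable [IsDomain O] [CharZero O] [NeZero N] [HasEnoughRootsOfUnity O N]

theorem gpr_Theta (C : Type v) [Group C] [Finite C] (hC : ∀ a b : C, a * b = b * a)
    (hN : Nat.card C ∣ N) [Finite (C →* Oˣ)] (n : (C →* Oˣ) → Pr O N → ℤ) {G : Type w} [Group G]
    (f : C →* G) (z : G) (h : ∀ a, f a * z = z * f a) :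
    gpr O f z h (Theta N C hC hN n) =
      - K0.map (evL (MonoidAlgebra.mapDomainRingHom O f) (grpUnit O G z) (comm_grp O f z h))
        ((sqC (RingHom.id O) N C hC hN).lauSq.dl (uN n)) := by
  have := finite_dual (O := O) N hC hN
  exact pr_DD (sqC (RingHom.id O) N C hC hN) (uN n) (uN_tw n) _ _ _

end Theta

end Pool.Agent.H8.KZ
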