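import Pool.Agent.H8.KZ.Defs

/-!
# KZ: the symbols
-/

set_option autoImplicit false

open Matrix
open scoped Classical

universe u v w

namespace Pool.Agent.H8.KZ

open Pool.Agent.H71.FJ (K0 K0.map K0.one)
open Pool.Agent.H95.KM (Km1 ind)
open Pool.Agent.H95.WH (FamSub conjHom FinSub)
open Pool.Agent.H71.DB (conjCent cent_comm KG0 instKG0)

variable {k : Type u} [CommRing k] {G : Type v} [Group G]

/-- The projection. -/
noncomputable def toHm (k : Type u) [CommRing k] (G : Type v) [Group G] :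
    FreeAbelianGroup (SymM k G) →+ H1Km1 k G := QuotientAddGroup.mk' (SymRel k G)

/-- The symbol `[F, x, z]`. -/
noncomputable def sym (F : FamSub G FinSub) (x : Km1 (MonoidAlgebra k F.1))
    (z : Subgroup.centralizer (F.1 : Set G)) : H1Km1 k G :=
  QuotientAddGroup.mk (FreeAbelianGroup.of ⟨F, x, z⟩)

theorem toHm_eq_zero {w : FreeAbelianGroup (SymM k G)} (h : w ∈ SymRel k G) : toHm k G w = 0 :=
  (QuotientAddGroup.eq_zero_iff _).2 h

theorem sym_add (F : FamSub G FinSub) (x y : Km1 (MonoidAlgebra k F.1))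
    (z : Subgroup.centralizer (F.1 : Set G)) : sym F (x + y) z = sym F x z + sym F y z := by
  have h : toHm k G (symX k G F x y z) = 0 :=
    toHm_eq_zero (AddSubgroup.subset_closure (Or.inl (Or.inl ⟨F, x, y, z, rfl⟩)))
  unfold symX at h
  rw [map_sub, map_add, sub_eq_zero] at h
  exact h

theorem sym_mul (F : FamSub G FinSub) (x : Km1 (MonoidAlgebra k F.1))
    (z z' : Subgroup.centralizer (F.1 : Set G)) : sym F x (z * z') = sym F x z + sym F x z' := by
  have h : toHm k G (symZ k G F x z z') = 0 :=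
    toHm_eq_zero (AddSubgroup.subset_closure (Or.inl (Or.inr ⟨F, x, z, z', rfl⟩)))
  unfold symZ at h
  rw [map_sub, map_add, sub_eq_zero] at h
  exact h

theorem sym_conj (F F' : FamSub G FinSub) (g : G) (h : ∀ x ∈ F.1, g * x * g⁻¹ ∈ F'.1)
    (x : Km1 (MonoidAlgebra k F.1)) (z : Subgroup.centralizer (F'.1 : Set G)) :
    sym F' (ind k (conjHom g F.1 F'.1 h) x) z = sym F x (conjCent g F.1 F'.1 h z) := by
  have h' : toHm k G (symC k G F F' g h x z) = 0 :=
    toHm_eq_zero (AddSubgroup.subset_closure (Or.inr ⟨F, F', g, h, x, z, rfl⟩))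
  unfold symC at h'
  rw [map_sub, sub_eq_zero] at h'
  exact h'

/-- The assembly map on the symbols with values in `K₀(k[G])`. -/
noncomputable def asmM (k : Type u) [CommRing k] (G : Type v) [Group G] :
    H1Km1 k G →+ K0 (MonoidAlgebra k G) := assemblyM k G

theorem asmM_sym (F : FamSub G FinSub) (x : Km1 (MonoidAlgebra k F.1))
    (z : Subgroup.centralizer (F.1 : Set G)) :
    asmM k G (sym F x z) = gpr k F.1.subtype (z : G) (cent_comm z) x := by
  have h : FreeAbelianGroup.lift (symVal k) (symOf k G F x z) = symVal k ⟨F, x, z⟩ :=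
    FreeAbelianGroup.lift_apply_of _ _
  exact h

/-- the symbol as a homomorphism in the `K₋₁`-variable -/
noncomputable def symH (F : FamSub G FinSub) (z : Subgroup.centralizer (F.1 : Set G)) :
    Km1 (MonoidAlgebra k F.1) →+ H1Km1 k G :=
  AddMonoidHom.mk' (fun x => sym F x z) (fun x y => sym_add F x y z)

theorem symH_apply (F : FamSub G FinSub) (x : Km1 (MonoidAlgebra k F.1))
    (z : Subgroup.centralizer (F.1 : Set G)) : symH F z x = sym F x z := rfl

theorem sym_induction {P : H1Km1 k G → Prop} (h0 : P 0)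
    (h1 : ∀ (F : FamSub G FinSub) (x : Km1 (MonoidAlgebra k F.1))
      (z : Subgroup.centralizer (F.1 : Set G)), P (sym F x z))
    (h2 : ∀ a b, P a → P b → P (a + b)) (h3 : ∀ a, P a → P (-a)) (w : H1Km1 k G) : P w := by
  obtain ⟨y, rfl⟩ : ∃ y, toHm k G y = w := QuotientAddGroup.mk_surjective w
  induction y using FreeAbelianGroup.induction_on with
  | zero => rw [map_zero]; exact h0
  | of s => exact h1 s.F s.x s.z
  | neg s _ =>
    rw [map_neg]
    exact h3 _ (h1 s.F s.x s.z)
  | add x y hx hy => rw [map_add]; exact h2 _ _ hx hy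

/-- Restriction to a subgroup. -/
theorem sym_incl (F D : FamSub G FinSub) (h : D.1 ≤ F.1) (x : Km1 (MonoidAlgebra k D.1))
    (z : Subgroup.centralizer (F.1 : Set G)) (z' : Subgroup.centralizer (D.1 : Set G))
    (hz : (z' : G) = z) : sym F (ind k (Subgroup.inclusion h) x) z = sym D x z' := by
  have h1 : ∀ x ∈ D.1, (1 : G) * x * (1 : G)⁻¹ ∈ F.1 := by
    intro x hx
    rw [one_mul, inv_one, mul_one]
    exact h hx
  have h2 := sym_conj (k := k) D F 1 h1 x z
  have h3 : conjHom (1 : G) D.1 F.1 h1 = Subgroup.inclusion h := by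
    apply MonoidHom.ext
    intro a
    apply Subtype.ext
    change (1 : G) * a * (1 : G)⁻¹ = a
    rw [one_mul, inv_one, mul_one]
  have h4 : conjCent (1 : G) D.1 F.1 h1 z = z' := by
    apply Subtype.ext
    change (1 : G)⁻¹ * z * 1 = z'
    rw [inv_one, one_mul, mul_one, hz]
  rw [h3, h4] at h2
  exact h2

end Pool.Agent.H8.KZ
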