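import Pool.Agent.H8.KZ.LinD
import Pool.Agent.H8.KZ.SymK
import Pool.Agent.H95.KM.Main

/-!
# KZ, module ThZ: the functionals given by the classes `Θ(n)` and the transfer

`Fun` : `LinD.lean`; `sym`, `sym_add`, `sym_mul`, `sym_conj` : `SymK.lean`; `Theta_gal_ext`, `galN`, `permPr`, `gO`,
`mem_permPr_mk` : `Gal.lean`, `LocP.lean`; `Theta_add`, `Theta_map`, `Theta_const`, `Theta_vanish` :
`Pool/Agent/H95/KM/Theta.lean`; `comm_of_cyclic` : `Pool/Agent/H95/KM/Main.lean` (see there the verification of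
naturality etc. in `kernel_torsion`).

PROOF.  `Λ.F D n z = ∑ σ : L ≃ₐ[ℚ] L, φ (sym D (res D (Theta (galN N (gO σ) n))) z)`.
* `add`: `galN` is additive in `n`, `Theta_add`, `sym_add`.  `mul`: `sym_mul`.
* `nat`: `galN N σ (fun χ m => n (χ.comp c) m) = fun χ m => (galN N σ n) (χ.comp c) m`, `Theta_map`, `hnat`,
  `sym_conj`.
* `const`: `galN N σ (fun χ _ => k χ)` does not depend on `m`; `Theta_const`.
* `van`: `Theta_vanish`; `galN N σ n χ m ≠ 0` means `n χ' (σ⁻¹ m) ≠ 0`, so `ringChar (residue field of σ⁻¹ m) ∤ card D`,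
  i.e. `(card D : Amod) ∉ σ⁻¹ m` (`ringChar.spec`), so `(card D : Amod) ∉ m` (`mem_permPr` for the image of a natural
  number, which is fixed by `amodE`).
* `gal`: `galN N (gO σ) (galN N (gO τ) n) = galN N (gO (σ * τ)) n` (`σ * τ = σ ∘ τ` in `L ≃ₐ[ℚ] L`; `permPr_trans`,
  `permPr_symm`); reindex the sum (`Fintype.sum_equiv (Equiv.mulRight τ)` or `Equiv.sum_comp`).
* Last claim: by `Theta_gal_ext` `Theta (galN N (gO σ) n)` is the image of `x` for all `σ`, and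
  `res (image of x) = d • x` (`hres`), `symH` is additive.
-/

set_option autoImplicit false

open NumberField

universe u v w

namespace Pool.Agent.H8.KZ

open Pool.Agent.H95.KM
open Pool.Agent.H95.WH (conjHom FinSub)
open Pool.Agent.H71.DB (conjCent)

private theorem thz_galN_add {O : Type} [CommRing O] (N : ℕ) {C : Type v} [Group C] (σ : O ≃+* O)
    (n n' : (C →* Oˣ) → Pr O N → ℤ) : galN N σ (n + n') = galN N σ n + galN N σ n' := rfl

private theorem thz_galN_comp {O : Type} [CommRing O] (N : ℕ) {C C' : Type v} [Group C] [Group C']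
    (σ : O ≃+* O) (c : C →* C') (n : (C →* Oˣ) → Pr O N → ℤ) :
    galN N σ (fun (χ : C' →* Oˣ) m => n (χ.comp c) m) = fun χ m => galN N σ n (χ.comp c) m := rfl

private theorem thz_galN_const {O : Type} [CommRing O] (N : ℕ) {C : Type v} [Group C]
    (σ : O ≃+* O) (k : (C →* Oˣ) → ℤ) :
    galN N σ (fun χ (_ : Pr O N) => k χ) =
      fun χ (_ : Pr O N) => k ((Units.map (σ.symm : O →* O)).comp χ) := rfl

private theorem thz_galN_van {O : Type} [CommRing O] (N : ℕ) {C : Type v} [Group C]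
    (σ : O ≃+* O) (n : (C →* Oˣ) → Pr O N → ℤ) (c : ℕ)
    (h : ∀ χ m, n χ m ≠ 0 → (c : Amod O N) ∉ m.asIdeal) :
    ∀ χ m, galN N σ n χ m ≠ 0 → (c : Amod O N) ∉ m.asIdeal := by
  intro χ m hne hmem
  apply h _ _ hne
  rw [← mem_permPr σ N, map_natCast, Equiv.apply_symm_apply]
  exact hmem

private theorem thz_gO_mul {L : Type} [Field L] [NumberField L] (σ τ : L ≃ₐ[ℚ] L) :
    gO (σ * τ) = (gO τ).trans (gO σ) := by
  apply RingEquiv.ext
  intro x
  apply RingOfIntegers.ext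
  rfl

private theorem thz_galN_mul {L : Type} [Field L] [NumberField L] (N : ℕ) {C : Type v} [Group C]
    (σ τ : L ≃ₐ[ℚ] L) (n : (C →* (𝓞 L)ˣ) → Pr (𝓞 L) N → ℤ) :
    galN N (gO σ) (galN N (gO τ) n) = galN N (gO (σ * τ)) n := by
  funext χ m
  have h1 : (permPr (gO (σ * τ)) N).symm m =
      (permPr (gO τ) N).symm ((permPr (gO σ) N).symm m) := by
    rw [Equiv.symm_apply_eq, thz_gO_mul, permPr_trans, Equiv.apply_symm_apply,
      Equiv.apply_symm_apply]
  have h2 : (Units.map ((gO (σ * τ)).symm : 𝓞 L →* 𝓞 L)).comp χ =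
      (Units.map ((gO τ).symm : 𝓞 L →* 𝓞 L)).comp
        ((Units.map ((gO σ).symm : 𝓞 L →* 𝓞 L)).comp χ) := by
    rw [thz_gO_mul]
    rfl
  unfold galN
  rw [h1, h2]

section term

variable {L : Type} [Field L] [NumberField L] (N : ℕ) [NeZero N]
  [HasEnoughRootsOfUnity (𝓞 L) N] [Finite (Amod (𝓞 L) N)] {G : Type v} [Group G]
  (φ : H1Km1 ℤ G →+ ℚ)
  (res : ∀ (H : Type v) [Group H], Km1 (MonoidAlgebra (𝓞 L) H) →+ Km1 (MonoidAlgebra ℤ H))

/-- the term of the sum -/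
private noncomputable def thz_tm (D : Good G N) (n : (D.1 →* (𝓞 L)ˣ) → Pr (𝓞 L) N → ℤ)
    (z : Subgroup.centralizer (D.1 : Set G)) : ℚ :=
  haveI : Finite D.1 := D.2.1.1
  φ (sym (⟨D.1, D.2.1.1⟩ : Pool.Agent.H95.WH.FamSub G FinSub)
    (res D.1 (Theta N D.1 (comm_of_cyclic D.2.1.2) D.2.2 n)) z)

private theorem thz_tm_add (D : Good G N) (n n' : (D.1 →* (𝓞 L)ˣ) → Pr (𝓞 L) N → ℤ)
    (z : Subgroup.centralizer (D.1 : Set G)) :
    thz_tm N φ res D (n + n') z = thz_tm N φ res D n z + thz_tm N φ res D n' z := by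
  have : Finite D.1 := D.2.1.1
  unfold thz_tm
  rw [Theta_add, map_add, sym_add, map_add]

private theorem thz_tm_mul (D : Good G N) (n : (D.1 →* (𝓞 L)ˣ) → Pr (𝓞 L) N → ℤ)
    (z z' : Subgroup.centralizer (D.1 : Set G)) :
    thz_tm N φ res D n (z * z') = thz_tm N φ res D n z + thz_tm N φ res D n z' := by
  unfold thz_tm
  rw [sym_mul, map_add]

private theorem thz_tm_zero (D : Good G N) (n : (D.1 →* (𝓞 L)ˣ) → Pr (𝓞 L) N → ℤ)
    (z : Subgroup.centralizer (D.1 : Set G)) (h : haveI : Finite D.1 := D.2.1.1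
      Theta N D.1 (comm_of_cyclic D.2.1.2) D.2.2 n = 0) :
    thz_tm N φ res D n z = 0 := by
  have : Finite D.1 := D.2.1.1
  unfold thz_tm
  rw [h, map_zero]
  change φ (symH (⟨D.1, D.2.1.1⟩ : Pool.Agent.H95.WH.FamSub G FinSub) z 0) = 0
  rw [map_zero, map_zero]

private theorem thz_tm_nat
    (hnat : ∀ (H H' : Type v) [Group H] [Group H'] (f : H →* H')
      (x : Km1 (MonoidAlgebra (𝓞 L) H)), res H' (ind (𝓞 L) f x) = ind ℤ f (res H x))
    (D D' : Good G N) (g : G) (h : ∀ x ∈ D.1, g * x * g⁻¹ ∈ D'.1)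
    (n : (D.1 →* (𝓞 L)ˣ) → Pr (𝓞 L) N → ℤ) (z : Subgroup.centralizer (D'.1 : Set G)) :
    thz_tm N φ res D' (fun χ m => n (χ.comp (conjHom g D.1 D'.1 h)) m) z =
      thz_tm N φ res D n (conjCent g D.1 D'.1 h z) := by
  have : Finite D.1 := D.2.1.1
  have : Finite D'.1 := D'.2.1.1
  unfold thz_tm
  rw [Theta_map N D.1 (comm_of_cyclic D.2.1.2) D.2.2 D'.1, hnat]
  congr 1
  exact sym_conj (⟨D.1, D.2.1.1⟩ : Pool.Agent.H95.WH.FamSub G FinSub) ⟨D'.1, D'.2.1.1⟩ g h _ z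

private theorem thz_tm_val (d : ℕ)
    (hres : ∀ (H : Type v) [Group H] (x : Km1 (MonoidAlgebra ℤ H)),
      res H (Km1.map (MonoidAlgebra.mapRingHom H (Int.castRingHom (𝓞 L))) x) = d • x)
    (D : Good G N) (hD : Finite D.1) (n : (D.1 →* (𝓞 L)ˣ) → Pr (𝓞 L) N → ℤ)
    (z : Subgroup.centralizer (D.1 : Set G)) (x : Km1 (MonoidAlgebra ℤ D.1))
    (hx : Km1.map (MonoidAlgebra.mapRingHom D.1 (Int.castRingHom (𝓞 L))) x =
      Theta N D.1 (comm_of_cyclic D.2.1.2) D.2.2 n) :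
    thz_tm N φ res D n z =
      (d : ℚ) * φ (sym (⟨D.1, hD⟩ : Pool.Agent.H95.WH.FamSub G FinSub) x z) := by
  unfold thz_tm
  rw [← hx, hres]
  change φ (symH (⟨D.1, hD⟩ : Pool.Agent.H95.WH.FamSub G FinSub) z (d • x)) = _
  rw [map_nsmul, map_nsmul, nsmul_eq_mul]
  rfl

end term

theorem exists_fun {L : Type} [Field L] [NumberField L] (N : ℕ) [NeZero N]
    [HasEnoughRootsOfUnity (𝓞 L) N] [Finite (Amod (𝓞 L) N)] {G : Type v} [Group G]
    (φ : H1Km1 ℤ G →+ ℚ) (d : ℕ)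
    (res : ∀ (H : Type v) [Group H], Km1 (MonoidAlgebra (𝓞 L) H) →+ Km1 (MonoidAlgebra ℤ H))
    (hres : ∀ (H : Type v) [Group H] (x : Km1 (MonoidAlgebra ℤ H)),
      res H (Km1.map (MonoidAlgebra.mapRingHom H (Int.castRingHom (𝓞 L))) x) = d • x)
    (hnat : ∀ (H H' : Type v) [Group H] [Group H'] (f : H →* H')
      (x : Km1 (MonoidAlgebra (𝓞 L) H)), res H' (ind (𝓞 L) f x) = ind ℤ f (res H x)) :
    ∃ Λ : Fun L N G (fun m => ringChar (Amod (𝓞 L) N ⧸ m.asIdeal)),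
      ∀ (D : Good G N) (hD : Finite D.1) (n : (D.1 →* (𝓞 L)ˣ) → Pr (𝓞 L) N → ℤ)
        (z : Subgroup.centralizer (D.1 : Set G)) (x : Km1 (MonoidAlgebra ℤ D.1)),
        Km1.map (MonoidAlgebra.mapRingHom D.1 (Int.castRingHom (𝓞 L))) x =
          Theta N D.1 (comm_of_cyclic D.2.1.2) D.2.2 n →
        Λ.F D n z = (Fintype.card (L ≃ₐ[ℚ] L) : ℚ) * d *
          φ (sym (⟨D.1, hD⟩ : Pool.Agent.H95.WH.FamSub G FinSub) x z) := by
  refine ⟨{ F := fun D n z => ∑ σ : L ≃ₐ[ℚ] L, thz_tm N φ res D (galN N (gO σ) n) z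
            add := ?_
            mul := ?_
            nat := ?_
            const := ?_
            van := ?_
            gal := ?_ }, ?_⟩
  · intro D n n' z
    rw [← Finset.sum_add_distrib]
    apply Finset.sum_congr rfl
    intro σ _
    rw [thz_galN_add, thz_tm_add]
  · intro D n z z'
    rw [← Finset.sum_add_distrib]
    apply Finset.sum_congr rfl
    intro σ _
    rw [thz_tm_mul]
  · intro D D' g h n z
    apply Finset.sum_congr rfl
    intro σ _
    rw [thz_galN_comp]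
    exact thz_tm_nat N φ res hnat D D' g h (galN N (gO σ) n) z
  · intro D k z
    apply Finset.sum_eq_zero
    intro σ _
    have : Finite D.1 := D.2.1.1
    rw [thz_galN_const]
    exact thz_tm_zero N φ res D _ z (Theta_const N D.1 _ _ _)
  · intro D n z h
    apply Finset.sum_eq_zero
    intro σ _
    have : Finite D.1 := D.2.1.1
    refine thz_tm_zero N φ res D _ z (Theta_vanish N D.1 _ _ _ (thz_galN_van N (gO σ) n _ ?_))
    intro χ m hne hmem
    apply h χ m hne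
    rw [← ringChar.spec, ← map_natCast (Ideal.Quotient.mk m.asIdeal)]
    exact Ideal.Quotient.eq_zero_iff_mem.2 hmem
  · intro D τ n z
    have h1 : ∀ σ : L ≃ₐ[ℚ] L, thz_tm N φ res D (galN N (gO σ) (galN N (gO τ) n)) z =
        thz_tm N φ res D (galN N (gO (Equiv.mulRight τ σ)) n) z := by
      intro σ
      rw [thz_galN_mul]
      rfl
    change ∑ σ : L ≃ₐ[ℚ] L, thz_tm N φ res D (galN N (gO σ) (galN N (gO τ) n)) z =
      ∑ σ : L ≃ₐ[ℚ] L, thz_tm N φ res D (galN N (gO σ) n) z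
    rw [Finset.sum_congr rfl (fun σ _ => h1 σ)]
    exact Equiv.sum_comp (Equiv.mulRight τ)
      (fun σ : L ≃ₐ[ℚ] L => thz_tm N φ res D (galN N (gO σ) n) z)
  · intro D hD n z x hx
    have h1 : ∀ σ : L ≃ₐ[ℚ] L, thz_tm N φ res D (galN N (gO σ) n) z =
        (d : ℚ) * φ (sym (⟨D.1, hD⟩ : Pool.Agent.H95.WH.FamSub G FinSub) x z) := fun σ =>
      thz_tm_val N φ res d hres D hD _ z x
        (Theta_gal_ext D.1 (comm_of_cyclic D.2.1.2) D.2.2 (gO σ) n x hx)
    change ∑ σ : L ≃ₐ[ℚ] L, thz_tm N φ res D (galN N (gO σ) n) z = _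
    rw [Finset.sum_congr rfl (fun σ _ => h1 σ), Finset.sum_const, Finset.card_univ, nsmul_eq_mul,
      mul_assoc]

end Pool.Agent.H8.KZ
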