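import Pool.Agent.H8.KZ.RelD
import Pool.Agent.H8.KZ.Swap
import Pool.Agent.H8.KZ.Loc2
import Pool.Agent.H8.KZ.LinB
import Pool.Agent.H8.KZ.ThZ
import Pool.Agent.H8.KZ.ArtZ
import Pool.Agent.H71.DB.Elim

/-!
# KZ, module MainZ: the kernel of the full assembly map in degree zero is a torsion group

PROOF of `asm_torsion`.  Suppose no non-zero multiple of `w` vanishes.  `exists_cyc0`:
`M' • w = ∑ i, sym (C i) (x i) (z i)`, and no non-zero multiple of it vanishes, so there is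
`φ : H1Km1 ℤ G →+ ℚ` which does not kill it (`Pool.Agent.H71.DB.exists_hom_rat`).
Let `N = ∏ i, Nat.card (C i)`, `L = CyclotomicField N ℚ`, `O = 𝓞 L` (`enough_roots`, `finite_Amod` in
`Pool/Agent/H95/KM/Main.lean`), `exists_transfer O` (`Trans.lean`) gives `d, res`; `exists_fun` gives `Λ`.
`Theta_surj`: `Km1.map .. (x i) = Theta (n i)`.  So `∑ i, Λ.F (C i) (n i) (z i) = |Γ| * d * φ (∑ sym ..) ≠ 0`,
and it suffices to verify the hypothesis `hrel` of `linalgZ`.
`∑ i, gpr ℤ (C i).subtype (z i) _ (x i) = asmM (M' • w) = 0` (`asmM_sym`); apply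
`K0.map (mapRingHom G (Int.castRingHom O))` and `map_gpr` : `∑ i, gpr O (C i).subtype (z i) _ (Theta (n i)) = 0`.
`gpr_Theta` turns this into the hypothesis of `rel_two` (the signs are equal for all `i`).  `rel_two` gives for each
`c` the `k, w, a`.  For `m` with `ringChar (Amod O N ⧸ m.asIdeal) ∣ orderOf c`: `p = ringChar ..` is prime and in `m`
(as at the end of `kernel_torsion` in `Pool/Agent/H95/KM/Main.lean`); `exists_loc2` gives `Om, f, j, ..`, `exists_reg`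
(`LocP.lean`) gives `K, κ, ι, r, reg, T, σ`; apply the conclusion of `rel_two` to them with
`σ t` as ring homomorphisms.
PROOF of `kernel_torsion0`: `k_zero` and `asm_torsion`.
PROOF of `full_injective0`: `lTensor_injective` of `Pool/Agent/H71/DB/Main.lean` (copy if the import is missing).
-/

set_option autoImplicit false

open NumberField

universe u v w

namespace Pool.Agent.H8.KZ

open Pool.Agent.H71.FJ (K0 K0.map K0.one)
open Pool.Agent.H95.KM (Km1)

open Pool.Agent.H95.KM in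
open Pool.Agent.H71.DB (comm_grp cent_comm) in
open Pool.Agent.H71.DO (grpUnit) in
open Classical in
/-- the hypothesis `hrel` of `linalgZ` -/
private theorem mainz_rel {G : Type v} [Group G]
    (hG : ∀ (p : ℕ) (c : G), p.Prime → IsOfFinOrder c → p ∣ orderOf c →
      PSep p (Subgroup.centralizer ({c} : Set G)))
    (N : ℕ) [NeZero N] [HasEnoughRootsOfUnity (𝓞 (CyclotomicField N ℚ)) N]
    [Finite (Amod (𝓞 (CyclotomicField N ℚ)) N)]
    {ι : Type} [Fintype ι] (C : ι → Good G N) [∀ i, Fintype (C i).1]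
    [∀ i, Fintype ((C i).1 →* (𝓞 (CyclotomicField N ℚ))ˣ)]
    (n : ∀ i, ((C i).1 →* (𝓞 (CyclotomicField N ℚ))ˣ) → Pr (𝓞 (CyclotomicField N ℚ)) N → ℤ)
    (z : ∀ i, Subgroup.centralizer ((C i).1 : Set G))
    (h : ∑ i, gpr (𝓞 (CyclotomicField N ℚ)) (C i).1.subtype (z i : G) (cent_comm (z i))
      (Theta N (C i).1 (comm_of_cyclic (C i).2.1.2) (C i).2.2 (n i)) = 0)
    (c : G) (hc : IsOfFinOrder c) : ∃ (k : ℕ) (w : Fin k → CyclotomicField N ℚ)
      (a : Fin k → Subgroup.centralizer ({c} : Set G)),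
      ∀ m : Pr (𝓞 (CyclotomicField N ℚ)) N,
        ringChar (Amod (𝓞 (CyclotomicField N ℚ)) N ⧸ m.asIdeal) ∣ orderOf c →
        ∃ (p : ℕ) (T : Type) (_ : Fintype T) (_ : Nonempty T)
          (σ : T → (CyclotomicField N ℚ ≃ₐ[ℚ] CyclotomicField N ℚ)),
          PSep p (Subgroup.centralizer ({c} : Set G)) ∧ (∀ t, permPr (gO (σ t)) N m = m) ∧
          ∀ lam : Subgroup.centralizer ({c} : Set G) →* Multiplicative ℚ,
            (∀ y, ¬ p ∣ (Multiplicative.toAdd (lam y)).den) →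
            ∑ t, σ t (∑ i, ∑ χ : (C i).1 →* (𝓞 (CyclotomicField N ℚ))ˣ,
              (n i χ m : CyclotomicField N ℚ) *
              ((Fintype.card (C i).1 : CyclotomicField N ℚ)⁻¹ * ∑ d : (C i).1,
                algebraMap (𝓞 (CyclotomicField N ℚ)) (CyclotomicField N ℚ)
                  (((χ d)⁻¹ : (𝓞 (CyclotomicField N ℚ))ˣ) : 𝓞 (CyclotomicField N ℚ)) *
                  (cocL c hc lam (CyclotomicField N ℚ)).L (z i : G) (d : G))) =
            ∑ t, σ t (∑ s, w s * ((Multiplicative.toAdd (lam (a s)) : ℚ) :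
              CyclotomicField N ℚ)) := by
  have hfL : Function.Injective (algebraMap (𝓞 (CyclotomicField N ℚ)) (CyclotomicField N ℚ)) :=
    FaithfulSMul.algebraMap_injective _ _
  have hsum : ∑ i, K0.map (evL (MonoidAlgebra.mapDomainRingHom (𝓞 (CyclotomicField N ℚ))
      ((C i).1).subtype) (grpUnit (𝓞 (CyclotomicField N ℚ)) G (z i : G))
      (comm_grp (𝓞 (CyclotomicField N ℚ)) ((C i).1).subtype (z i : G) (cent_comm (z i))))
        ((sqC (RingHom.id (𝓞 (CyclotomicField N ℚ))) N (C i).1 (comm_of_cyclic (C i).2.1.2)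
          (C i).2.2).lauSq.dl (uN (n i))) = 0 := by
    have h3 : ∀ i, gpr (𝓞 (CyclotomicField N ℚ)) (C i).1.subtype (z i : G) (cent_comm (z i))
        (Theta N (C i).1 (comm_of_cyclic (C i).2.1.2) (C i).2.2 (n i)) =
        - K0.map (evL (MonoidAlgebra.mapDomainRingHom (𝓞 (CyclotomicField N ℚ))
      ((C i).1).subtype) (grpUnit (𝓞 (CyclotomicField N ℚ)) G (z i : G))
      (comm_grp (𝓞 (CyclotomicField N ℚ)) ((C i).1).subtype (z i : G) (cent_comm (z i))))
        ((sqC (RingHom.id (𝓞 (CyclotomicField N ℚ))) N (C i).1 (comm_of_cyclic (C i).2.1.2)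
          (C i).2.2).lauSq.dl (uN (n i))) := fun i =>
      gpr_Theta (C i).1 (comm_of_cyclic (C i).2.1.2) (C i).2.2 (n i) (C i).1.subtype (z i : G)
        (cent_comm (z i))
    rw [Finset.sum_congr rfl fun i _ => h3 i, Finset.sum_neg_distrib, neg_eq_zero] at h
    exact h
  obtain ⟨k, w, a, hwa⟩ := rel_two N (algebraMap (𝓞 (CyclotomicField N ℚ)) (CyclotomicField N ℚ))
    hfL (fun i => (C i).1) (fun i => comm_of_cyclic (C i).2.1.2) (fun i => (C i).2.2)
    (fun i => (z i : G)) (fun i => cent_comm (z i)) n hsum c hc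
  refine ⟨k, w, a, ?_⟩
  intro m hm
  have hmax := m.isMaximal
  have hp : (ringChar (Amod (𝓞 (CyclotomicField N ℚ)) N ⧸ m.asIdeal)).Prime := by
    have hfin : Finite (Amod (𝓞 (CyclotomicField N ℚ)) N ⧸ m.asIdeal) :=
      Finite.of_surjective _ Ideal.Quotient.mk_surjective
    have hne : ringChar (Amod (𝓞 (CyclotomicField N ℚ)) N ⧸ m.asIdeal) ≠ 0 := by
      intro h0
      rw [h0, zero_dvd_iff] at hm
      exact hc.orderOf_pos.ne' hm
    have : CharP (Amod (𝓞 (CyclotomicField N ℚ)) N ⧸ m.asIdeal)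
        (ringChar (Amod (𝓞 (CyclotomicField N ℚ)) N ⧸ m.asIdeal)) := ringChar.charP _
    rcases CharP.char_is_prime_or_zero (Amod (𝓞 (CyclotomicField N ℚ)) N ⧸ m.asIdeal)
      (ringChar (Amod (𝓞 (CyclotomicField N ℚ)) N ⧸ m.asIdeal)) with h | h
    · exact h
    · exact absurd h hne
  have hpm : ((ringChar (Amod (𝓞 (CyclotomicField N ℚ)) N ⧸ m.asIdeal) : ℕ) :
      Amod (𝓞 (CyclotomicField N ℚ)) N) ∈ m.asIdeal := by
    rw [← Ideal.Quotient.eq_zero_iff_mem, map_natCast]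
    exact ringChar.Nat.cast_ringChar
  obtain ⟨p, hpe⟩ : ∃ p, p = ringChar (Amod (𝓞 (CyclotomicField N ℚ)) N ⧸ m.asIdeal) := ⟨_, rfl⟩
  rw [← hpe] at hp hpm hm
  have : Fact p.Prime := ⟨hp⟩
  obtain ⟨Om, i1, i2, i3, f, j, hjf, hj, -, hk, -, huniv, hext⟩ := exists_loc2 N
    (algebraMap (𝓞 (CyclotomicField N ℚ)) (CyclotomicField N ℚ)) hfL m
  obtain ⟨K, i4, i5, κ, ι', r, reg, T, i6, i7, σ, hκ, hσ, hreg⟩ :=
    exists_reg N p m hpm Om f j hjf huniv hext
  refine ⟨p, T, i6, i7, σ, hG p c hp hc hm, hσ, ?_⟩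
  intro lam hlam
  exact hwa m Om f j hjf hj hk p K κ ι' r reg T
    (fun t => ((σ t : CyclotomicField N ℚ ≃ₐ[ℚ] CyclotomicField N ℚ) :
      CyclotomicField N ℚ →+* CyclotomicField N ℚ)) hκ hreg hm lam hlam

open Pool.Agent.H95.KM hiding FamSub in
open Pool.Agent.H95.WH (FamSub FinSub) in
theorem asm_torsion (G : Type v) [Group G]
    (hG : ∀ (p : ℕ) (c : G), p.Prime → IsOfFinOrder c → p ∣ orderOf c →
      PSep p (Subgroup.centralizer ({c} : Set G)))
    (w : H1Km1 ℤ G) (h : asmM ℤ G w = 0) : ∃ m : ℤ, m ≠ 0 ∧ m • w = 0 := by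
  classical
  by_contra hcon
  push Not at hcon
  obtain ⟨M, r, C, hf, x, z, hM, hcyc, hMw⟩ := exists_cyc0 w
  obtain ⟨φ, hφ⟩ := Pool.Agent.H71.DB.exists_hom_rat
    (∑ i, sym (⟨C i, hf i⟩ : FamSub G FinSub) (x i) (z i)) (by
      intro m hm h0
      rw [← hMw, ← mul_smul] at h0
      exact hcon (m * M) (mul_ne_zero hm hM) h0)
  obtain ⟨N, hN⟩ : ∃ N : ℕ, N = ∏ i, Nat.card (C i) := ⟨_, rfl⟩
  have hN0 : NeZero N := ⟨by
    rw [hN, Finset.prod_ne_zero_iff]
    intro i _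
    exact Nat.card_pos.ne'⟩
  have hdvd : ∀ i, Nat.card (C i) ∣ N := fun i => by
    rw [hN]
    exact Finset.dvd_prod_of_mem _ (Finset.mem_univ i)
  have h1 : HasEnoughRootsOfUnity (𝓞 (CyclotomicField N ℚ)) N := enough_roots N
  have h2 : Finite (Amod (𝓞 (CyclotomicField N ℚ)) N) := finite_Amod (𝓞 (CyclotomicField N ℚ)) N
  obtain ⟨d, res, hd, hres, hnat⟩ := exists_transfer.{v} (𝓞 (CyclotomicField N ℚ))
  obtain ⟨Λ, hΛ⟩ := exists_fun (L := CyclotomicField N ℚ) N φ d res hres hnat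
  have hsurj : ∀ i, ∃ n, Km1.map (MonoidAlgebra.mapRingHom (C i)
      (Int.castRingHom (𝓞 (CyclotomicField N ℚ)))) (x i) =
      Theta N (C i) (comm_of_cyclic (hcyc i)) (hdvd i) n := fun i => Theta_surj N _ _ _ _
  choose n hn using hsurj
  have : ∀ i, Fintype (C i) := fun i => Fintype.ofFinite _
  have hdual : ∀ i, Finite ((C i) →* (𝓞 (CyclotomicField N ℚ))ˣ) := fun i =>
    finite_dual (O := 𝓞 (CyclotomicField N ℚ)) N (comm_of_cyclic (hcyc i)) (hdvd i)
  have : ∀ i, Fintype ((C i) →* (𝓞 (CyclotomicField N ℚ))ˣ) := fun i => Fintype.ofFinite _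
  have hsum : ∑ i, gpr (𝓞 (CyclotomicField N ℚ)) (C i).subtype (z i : G)
      (Pool.Agent.H71.DB.cent_comm (z i))
      (Theta N (C i) (comm_of_cyclic (hcyc i)) (hdvd i) (n i)) = 0 := by
    have h3 : ∑ i, gpr ℤ (C i).subtype (z i : G) (Pool.Agent.H71.DB.cent_comm (z i)) (x i) = 0 := by
      have h4 : asmM ℤ G (M • w) = 0 := by rw [map_zsmul, h, smul_zero]
      rw [hMw, map_sum] at h4
      rw [← h4]
      refine Finset.sum_congr rfl fun i _ => ?_
      exact (asmM_sym (⟨C i, hf i⟩ : FamSub G FinSub) (x i) (z i)).symm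
    have h5 := congrArg (K0.map (MonoidAlgebra.mapRingHom G
      (Int.castRingHom (𝓞 (CyclotomicField N ℚ))))) h3
    rw [map_sum, map_zero] at h5
    rw [← h5]
    refine Finset.sum_congr rfl fun i _ => ?_
    rw [map_gpr, hn i]
  have key := linalgZ N (fun m => ringChar (Amod (𝓞 (CyclotomicField N ℚ)) N ⧸ m.asIdeal)) Λ
    (fun i => (⟨C i, ⟨hf i, hcyc i⟩, hdvd i⟩ : Good G N)) n z
    (mainz_rel hG N (fun i => (⟨C i, ⟨hf i, hcyc i⟩, hdvd i⟩ : Good G N)) n z hsum)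
  have h6 : ∀ i, Λ.F (⟨C i, ⟨hf i, hcyc i⟩, hdvd i⟩ : Good G N) (n i) (z i) =
      (Fintype.card (CyclotomicField N ℚ ≃ₐ[ℚ] CyclotomicField N ℚ) : ℚ) * d *
        φ (sym (⟨C i, hf i⟩ : FamSub G FinSub) (x i) (z i)) := fun i =>
    hΛ (⟨C i, ⟨hf i, hcyc i⟩, hdvd i⟩ : Good G N) (hf i) (n i) (z i) (x i) (hn i)
  rw [Finset.sum_congr rfl fun i _ => h6 i, ← Finset.mul_sum, ← map_sum] at key
  rcases mul_eq_zero.1 key with h7 | h7
  · rcases mul_eq_zero.1 h7 with h8 | h8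
    · exact Fintype.card_ne_zero (Nat.cast_eq_zero.1 h8)
    · exact hd.ne' (Nat.cast_eq_zero.1 h8)
  · exact hφ h7

theorem kernel_torsion0 (G : Type v) [Group G]
    (hG : ∀ (p : ℕ) (c : G), p.Prime → IsOfFinOrder c → p ∣ orderOf c →
      PSep p (Subgroup.centralizer ({c} : Set G)))
    (k : ℤ) (w : H1Km1 ℤ G) (M : ℤ) (hM : M ≠ 0)
    (h : M • (k • K0.one (MonoidAlgebra ℤ G) + asmM ℤ G w) = 0) :
    k = 0 ∧ ∃ m : ℤ, m ≠ 0 ∧ m • w = 0 := by
  have hk := k_zero k w M hM h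
  refine ⟨hk, ?_⟩
  rw [hk, zero_smul, zero_add, ← map_zsmul] at h
  obtain ⟨m, hm, h1⟩ := asm_torsion G hG (M • w) h
  exact ⟨m * M, mul_ne_zero hm hM, by rw [mul_smul]; exact h1⟩

/-- **Rational injectivity of the full assembly map in degree zero.** -/
theorem full_injective0 (G : Type v) [Group G]
    (hG : ∀ (p : ℕ), p.Prime → ∀ C : Subgroup G, Finite C → IsCyclic C → p ∣ Nat.card C →
      PSep p (Subgroup.centralizer (C : Set G))) :
    Function.Injective (LinearMap.lTensor ℚ (fullAssembly0 ℤ G).toIntLinearMap) := by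
  apply Pool.Agent.H95.KM.lTensor_injective
  rintro ⟨k, w⟩ h0
  have hG' : ∀ (p : ℕ) (c : G), p.Prime → IsOfFinOrder c → p ∣ orderOf c →
      PSep p (Subgroup.centralizer ({c} : Set G)) := by
    intro p c hp hc hpc
    have h1 := hG p hp (Subgroup.zpowers c) (finite_zpowers.2 hc) inferInstance (by rw [Nat.card_zpowers]; exact hpc)
    have h2 : Subgroup.centralizer ((Subgroup.zpowers c : Subgroup G) : Set G) =
        Subgroup.centralizer ({c} : Set G) := by
      rw [Subgroup.zpowers_eq_closure, Subgroup.centralizer_closure]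
    rw [h2] at h1
    exact h1
  have h1 : (1 : ℤ) • (k • K0.one (MonoidAlgebra ℤ G) + asmM ℤ G w) = 0 := by
    rw [one_smul]
    exact h0
  obtain ⟨hk, m, hm, hmw⟩ := kernel_torsion0 G hG' k w 1 one_ne_zero h1
  refine ⟨m, hm, ?_⟩
  rw [hk]
  apply Prod.ext
  · change m • (0 : ℤ) = 0
    rw [smul_zero]
  · exact hmw

end Pool.Agent.H8.KZ
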