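import Pool.Agent.H8.KZ.OpDefs

/-!
# KZ: calculus of operators on row vectors of Laurent polynomials
-/

set_option autoImplicit false

open Matrix
open scoped LaurentPolynomial

universe u v w

namespace Pool.Agent.H8.KZ

open Pool.Agent.H71.FJ Pool.Agent.H95.KM

variable {A : Type u} [Ring A] {ι : Type v} {κ : Type w}

section basic

variable [DecidableEq ι]

theorem bas_coeff (a : ℤ) (i j : ι) (b : ℤ) :
    (bas (A := A) a i j).coeff b = if i = j ∧ a = b then 1 else 0 := by
  classical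
  rw [bas]
  by_cases h : i = j
  · subst h
    rw [Pi.single_eq_same, AddMonoidAlgebra.coeff_single, Finsupp.single_apply]
    simp
  · rw [Pi.single_eq_of_ne' h]
    simp [h]

/-- expansion of a vector supported in the window -/
theorem lv_expand [Fintype ι] (D : ℕ) (v : LV A ι)
    (hv : ∀ j b, (b < -(D : ℤ) ∨ (D : ℤ) ≤ b) → (v j).coeff b = 0) :
    v = ∑ q : Fin (2 * D) × ι, (v q.2).coeff (((q.1 : ℕ) : ℤ) - D) •
      bas (A := A) (((q.1 : ℕ) : ℤ) - D) q.2 := by
  funext j
  apply ext_coeff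
  intro b
  rw [Finset.sum_apply, AddMonoidAlgebra.coeff_sum, Finsupp.finsetSum_apply]
  simp only [Pi.smul_apply, AddMonoidAlgebra.coeff_smul, Finsupp.smul_apply, bas_coeff,
    smul_eq_mul, mul_ite, mul_one, mul_zero]
  by_cases hb : b < -(D : ℤ) ∨ (D : ℤ) ≤ b
  · rw [hv j b hb]
    symm
    apply Finset.sum_eq_zero
    rintro ⟨q, k⟩ _
    rw [if_neg]
    rintro ⟨h1, h2⟩
    have := q.2
    simp only at h2
    omega
  · push Not at hb
    obtain ⟨n, hn⟩ : ∃ n : ℕ, (n : ℤ) = b + D := ⟨(b + D).toNat, by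
      rw [Int.toNat_of_nonneg]; omega⟩
    have hn2 : n < 2 * D := by omega
    rw [Finset.sum_eq_single (⟨n, hn2⟩, j)]
    · rw [if_pos ⟨rfl, by simp only; omega⟩]
      congr 1
      simp only
      omega
    · rintro ⟨q, k⟩ _ h
      rw [if_neg]
      rintro ⟨h1, h2⟩
      apply h
      simp only at h1 h2
      subst h1
      congr 1
      apply Fin.ext
      simp only
      omega
    · intro h
      exact absurd (Finset.mem_univ _) h

/-- expansion of any vector -/
theorem lv_expand' [Fintype ι] (v : LV A ι) : ∃ D : ℕ,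
    v = ∑ q : Fin (2 * D) × ι, (v q.2).coeff (((q.1 : ℕ) : ℤ) - D) •
      bas (A := A) (((q.1 : ℕ) : ℤ) - D) q.2 := by
  obtain ⟨D, hD⟩ : ∃ D : ℕ, ∀ j b, (b < -(D : ℤ) ∨ (D : ℤ) ≤ b) → (v j).coeff b = 0 := by
    refine ⟨∑ j, ∑ b ∈ (v j).coeff.support, (b.natAbs + 1), fun j b hb => ?_⟩
    by_contra h
    have h1 : b.natAbs + 1 ≤ ∑ b ∈ (v j).coeff.support, (b.natAbs + 1) :=
      Finset.single_le_sum (f := fun b : ℤ => b.natAbs + 1) (fun _ _ => Nat.zero_le _)
        (Finsupp.mem_support_iff.2 h)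
    have h2 : ∑ b ∈ (v j).coeff.support, (b.natAbs + 1) ≤
        ∑ j, ∑ b ∈ (v j).coeff.support, (b.natAbs + 1) :=
      Finset.single_le_sum (f := fun j => ∑ b ∈ (v j).coeff.support, (b.natAbs + 1))
        (fun _ _ => Nat.zero_le _) (Finset.mem_univ j)
    omega
  exact ⟨D, lv_expand D v hD⟩

theorem op_ext [Fintype ι] {x y : Op A ι κ} (h : ∀ a i, x (bas a i) = y (bas a i)) : x = y := by
  apply LinearMap.ext
  intro v
  obtain ⟨D, hD⟩ := lv_expand' v
  rw [hD, map_sum, map_sum]
  exact Finset.sum_congr rfl fun q _ => by rw [map_smul, map_smul, h]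

theorem tr_bas (D : ℤ) (a : ℤ) (i : ι) :
    tr D (bas (A := A) a i) = if D ≤ a then bas a i else 0 := by
  funext j
  apply ext_coeff
  intro b
  rw [tr_coeff]
  by_cases h : D ≤ a
  · rw [if_pos h]
    by_cases h1 : D ≤ b
    · rw [if_pos h1]
    · rw [if_neg h1, bas_coeff, if_neg]
      rintro ⟨_, h2⟩
      omega
  · rw [if_neg h, Pi.zero_apply, AddMonoidAlgebra.coeff_zero, Finsupp.coe_zero, Pi.zero_apply]
    split_ifs with h1
    · rw [bas_coeff, if_neg]
      rintro ⟨_, h2⟩
      omega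
    · rfl

end basic

section rm

variable [Fintype ι] {μ : Type*}

theorem rm_apply (U : Matrix ι κ A[T;T⁻¹]) (v : LV A ι) (j : κ) :
    rm U v j = ∑ i, v i * U i j := rfl

theorem rm_bas [DecidableEq ι] (U : Matrix ι κ A[T;T⁻¹]) (a : ℤ) (i : ι) (j : κ) :
    rm U (bas a i) j = AddMonoidAlgebra.single a 1 * U i j := by
  rw [rm_apply, Finset.sum_eq_single i]
  · rw [bas, Pi.single_eq_same]
  · intro k _ hk
    rw [bas, Pi.single_eq_of_ne hk, zero_mul]
  · intro h
    exact absurd (Finset.mem_univ _) h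

theorem coeff_T_mul (a : ℤ) (z : A[T;T⁻¹]) (b : ℤ) :
    ((AddMonoidAlgebra.single a 1 : A[T;T⁻¹]) * z).coeff b = z.coeff (b - a) := by
  induction z using AddMonoidAlgebra.induction_linear with
  | zero => simp
  | add x y hx hy => rw [mul_add, AddMonoidAlgebra.coeff_add, Finsupp.add_apply, hx, hy,
      AddMonoidAlgebra.coeff_add, Finsupp.add_apply]
  | single k r =>
    classical
    rw [AddMonoidAlgebra.single_mul_single, one_mul, AddMonoidAlgebra.coeff_single,
      AddMonoidAlgebra.coeff_single, Finsupp.single_apply, Finsupp.single_apply]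
    by_cases h : a + k = b
    · rw [if_pos h, if_pos (by omega)]
    · rw [if_neg h, if_neg (by omega)]

theorem rm_bas_coeff [DecidableEq ι] (U : Matrix ι κ A[T;T⁻¹]) (a : ℤ) (i : ι) (j : κ) (b : ℤ) :
    (rm U (bas a i) j).coeff b = (U i j).coeff (b - a) := by
  rw [rm_bas, coeff_T_mul]

theorem rm_mul [Fintype κ] (U : Matrix ι κ A[T;T⁻¹]) (V : Matrix κ μ A[T;T⁻¹]) :
    rm (U * V) = (rm V).comp (rm U) := by
  apply LinearMap.ext
  intro v
  exact (Matrix.vecMul_vecMul v U V).symm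

theorem rm_one [DecidableEq ι] : rm (1 : Matrix ι ι A[T;T⁻¹]) = LinearMap.id := by
  apply LinearMap.ext
  intro v
  exact Matrix.vecMul_one v

theorem rm_add (U V : Matrix ι κ A[T;T⁻¹]) : rm (U + V) = rm U + rm V := by
  apply LinearMap.ext
  intro v
  exact Matrix.vecMul_add U V v

end rm

section win

theorem tr_tr (a b : ℤ) : (tr a : Op A ι ι).comp (tr b) = tr (max a b) := by
  apply LinearMap.ext
  intro v
  funext i
  apply ext_coeff
  intro k
  rw [LinearMap.comp_apply, tr_coeff, tr_coeff, tr_coeff]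
  by_cases h1 : a ≤ k
  · by_cases h2 : b ≤ k
    · rw [if_pos h1, if_pos h2, if_pos (max_le h1 h2)]
    · rw [if_pos h1, if_neg h2, if_neg (fun h => h2 ((le_max_right _ _).trans h))]
  · rw [if_neg h1, if_neg (fun h => h1 ((le_max_left _ _).trans h))]

variable {μ : Type*}

theorem Sup.mono [DecidableEq ι] {D D' : ℕ} (h : D ≤ D') {x : Op A ι κ} (hx : Sup D x) :
    Sup D' x := fun a i ha => hx a i (by omega)

theorem Img.mono {D D' : ℕ} (h : D ≤ D') {x : Op A ι κ} (hx : Img D x) :
    Img D' x := fun v j b hb => hx v j b (by omega)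

theorem Sup.comp [DecidableEq ι] {D : ℕ} {x : Op A ι κ} (hx : Sup D x) (y : Op A κ μ) :
    Sup D (y.comp x) := fun a i ha => by rw [LinearMap.comp_apply, hx a i ha, map_zero]

theorem Img.comp {D : ℕ} {y : Op A κ μ} (hy : Img D y) (x : Op A ι κ) :
    Img D (y.comp x) := fun v j b hb => hy (x v) j b hb

theorem Sup.add [DecidableEq ι] {D : ℕ} {x y : Op A ι κ} (hx : Sup D x) (hy : Sup D y) :
    Sup D (x + y) := fun a i ha => by rw [LinearMap.add_apply, hx a i ha, hy a i ha, add_zero]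

theorem Img.add {D : ℕ} {x y : Op A ι κ} (hx : Img D x) (hy : Img D y) :
    Img D (x + y) := fun v j b hb => by
  rw [LinearMap.add_apply, Pi.add_apply, AddMonoidAlgebra.coeff_add, Finsupp.add_apply,
    hx v j b hb, hy v j b hb, add_zero]

theorem mt_add [DecidableEq ι] (D D' : ℕ) (x y : Op A ι κ) :
    mt D D' (x + y) = mt D D' x + mt D D' y := by
  refine Matrix.ext fun p q => ?_
  rw [Matrix.add_apply]
  simp only [mt, Matrix.of_apply, LinearMap.add_apply, Pi.add_apply, AddMonoidAlgebra.coeff_add,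
    Finsupp.add_apply]

/-- The matrix of a composite. -/
theorem mt_comp [DecidableEq ι] [Fintype κ] [DecidableEq κ] {D D' D'' : ℕ} {x : Op A ι κ}
    (hx : Img D' x) (y : Op A κ μ) : mt D D'' (y.comp x) = mt D D' x * mt D' D'' y := by
  refine Matrix.ext fun p q => ?_
  rw [Matrix.mul_apply]
  simp only [mt, Matrix.of_apply, LinearMap.comp_apply]
  conv_lhs => rw [lv_expand D' (x (bas (((p.1 : ℕ) : ℤ) - D) p.2)) (fun j b hb => hx _ j b hb)]
  rw [map_sum, Finset.sum_apply, AddMonoidAlgebra.coeff_sum, Finsupp.finsetSum_apply]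
  refine Finset.sum_congr rfl fun r _ => ?_
  rw [map_smul, Pi.smul_apply, AddMonoidAlgebra.coeff_smul, Finsupp.smul_apply, smul_eq_mul]

/-- An operator supported in the window is determined by its matrix. -/
theorem ext_mt [Fintype ι] [DecidableEq ι] {D : ℕ} {x y : Op A ι κ} (hx : Sup D x) (hx' : Img D x)
    (hy : Sup D y) (hy' : Img D y) (h : mt D D x = mt D D y) : x = y := by
  apply op_ext
  intro a i
  by_cases ha : a < -(D : ℤ) ∨ (D : ℤ) ≤ a
  · rw [hx a i ha, hy a i ha]
  · funext j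
    apply ext_coeff
    intro b
    by_cases hb : b < -(D : ℤ) ∨ (D : ℤ) ≤ b
    · rw [hx' _ j b hb, hy' _ j b hb]
    · push Not at ha hb
      obtain ⟨n, hn⟩ : ∃ n : ℕ, (n : ℤ) = a + D := ⟨(a + D).toNat, by
        rw [Int.toNat_of_nonneg]; omega⟩
      obtain ⟨m, hm⟩ : ∃ m : ℕ, (m : ℤ) = b + D := ⟨(b + D).toNat, by
        rw [Int.toNat_of_nonneg]; omega⟩
      have h1 := congrFun (congrFun h (⟨n, by omega⟩, i)) (⟨m, by omega⟩, j)
      simp only [mt, Matrix.of_apply] at h1
      rw [show (n : ℤ) - D = a by omega, show (m : ℤ) - D = b by omega] at h1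
      exact h1

end win

end Pool.Agent.H8.KZ
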