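import Pool.Agent.H95.KM.Stab

/-!
# KZ: linear operators on row vectors of Laurent polynomials

`LV A ι` are the row vectors `ι → A[T;T⁻¹]`, a left `A`-module with the basis `bas a i = T^a eᵢ`.
`Op A ι κ` are the `A`-linear maps `LV A ι → LV A κ`.  `rm U` is the multiplication by the matrix
`U` on the right and `tr D` is the truncation to the degrees `≥ D`.

`Sup D x` : `x` kills the `bas a i` with `a ∉ [-D, D)`; `Img D x` : the values of `x` are supported in
`[-D, D)`.  `mt D D' x` is the matrix of `x` on the windows `[-D, D)`, `[-D', D')` (row convention: the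
row `(a, i)` is the image of `bas a i`), so `mt D D'' (y ∘ x) = mt D D' x * mt D' D'' y` if
`Img D' x`.
-/

set_option autoImplicit false

open Matrix
open scoped LaurentPolynomial

universe u v w

namespace Pool.Agent.H8.KZ

open Pool.Agent.H71.FJ Pool.Agent.H95.KM

variable {A : Type u} [Ring A]

/-- Row vectors of Laurent polynomials. -/
abbrev LV (A : Type u) [Ring A] (ι : Type v) : Type (max u v) := ι → A[T;T⁻¹]

/-- Linear maps between spaces of row vectors. -/
abbrev Op (A : Type u) [Ring A] (ι : Type v) (κ : Type w) : Type (max u v w) :=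
  LV A ι →ₗ[A] LV A κ

/-- The basis vector `T^a eᵢ`. -/
noncomputable def bas {ι : Type v} [DecidableEq ι] (a : ℤ) (i : ι) : LV A ι :=
  Pi.single i (AddMonoidAlgebra.single a 1)

/-- Truncation of Laurent polynomials to the degrees `≥ D`. -/
noncomputable def trL (D : ℤ) : A[T;T⁻¹] →ₗ[A] A[T;T⁻¹] where
  toFun z := AddMonoidAlgebra.ofCoeff (Finsupp.filter (fun k : ℤ => D ≤ k) z.coeff)
  map_add' a b := by
    apply ext_coeff
    intro k
    rw [AddMonoidAlgebra.coeff_add, AddMonoidAlgebra.coeff_add, Finsupp.filter_add]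
  map_smul' c a := by
    apply ext_coeff
    intro k
    rw [RingHom.id_apply, AddMonoidAlgebra.coeff_smul, AddMonoidAlgebra.coeff_smul,
      Finsupp.filter_smul]

theorem trL_coeff (D : ℤ) (z : A[T;T⁻¹]) (k : ℤ) :
    (trL D z).coeff k = if D ≤ k then z.coeff k else 0 :=
  Finsupp.filter_apply _ _ _

/-- Truncation of row vectors to the degrees `≥ D`. -/
noncomputable def tr {ι : Type v} (D : ℤ) : Op A ι ι :=
  LinearMap.pi fun i => (trL D).comp (LinearMap.proj i)

theorem tr_coeff {ι : Type v} (D : ℤ) (v : LV A ι) (i : ι) (k : ℤ) :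
    (tr D v i).coeff k = if D ≤ k then (v i).coeff k else 0 := trL_coeff D (v i) k

/-- Multiplication by a matrix on the right. -/
noncomputable def rm {ι : Type v} {κ : Type w} [Fintype ι] (U : Matrix ι κ A[T;T⁻¹]) : Op A ι κ :=
  (Matrix.vecMulLinear U).restrictScalars A

/-- `x` kills the basis vectors outside of the window `[-D, D)`. -/
def Sup {ι : Type v} [DecidableEq ι] {κ : Type w} (D : ℕ) (x : Op A ι κ) : Prop :=
  ∀ (a : ℤ) (i : ι), (a < -(D : ℤ) ∨ (D : ℤ) ≤ a) → x (bas a i) = 0

/-- The values of `x` are supported in the window `[-D, D)`. -/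
def Img {ι : Type v} {κ : Type w} (D : ℕ) (x : Op A ι κ) : Prop :=
  ∀ (v : LV A ι) (j : κ) (b : ℤ), (b < -(D : ℤ) ∨ (D : ℤ) ≤ b) → (x v j).coeff b = 0

/-- The matrix of `x` on the windows `[-D, D)` and `[-D', D')`. -/
noncomputable def mt {ι : Type v} [DecidableEq ι] {κ : Type w} (D D' : ℕ) (x : Op A ι κ) :
    Matrix (Fin (2 * D) × ι) (Fin (2 * D') × κ) A :=
  Matrix.of fun p q => (x (bas (((p.1 : ℕ) : ℤ) - D) p.2) q.2).coeff (((q.1 : ℕ) : ℤ) - D')

end Pool.Agent.H8.KZ
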