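import Pool.Agent.H8.KZ.BdN
import Pool.Agent.H8.KZ.BdP

/-!
# KZ: the homomorphism `K₋₁(R) → K₀(A)` given by a unit commuting with the image of `R`
-/

set_option autoImplicit false

open Matrix
open scoped LaurentPolynomial

universe u v w

namespace Pool.Agent.H8.KZ

open Pool.Agent.H71.FJ (K0 K0.map)
open Pool.Agent.H95.KM
open Pool.Agent.H95.WH (K1 K1.map)
open Pool.Agent.H71.DB (bass bass_mul bass_comp bass_conj map_bass comm_inv)

variable {A : Type u} [Ring A] {R : Type v} [Ring R]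

theorem pcomm {φ : R →+* A} {z : Aˣ} (hz : ∀ b, φ b * z = z * φ b) (b : Polynomial R) :
    Polynomial.mapRingHom φ b * (Units.map (Polynomial.C : A →+* Polynomial A).toMonoidHom z :
      (Polynomial A)ˣ) = (Units.map (Polynomial.C : A →+* Polynomial A).toMonoidHom z :
      (Polynomial A)ˣ) * Polynomial.mapRingHom φ b := by
  ext n
  change (Polynomial.mapRingHom φ b * Polynomial.C (z : A)).coeff n =
    (Polynomial.C (z : A) * Polynomial.mapRingHom φ b).coeff n
  rw [Polynomial.coeff_mul_C, Polynomial.coeff_C_mul, Polynomial.coe_mapRingHom,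
    Polynomial.coeff_map, hz]

theorem bdK_bass_pos (φ : R →+* A) (z : Aˣ) (hz : ∀ b, φ b * z = z * φ b) (x : K0 (Polynomial R)) :
    bdK (bass (lau φ) (cu z) (cu_comm φ z hz) (K0.map (posHom R) x)) = 0 := by
  rw [bass_comp]
  have h := bdK_pos (bass (Polynomial.mapRingHom φ)
    (Units.map (Polynomial.C : A →+* Polynomial A).toMonoidHom z) (pcomm hz) x)
  have hu : Units.map ((posHom A : Polynomial A →+* A[T;T⁻¹]) : Polynomial A →* A[T;T⁻¹])
      (Units.map (Polynomial.C : A →+* Polynomial A).toMonoidHom z) = cu z := by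
    apply Units.ext
    change posHom A (Polynomial.C (z : A)) = AddMonoidAlgebra.single 0 (z : A)
    rw [← Polynomial.monomial_zero_left, posHom_monomial]
    rfl
  rw [map_bass _ _ _ _ (fun b => by
    rw [hu, ← lau_posHom]
    exact cu_comm φ z hz _)] at h
  rw [← h]
  congr 1
  simp only [hu, lau_posHom]

theorem bdK_bass_neg (φ : R →+* A) (z : Aˣ) (hz : ∀ b, φ b * z = z * φ b) (x : K0 (Polynomial R)) :
    bdK (bass (lau φ) (cu z) (cu_comm φ z hz) (K0.map (negHom R) x)) = 0 := by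
  rw [bass_comp]
  have h := bdK_neg (bass (Polynomial.mapRingHom φ)
    (Units.map (Polynomial.C : A →+* Polynomial A).toMonoidHom z) (pcomm hz) x)
  have hu : Units.map ((negHom A : Polynomial A →+* A[T;T⁻¹]) : Polynomial A →* A[T;T⁻¹])
      (Units.map (Polynomial.C : A →+* Polynomial A).toMonoidHom z) = cu z := by
    apply Units.ext
    change negHom A (Polynomial.C (z : A)) = AddMonoidAlgebra.single 0 (z : A)
    rw [← Polynomial.monomial_zero_left, negHom_monomial]
    rfl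
  rw [map_bass _ _ _ _ (fun b => by
    rw [hu, ← lau_negHom]
    exact cu_comm φ z hz _)] at h
  rw [← h]
  congr 1
  simp only [hu, lau_negHom]

/-- The homomorphism `K₋₁(R) → K₀(A)` given by `φ : R → A` and a unit `z` of `A` commuting with the
image of `φ`: it sends the class of `[e] ∈ K₀(R[t, t⁻¹])` to the boundary of the class of
`1 + φ(e) (z - 1)` in `K₁(A[t, t⁻¹])`. -/
noncomputable def pr (φ : R →+* A) (z : Aˣ) (hz : ∀ b, φ b * z = z * φ b) : Km1 R →+ K0 A :=
  Km1.lift (bdK.comp (bass (lau φ) (cu z) (cu_comm φ z hz)))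
    (fun x => bdK_bass_pos φ z hz x) (fun x => bdK_bass_neg φ z hz x)

theorem pr_mk (φ : R →+* A) (z : Aˣ) (hz : ∀ b, φ b * z = z * φ b) (x : K0 R[T;T⁻¹]) :
    pr φ z hz (Km1.mk x) = bdK (bass (lau φ) (cu z) (cu_comm φ z hz) x) := rfl

theorem cu_mul (z z' : Aˣ) : cu (z * z') = cu z * cu z' := map_mul _ z z'

theorem pr_mul (φ : R →+* A) (z z' : Aˣ) (hz : ∀ b, φ b * z = z * φ b)
    (hz' : ∀ b, φ b * z' = z' * φ b) (h : ∀ b, φ b * ((z * z' : Aˣ) : A) = ((z * z' : Aˣ) : A) * φ b)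
    (x : Km1 R) : pr φ (z * z') h x = pr φ z hz x + pr φ z' hz' x := by
  obtain ⟨y, rfl⟩ := Km1.mk_surjective x
  rw [pr_mk, pr_mk, pr_mk, ← map_add]
  congr 1
  rw [← bass_mul (lau φ) (cu z) (cu z') (cu_comm φ z hz) (cu_comm φ z' hz') (by
    rw [← cu_mul]
    exact cu_comm φ _ h)]
  congr 1
  simp only [cu_mul]

theorem pr_congr {φ φ' : R →+* A} {z z' : Aˣ} (h1 : φ = φ') (h : z = z')
    (hz : ∀ b, φ b * z = z * φ b) (hz' : ∀ b, φ' b * z' = z' * φ' b) (x : Km1 R) :
    pr φ z hz x = pr φ' z' hz' x := by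
  subst h1 h
  rfl

theorem pr_comp {S : Type w} [Ring S] (φ : R →+* A) (ψ : S →+* R) (z : Aˣ)
    (hz : ∀ b, φ b * z = z * φ b) (x : Km1 S) :
    pr φ z hz (Km1.map ψ x) = pr (φ.comp ψ) z (fun c => hz (ψ c)) x := by
  obtain ⟨y, rfl⟩ := Km1.mk_surjective x
  rw [Km1.map_mk, pr_mk, pr_mk, bass_comp]
  congr 2
  simp only [← lau_comp]

/-- Conjugation invariance. -/
theorem pr_conj (φ φ' : R →+* A) (z z' g : Aˣ) (hz : ∀ b, φ b * z = z * φ b)
    (hz' : ∀ b, φ' b * z' = z' * φ' b) (h : ∀ b, φ' b = g * φ b * ((g⁻¹ : Aˣ) : A))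
    (hzz : (z' : A) = g * z * ((g⁻¹ : Aˣ) : A)) (x : Km1 R) :
    pr φ' z' hz' x = pr φ z hz x := by
  obtain ⟨y, rfl⟩ := Km1.mk_surjective x
  rw [pr_mk, pr_mk]
  congr 1
  have hg : (((cu g)⁻¹ : (A[T;T⁻¹])ˣ) : A[T;T⁻¹]) = AddMonoidAlgebra.single 0 ((g⁻¹ : Aˣ) : A) := by
    rw [cu, ← map_inv]
    rfl
  apply bass_conj _ _ _ _ (cu g)
  · intro b
    rw [hg]
    induction b using AddMonoidAlgebra.induction_linear with
    | zero => simp
    | add x y hx hy => rw [map_add, hx, hy, map_add, mul_add, add_mul]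
    | single k r =>
      rw [lau_single, lau_single, cu_val, AddMonoidAlgebra.single_mul_single,
        AddMonoidAlgebra.single_mul_single, h, zero_add, add_zero]
  · rw [hg, cu_val, cu_val, cu_val, AddMonoidAlgebra.single_mul_single, AddMonoidAlgebra.single_mul_single,
      hzz, zero_add, add_zero]

theorem map_pr {C : Type w} [Ring C] (φ : R →+* A) (z : Aˣ) (hz : ∀ b, φ b * z = z * φ b)
    (f : A →+* C) (h : ∀ b, (f.comp φ) b * (Units.map (f : A →* C) z : Cˣ) =
      (Units.map (f : A →* C) z : Cˣ) * (f.comp φ) b) (x : Km1 R) :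
    K0.map f (pr φ z hz x) = pr (f.comp φ) (Units.map (f : A →* C) z) h x := by
  obtain ⟨y, rfl⟩ := Km1.mk_surjective x
  rw [pr_mk, pr_mk, bdK_map]
  congr 1
  have hu : Units.map ((lau f : A[T;T⁻¹] →+* C[T;T⁻¹]) : A[T;T⁻¹] →* C[T;T⁻¹]) (cu z) =
      cu (Units.map (f : A →* C) z) := by
    apply Units.ext
    change lau f (AddMonoidAlgebra.single 0 (z : A)) = AddMonoidAlgebra.single 0 (f (z : A))
    rw [lau_single]
  rw [map_bass _ _ _ _ (fun b => by
    rw [hu, ← lau_comp]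
    exact cu_comm _ _ h _)]
  congr 1
  simp only [hu, lau_comp]

end Pool.Agent.H8.KZ
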