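import Pool.Agent.H8.KZ.TwiC

/-!
# KZ: the twisted form `Ψ` on `M_{ι^N}(S[G^N])` and the power of a cocycle, definitions
-/

set_option autoImplicit false

open Matrix

universe u v w

namespace Pool.Agent.H8.KZ

open Pool.Agent.H95.WH (sh cyc EE)
open Pool.Agent.H71.DB (Coc pairF pairF_add_right pairF_add_left pairF_zero_right pairF_zero_left)

variable {N : ℕ} [NeZero N] {ι : Type w} [Fintype ι] [DecidableEq ι] {G : Type v} [Group G]
  {S : Type u} [CommRing S]

/-- The twisted form. -/
noncomputable def Psi (l : Coc G S) (x y : EE S N ι G) : S :=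
  ∑ I : ZMod N → ι, ∑ J : ZMod N → ι,
    pairF (fun α β : ZMod N → G => l.L (β 0) (cyc (sh 1 (α * β)))) (x (sh (-1) I) J) (y J I)

theorem Psi_add_left (l : Coc G S) (x x' y : EE S N ι G) :
    Psi l (x + x') y = Psi l x y + Psi l x' y := by
  simp only [Psi, Matrix.add_apply, pairF_add_left, Finset.sum_add_distrib]

theorem Psi_add_right (l : Coc G S) (x y y' : EE S N ι G) :
    Psi l x (y + y') = Psi l x y + Psi l x y' := by
  simp only [Psi, Matrix.add_apply, pairF_add_right, Finset.sum_add_distrib]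

theorem L_pow_self (l : Coc G S) (y : G) (n : ℕ) : (n : S) * l.L y (y ^ n) = 0 := by
  have h1 : ∀ m : ℕ, l.L (y ^ m) (y ^ n) = (m : S) * l.L y (y ^ n) := by
    intro m
    induction m with
    | zero => rw [pow_zero, l.one, Nat.cast_zero, zero_mul]
    | succ m ih =>
      have e : y * y ^ n * y⁻¹ = y ^ n := by rw [← pow_succ', pow_succ, mul_inv_cancel_right]
      rw [pow_succ, l.mul, e, ih]
      push_cast
      ring
  rw [← h1 n, l.self]

/-- The cocycle `(h, y) ↦ l.L h (y ^ n)`. -/
def powC (n : ℕ) (hn : ∀ x : S, (n : S) * x = 0 → x = 0) (l : Coc G S) : Coc G S where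
  L h y := l.L h (y ^ n)
  mul f f' y := by rw [l.mul, conj_pow]
  self y := hn _ (L_pow_self l y n)

theorem powC_L (n : ℕ) (hn : ∀ x : S, (n : S) * x = 0 → x = 0) (l : Coc G S) (h y : G) :
    (powC n hn l).L h y = l.L h (y ^ n) := rfl

end Pool.Agent.H8.KZ
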