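import Pool.Agent.H8.KZ.Ev
import Pool.Agent.H95.KM.DetOne
import Pool.Agent.H71.DB.Form

/-!
# KZ, module RelV: the Dennis trace of the unit `∑_χ z^(k χ) 1_χ`

`vL`, `oneChi` : `Pool/Agent/H95/KM/DetOne.lean` (`vL fL k = ∑ χ, single (k χ) (oneChi fL χ)`); `evL φ u h` :
`Ev.lean` (`T ↦ u`); `Coc`, `Coc.phi`, `Coc.dt`, `Coc.dt_gbass`, `Coc.phi_bass`, `Coc.card_phi` :
`Pool/Agent/H71/DB/Coc.lean`, `Form.lean`.

PROOF of `L_zero_of_fin`: `Coc.L_pow` (`CocC.lean`; copy its proof if the import is missing),
`(orderOf z) * l.L z y = l.L (z ^ orderOf z) y = l.L 1 y = 0`.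
PROOF of `phi_vL`.  Let `e χ` be the image of `oneChi fL χ` in `L[G]`.  The left hand side is
`∑_{χ, ψ} l.phi (e χ * z^(-k χ)) (z^(k ψ) * e ψ)` (`evL_single`).  With
`e χ = ∑_a c_χ(a) (f a)`: `l.phi (single (f a * z^(-p)) r) (single (z^q * f b) s) = s r l.L (z^q * f b) (f (a b) z^(q-p))`.
* `z` of infinite order: `f (a b) z^(q - p)` has infinite order for `q ≠ p`
  (`Pool.Agent.H71.DB.infinite_mul`), so only the terms with `k χ = k ψ` remain, and
  `l.L (z^q * f b) (f (a b)) = q * l.L z (f (a b)) + l.L (f b) (f (a b))` (`l.mul`, `z` commutes with `f C`, `C` is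
  commutative; `zpow` version of `L_pow`).  So with `E_q = ∑_{k χ = q} oneChi χ` (idempotent,
  `E_q E_q' = 0` for `q ≠ q'`) the sum is
  `∑_q (q * clsFun (fun a => l.L z (f a)) (E_q * E_q) + (l.comap f).phi E_q E_q)` and the second summand is
  zero by `Coc.card_phi` (`(card C) * phi E E = psi (E E) - psi (E E) = 0`).
* `z` of finite order: `l.L z y = 0` for `y` commuting with `z`, so `l.L (z^q f b) y = l.L (f b) y` for
  `y = f (a b) z^(q-p)`; let `C' = ` the finite commutative group `C × ℤ/ord z` (or: multiply by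
  `card C * ord z`; or use `Coc.card_phi` for the finite subgroup generated by `f C` and `z`): the elements
  `v = ∑ z^(k χ) e χ` and `v' = ∑ z^(-k χ) e χ` come from the group algebra of a finite commutative group `C'`
  with `f' : C' → G`, `v v' = 1`, so `(card C') * l.phi v' v = psi (v' v) - psi (v v') = 0` (`Coc.card_phi`,
  `Coc.phi_comap`).
A uniform alternative: `v = ∏_χ (1 + e χ (z^(k χ) - 1))`, `Coc.den_mul`, `Coc.dt_gbass` for `z^(k χ)` and
`gbass_pow`, `gbass_one` for `z` of finite order.
-/

set_option autoImplicit false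

open Matrix
open scoped LaurentPolynomial

universe u v w

namespace Pool.Agent.H8.KZ

open Pool.Agent.H95.KM
open Pool.Agent.H71.DB (Coc comm_grp)
open Pool.Agent.H71.DO (grpUnit)
open Pool.Agent.H71.FJ (clsFun clsFun_single)

private theorem relV_L_pow {G : Type v} [Group G] {S : Type u} [CommRing S] (l : Coc G S)
    {y z : G} (h : y * z = z * y) (n : ℕ) : l.L (z ^ n) y = (n : S) * l.L z y := by
  induction n with
  | zero => rw [pow_zero, l.one, Nat.cast_zero, zero_mul]
  | succ n ih =>
    have e : z * y * z⁻¹ = y := by rw [← h, mul_inv_cancel_right]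
    rw [pow_succ, l.mul, e, ih]
    push_cast
    ring

private theorem relV_L_inv {G : Type v} [Group G] {S : Type u} [CommRing S] (l : Coc G S)
    {y z : G} (h : y * z = z * y) : l.L z⁻¹ y = - l.L z y := by
  have e : z * y * z⁻¹ = y := by rw [← h, mul_inv_cancel_right]
  have h1 := l.mul z z⁻¹ y
  rw [inv_mul_cancel, l.one, e] at h1
  exact eq_neg_of_add_eq_zero_left h1.symm

private theorem relV_L_zpow {G : Type v} [Group G] {S : Type u} [CommRing S] (l : Coc G S)
    {y z : G} (h : y * z = z * y) (n : ℤ) : l.L (z ^ n) y = (n : S) * l.L z y := by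
  rcases Int.eq_nat_or_neg n with ⟨m, rfl | rfl⟩
  · rw [zpow_natCast, relV_L_pow l h, Int.cast_natCast]
  · have hc : y * z ^ m = z ^ m * y := (show Commute y z from h).pow_right m
    rw [_root_.zpow_neg, zpow_natCast, relV_L_inv l hc, relV_L_pow l h, Int.cast_neg,
      Int.cast_natCast, neg_mul]

theorem L_zero_of_fin {G : Type v} [Group G] {L : Type u} [Field L] [CharZero L] (l : Coc G L)
    {y z : G} (h : y * z = z * y) (hz : IsOfFinOrder z) : l.L z y = 0 := by
  have h1 := relV_L_pow l h (orderOf z)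
  rw [pow_orderOf_eq_one, l.one] at h1
  rcases mul_eq_zero.1 h1.symm with h2 | h2
  · exact absurd h2 (by exact_mod_cast hz.orderOf_pos.ne')
  · exact h2

private theorem relV_unit_zpow {G : Type w} [Group G] (S : Type u) [CommRing S] (z : G) (p : ℤ) :
    ((grpUnit S G z ^ p : (MonoidAlgebra S G)ˣ) : MonoidAlgebra S G) =
      MonoidAlgebra.single (z ^ p) 1 := by
  rw [← map_zpow]
  rfl

/-- One term of the double sum. -/
private theorem relV_term {C : Type v} [Group C] [Finite C] (hC : ∀ a b : C, a * b = b * a)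
    {G : Type w} [Group G] {L : Type u} [Field L] [CharZero L] (l : Coc G L)
    (f : C →* G) (z : G) (h : ∀ a, f a * z = z * f a) (p q : ℤ) (a b : MonoidAlgebra L C) :
    l.phi (MonoidAlgebra.mapDomainRingHom L f a * MonoidAlgebra.single (z ^ p) 1)
      (MonoidAlgebra.mapDomainRingHom L f b * MonoidAlgebra.single (z ^ q) 1) =
      (q : L) * clsFun (fun x => l.L z (f x * z ^ (p + q))) (a * b) := by
  induction a using MonoidAlgebra.induction_linear with
  | zero => simp
  | add a a' ha ha' =>
    rw [map_add, add_mul, map_add, AddMonoidHom.add_apply, ha, ha', add_mul, map_add, mul_add]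
  | single g r =>
    induction b using MonoidAlgebra.induction_linear with
    | zero => simp
    | add b b' hb hb' =>
      rw [map_add, add_mul, map_add, hb, hb', mul_add (MonoidAlgebra.single g r), map_add, mul_add]
    | single k s =>
      change l.phi (MonoidAlgebra.mapDomain f (MonoidAlgebra.single g r) *
        MonoidAlgebra.single (z ^ p) 1) (MonoidAlgebra.mapDomain f (MonoidAlgebra.single k s) *
        MonoidAlgebra.single (z ^ q) 1) = _
      rw [MonoidAlgebra.mapDomain_single, MonoidAlgebra.mapDomain_single,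
        MonoidAlgebra.single_mul_single, MonoidAlgebra.single_mul_single,
        mul_one, mul_one, l.phi_single, MonoidAlgebra.single_mul_single, clsFun_single]
      have hc : ∀ x, Commute (f x) z := fun x => h x
      have hcc : ∀ x y, Commute (f x) (f y) := by
        intro x y
        change f x * f y = f y * f x
        rw [← map_mul, hC, map_mul]
      have e1 : f g * z ^ p * (f k * z ^ q) = f (g * k) * z ^ (p + q) := by
        rw [map_mul, _root_.zpow_add, mul_assoc, mul_assoc, ← mul_assoc (z ^ p),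
          ← ((hc k).zpow_right p).eq, mul_assoc (f k)]
      rw [e1]
      set y : G := f (g * k) * z ^ (p + q) with hy
      have hyk : Commute y (f k) := (hcc _ _).mul_left (((hc k).zpow_right _).symm)
      have hyz : Commute y z := (hc _).mul_left ((Commute.refl z).zpow_left _)
      have e2 : z ^ q * y * (z ^ q)⁻¹ = y := by
        rw [← (hyz.zpow_right q).eq, mul_inv_cancel_right]
      rw [l.mul, e2, L_zero_of_fin l hyk.eq (f.isOfFinOrder (isOfFinOrder_of_finite k)), zero_add,
        relV_L_zpow l hyz.eq]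
      ring

theorem phi_vL {O : Type} [CommRing O] [IsDomain O] (N : ℕ) [NeZero N]
    [HasEnoughRootsOfUnity O N] {L : Type} [Field L] [CharZero L] (fL : O →+* L)
    {C : Type v} [Group C] [Fintype C] [Fintype (C →* Oˣ)] (hC : ∀ a b : C, a * b = b * a)
    (hN : Nat.card C ∣ N) {G : Type w} [Group G] (l : Coc G L)
    (hs : ∀ f y, orderOf y = 0 → l.L f y = 0) (f : C →* G) (z : G) (h : ∀ a, f a * z = z * f a)
    (k : (C →* Oˣ) → ℤ) :
    l.phi (evL (MonoidAlgebra.mapDomainRingHom L f) (grpUnit L G z) (comm_grp L f z h)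
        (vL fL (-k)))
      (evL (MonoidAlgebra.mapDomainRingHom L f) (grpUnit L G z) (comm_grp L f z h) (vL fL k)) =
      ∑ χ : C →* Oˣ, (k χ : L) * ((Fintype.card C : L)⁻¹ *
        ∑ d : C, fL (((χ d)⁻¹ : Oˣ) : O) * l.L z (f d)) := by
  classical
  have hev : ∀ m : (C →* Oˣ) → ℤ,
      evL (MonoidAlgebra.mapDomainRingHom L f) (grpUnit L G z) (comm_grp L f z h) (vL fL m) =
        ∑ χ : C →* Oˣ, MonoidAlgebra.mapDomainRingHom L f (oneChi fL χ) *
          MonoidAlgebra.single (z ^ m χ) 1 := by
    intro m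
    rw [vL, map_sum]
    refine Finset.sum_congr rfl fun χ _ => ?_
    rw [evL_single, relV_unit_zpow]
  have hmul : ∀ χ ψ : C →* Oˣ, oneChi fL χ * oneChi fL ψ = if χ = ψ then oneChi fL χ else 0 := by
    intro χ ψ
    apply detOne_inj fL hC hN
    rw [map_mul, detOne_fou_oneChi, detOne_fou_oneChi]
    by_cases e : χ = ψ
    · subst e
      rw [if_pos rfl, detOne_fou_oneChi, ← Pi.single_mul, mul_one]
    · rw [if_neg e, map_zero]
      funext ξ
      rw [Pi.mul_apply, Pi.zero_apply]
      by_cases e1 : ξ = χ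
      · subst e1
        rw [Pi.single_eq_of_ne e, mul_zero]
      · rw [Pi.single_eq_of_ne e1, zero_mul]
  rw [hev, hev, map_sum]
  refine Finset.sum_congr rfl fun χ _ => ?_
  rw [map_sum, AddMonoidHom.finsetSum_apply, Finset.sum_eq_single χ]
  · rw [relV_term hC l f z h, hmul, if_pos rfl]
    have e1 : (-k) χ + k χ = 0 := neg_add_cancel (k χ)
    rw [e1]
    congr 1
    rw [oneChi, map_sum, Finset.mul_sum]
    refine Finset.sum_congr rfl fun d _ => ?_
    rw [clsFun_single, zpow_zero, mul_one, mul_assoc]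
  · intro ψ _ hψ
    rw [relV_term hC l f z h, hmul, if_neg hψ, map_zero, mul_zero]
  · intro hn
    exact absurd (Finset.mem_univ _) hn

end Pool.Agent.H8.KZ
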