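import Pool.Agent.H8.KZ.RelX
import Pool.Agent.H8.KZ.RelV
import Pool.Agent.H8.KZ.RelS
import Pool.Agent.H95.KM.Theta

/-!
# KZ, module RelD: the relations given by the Dennis trace

Model: `det_two` in `Pool/Agent/H95/KM/DetTwo.lean`.  `det_one` (`DetOne.lean`), `exists_uv`, `XY_one`,
`YX_one`, `map_evL`, `Phi_diag` (`RelS.lean`), `phi_vL` (`RelV.lean`), `exists_wa`, `cocL_supp` (`RelX.lean`),
`key_trace` (`KeyT.lean`), `Coc.Phi_cocycle` (`Pool/Agent/H71/DB/Coc.lean`).

PROOF.  Write `ev_i^R = evL (mapDomainRingHom R (C i).subtype) (grpUnit R G (z i)) _` for `R = O, Om, L`.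
(1) `choose x y hrep := exists_isRep_repH (uN (n i))`, `H i = repH (uN (n i))`.  `dl_eq` : `dl = cls (H i) - cls 1`,
    `K0.map_cls`; the hypothesis says `∑ i, (cls ((H i).map ev_i^O) - cls 1) = 0`.  `exists_uv` gives `a, u, v`.
(2) `det_one` gives `xA i, yA i` and the local statement.  `XA = blockDiagonal (fun i => (xA i).map ev_i^L)`,
    `YA` similarly, `u_L = u.map (mapRingHom G fL)`, `v_L`;
    `X_A = fromBlocks XA 0 0 1 * u_L`, `Y_A = v_L * fromBlocks YA 0 0 1` (square matrices, index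
    `(Unit × ι) ⊕ Fin a`).  `exists_wa c hc Y_A X_A` gives `k, w, a`.
(3) Given `m, Om, f, j, ..`: `xB i, yB i` from (2), `XB = blockDiagonal (fun i => (xB i).map ev_i^Om)`, `YB`,
    `X_B = fromBlocks XB 0 0 1 * u_f`, `Y_B = v_f * fromBlocks YB 0 0 1` over `Om[G]`
    (`u_f = u.map (mapRingHom G f)`); `XB * YB = 1`, `YB * XB = (blockDiagonal (H i).map ev_i^O).map (mapRingHom G f)`
    (`map_evL`), so `X_B * Y_B = 1 = Y_B * X_B` (`XY_one`, `YX_one`).
(4) `key_trace` with `e = Equiv.refl _`, `A = Y_B`, `B = X_B` : `∑ t, σ t (Phi (j Y_B) (j X_B)) = 0`.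
(5) Let `v i = ev_i^L (vL fL (fun χ => n i χ m))`, `v' i = ev_i^L (vL fL (fun χ => - n i χ m))`; `v i * v' i = 1`
    (`vL_mul`, `vL_zero`).  `W = fromBlocks (diagonal (v p.2)) 0 0 1`, `W'` with `v'`.  By `hxBA`, `hyBA`, `map_evL` :
    `X_A = W * j X_B`, `Y_A = j Y_B * W'` (`fromBlocks XA 0 0 1 = W * (fromBlocks (j XB) 0 0 1)`).
    `Phi_cocycle` for `A = j Y_B * W'`, `B = W`, `C = j X_B`:
    `Phi (j Y_B) (j X_B) + Phi W' W = Phi Y_A X_A`, and `Phi W' W = ∑ i, phi (v' i) (v i)` (`Phi_diag`), computed by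
    `phi_vL`.
(6) Apply `σ t`, sum over `t`, use (4), (2), (5).
-/

set_option autoImplicit false

open Matrix
open scoped LaurentPolynomial

universe u v w

namespace Pool.Agent.H8.KZ

open Pool.Agent.H71.FJ (K0 K0.map)
open Pool.Agent.H95.KM
open Pool.Agent.H71.DB (Coc comm_grp)
open Pool.Agent.H71.DO (grpUnit)

section aux

private theorem relD_bd_mul {ι : Type} [Fintype ι] [DecidableEq ι] {P : ι → Type*}
    [∀ i, Ring (P i)] {Q : Type*} [Ring Q] (φ : ∀ i, P i →+* Q) {l m n : Type} [Fintype m]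
    (x : ∀ i, Matrix l m (P i)) (y : ∀ i, Matrix m n (P i)) :
    blockDiagonal (fun i => (x i).map (φ i)) * blockDiagonal (fun i => (y i).map (φ i)) =
      blockDiagonal fun i => (x i * y i).map (φ i) := by
  rw [← blockDiagonal_mul]
  simp only [Matrix.map_mul]

private theorem relD_bd_one {ι : Type} [DecidableEq ι] {P : ι → Type*}
    [∀ i, Ring (P i)] {Q : Type*} [Ring Q] (φ : ∀ i, P i →+* Q) {m : Type} [DecidableEq m] :
    blockDiagonal (fun i => (1 : Matrix m m (P i)).map (φ i)) = 1 := by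
  have h : (fun i => (1 : Matrix m m (P i)).map (φ i)) = fun _ => (1 : Matrix m m Q) := by
    funext i
    exact Matrix.map_one _ (map_zero _) (map_one _)
  rw [h]
  exact blockDiagonal_one

private theorem relD_bd_map {ι : Type} [DecidableEq ι] {Q : Type*} [Ring Q] {Q' : Type*} [Ring Q']
    {m n : Type} (M : ι → Matrix m n Q) (F : Q →+* Q') :
    (blockDiagonal M).map F = blockDiagonal fun i => (M i).map F :=
  blockDiagonal_map M F (map_zero F)

private theorem relD_st_mul {R : Type*} [Ring R] {a : ℕ} {l m n : Type} [Fintype m]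
    (M : Matrix l m R) (N : Matrix m n R) :
    fromBlocks M 0 0 (1 : Matrix (Fin a) (Fin a) R) *
        fromBlocks N 0 0 (1 : Matrix (Fin a) (Fin a) R) =
      fromBlocks (M * N) 0 0 1 := by
  rw [fromBlocks_multiply]
  simp

private theorem relD_st_map {R : Type*} [Ring R] {R' : Type*} [Ring R'] {a : ℕ} {m n : Type}
    (M : Matrix m n R) (F : R →+* R') :
    (fromBlocks M 0 0 (1 : Matrix (Fin a) (Fin a) R)).map F = fromBlocks (M.map F) 0 0 1 := by
  rw [fromBlocks_map, Matrix.map_one _ (map_zero F) (map_one F)]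
  congr 1
  · ext i j : 1
    exact map_zero F
  · ext i j : 1
    exact map_zero F

private theorem relD_diag_mul {R : Type*} [Ring R] {m n ι : Type} [Fintype m] [Fintype ι]
    [DecidableEq m] [DecidableEq ι] (a : ι → R) (x x' : ι → Matrix m n R)
    (h : ∀ i k l, x' i k l = a i * x i k l) :
    blockDiagonal x' = diagonal (fun p : m × ι => a p.2) * blockDiagonal x := by
  ext ⟨i, k⟩ ⟨j, l⟩ : 1
  rw [diagonal_mul, blockDiagonal_apply, blockDiagonal_apply]
  split_ifs with h1
  · exact h _ _ _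
  · rw [mul_zero]

private theorem relD_mul_diag {R : Type*} [Ring R] {m n ι : Type} [Fintype n] [Fintype ι]
    [DecidableEq n] [DecidableEq ι] (a : ι → R) (x x' : ι → Matrix m n R)
    (h : ∀ i k l, x' i k l = x i k l * a i) :
    blockDiagonal x' = blockDiagonal x * diagonal (fun p : n × ι => a p.2) := by
  ext ⟨i, k⟩ ⟨j, l⟩ : 1
  rw [mul_diagonal, blockDiagonal_apply, blockDiagonal_apply]
  split_ifs with h1
  · subst h1
    exact h _ _ _
  · rw [zero_mul]

private theorem relD_mapRing {R S T : Type} [CommRing R] [CommRing S] [CommRing T] {G : Type v}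
    [Group G] (g : S →+* T) (f : R →+* S) {m n : Type} (M : Matrix m n (MonoidAlgebra R G)) :
    (M.map (MonoidAlgebra.mapRingHom G f)).map (MonoidAlgebra.mapRingHom G g) =
      M.map (MonoidAlgebra.mapRingHom G (g.comp f)) := by
  ext i j : 1
  simp only [Matrix.map_apply]
  induction M i j using MonoidAlgebra.induction_linear with
  | zero => simp
  | add a b ha hb => rw [map_add, map_add, map_add, ha, hb]
  | single c r =>
    rw [MonoidAlgebra.mapRingHom_single, MonoidAlgebra.mapRingHom_single,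
      MonoidAlgebra.mapRingHom_single]
    rfl

end aux

open Classical in
theorem rel_two {O : Type} [CommRing O] [IsDomain O] [CharZero O] (N : ℕ) [NeZero N]
    [HasEnoughRootsOfUnity O N] [Finite (Amod O N)] {L : Type} [Field L] [CharZero L]
    (fL : O →+* L) (hfL : Function.Injective fL) {G : Type v} [Group G]
    {ι : Type} [Fintype ι] (C : ι → Subgroup G) [∀ i, Fintype (C i)]
    [∀ i, Fintype (C i →* Oˣ)] (hC : ∀ i, ∀ a b : C i, a * b = b * a)
    (hN : ∀ i, Nat.card (C i) ∣ N) (z : ι → G) (hz : ∀ i (a : C i), (C i).subtype a * z i = z i * (C i).subtype a)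
    (n : ∀ i, (C i →* Oˣ) → Pr O N → ℤ)
    (h : ∑ i, K0.map (evL (MonoidAlgebra.mapDomainRingHom O (C i).subtype) (grpUnit O G (z i))
      (comm_grp O (C i).subtype (z i) (hz i)))
        ((sqC (RingHom.id O) N (C i) (hC i) (hN i)).lauSq.dl (uN (n i))) = 0)
    (c : G) (hc : IsOfFinOrder c) :
    ∃ (k : ℕ) (w : Fin k → L) (a : Fin k → Subgroup.centralizer ({c} : Set G)),
      ∀ (m : Pr O N) (Om : Type) [CommRing Om] [IsDomain Om] [CharZero Om] (f : O →+* Om)
        (j : Om →+* L), j.comp f = fL → Function.Injective j →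
        (∀ (m' : Pr O N) (r : O), Ideal.Quotient.mk (Ideal.span {(N : O)}) r = kappa O N m' →
          Ideal.Quotient.mk (Ideal.span {(N : Om)}) (f r) = if m' = m then 1 else 0) →
        ∀ (p : ℕ) [Fact p.Prime] (K : Type) [Field K] [CharZero K] (κ : ℤ_[p] →+* K)
          (ι' : L →+* K) (r : ℕ) (reg : Om →+* Matrix (Fin r) (Fin r) ℤ_[p]) (T : Type) [Fintype T]
          (σ : T → L →+* L), Function.Injective κ →
          (∀ y : Om, κ (Matrix.trace (reg y)) = ∑ t, ι' (σ t (j y))) → p ∣ orderOf c →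
          ∀ lam : Subgroup.centralizer ({c} : Set G) →* Multiplicative ℚ,
            (∀ y, ¬ p ∣ (Multiplicative.toAdd (lam y)).den) →
            ∑ t, σ t (∑ i, ∑ χ : C i →* Oˣ, (n i χ m : L) * ((Fintype.card (C i) : L)⁻¹ *
              ∑ d : C i, fL (((χ d)⁻¹ : Oˣ) : O) * (cocL c hc lam L).L (z i) (d : G))) =
            ∑ t, σ t (∑ s, w s * ((Multiplicative.toAdd (lam (a s)) : ℚ) : L)) := by
  choose x y hrep using fun i => (sqC (RingHom.id O) N (C i) (hC i) (hN i)).lauSq.exists_isRep_repH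
    (uN (n i))
  set H : ∀ i, Matrix (Unit ⊕ Unit) (Unit ⊕ Unit) (MonoidAlgebra O (C i))[T;T⁻¹] :=
    fun i => (sqC (RingHom.id O) N (C i) (hC i) (hN i)).lauSq.repH (uN (n i)) with hHdef
  have hHid : ∀ i, H i * H i = H i := fun i => (hrep i).idem
  -- the evaluations
  let evO : ∀ i, (MonoidAlgebra O (C i))[T;T⁻¹] →+* MonoidAlgebra O G := fun i =>
    evL (MonoidAlgebra.mapDomainRingHom O (C i).subtype) (grpUnit O G (z i))
      (comm_grp O (C i).subtype (z i) (hz i))
  let ev : ∀ i, (MonoidAlgebra L (C i))[T;T⁻¹] →+* MonoidAlgebra L G := fun i =>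
    evL (MonoidAlgebra.mapDomainRingHom L (C i).subtype) (grpUnit L G (z i))
      (comm_grp L (C i).subtype (z i) (hz i))
  have hpid : ∀ i, ((H i).map (evO i)) * ((H i).map (evO i)) = (H i).map (evO i) := by
    intro i
    rw [← Matrix.map_mul, hHid i]
  have h' : ∑ i, (Pool.Agent.H71.FJ.K0.cls ((H i).map (evO i)) (hpid i) -
      Pool.Agent.H71.FJ.K0.cls (1 : Matrix Unit Unit (MonoidAlgebra O G)) one_idem) = 0 := by
    rw [← h]
    refine Finset.sum_congr rfl fun i _ => ?_
    rw [Sq.dl_eq (hrep i), map_sub, K0.map_cls, K0.map_cls]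
    congr 1
    have e1 : (1 : Matrix Unit Unit (MonoidAlgebra O (C i))[T;T⁻¹]).map (evO i) = 1 :=
      Matrix.map_one _ (map_zero _) (map_one _)
    simp only [e1, evO]
  obtain ⟨a, u, v, huv, hvu⟩ := exists_uv (fun i => (H i).map (evO i)) hpid h'
  choose xA yA hxyA hloc using fun i => det_one N fL hfL (C i) (hC i) (hN i) (n i) (hrep i)
  set uL := u.map (MonoidAlgebra.mapRingHom G fL) with huL
  set vLL := v.map (MonoidAlgebra.mapRingHom G fL) with hvLL
  set XA := blockDiagonal fun i => (xA i).map (ev i) with hXA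
  set YA := blockDiagonal fun i => (yA i).map (ev i) with hYA
  obtain ⟨k, w, a', hwa⟩ := exists_wa c hc
    (vLL * fromBlocks YA 0 0 (1 : Matrix (Fin a) (Fin a) (MonoidAlgebra L G)))
    (fromBlocks XA 0 0 (1 : Matrix (Fin a) (Fin a) (MonoidAlgebra L G)) * uL)
  refine ⟨k, w, a', ?_⟩
  intro m Om _ _ _ f j hjf hj hkap p _ K _ _ κ ι' r reg T _ σ hκ hreg hpc lam hlam
  choose xB yB hxyB hyxB hxBA hyBA using fun i => hloc i m Om f j hjf hj hkap
  let evB : ∀ i, (MonoidAlgebra Om (C i))[T;T⁻¹] →+* MonoidAlgebra Om G := fun i =>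
    evL (MonoidAlgebra.mapDomainRingHom Om (C i).subtype) (grpUnit Om G (z i))
      (comm_grp Om (C i).subtype (z i) (hz i))
  set XB := blockDiagonal fun i => (xB i).map (evB i) with hXB
  set YB := blockDiagonal fun i => (yB i).map (evB i) with hYB
  have hXYB : XB * YB = 1 := by
    rw [hXB, hYB, relD_bd_mul]
    simp only [hxyB]
    exact relD_bd_one evB
  have hYXB : YB * XB = (blockDiagonal fun i => (H i).map (evO i)).map
      (MonoidAlgebra.mapRingHom G f) := by
    rw [hXB, hYB, relD_bd_mul, relD_bd_map]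
    congr 1
    funext i
    rw [hyxB i]
    ext k l : 1
    simp only [Matrix.map_apply]
    exact (map_evL f (C i).subtype (z i) (hz i) (H i k l)).symm
  set uf := u.map (MonoidAlgebra.mapRingHom G f) with huf
  set vf := v.map (MonoidAlgebra.mapRingHom G f) with hvf
  have hufvf : uf * vf = fromBlocks ((blockDiagonal fun i => (H i).map (evO i)).map
      (MonoidAlgebra.mapRingHom G f)) 0 0 1 := by
    rw [huf, hvf, ← Matrix.map_mul, huv, relD_st_map]
  have hvfuf : vf * uf = 1 := by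
    rw [huf, hvf, ← Matrix.map_mul, hvu, Matrix.map_one _ (map_zero _) (map_one _)]
  set BX := fromBlocks XB 0 0 (1 : Matrix (Fin a) (Fin a) (MonoidAlgebra Om G)) * uf with hBX
  set BY := vf * fromBlocks YB 0 0 (1 : Matrix (Fin a) (Fin a) (MonoidAlgebra Om G)) with hBY
  have h1 : BX * BY = 1 := XY_one hufvf hXYB hYXB
  have h2 : BY * BX = 1 := YX_one hufvf hvfuf hYXB
  have h3 := key_trace c hc hpc lam hlam j κ hκ ι' reg σ hreg (Equiv.refl _) BY BX h2 h1
  set J := MonoidAlgebra.mapRingHom G j with hJ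
  -- change of trivialization
  set v1 : ι → MonoidAlgebra L G := fun i => ev i (vL fL (fun χ => n i χ m)) with hv1
  set v2 : ι → MonoidAlgebra L G := fun i => ev i (vL fL (fun χ => - n i χ m)) with hv2
  have hv12 : ∀ i, v1 i * v2 i = 1 := by
    intro i
    rw [hv1, hv2]
    beta_reduce
    rw [← map_mul, vL_mul fL (hC i) (hN i)]
    have e1 : ((fun χ => n i χ m) + fun χ => - n i χ m) = (0 : (C i →* Oˣ) → ℤ) := by
      funext χ
      exact add_neg_cancel _
    rw [e1, vL_zero fL (hC i) (hN i), map_one]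
  have hv21 : ∀ i, v2 i * v1 i = 1 := by
    intro i
    rw [hv1, hv2]
    beta_reduce
    rw [← map_mul, vL_mul fL (hC i) (hN i)]
    have e1 : ((fun χ => - n i χ m) + fun χ => n i χ m) = (0 : (C i →* Oˣ) → ℤ) := by
      funext χ
      exact neg_add_cancel _
    rw [e1, vL_zero fL (hC i) (hN i), map_one]
  have hX : XB.map J = diagonal (fun q : Unit × ι => v2 q.2) * XA := by
    rw [hXB, relD_bd_map, hXA]
    apply relD_diag_mul
    intro i k l
    simp only [Matrix.map_apply]
    have e1 := congrArg (ev i) (hxBA i k l)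
    rw [map_mul, Matrix.map_apply] at e1
    rw [hJ, map_evL j (C i).subtype (z i) (hz i) (xB i k l)]
    exact e1
  have hY : YB.map J = YA * diagonal (fun q : Unit × ι => v1 q.2) := by
    rw [hYB, relD_bd_map, hYA]
    apply relD_mul_diag
    intro i k l
    simp only [Matrix.map_apply]
    have e1 := congrArg (ev i) (hyBA i k l)
    rw [map_mul, Matrix.map_apply] at e1
    rw [hJ, map_evL j (C i).subtype (z i) (hz i) (yB i k l)]
    exact e1
  have hd12 : diagonal (fun q : Unit × ι => v1 q.2) * diagonal (fun q : Unit × ι => v2 q.2) = 1 := by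
    rw [diagonal_mul_diagonal, ← diagonal_one]
    congr 1
    funext q
    exact hv12 q.2
  have hd21 : diagonal (fun q : Unit × ι => v2 q.2) * diagonal (fun q : Unit × ι => v1 q.2) = 1 := by
    rw [diagonal_mul_diagonal, ← diagonal_one]
    congr 1
    funext q
    exact hv21 q.2
  have hXA' : XA = diagonal (fun q : Unit × ι => v1 q.2) * XB.map J := by
    rw [hX, ← Matrix.mul_assoc, hd12, Matrix.one_mul]
  have hYA' : YA = YB.map J * diagonal (fun q : Unit × ι => v2 q.2) := by
    rw [hY, Matrix.mul_assoc, hd12, Matrix.mul_one]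
  set W := fromBlocks (diagonal (fun q : Unit × ι => v1 q.2)) 0 0
    (1 : Matrix (Fin a) (Fin a) (MonoidAlgebra L G)) with hW
  set W' := fromBlocks (diagonal (fun q : Unit × ι => v2 q.2)) 0 0
    (1 : Matrix (Fin a) (Fin a) (MonoidAlgebra L G)) with hW'
  have hWW : W' * W = 1 := by
    rw [hW, hW', relD_st_mul, hd21, fromBlocks_one]
  have hju : uf.map J = uL := by
    rw [huf, huL, hJ, relD_mapRing, hjf]
  have hjv : vf.map J = vLL := by
    rw [hvf, hvLL, hJ, relD_mapRing, hjf]
  have hBXA : fromBlocks XA 0 0 (1 : Matrix (Fin a) (Fin a) (MonoidAlgebra L G)) * uL =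
      W * BX.map J := by
    rw [hBX, Matrix.map_mul, relD_st_map, hju, ← Matrix.mul_assoc, hW, relD_st_mul, ← hXA']
  have hBYA : vLL * fromBlocks YA 0 0 (1 : Matrix (Fin a) (Fin a) (MonoidAlgebra L G)) =
      BY.map J * W' := by
    rw [hBY, Matrix.map_mul, relD_st_map, hjv, Matrix.mul_assoc, hW', relD_st_mul, ← hYA']
  have hJXY : BX.map J * BY.map J = 1 := by
    rw [← Matrix.map_mul, h1, Matrix.map_one _ (map_zero _) (map_one _)]
  have hcoc := (cocL c hc lam L).Phi_cocycle (BY.map J * W') W (BX.map J)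
  rw [Matrix.mul_assoc, hWW, Matrix.mul_one, ← Matrix.mul_assoc, hJXY, Matrix.one_mul, ← hBXA,
    ← hBYA, hwa lam, hW, hW', Phi_diag] at hcoc
  have hphi : ∀ i, (cocL c hc lam L).phi (v2 i) (v1 i) =
      ∑ χ : C i →* Oˣ, (n i χ m : L) * ((Fintype.card (C i) : L)⁻¹ *
        ∑ d : C i, fL (((χ d)⁻¹ : Oˣ) : O) * (cocL c hc lam L).L (z i) (d : G)) := fun i =>
    phi_vL N fL (hC i) (hN i) (cocL c hc lam L) (fun f y => cocL_supp c hc lam L f y)
      (C i).subtype (z i) (hz i) (fun χ => n i χ m)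
  simp only [hphi] at hcoc
  have h4 : ∀ t, σ t (∑ i, ∑ χ : C i →* Oˣ, (n i χ m : L) * ((Fintype.card (C i) : L)⁻¹ *
        ∑ d : C i, fL (((χ d)⁻¹ : Oˣ) : O) * (cocL c hc lam L).L (z i) (d : G))) =
      σ t (∑ s, w s * ((Multiplicative.toAdd (lam (a' s)) : ℚ) : L)) -
        σ t ((cocL c hc lam L).Phi (BY.map J) (BX.map J)) := by
    intro t
    rw [← map_sub, ← hcoc, add_sub_cancel_left]
  rw [Finset.sum_congr rfl fun t _ => h4 t, Finset.sum_sub_distrib, h3, sub_zero]

end Pool.Agent.H8.KZ
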