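import Pool.Agent.H8.KZ.Defs

/-!
# The characterisation of the assembly map in degree zero over the integers

`IsBoundary U c` : `c` is the boundary in `K₀(A)` of the class in `K₁(A[T, T⁻¹])` of the invertible
matrix `U`.  `IsAssembly R G α` : the homomorphism `α : ℤ × H1Km1 R G → K₀(R[G])` sends `(1, 0)` to the
class of `R[G]` and `(0, [F, [e], z])` to the boundary of `1 + e (z - 1)`.
-/

set_option autoImplicit false

open Matrix
open scoped LaurentPolynomial

universe u v w

namespace Pool.Agent.H8.KZ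

open Pool.Agent.H71.FJ (K0 K0.mk IdemMat MatEquiv)
open Pool.Agent.H95.KM (Km1 Km1.mk lau)
open Pool.Agent.H95.WH (FamSub FinSub)
open Pool.Agent.H71.DB (KG0 instKG0)

section

variable {A : Type u} [Ring A]

/-- The class of the free module of rank one. -/
def uno (A : Type u) [Ring A] : K0 A := K0.mk ⟨1, 1, one_mul 1⟩

/-- `D` bounds the degrees of `U` and `U⁻¹`, and `q` is an idempotent matrix equivalent to the matrix of
the operator `v ↦ t(v U) U⁻¹ - t_D(v)` on the window `[-D, D)`; `t` and `t_D` are the truncations to the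
degrees `≥ 0` and `≥ D`. -/
def IsWindow {n : ℕ} (U : (Matrix (Fin n) (Fin n) A[T;T⁻¹])ˣ) (D : ℕ) (q : IdemMat A) : Prop :=
  Bdd D (U : Matrix (Fin n) (Fin n) A[T;T⁻¹]) ∧
    Bdd D ((U⁻¹ : (Matrix (Fin n) (Fin n) A[T;T⁻¹])ˣ) : Matrix (Fin n) (Fin n) A[T;T⁻¹]) ∧
    MatEquiv q.mat (mt D D (eU U - tr D))

/-- `c` is the boundary of `U`: there are `D` and `q` as above, and `c = [q] - D n [A]` for all of them. -/
def IsBoundary {n : ℕ} (U : (Matrix (Fin n) (Fin n) A[T;T⁻¹])ˣ) (c : K0 A) : Prop :=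
  (∃ D q, IsWindow U D q) ∧ ∀ D q, IsWindow U D q → c = K0.mk q - (D * n) • uno A

/-- The constant `w - 1`. -/
noncomputable def subOne (w : A) : A[T;T⁻¹] := AddMonoidAlgebra.single 0 (w - 1)

/-- The class in `K₋₁(A)` of an idempotent matrix over `A[T, T⁻¹]`. -/
noncomputable def kcls (e : IdemMat A[T;T⁻¹]) : Km1 A := Km1.mk (K0.mk e)

/-- The matrix `1 + φ(e) (w - 1)`. -/
noncomputable def matE {B : Type v} [Ring B] (φ : B →+* A) (w : A) (e : IdemMat B[T;T⁻¹]) :
    Matrix (Fin e.n) (Fin e.n) A[T;T⁻¹] := 1 + e.mat.map fun b => lau φ b * subOne w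

/-- `c` is the boundary of `1 + φ(e) (w - 1)`. -/
def IsValue {B : Type v} [Ring B] (φ : B →+* A) (w : A) (e : IdemMat B[T;T⁻¹]) (c : K0 A) : Prop :=
  ∃ U : (Matrix (Fin e.n) (Fin e.n) A[T;T⁻¹])ˣ, U.val = matE φ w e ∧ IsBoundary U c

end

/-- The idempotent matrices over `R[H][T, T⁻¹]`. -/
def GIdem (R : Type u) [CommRing R] (H : Type v) [Group H] : Type (max u v) :=
  IdemMat (MonoidAlgebra R H)[T;T⁻¹]

variable (R : Type u) [CommRing R] (G : Type v) [Group G]

/-- The element `[F, [e], z]` of `H1Km1 R G`. -/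
noncomputable def symE (F : FamSub G FinSub) (e : GIdem R F.1)
    (z : Subgroup.centralizer (F.1 : Set G)) : H1Km1 R G :=
  QuotientAddGroup.mk (symOf R G F (kcls e) z)

/-- `c` is the boundary of `1 + e (z - 1)`. -/
def GIsValue (F : Subgroup G) (e : GIdem R F) (z : G) (c : KG0 R G) : Prop :=
  IsValue (MonoidAlgebra.mapDomainRingHom R F.subtype) (MonoidAlgebra.single z 1) e c

/-- `α` is the assembly map. -/
structure IsAssembly (α : Source0 R G →+ KG0 R G) : Prop where
  /-- the class of the free module of rank one -/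
  one : α (1, 0) = uno (MonoidAlgebra R G)
  /-- the symbols -/
  sym : ∀ (F : FamSub G FinSub) (e : GIdem R F.1) (z : Subgroup.centralizer (F.1 : Set G)),
    GIsValue R G F.1 e (z : G) (α (0, symE R G F e z))

/-- The homomorphism `ℚ ⊗ f` is injective. -/
def RatInjective {M : Type v} {N : Type w} [AddCommGroup M] [AddCommGroup N] (f : M →+ N) : Prop :=
  Function.Injective (LinearMap.lTensor ℚ f.toIntLinearMap)

end Pool.Agent.H8.KZ
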