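import Pool.Agent.H8.KZ.MainZ
import Pool.Agent.H8.KZ.StDefs

/-!
# The assembly map in degree zero is characterised by its values on the symbols
-/

set_option autoImplicit false

open Matrix
open scoped LaurentPolynomial

universe u v w

namespace Pool.Agent.H8.KZ

open Pool.Agent.H71.FJ (K0 K0.mk IdemMat MatEquiv K0.cls K0.toFin K0.toFin_equiv K0.mk_eq_cls
  K0.cls_congr K0.one)
open Pool.Agent.H95.KM (Km1 Km1.mk Km1.mk_surjective lau)
open Pool.Agent.H95.WH (FamSub FinSub K1.mk)
open Pool.Agent.H71.DB (KG0 instKG0 bass_mk bU comm_grp cent_comm bmat)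
open Pool.Agent.H71.DO (grpUnit)

section

variable {A : Type u} [Ring A]

theorem uno_eq_one : uno A = one A := by
  rw [uno, K0.mk_eq_cls, one]
  exact K0.cls_congr _ _ (Pool.Agent.H71.FJ.K0.matEquiv_one_one (Equiv.ofUnique (Fin 1) Unit))

theorem isBoundary_bd {n : ℕ} (U : (Matrix (Fin n) (Fin n) A[T;T⁻¹])ˣ) : IsBoundary U (bd U) := by
  constructor
  · obtain ⟨D, h, h'⟩ := exists_dU U
    exact ⟨D, K0.toFin (mt D D (eU U - tr D)) (mt_idem (eU_sub_idem h h') (eU_img h h')), h, h',
      K0.toFin_equiv _ _⟩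
  · rintro D q ⟨h, h', hq⟩
    rw [bd_eq h h', fcl_eq (eU_sub_idem h h') (eU_sup h h') (eU_img h h'), Fintype.card_fin,
      uno_eq_one, K0.mk_eq_cls]
    congr 1
    exact (K0.cls_congr q.idem (mt_idem (eU_sub_idem h h') (eU_img h h')) hq).symm

theorem IsBoundary.unique {n : ℕ} {U : (Matrix (Fin n) (Fin n) A[T;T⁻¹])ˣ} {c c' : K0 A}
    (h : IsBoundary U c) (h' : IsBoundary U c') : c = c' := by
  obtain ⟨⟨D, q, hq⟩, h1⟩ := h
  rw [h1 D q hq, h'.2 D q hq]

theorem isValue_pr {B : Type v} [Ring B] (φ : B →+* A) (z : Aˣ) (hz : ∀ b, φ b * z = z * φ b)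
    (e : IdemMat B[T;T⁻¹]) : IsValue φ (z : A) e (pr φ z hz (kcls e)) := by
  refine ⟨bU (lau φ) e.mat e.idem (cu z) (cu_comm φ z hz), ?_, ?_⟩
  · change bmat _ _ _ = _
    rw [bmat, matE]
    congr 2
    funext b
    rw [subOne, cu_val, AddMonoidAlgebra.single_sub]
    rfl
  · have h : pr φ z hz (kcls e) = bd (bU (lau φ) e.mat e.idem (cu z) (cu_comm φ z hz)) := by
      rw [kcls, pr_mk, bass_mk, bdK_mk]
    rw [h]
    exact isBoundary_bd _

end

variable (R : Type u) [CommRing R] (G : Type v) [Group G]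

theorem fullAssembly0_symE (F : FamSub G FinSub) (e : GIdem R F.1)
    (z : Subgroup.centralizer (F.1 : Set G)) :
    fullAssembly0 R G (0, symE R G F e z) = cpr R F z (kcls e) := by
  rw [fullAssembly0, AddMonoidHom.coprod_apply, map_zero, zero_add]
  change FreeAbelianGroup.lift (symVal R) (FreeAbelianGroup.of ⟨F, kcls e, z⟩) = _
  rw [FreeAbelianGroup.lift_apply_of]
  rfl

theorem isAssembly_fullAssembly0 : IsAssembly R G (fullAssembly0 R G) := by
  constructor
  · rw [fullAssembly0, AddMonoidHom.coprod_apply, map_zero, add_zero]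
    change (1 : ℤ) • oneG R G = _
    rw [one_zsmul, oneG]
    exact (one_eq.symm.trans uno_eq_one.symm)
  · intro F e z
    rw [fullAssembly0_symE]
    exact isValue_pr (MonoidAlgebra.mapDomainRingHom R F.1.subtype) (grpUnit R G (z : G))
      (comm_grp R F.1.subtype (z : G) (cent_comm z)) e

theorem IsAssembly.eq {α : Source0 R G →+ KG0 R G} (h : IsAssembly R G α) :
    α = fullAssembly0 R G := by
  have h0 := isAssembly_fullAssembly0 R G
  have h2 : ∀ w : H1Km1 R G, α (0, w) = fullAssembly0 R G (0, w) := by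
    intro w
    let f : H1Km1 R G →+ KG0 R G := α.comp (AddMonoidHom.inr ℤ (H1Km1 R G))
    let g : H1Km1 R G →+ KG0 R G := (fullAssembly0 R G).comp (AddMonoidHom.inr ℤ (H1Km1 R G))
    suffices H : f = g from DFunLike.congr_fun H w
    apply QuotientAddGroup.addMonoidHom_ext
    apply FreeAbelianGroup.lift_ext
    rintro ⟨F, x, z⟩
    obtain ⟨y, hy⟩ : ∃ y, Km1.mk y = x := Km1.mk_surjective x
    subst hy
    -- additivity in `y`
    let p : K0 (MonoidAlgebra R F.1)[T;T⁻¹] →+ H1Km1 R G := AddMonoidHom.mk'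
      (fun y => (QuotientAddGroup.mk (symOf R G F (Km1.mk y) z) : H1Km1 R G)) (by
        intro a b
        have hab : symX R G F (Km1.mk a) (Km1.mk b) z ∈ SymRel R G :=
          AddSubgroup.subset_closure (Or.inl (Or.inl ⟨F, _, _, z, rfl⟩))
        have h3 : (QuotientAddGroup.mk (symX R G F (Km1.mk a) (Km1.mk b) z) : H1Km1 R G) = 0 :=
          (QuotientAddGroup.eq_zero_iff _).2 hab
        have h4 : (QuotientAddGroup.mk (symX R G F (Km1.mk a) (Km1.mk b) z) : H1Km1 R G) =
            (QuotientAddGroup.mk (symOf R G F (Km1.mk a + Km1.mk b) z) : H1Km1 R G) -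
              ((QuotientAddGroup.mk (symOf R G F (Km1.mk a) z) : H1Km1 R G) +
                (QuotientAddGroup.mk (symOf R G F (Km1.mk b) z) : H1Km1 R G)) := rfl
        rw [h4, sub_eq_zero] at h3
        exact (congrArg (fun x : FKm1 R G F => (QuotientAddGroup.mk (symOf R G F x z) : H1Km1 R G))
          (map_add (Km1.mk : K0 (MonoidAlgebra R F.1)[T;T⁻¹] →+ _) a b)).trans h3)
    suffices H : f.comp p = g.comp p from DFunLike.congr_fun H y
    apply Pool.Agent.H71.FJ.K0.hom_ext
    intro e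
    change α (0, symE R G F e z) = fullAssembly0 R G (0, symE R G F e z)
    obtain ⟨U, hU, hb⟩ := h.sym F e z
    obtain ⟨V, hV, hc⟩ := h0.sym F e z
    have hUV : U = V := Units.ext (hU.trans hV.symm)
    subst hUV
    exact hb.unique hc
  apply AddMonoidHom.ext
  rintro ⟨k, w⟩
  have e1 : ((k, w) : Source0 R G) = k • ((1, 0) : Source0 R G) + (0, w) := by
    rw [Prod.smul_mk, Prod.mk_add_mk, smul_zero, zero_add, add_zero, smul_eq_mul, mul_one]
  rw [e1, map_add, map_add, map_zsmul, map_zsmul, h.one, h0.one, h2]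

end Pool.Agent.H8.KZ
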