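import Pool.Agent.H95.WH.Shift
import Pool.Agent.H71.DB.Coc

/-!
# KZ, module TwiC: the group `G^N ⋊ ℤ/N` and its cocycle

`pth γ n = γ(0) γ(1) ⋯ γ(n - 1)` (`cyc γ = pth γ N`), `GG N G = G^N ⋊ ℤ/N` with
`t^i γ t^(-i) = sh i γ`.  For a cocycle `l` of `G` the function
`L'(δ t^j, γ t^i) = l.L (δ(0) (γ(0) ⋯ γ(j - 1))⁻¹) (cyc γ)` if `i = 1` and `0` otherwise is a cocycle of
`GG N G`.

PROOFS.
* `pth_add`: `List.range` splitting, induction on `m`.
* `pth_succ`, `pth_zero`: `List.range_succ`.
* `pth_add_card`: `pth_add` and `sh (N : ZMod N) γ = γ`; for the two orders: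
  `pth γ (n + N) = pth γ N * pth (sh N γ) n = cyc γ * pth γ n`.
* `pth_conj`: for `γ' = δ * sh j γ * (sh 1 δ)⁻¹`: `pth γ' n = δ 0 * pth (sh j γ) n * (δ n)⁻¹`, induction
  on `n`.
* `cyc_twi`: from `pth_conj` with `n = N`: `cyc γ' = δ 0 * pth (sh j γ) N * (δ 0)⁻¹` and
  `pth γ j.val * pth (sh j γ) N = pth γ (j.val + N) = cyc γ * pth γ j.val` (`pth_add`,
  `(j.val : ZMod N) = j`).
* `twL_mul`: let `h = δ t^j`, `h' = δ' t^j'`, `x = γ t` (if `x.right ≠ ofAdd 1` all terms vanish: the
  right component of `h x h⁻¹` is that of `x`).  `(h' h).left = δ' * sh j' δ`,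
  `(h x h⁻¹).left = δ * sh j γ * (sh 1 δ)⁻¹ =: γ'`.  With `g = δ 0 * (pth γ j.val)⁻¹`,
  `g' = δ' 0 * (pth γ' j'.val)⁻¹` one has by `pth_conj`, `pth_add`
  `g' g = δ' 0 * δ j' * (pth γ (j.val + j'.val))⁻¹`, and `(h' h)`-element is
  `δ' 0 * δ j' * (pth γ (j + j').val)⁻¹`; `(j + j').val` is `j.val + j'.val` or `j.val + j'.val - N`
  (`ZMod.val_add`), so they differ by a factor `(cyc γ)^{±1}` on the right at most
  (`pth_add_card`).  Now `l.mul`, `cyc_twi` (`g (cyc γ) g⁻¹ = cyc γ'`) and `L_mul_self`: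
  `l.L (g * y) y = l.L g y`, `l.L (g * y⁻¹) y = l.L g y` (`l.mul`, `l.self`, `l.one`).
* `twL_self`: `x = γ t`: `γ 0 * (pth γ (1 : ZMod N).val)⁻¹` is `1` if `N > 1`, and `cyc γ` if `N = 1`.
-/

set_option autoImplicit false

open Matrix

universe u v

namespace Pool.Agent.H8.KZ

open Pool.Agent.H95.WH (sh sh_apply sh_sh sh_zero cyc)
open Pool.Agent.H71.DB (Coc)

section Path

variable {N : ℕ} {G : Type v} [Group G]

/-- The product `γ(0) γ(1) ⋯ γ(n - 1)`. -/
def pth (γ : ZMod N → G) (n : ℕ) : G := ((List.range n).map fun s : ℕ => γ (s : ZMod N)).prod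

theorem cyc_eq_pth (γ : ZMod N → G) : cyc γ = pth γ N := rfl

theorem pth_zero (γ : ZMod N → G) : pth γ 0 = 1 := rfl

theorem pth_succ (γ : ZMod N → G) (n : ℕ) : pth γ (n + 1) = pth γ n * γ (n : ZMod N) := by
  rw [pth, pth, List.range_succ, List.map_append, List.prod_append, List.map_singleton,
    List.prod_singleton]

theorem pth_add (γ : ZMod N → G) (n m : ℕ) :
    pth γ (n + m) = pth γ n * pth (sh (n : ZMod N) γ) m := by
  induction m with
  | zero => rw [Nat.add_zero, pth_zero, mul_one]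
  | succ m ih =>
    rw [← Nat.add_assoc, pth_succ, ih, pth_succ, sh_apply, mul_assoc, Nat.cast_add,
      add_comm (n : ZMod N)]

theorem pth_add_card (γ : ZMod N → G) (n : ℕ) : pth γ (n + N) = cyc γ * pth γ n := by
  rw [Nat.add_comm n N, pth_add, ZMod.natCast_self, sh_zero, cyc_eq_pth]

theorem pth_conj (γ δ : ZMod N → G) (j : ZMod N) (n : ℕ) :
    pth (δ * sh j γ * (sh 1 δ)⁻¹) n = δ 0 * pth (sh j γ) n * (δ (n : ZMod N))⁻¹ := by
  induction n with
  | zero => rw [pth_zero, pth_zero, mul_one, Nat.cast_zero, mul_inv_cancel]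
  | succ n ih =>
    rw [pth_succ, ih, pth_succ]
    have e : (δ * sh j γ * (sh 1 δ)⁻¹) (n : ZMod N) =
        δ (n : ZMod N) * sh j γ (n : ZMod N) * (δ ((n + 1 : ℕ) : ZMod N))⁻¹ := by
      rw [Pi.mul_apply, Pi.mul_apply, Pi.inv_apply, sh_apply 1 δ, Nat.cast_succ]
    rw [e]
    group

theorem cyc_twi [NeZero N] (γ δ : ZMod N → G) (j : ZMod N) :
    cyc (δ * sh j γ * (sh 1 δ)⁻¹) =
      (δ 0 * (pth γ j.val)⁻¹) * cyc γ * (δ 0 * (pth γ j.val)⁻¹)⁻¹ := by
  have e1 : pth γ j.val * pth (sh j γ) N = cyc γ * pth γ j.val := by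
    have e2 := pth_add γ j.val N
    rw [ZMod.natCast_zmod_val, pth_add_card] at e2
    exact e2.symm
  have e3 : pth (sh j γ) N = (pth γ j.val)⁻¹ * (cyc γ * pth γ j.val) := by
    rw [← e1, inv_mul_cancel_left]
  rw [cyc_eq_pth (δ * sh j γ * (sh 1 δ)⁻¹), pth_conj, ZMod.natCast_self, e3]
  group

end Path

section Grp

variable (N : ℕ) (G : Type v) [Group G]

/-- The shift action of `ℤ/N` on `G^N`. -/
def shA : Multiplicative (ZMod N) →* MulAut (ZMod N → G) where
  toFun i :=
    { toFun := sh i.toAdd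
      invFun := sh (-i.toAdd)
      left_inv := Pool.Agent.H95.WH.sh_neg_sh _
      right_inv := Pool.Agent.H95.WH.sh_sh_neg _
      map_mul' := fun _ _ => rfl }
  map_one' := by
    apply MulEquiv.ext
    intro γ
    exact sh_zero γ
  map_mul' i j := by
    apply MulEquiv.ext
    intro γ
    exact (sh_sh i.toAdd j.toAdd γ).symm

/-- The group `G^N ⋊ ℤ/N`. -/
abbrev GG : Type v := (ZMod N → G) ⋊[shA N G] Multiplicative (ZMod N)

variable {N G}

theorem shA_apply (i : Multiplicative (ZMod N)) (γ : ZMod N → G) :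
    shA N G i γ = sh i.toAdd γ := rfl

private theorem twic_right (f y : GG N G) : (f * y * f⁻¹).right = y.right := by
  rw [SemidirectProduct.mul_right, SemidirectProduct.mul_right, SemidirectProduct.inv_right,
    mul_comm f.right, mul_assoc, mul_inv_cancel, mul_one]

private theorem twic_left (f y : GG N G) (hy : y.right = Multiplicative.ofAdd 1) :
    (f * y * f⁻¹).left =
      f.left * sh (Multiplicative.toAdd f.right) y.left * (sh 1 f.left)⁻¹ := by
  rw [SemidirectProduct.mul_left, SemidirectProduct.mul_left, SemidirectProduct.inv_left,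
    SemidirectProduct.mul_right, hy, shA_apply, shA_apply, shA_apply]
  congr 1
  change sh _ (sh _ (f.left⁻¹)) = sh 1 (f.left⁻¹)
  rw [sh_sh]
  congr 1
  rw [toAdd_mul, toAdd_ofAdd, toAdd_inv]
  abel

end Grp

section Coc

variable {N : ℕ} [NeZero N] {G : Type v} [Group G] {S : Type u} [CommRing S]

theorem L_mul_self (l : Coc G S) (g y : G) : l.L (g * y) y = l.L g y := by
  rw [l.mul y g y, l.self, add_zero, mul_inv_cancel_right]

theorem L_mul_inv_self (l : Coc G S) (g y : G) : l.L (g * y⁻¹) y = l.L g y := by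
  rw [← L_mul_self l (g * y⁻¹) y, inv_mul_cancel_right]

open Classical in
/-- The values of the cocycle. -/
noncomputable def twL (l : Coc G S) (h x : GG N G) : S :=
  if x.right = Multiplicative.ofAdd 1 then
    l.L (h.left 0 * (pth x.left (Multiplicative.toAdd h.right).val)⁻¹) (cyc x.left) else 0

theorem twL_mul (l : Coc G S) (f f' y : GG N G) :
    twL l (f' * f) y = twL l f' (f * y * f⁻¹) + twL l f y := by
  by_cases hy : y.right = Multiplicative.ofAdd 1
  · unfold twL
    rw [if_pos hy, if_pos ((twic_right f y).trans hy), if_pos hy, twic_left f y hy, cyc_twi,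
      pth_conj, ZMod.natCast_zmod_val, ← l.mul]
    have e1 : (f' * f).left 0 = f'.left 0 * f.left (Multiplicative.toAdd f'.right) := by
      rw [SemidirectProduct.mul_left, shA_apply, Pi.mul_apply, sh_apply, zero_add]
    have e2 : Multiplicative.toAdd (f' * f).right =
        Multiplicative.toAdd f.right + Multiplicative.toAdd f'.right := by
      rw [SemidirectProduct.mul_right, toAdd_mul, add_comm]
    rw [e1, e2]
    generalize Multiplicative.toAdd f.right = j
    generalize Multiplicative.toAdd f'.right = j'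
    generalize f.left = δ
    generalize f'.left = δ'
    generalize y.left = γ
    have e3 : pth γ (j.val + j'.val) = pth γ j.val * pth (sh j γ) j'.val := by
      rw [pth_add, ZMod.natCast_zmod_val]
    have e4 : δ' 0 * (δ 0 * pth (sh j γ) j'.val * (δ j')⁻¹)⁻¹ * (δ 0 * (pth γ j.val)⁻¹) =
        δ' 0 * δ j' * (pth γ (j.val + j'.val))⁻¹ := by
      rw [e3]
      group
    rw [e4]
    rcases lt_or_ge (j.val + j'.val) N with h | h
    · rw [ZMod.val_add_of_lt h]
    · rw [ZMod.val_add_val_of_le h, pth_add_card, _root_.mul_inv_rev, ← mul_assoc, L_mul_inv_self]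
  · unfold twL
    rw [if_neg hy, if_neg fun h => hy ((twic_right f y).symm.trans h), if_neg hy, add_zero]

theorem twL_self (l : Coc G S) (y : GG N G) : twL l y y = 0 := by
  unfold twL
  split_ifs with hy
  · rw [hy, toAdd_ofAdd]
    by_cases hN : N = 1
    · subst hN
      have e1 : (1 : ZMod 1).val = 0 := rfl
      have e2 : cyc y.left = y.left 0 := by
        rw [cyc_eq_pth, pth_succ, pth_zero, one_mul, Nat.cast_zero]
      rw [e1, pth_zero, inv_one, mul_one, e2]
      exact l.self _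
    · have hN1 : Fact (1 < N) := ⟨by
        have := NeZero.ne N
        omega⟩
      rw [ZMod.val_one, pth_succ, pth_zero, one_mul, Nat.cast_zero, mul_inv_cancel]
      exact l.one _
  · rfl

/-- The cocycle of `G^N ⋊ ℤ/N`. -/
noncomputable def twC (N : ℕ) [NeZero N] (l : Coc G S) : Coc (GG N G) S where
  L := twL l
  mul := twL_mul l
  self := twL_self l

theorem twC_L (l : Coc G S) (h x : GG N G) : (twC N l).L h x = twL l h x := rfl

end Coc

end Pool.Agent.H8.KZ
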